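import Pool.Agent.X253.CF.Asy

/-!
# Project CF: the sum over the sets `T` of the primes with exponent two
-/

set_option autoImplicit false

open scoped Classical
open Finset Filter

namespace Pool.Agent.X253.CF

open Pool.Agent.Y692.QS (Ei w nr toC)
open Pool.Agent.Y715.T.RecG (Pq)
open Pool.Agent.Y699.E (nrm QB nrm_cast)
open Pool.Agent.Y703.XK (S_C9)
open Pool.Agent.Y703.XL (cr cr_pos cr_le)

/-- the norm of a set -/
noncomputable def nm (T : Finset Ei) : ℕ := ∏ π ∈ T, nrm π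

/-- the excluded residue -/
noncomputable def bT (T : Finset Ei) : ℕ := (nm T) ^ 2 % 9

/-- the pairs: `p.1` is the set of the primes with exponent two, `p.2` the set of all the primes -/
noncomputable def PP (Y : ℕ) : Finset (Finset Ei × Finset Ei) :=
  (SS Y ×ˢ SS Y).filter fun p => p.1 ⊆ p.2 ∧ nm p.1 * nm p.2 ≤ Y ∧ (nm p.1 * nm p.2) % 9 ≠ 1

theorem nrm_mod {π : Ei} (h : Pq π) : nrm π % 3 = 1 := by
  obtain ⟨q, hq⟩ := h.three
  have h1 : π = 1 + (q + q + q) := by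
    have h2 : (3 : Ei) * q = q + q + q := by ring
    rw [← h2, ← hq]
    ring
  have h2 : (nrm π : ℤ) = 1 + 3 * (2 * q.re - q.im + 3 * (q.re ^ 2 - q.re * q.im + q.im ^ 2)) := by
    rw [nrm_cast, h1]
    unfold nr
    have e1 : (1 + (q + q + q) : Ei).re = 1 + (q.re + q.re + q.re) := rfl
    have e2 : (1 + (q + q + q) : Ei).im = 0 + (q.im + q.im + q.im) := rfl
    rw [e1, e2]
    ring
  omega

theorem nm_mod {T : Finset Ei} (h : ∀ π ∈ T, Pq π) : nm T % 3 = 1 := by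
  unfold nm
  induction T using Finset.induction_on with
  | empty => rfl
  | insert a s ha ih =>
    rw [Finset.prod_insert ha, Nat.mul_mod, nrm_mod (h a (Finset.mem_insert_self _ _)),
      ih fun π hπ => h π (Finset.mem_insert_of_mem hπ)]

theorem nm_pos {T : Finset Ei} (h : ∀ π ∈ T, Pq π) : 1 ≤ nm T := by
  have := nm_mod h
  omega

theorem mod_iff {n s : ℕ} (h : n % 3 = 1) : (n * s) % 9 = 1 ↔ s % 9 = n ^ 2 % 9 := by
  have h1 : (n * s) % 9 = ((n % 9) * (s % 9)) % 9 := Nat.mul_mod _ _ _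
  have h2 : n ^ 2 % 9 = ((n % 9) * (n % 9)) % 9 := by rw [pow_two, Nat.mul_mod]
  have h3 : n % 9 = 1 ∨ n % 9 = 4 ∨ n % 9 = 7 := by omega
  rw [h1, h2]
  have h4 : s % 9 < 9 := Nat.mod_lt _ (by norm_num)
  generalize s % 9 = t at *
  rcases h3 with h3 | h3 | h3 <;> rw [h3] <;> interval_cases t <;> decide

theorem nm_mono {T S : Finset Ei} (hS : ∀ π ∈ S, Pq π) (h : T ⊆ S) : nm T ≤ nm S :=
  Finset.prod_le_prod_of_subset_of_one_le' h fun π hπ _ => K.nrm_one_le (hS π hπ)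

theorem nm_sdiff {T S : Finset Ei} (h : T ⊆ S) : nm S = nm T * nm (S \ T) := by
  unfold nm
  rw [← Finset.prod_sdiff h, mul_comm]

/-- **the sum over `T`** -/
theorem sum_T (Y : ℕ) (Q : Finset Ei → Finset Ei → Prop) :
    ((PP Y).filter fun p => Q p.1 p.2).card =
      ∑ T ∈ SS Y, ((TS T (bT T) (Y / nm T)).filter (Q T)).card := by
  rw [Finset.card_eq_sum_card_fiberwise (f := Prod.fst) (t := SS Y) (by
    intro p hp
    rw [Finset.mem_coe, Finset.mem_filter] at hp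
    unfold PP at hp
    rw [Finset.mem_filter, Finset.mem_product] at hp
    exact hp.1.1.1)]
  refine Finset.sum_congr rfl fun T hT => ?_
  have hT' := K.mem_SS.1 hT
  have hTp := nm_pos hT'.1.1
  refine Finset.card_bij (fun p _ => p.2) ?_ ?_ ?_
  · intro p hp
    rw [Finset.mem_filter, Finset.mem_filter] at hp
    obtain ⟨⟨hp, hQ⟩, rfl⟩ := hp
    unfold PP at hp
    rw [Finset.mem_filter, Finset.mem_product] at hp
    obtain ⟨⟨-, h1⟩, h2, h3, h4⟩ := hp
    rw [Finset.mem_filter]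
    unfold TS
    rw [Finset.mem_filter]
    refine ⟨⟨K.mem_SS.2 ⟨(K.mem_SS.1 h1).1, ?_⟩, h2, fun h => h4 ?_⟩, hQ⟩
    · rw [Nat.le_div_iff_mul_le hTp, mul_comm]
      exact h3
    · exact (mod_iff (nm_mod hT'.1.1)).2 h
  · intro p hp p' hp' h
    rw [Finset.mem_filter] at hp hp'
    exact Prod.ext (hp.2.trans hp'.2.symm) h
  · intro S hS
    rw [Finset.mem_filter] at hS
    obtain ⟨hS, hQ⟩ := hS
    unfold TS at hS
    rw [Finset.mem_filter] at hS
    obtain ⟨h1, h2, h3⟩ := hS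
    have h1' := K.mem_SS.1 h1
    refine ⟨(T, S), ?_, rfl⟩
    rw [Finset.mem_filter, Finset.mem_filter]
    refine ⟨⟨?_, hQ⟩, rfl⟩
    unfold PP
    rw [Finset.mem_filter, Finset.mem_product]
    refine ⟨⟨hT, K.mem_SS.2 ⟨h1'.1, h1'.2.trans (Nat.div_le_self _ _)⟩⟩, h2, ?_, fun h => h3 ?_⟩
    · have := h1'.2
      rw [Nat.le_div_iff_mul_le hTp, mul_comm] at this
      exact this
    · exact (mod_iff (nm_mod hT'.1.1)).1 h

/-- the number of the sets containing `T` -/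
theorem TS_card {C : ℝ} (hC : CntP C) {T : Finset Ei} (hT : ∀ π ∈ T, Pq π) (b Y : ℕ) :
    ((TS T b (Y / nm T)).card : ℝ) ≤ C * (Y / (nm T : ℝ) ^ 2) := by
  have hTp := nm_pos hT
  have hTp' : (0 : ℝ) < nm T := by exact_mod_cast hTp
  have hC1 := hC.one
  have h1 : (TS T b (Y / nm T)).card ≤ (SS (Y / nm T / nm T)).card := by
    refine Finset.card_le_card_of_injOn (fun S => S \ T) ?_ ?_
    · intro S hS
      rw [Finset.mem_coe] at hS ⊢
      unfold TS at hS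
      rw [Finset.mem_filter] at hS
      obtain ⟨h1, h2, -⟩ := hS
      have h1' := K.mem_SS.1 h1
      refine K.mem_SS.2 ⟨⟨fun π hπ => h1'.1.1 π (Finset.sdiff_subset hπ), trivial⟩, ?_⟩
      rw [Nat.le_div_iff_mul_le hTp, mul_comm]
      have h3 := nm_sdiff h2
      have h4 : nm S ≤ Y / nm T := h1'.2
      rw [h3] at h4
      exact h4
    · intro S hS S' hS' h
      rw [Finset.mem_coe] at hS hS'
      unfold TS at hS hS'
      rw [Finset.mem_filter] at hS hS'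
      have h' : S \ T = S' \ T := h
      rw [← Finset.sdiff_union_of_subset hS.2.1, h', Finset.sdiff_union_of_subset hS'.2.1]
  have h2 : ((Y / nm T / nm T : ℕ) : ℝ) ≤ Y / (nm T : ℝ) ^ 2 := by
    have g1 : ((Y / nm T / nm T : ℕ) : ℝ) ≤ ((Y / nm T : ℕ) : ℝ) / nm T := Nat.cast_div_le
    have g2 : ((Y / nm T : ℕ) : ℝ) ≤ (Y : ℝ) / nm T := Nat.cast_div_le
    calc ((Y / nm T / nm T : ℕ) : ℝ) ≤ ((Y / nm T : ℕ) : ℝ) / nm T := g1
      _ ≤ ((Y : ℝ) / nm T) / nm T := by gcongr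
      _ = Y / (nm T : ℝ) ^ 2 := by rw [div_div, pow_two]
  rcases Nat.eq_zero_or_pos (Y / nm T / nm T) with h0 | h0
  · have h3 : SS (Y / nm T / nm T) = ∅ := by
      rw [h0]
      refine Finset.eq_empty_of_forall_notMem fun S hS => ?_
      have h4 := K.mem_SS.1 hS
      have h5 := nm_pos h4.1.1
      have h6 : nm S ≤ 0 := h4.2
      omega
    rw [h3, Finset.card_empty] at h1
    have h4 : ((TS T b (Y / nm T)).card : ℝ) = 0 := by
      have : (TS T b (Y / nm T)).card = 0 := by omega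
      rw [this, Nat.cast_zero]
    rw [h4]
    positivity
  · have h3 := hC.all _ h0
    calc ((TS T b (Y / nm T)).card : ℝ) ≤ ((SS (Y / nm T / nm T)).card : ℝ) := by
          exact_mod_cast h1
      _ ≤ C * ((Y / nm T / nm T : ℕ) : ℝ) := h3
      _ ≤ _ := mul_le_mul_of_nonneg_left h2 (by linarith)

/-- the tail of the sum of the inverse squares of the norms -/
theorem tail {C : ℝ} (hC : CntP C) (m Y : ℕ) :
    ∑ T ∈ (SS Y).filter (fun T => 2 ^ m ≤ nm T), (1 : ℝ) / (nm T : ℝ) ^ 2 ≤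
      4 * C * (1 / 2) ^ m := by
  have hC1 := hC.one
  obtain ⟨M, hM⟩ : ∃ M : ℕ, M = Nat.log 2 Y + 1 := ⟨_, rfl⟩
  have hmaps : ∀ T ∈ (SS Y).filter (fun T => 2 ^ m ≤ nm T),
      Nat.log 2 (nm T) ∈ Finset.Ico m (max M (m + 1)) := by
    intro T hT
    rw [Finset.mem_filter] at hT
    have h1 := K.mem_SS.1 hT.1
    have h2 := nm_pos h1.1.1
    have h3 : nm T ≤ Y := h1.2
    rw [Finset.mem_Ico]
    constructor
    · exact (Nat.le_log_iff_pow_le (by norm_num) (by omega)).2 hT.2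
    · refine lt_max_of_lt_left ?_
      rw [hM]
      have := Nat.log_mono_right (b := 2) h3
      omega
  rw [← Finset.sum_fiberwise_of_maps_to hmaps]
  have hin : ∀ k ∈ Finset.Ico m (max M (m + 1)),
      ∑ T ∈ ((SS Y).filter (fun T => 2 ^ m ≤ nm T)).filter (fun T => Nat.log 2 (nm T) = k),
        (1 : ℝ) / (nm T : ℝ) ^ 2 ≤ 2 * C * (1 / 2) ^ k := by
    intro k _
    have h1 : ∀ T ∈ ((SS Y).filter (fun T => 2 ^ m ≤ nm T)).filter
        (fun T => Nat.log 2 (nm T) = k), (1 : ℝ) / (nm T : ℝ) ^ 2 ≤ 1 / (2 ^ k) ^ 2 := by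
      intro T hT
      rw [Finset.mem_filter, Finset.mem_filter] at hT
      have h2 := nm_pos (K.mem_SS.1 hT.1.1).1.1
      have h3 : 2 ^ k ≤ nm T := by
        rw [← hT.2]
        exact Nat.pow_log_le_self 2 (by omega)
      have h4 : (2 : ℝ) ^ k ≤ nm T := by exact_mod_cast h3
      gcongr
    have h2 : (((SS Y).filter (fun T => 2 ^ m ≤ nm T)).filter
        (fun T => Nat.log 2 (nm T) = k)).card ≤ (SS (2 ^ (k + 1))).card := by
      refine Finset.card_le_card fun T hT => ?_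
      rw [Finset.mem_filter, Finset.mem_filter] at hT
      have h3 := K.mem_SS.1 hT.1.1
      refine K.mem_SS.2 ⟨h3.1, ?_⟩
      have h4 := Nat.lt_pow_succ_log_self (b := 2) (by norm_num) (nm T)
      rw [hT.2] at h4
      exact h4.le
    have h3 := hC.all (2 ^ (k + 1)) Nat.one_le_two_pow
    have h4 : ((((SS Y).filter (fun T => 2 ^ m ≤ nm T)).filter
        (fun T => Nat.log 2 (nm T) = k)).card : ℝ) ≤ C * 2 ^ (k + 1) := by
      refine le_trans (by exact_mod_cast h2) (h3.trans ?_)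
      push_cast
      exact le_rfl
    calc _ ≤ ∑ T ∈ ((SS Y).filter (fun T => 2 ^ m ≤ nm T)).filter
          (fun T => Nat.log 2 (nm T) = k), (1 : ℝ) / (2 ^ k) ^ 2 := Finset.sum_le_sum h1
      _ = ((((SS Y).filter (fun T => 2 ^ m ≤ nm T)).filter
          (fun T => Nat.log 2 (nm T) = k)).card : ℝ) * (1 / (2 ^ k) ^ 2) := by
          rw [Finset.sum_const, nsmul_eq_mul]
      _ ≤ C * 2 ^ (k + 1) * (1 / (2 ^ k) ^ 2) := by gcongr
      _ = 2 * C * (1 / 2) ^ k := by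
          rw [one_div_pow, pow_succ]
          field_simp
  refine (Finset.sum_le_sum hin).trans ?_
  rw [← Finset.mul_sum]
  have h5 : ∑ k ∈ Finset.Ico m (max M (m + 1)), (1 / 2 : ℝ) ^ k ≤ (1 / 2) ^ m / (1 - 1 / 2) :=
    geom_sum_Ico_le_of_lt_one (by norm_num) (by norm_num)
  calc 2 * C * ∑ k ∈ Finset.Ico m (max M (m + 1)), (1 / 2 : ℝ) ^ k ≤
        2 * C * ((1 / 2) ^ m / (1 - 1 / 2)) := by gcongr
    _ = 4 * C * (1 / 2) ^ m := by ring

/-- **the law for the pairs**, with an error term -/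
theorem t_PP {G : Finset Ei → Finset Ei → Prop} {c : ℝ} (hC : S_CNT) (hc0 : 0 ≤ c) (hc1 : c ≤ 1)
    (hTS : ∀ (T : Finset Ei) (b : ℕ) (ε : ℝ), 0 < ε → ∃ X₀ : ℕ, ∀ X : ℕ, X₀ ≤ X →
      |(((TS T b X).filter (G T)).card : ℝ) - c * ((TS T b X).card : ℝ)| ≤ ε * X)
    {ε : ℝ} (hε : 0 < ε) : ∀ᶠ Y : ℕ in atTop,
      |(((PP Y).filter fun p => G p.1 p.2).card : ℝ) - c * ((PP Y).card : ℝ)| ≤ ε * Y := by
  obtain ⟨C, hC⟩ := hC
  have hC1 := hC.one
  have hCp : 0 < C := by linarith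
  obtain ⟨m, hm⟩ := exists_pow_lt_of_lt_one (show (0 : ℝ) < ε / (8 * C ^ 2) by positivity)
    (show (1 / 2 : ℝ) < 1 by norm_num)
  obtain ⟨N, hN⟩ : ∃ N : ℝ, N = ((SS (2 ^ m)).card : ℝ) + 1 := ⟨_, rfl⟩
  have hNp : 0 < N := by rw [hN]; positivity
  have hev : ∀ᶠ Y : ℕ in atTop, ∀ T ∈ SS (2 ^ m),
      |(((TS T (bT T) (Y / nm T)).filter (G T)).card : ℝ) -
        c * ((TS T (bT T) (Y / nm T)).card : ℝ)| ≤ ε / (2 * N) * Y := by
    rw [Filter.eventually_all_finset]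
    intro T hT
    obtain ⟨X₀, hX₀⟩ := hTS T (bT T) (ε / (2 * N)) (by positivity)
    filter_upwards [eventually_ge_atTop (X₀ * nm T)] with Y hY
    have hTp := nm_pos (K.mem_SS.1 hT).1.1
    have h1 : X₀ ≤ Y / nm T := (Nat.le_div_iff_mul_le hTp).2 hY
    refine (hX₀ _ h1).trans ?_
    have h2 : ((Y / nm T : ℕ) : ℝ) ≤ Y := by exact_mod_cast Nat.div_le_self _ _
    exact mul_le_mul_of_nonneg_left h2 (by positivity)
  filter_upwards [hev] with Y hY
  have e1 := sum_T Y G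
  have e2 := sum_T Y (fun _ _ => True)
  simp only [Finset.filter_true] at e2
  rw [e1, e2]
  push_cast
  rw [Finset.mul_sum, ← Finset.sum_sub_distrib]
  refine (Finset.abs_sum_le_sum_abs _ _).trans ?_
  rw [← Finset.sum_filter_add_sum_filter_not (SS Y) (fun T => 2 ^ m ≤ nm T)]
  have hbig : ∑ T ∈ (SS Y).filter (fun T => 2 ^ m ≤ nm T),
      |(((TS T (bT T) (Y / nm T)).filter (G T)).card : ℝ) -
        c * ((TS T (bT T) (Y / nm T)).card : ℝ)| ≤ ε / 2 * Y := by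
    have h1 : ∀ T ∈ (SS Y).filter (fun T => 2 ^ m ≤ nm T),
        |(((TS T (bT T) (Y / nm T)).filter (G T)).card : ℝ) -
          c * ((TS T (bT T) (Y / nm T)).card : ℝ)| ≤ C * Y * (1 / (nm T : ℝ) ^ 2) := by
      intro T hT
      have hT' := (K.mem_SS.1 (Finset.mem_filter.1 hT).1).1.1
      have h2 : (((TS T (bT T) (Y / nm T)).filter (G T)).card : ℝ) ≤
          ((TS T (bT T) (Y / nm T)).card : ℝ) := by
        exact_mod_cast card_filter_le _ _
      have h3 : (0 : ℝ) ≤ ((TS T (bT T) (Y / nm T)).card : ℝ) := Nat.cast_nonneg _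
      refine (Pool.Agent.Y703.CX.abs_sub_le_of (Nat.cast_nonneg _) h2 (mul_nonneg hc0 h3)
        (mul_le_of_le_one_left h3 hc1)).trans ?_
      refine (TS_card hC hT' (bT T) Y).trans (le_of_eq ?_)
      ring
    refine (Finset.sum_le_sum h1).trans ?_
    rw [← Finset.mul_sum]
    have h2 := tail hC m Y
    have hY0 : (0 : ℝ) ≤ Y := Nat.cast_nonneg _
    calc C * Y * ∑ T ∈ (SS Y).filter (fun T => 2 ^ m ≤ nm T), 1 / (nm T : ℝ) ^ 2 ≤
          C * Y * (4 * C * (1 / 2) ^ m) := by gcongr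
      _ ≤ C * Y * (4 * C * (ε / (8 * C ^ 2))) := by gcongr
      _ = ε / 2 * Y := by field_simp; ring
  have hsmall : ∑ T ∈ (SS Y).filter (fun T => ¬ 2 ^ m ≤ nm T),
      |(((TS T (bT T) (Y / nm T)).filter (G T)).card : ℝ) -
        c * ((TS T (bT T) (Y / nm T)).card : ℝ)| ≤ ε / 2 * Y := by
    have hsub : (SS Y).filter (fun T => ¬ 2 ^ m ≤ nm T) ⊆ SS (2 ^ m) := by
      intro T hT
      rw [Finset.mem_filter] at hT
      refine K.mem_SS.2 ⟨(K.mem_SS.1 hT.1).1, ?_⟩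
      exact (not_le.1 hT.2).le
    have hY0 : (0 : ℝ) ≤ Y := Nat.cast_nonneg _
    refine (Finset.sum_le_sum fun T hT => hY T (hsub hT)).trans ?_
    rw [Finset.sum_const, nsmul_eq_mul]
    have h2 : (((SS Y).filter (fun T => ¬ 2 ^ m ≤ nm T)).card : ℝ) ≤ N := by
      rw [hN]
      have : (((SS Y).filter (fun T => ¬ 2 ^ m ≤ nm T)).card : ℝ) ≤ ((SS (2 ^ m)).card : ℝ) := by
        exact_mod_cast card_le_card hsub
      linarith
    calc (((SS Y).filter (fun T => ¬ 2 ^ m ≤ nm T)).card : ℝ) * (ε / (2 * N) * Y) ≤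
          N * (ε / (2 * N) * Y) := mul_le_mul_of_nonneg_right h2 (by positivity)
      _ = ε / 2 * Y := by field_simp
  linarith

/-- the number of the pairs -/
theorem PP_low : ∃ (c : ℝ) (X₀ : ℕ), 0 < c ∧ ∀ X : ℕ, X₀ ≤ X → c * X ≤ ((PP X).card : ℝ) := by
  obtain ⟨c, X₀, hc, h⟩ := Pool.Agent.Y550.XK.NS.t_LOW
  refine ⟨c, X₀, hc, fun X hX => (h X hX).trans ?_⟩
  have h1 : (Pool.Agent.Y703.XK.SS X).card ≤ (PP X).card := by
    refine Finset.card_le_card_of_injOn (fun S => (∅, S)) ?_ ?_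
    · intro S hS
      rw [Finset.mem_coe] at hS ⊢
      unfold Pool.Agent.Y703.XK.SS at hS
      rw [Finset.mem_filter] at hS
      obtain ⟨-, ⟨h2, h3⟩, h4⟩ := hS
      unfold PP
      have e0 : nm ∅ = 1 := Finset.prod_empty
      rw [Finset.mem_filter, Finset.mem_product]
      refine ⟨⟨K.mem_SS.2 ⟨⟨fun π hπ => absurd hπ (Finset.notMem_empty π), trivial⟩, ?_⟩,
        K.mem_SS.2 ⟨⟨h2, trivial⟩, h4⟩⟩, Finset.empty_subset _, ?_, ?_⟩
      · rw [Finset.prod_empty]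
        exact (nm_pos h2).trans h4
      · show nm ∅ * nm S ≤ X
        rw [e0, one_mul]
        exact h4
      · show (nm ∅ * nm S) % 9 ≠ 1
        rw [e0, one_mul]
        exact h3
    · intro S _ S' _ h
      exact (Prod.mk.inj h).2
  exact_mod_cast h1

/-- **the law for the pairs** -/
theorem t_LIM {G : Finset Ei → Finset Ei → Prop} {c : ℝ} (hC : S_CNT) (hc0 : 0 ≤ c) (hc1 : c ≤ 1)
    (hTS : ∀ (T : Finset Ei) (b : ℕ) (ε : ℝ), 0 < ε → ∃ X₀ : ℕ, ∀ X : ℕ, X₀ ≤ X →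
      |(((TS T b X).filter (G T)).card : ℝ) - c * ((TS T b X).card : ℝ)| ≤ ε * X) :
    Tendsto (fun Y : ℕ => (((PP Y).filter fun p => G p.1 p.2).card : ℝ) / ((PP Y).card : ℝ))
      atTop (nhds c) := by
  obtain ⟨c₀, X₀, hc₀, hlow⟩ := PP_low
  rw [Metric.tendsto_nhds]
  intro ε hε
  filter_upwards [t_PP hC hc0 hc1 hTS (show 0 < ε / 2 * c₀ by positivity),
    eventually_ge_atTop X₀, eventually_ge_atTop 1] with Y h1 h2 h3
  have hY : (0 : ℝ) < Y := by exact_mod_cast h3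
  have hlo := hlow Y h2
  have hpos : (0 : ℝ) < ((PP Y).card : ℝ) := lt_of_lt_of_le (by positivity) hlo
  rw [Real.dist_eq]
  have e3 : (((PP Y).filter fun p => G p.1 p.2).card : ℝ) / ((PP Y).card : ℝ) - c =
      ((((PP Y).filter fun p => G p.1 p.2).card : ℝ) - c * ((PP Y).card : ℝ)) /
        ((PP Y).card : ℝ) := by
    field_simp
  rw [e3, abs_div, abs_of_pos hpos, div_lt_iff₀ hpos]
  refine lt_of_le_of_lt h1 ?_
  have h4 : ε / 2 * c₀ * Y ≤ ε / 2 * ((PP Y).card : ℝ) := by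
    calc ε / 2 * c₀ * Y = ε / 2 * (c₀ * Y) := by ring
      _ ≤ _ := mul_le_mul_of_nonneg_left hlo (by positivity)
  have h5 : 0 < ε * ((PP Y).card : ℝ) := by positivity
  linarith

end Pool.Agent.X253.CF
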