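import Mathlib
import Pool.Agent.X253.CF.Sum
import Pool.Agent.X253.C3.CritE
import Pool.Agent.Y703.XL.InfC

/-!
# Project CF: the translation between the cube-free `D` and the pairs of sets
-/

set_option autoImplicit false
set_option linter.unusedVariables false

open scoped Classical
open Finset Filter

namespace Pool.Agent.X253.CF

open NumberField WeierstrassCurve
open Pool.Agent.Y692.QS (Ei w nr toC)
open Pool.Agent.Y715.T.Rec (cs)
open Pool.Agent.Y715.T.RecG (Pq)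
open Pool.Agent.Y699.E (nrm QB nrm_cast nrm_mul PD mem_PD PS PS_prod)
open Pool.Agent.Y703.CT
open Pool.Agent.XL6 (KerV SelH SelK rk_le rank_le selK_card)
open Pool.Agent.Y696.CTK
open Pool.Agent.Y155.CT (a_mul a_cont)
open Pool.Agent.Y703.XL (cr cr_pos cr_le)
open Pool.Agent.X253.C3 (ClsC)

/-- the element of a pair -/
noncomputable def DD (T S : Finset Ei) : Ei := (∏ π ∈ S, π) * ∏ π ∈ T, π

theorem wt_ne (T : Finset Ei) (ρ : Ei) : wt T ρ ≠ 0 := by
  unfold wt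
  split_ifs
  · decide
  · decide

theorem dt_S (T : Finset Ei) {S : Finset Ei} (hS : ∀ π ∈ S, Pq π) :
    Dt (fun i : S => (i : Ei)) (fun i => wt T i) where
  pq j := hS j j.2
  nd i j hij hd := by
    have h1 := Pool.Agent.Y699.E.eq_of_dvd (hS j j.2) (hS i i.2) hd
    exact hij (Subtype.ext h1.symm)
  e0 j := wt_ne T j

theorem pD_S {T S : Finset Ei} (hT : T ⊆ S) :
    pD (fun i : S => (i : Ei)) (fun i => wt T i) = DD T S := by
  unfold pD DD
  rw [Finset.prod_coe_sort S fun i => i ^ (wt T i).val]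
  have e1 : ∏ π ∈ T, π = ∏ π ∈ S, if π ∈ T then π else 1 := by
    rw [← Finset.prod_filter]
    congr 1
    ext x
    rw [Finset.mem_filter]
    exact ⟨fun h => ⟨hT h, h⟩, fun h => h.2⟩
  rw [e1, ← Finset.prod_mul_distrib]
  refine Finset.prod_congr rfl fun x _ => ?_
  unfold wt
  split_ifs with h
  · have : ((2 : ZMod 3)).val = 2 := rfl
    rw [this, pow_two]
  · have : ((1 : ZMod 3)).val = 1 := rfl
    rw [this, pow_one, mul_one]

theorem ker_S (T S : Finset Ei) :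
    (KerV (fun i : S => (i : Ei)) (fun i => wt T i)).ncard = nW T S := by
  rw [← Nat.card_coe_set_eq]
  rfl

theorem nrm_DD (T S : Finset Ei) : nrm (DD T S) = nm T * nm S := by
  unfold DD
  rw [nrm_mul, Pool.Agent.Y550.XK.NS.nrm_prod, Pool.Agent.Y550.XK.NS.nrm_prod, mul_comm]
  rfl

/-- the class -/
def ClsE3 (D : Ei) : Prop :=
  (3 : Ei) ∣ D - 1 ∧ (∀ p : Ei, Prime p → ¬ p ^ 3 ∣ D) ∧ ¬ (9 : ℤ) ∣ nr D - 1

theorem cube_free {a b : Ei} (ha : Squarefree a) (hb : Squarefree b) {p : Ei} (hp : Prime p) :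
    ¬ p ^ 3 ∣ a * b := by
  intro h
  by_cases hpa : p ∣ a
  · obtain ⟨a', rfl⟩ := hpa
    have h1 : ¬ p ∣ a' := by
      rintro ⟨c, rfl⟩
      exact hp.not_isUnit (ha p ⟨c, by ring⟩)
    have h2 : p ^ 2 ∣ b * a' := by
      have h3 : p * p ^ 2 ∣ p * (b * a') := by
        have e1 : p * p ^ 2 = p ^ 3 := by ring
        have e2 : p * (b * a') = p * a' * b := by ring
        rw [e1, e2]
        exact h
      exact (mul_dvd_mul_iff_left hp.ne_zero).1 h3
    have h3 : p ^ 2 ∣ b := hp.pow_dvd_of_dvd_mul_right 2 h1 h2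
    exact hp.not_isUnit (hb p (by rwa [pow_two] at h3))
  · have h3 : p ^ 3 ∣ b := hp.pow_dvd_of_dvd_mul_left 3 hpa h
    have h4 : p * p ∣ b := (Dvd.intro_left p (by ring : p * (p * p) = p ^ 3)).trans h3
    exact hp.not_isUnit (hb p h4)

/-- the elements of the pairs -/
theorem cls_DD {T S : Finset Ei} (hT : T ⊆ S) (hS : ∀ π ∈ S, Pq π)
    (h9 : (nm T * nm S) % 9 ≠ 1) : ClsE3 (DD T S) := by
  have hTp : ∀ π ∈ T, Pq π := fun π hπ => hS π (hT hπ)
  have h1 := (PS_prod hS).1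
  have h2 := (PS_prod hTp).1
  refine ⟨?_, fun p hp => cube_free h1.sqf h2.sqf hp, ?_⟩
  · have h3 : (3 : Ei) ∣ ∏ π ∈ S, π - 1 := h1.prm
    have h4 : (3 : Ei) ∣ ∏ π ∈ T, π - 1 := h2.prm
    unfold DD
    have e : (∏ π ∈ S, π) * ∏ π ∈ T, π - 1 =
        (∏ π ∈ S, π - 1) * ∏ π ∈ T, π + (∏ π ∈ T, π - 1) := by ring
    rw [e]
    exact dvd_add (h3.mul_right _) h4
  · rw [Pool.Agent.Y550.XK.NS.mod_iff, nrm_DD]
    exact h9

/-- every element of the class comes from a pair -/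
theorem cls_ex {D : Ei} (hD : ClsE3 D) : ∃ T S : Finset Ei, T ⊆ S ∧ (∀ π ∈ S, Pq π) ∧
    (nm T * nm S) % 9 ≠ 1 ∧ D = DD T S := by
  obtain ⟨h1, h2, h3⟩ := hD
  obtain ⟨s, k, hs, hk, hprod⟩ := Pool.Agent.X253.C3.fac_set (nrm D) D le_rfl h1 h2
  have hDD : D = DD (s.filter fun x => k x = 2) s := by
    rw [hprod]
    unfold DD
    rw [Finset.prod_filter, ← Finset.prod_mul_distrib]
    refine Finset.prod_congr rfl fun x hx => ?_
    rcases hk x hx with h | h
    · rw [h, if_neg (by norm_num), pow_one, mul_one]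
    · rw [h, if_pos rfl, pow_two]
  refine ⟨s.filter fun x => k x = 2, s, Finset.filter_subset _ _, hs, ?_, hDD⟩
  rw [← nrm_DD, ← hDD]
  exact fun h => h3 (Pool.Agent.Y550.XK.NS.mod_iff D |>.2 h)

/-- the pair is determined by the element -/
theorem DD_inj {T S T' S' : Finset Ei} (hT : T ⊆ S) (hS : ∀ π ∈ S, Pq π) (hT' : T' ⊆ S')
    (hS' : ∀ π ∈ S', Pq π) (h : DD T S = DD T' S') : T = T' ∧ S = S' := by
  have key : ∀ {T S : Finset Ei}, T ⊆ S → (∀ π ∈ S, Pq π) → DD T S ≠ 0 ∧ PD (DD T S) = S := by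
    intro T S hT hS
    have hTp : ∀ π ∈ T, Pq π := fun π hπ => hS π (hT hπ)
    have h1 := (PS_prod hS).1
    have h2 := (PS_prod hTp).1
    have h0 : DD T S ≠ 0 := mul_ne_zero h1.ne h2.ne
    refine ⟨h0, ?_⟩
    ext π
    rw [mem_PD h0]
    constructor
    · rintro ⟨hπ, hd⟩
      unfold DD at hd
      rcases hπ.prime.dvd_or_dvd hd with h3 | h3
      · have h4 : π ∈ PD (∏ π ∈ S, π) := (mem_PD h1.ne).2 ⟨hπ, h3⟩
        rwa [(PS_prod hS).2] at h4
      · have h4 : π ∈ PD (∏ π ∈ T, π) := (mem_PD h2.ne).2 ⟨hπ, h3⟩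
        rw [(PS_prod hTp).2] at h4
        exact hT h4
    · intro hπ
      exact ⟨hS π hπ, (Finset.dvd_prod_of_mem (fun x => x) hπ).mul_right _⟩
  have e1 : S = S' := by
    rw [← (key hT hS).2, ← (key hT' hS').2, h]
  subst e1
  refine ⟨?_, rfl⟩
  have h1 : ∏ π ∈ T, π = ∏ π ∈ T', π := by
    unfold DD at h
    exact mul_left_cancel₀ (PS_prod hS).1.ne h
  rw [← (PS_prod fun π hπ => hS π (hT hπ)).2, ← (PS_prod fun π hπ => hS π (hT' hπ)).2, h1]

section field
variable {K : Type} [Field K] [NumberField K] (j : Ei ≃+* 𝓞 K)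

theorem clsC_iff (hj : ∀ z : Ei, Algebra.norm ℤ (j z) = nr z) (z : Ei) :
    ClsC (j z) ↔ ClsE3 z := by
  unfold ClsC ClsE3
  rw [hj]
  refine and_congr ?_ (and_congr ?_ Iff.rfl)
  · constructor
    · intro h
      have h1 := three_dvd_symm j h
      rwa [RingEquiv.symm_apply_apply] at h1
    · intro h
      have h1 := map_dvd j h
      rwa [map_sub, map_one, map_ofNat] at h1
  · constructor
    · intro h p hp hd
      refine h (j p) ((MulEquiv.prime_iff (j : Ei ≃* 𝓞 K)).2 hp) ?_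
      have := map_dvd j hd
      rwa [map_pow] at this
    · intro h p hp hd
      obtain ⟨q, rfl⟩ := j.surjective p
      refine h q ((MulEquiv.prime_iff (j : Ei ≃* 𝓞 K)).1 hp) ?_
      rw [← map_pow] at hd
      have := map_dvd j.symm hd
      rwa [RingEquiv.symm_apply_apply, RingEquiv.symm_apply_apply] at this

/-- **the count** -/
theorem count_K (hj : ∀ z : Ei, Algebra.norm ℤ (j z) = nr z) (X : ℕ) (Q : 𝓞 K → Prop)
    (G : Finset Ei → Finset Ei → Prop)
    (hQ : ∀ T S : Finset Ei, T ⊆ S → (∀ π ∈ S, Pq π) → (nm T * nm S) % 9 ≠ 1 →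
      (Q (j (DD T S)) ↔ G T S)) :
    {D : 𝓞 K | Algebra.norm ℤ D ≤ X ∧ ClsC D ∧ Q D}.ncard =
      ((PP X).filter fun p => G p.1 p.2).card := by
  have hPP : ∀ p : Finset Ei × Finset Ei, p ∈ PP X ↔ p.1 ⊆ p.2 ∧ (∀ π ∈ p.2, Pq π) ∧
      nm p.1 * nm p.2 ≤ X ∧ (nm p.1 * nm p.2) % 9 ≠ 1 := by
    intro p
    unfold PP
    rw [Finset.mem_filter, Finset.mem_product, Pool.Agent.X253.CF.K.mem_SS,
      Pool.Agent.X253.CF.K.mem_SS]
    constructor
    · rintro ⟨⟨h1, h2⟩, h3, h4, h5⟩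
      exact ⟨h3, h2.1.1, h4, h5⟩
    · rintro ⟨h3, h2, h4, h5⟩
      have hTp : ∀ π ∈ p.1, Pq π := fun π hπ => h2 π (h3 hπ)
      have g1 := nm_pos h2
      have g2 := nm_pos hTp
      refine ⟨⟨⟨⟨hTp, trivial⟩, ?_⟩, ⟨⟨h2, trivial⟩, ?_⟩⟩, h3, h4, h5⟩
      · exact (Nat.le_mul_of_pos_right _ g1).trans h4
      · exact (Nat.le_mul_of_pos_left _ g2).trans h4
  have h1 : {D : 𝓞 K | Algebra.norm ℤ D ≤ X ∧ ClsC D ∧ Q D} =
      (fun p : Finset Ei × Finset Ei => j (DD p.1 p.2)) ''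
        (((PP X).filter fun p => G p.1 p.2 : Finset (Finset Ei × Finset Ei)) :
          Set (Finset Ei × Finset Ei)) := by
    ext D
    constructor
    · rintro ⟨h1, h2, h3⟩
      obtain ⟨z, rfl⟩ := j.surjective D
      obtain ⟨T, S, hT, hS, h9, rfl⟩ := cls_ex ((clsC_iff j hj z).1 h2)
      refine ⟨(T, S), ?_, rfl⟩
      rw [Finset.mem_coe, Finset.mem_filter]
      refine ⟨(hPP _).2 ⟨hT, hS, ?_, h9⟩, (hQ T S hT hS h9).1 h3⟩
      rw [hj, ← nrm_cast, nrm_DD] at h1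
      exact_mod_cast h1
    · rintro ⟨⟨T, S⟩, hp, rfl⟩
      rw [Finset.mem_coe, Finset.mem_filter] at hp
      obtain ⟨hp, hG⟩ := hp
      obtain ⟨hT, hS, hX, h9⟩ := (hPP _).1 hp
      refine ⟨?_, (clsC_iff j hj _).2 (cls_DD hT hS h9), (hQ T S hT hS h9).2 hG⟩
      rw [hj, ← nrm_cast, nrm_DD]
      exact_mod_cast hX
  rw [h1, Set.ncard_image_of_injOn, Set.ncard_coe_finset]
  rintro ⟨T, S⟩ hp ⟨T', S'⟩ hp' h
  rw [Finset.mem_coe, Finset.mem_filter] at hp hp'
  obtain ⟨hT, hS, -, -⟩ := (hPP _).1 hp.1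
  obtain ⟨hT', hS', -, -⟩ := (hPP _).1 hp'.1
  obtain ⟨e1, e2⟩ := DD_inj hT hS hT' hS' (j.injective h)
  exact Prod.ext e1 e2

end field

section
variable {J : Type} [Fintype J] [Nonempty J] {π : J → Ei} {e : J → ZMod 3}
variable {K : Type} [Field K] [NumberField K]

/-- **The Selmer group and the rank, for `D = ∏ π ^ e`.** -/
theorem main_piE (P : Parts) (hD : Dt π e)
    (h9 : ¬ (9 : ℤ) ∣ nr (pD π e) - 1) (j : Ei ≃+* 𝓞 K) :
    (SelK (j (pD π e) : K)).ncard = (KerV π e).ncard ∧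
    ∀ r : ℕ, (KerV π e).ncard ≤ 3 ^ (r + 1) →
      Module.finrank ℤ (ED (j (pD π e) : K)).toAffine.Point ≤ 2 * r := by
  have hne : pD π e ≠ 0 := Pool.Agent.Y153.CTRAM.ne_zero_of hD
  obtain ⟨e', i₀, hi, u, a, Ψ, g, hdata⟩ := P.trf K j _ hne
  have hT := hdata.1
  have h1 : (SelH hi a).ncard = (KerV π e).ncard := Pool.Agent.XL6.sel_card hD h9 hT
  refine ⟨(selK_card hne hdata).trans h1, fun r hr => ?_⟩
  have hpos : (KerV π e).ncard ≠ 0 := by
    have h0 : (0 : J → ZMod 3) ∈ KerV π e := fun j => by simp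
    exact Set.ncard_ne_zero_of_mem h0 (Set.toFinite _)
  have hfin : (SelH hi a).Finite := Set.finite_of_ncard_ne_zero (by rw [h1]; exact hpos)
  exact (rk_le hne hdata).trans (rank_le (a_mul hne hT) (a_cont hne hT) (a_ne hD hT) hfin
    (by rw [h1]; exact hr))

/-- the number of the solutions is a power of three, at least three -/
theorem kerE_pow : ∃ r : ℕ, (KerV π e).ncard = 3 ^ (r + 1) := by
  let V : Submodule (ZMod 3) (J → ZMod 3) :=
    { carrier := KerV π e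
      zero_mem' := fun j => by simp
      add_mem' := fun {a b} ha hb j => by
        have h1 := ha j
        have h2 := hb j
        have h3 : ∑ i, e i * cs (π j) (π i) * ((a + b) i - (a + b) j) =
            ∑ i, e i * cs (π j) (π i) * (a i - a j) +
            ∑ i, e i * cs (π j) (π i) * (b i - b j) := by
          rw [← Finset.sum_add_distrib]
          exact Finset.sum_congr rfl fun i _ => by rw [Pi.add_apply, Pi.add_apply]; ring
        rw [h3, h1, h2, add_zero]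
      smul_mem' := fun c a ha j => by
        have h1 := ha j
        have h3 : ∑ i, e i * cs (π j) (π i) * ((c • a) i - (c • a) j) =
            c * ∑ i, e i * cs (π j) (π i) * (a i - a j) := by
          rw [Finset.mul_sum]
          exact Finset.sum_congr rfl fun i _ => by
            rw [Pi.smul_apply, Pi.smul_apply, smul_eq_mul, smul_eq_mul]; ring
        rw [h3, h1, mul_zero] }
  have h1 : (KerV π e).ncard = Nat.card V := (Nat.card_coe_set_eq _).symm
  have h2 : Nat.card V = 3 ^ Module.finrank (ZMod 3) V := by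
    rw [Module.natCard_eq_pow_finrank (K := ZMod 3), Nat.card_zmod]
  have h3 : Module.finrank (ZMod 3) V ≠ 0 := by
    intro h0
    rw [h0, pow_zero] at h2
    have h4 : (fun _ => 1 : J → ZMod 3) ∈ V := fun j => by simp
    have h5 : Subsingleton V := (Nat.card_eq_one_iff_unique.1 h2).1
    have h6 : (⟨fun _ => 1, h4⟩ : V) = 0 := Subsingleton.elim _ _
    have h7 := congrFun (congrArg Subtype.val h6) (Classical.arbitrary J)
    exact one_ne_zero h7
  obtain ⟨r, hr⟩ := Nat.exists_eq_succ_of_ne_zero h3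
  exact ⟨r, by rw [h1, h2, hr]⟩

end

section
variable {K : Type} [Field K] [NumberField K] (j : Ei ≃+* 𝓞 K)

theorem ne_S {T S : Finset Ei} (hT : T ⊆ S) (h9 : (nm T * nm S) % 9 ≠ 1) : Nonempty S := by
  rw [← not_isEmpty_iff]
  intro h
  have hS : S = ∅ := by
    rw [← Finset.isEmpty_coe_sort]
    exact h
  have hT0 : T = ∅ := by
    rw [hS] at hT
    exact Finset.subset_empty.1 hT
  apply h9
  have e0 : nm ∅ = 1 := Finset.prod_empty
  rw [hS, hT0, e0]

/-- the Selmer group of a pair -/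
theorem selK_S {T S : Finset Ei} (hT : T ⊆ S) (hS : ∀ π ∈ S, Pq π)
    (h9 : (nm T * nm S) % 9 ≠ 1) :
    (SelK (j (DD T S) : K)).ncard = nW T S ∧ (∃ r : ℕ, nW T S = 3 ^ (r + 1)) ∧
    ∀ r : ℕ, nW T S ≤ 3 ^ (r + 1) →
      Module.finrank ℤ (ED (j (DD T S) : K)).toAffine.Point ≤ 2 * r := by
  have hne := ne_S hT h9
  have h1 : ¬ (9 : ℤ) ∣ nr (pD (fun i : S => (i : Ei)) (fun i => wt T i)) - 1 := by
    rw [pD_S hT, Pool.Agent.Y550.XK.NS.mod_iff, nrm_DD]
    exact h9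
  have h2 := main_piE parts (dt_S T hS) h1 j
  obtain ⟨r, hr⟩ := kerE_pow (π := fun i : S => (i : Ei)) (e := fun i : S => wt T i)
  rw [pD_S hT, ker_S] at h2
  rw [ker_S] at hr
  exact ⟨h2.1, ⟨r, hr⟩, h2.2⟩

end

/-- an element of the class is not a cube -/
theorem not_cubeC {K : Type} [Field K] [NumberField K] (j : Ei ≃+* 𝓞 K)
    {T S : Finset Ei} (hT : T ⊆ S) (hS : ∀ π ∈ S, Pq π)
    (h9 : (nm T * nm S) % 9 ≠ 1) (t : K) : t ^ 3 ≠ (j (DD T S) : K) := by
  intro h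
  have ht : IsIntegral ℤ t := by
    apply IsIntegral.of_pow (n := 3) (by norm_num)
    rw [h]
    exact RingOfIntegers.isIntegral_coe (j (DD T S))
  obtain ⟨s, rfl⟩ : ∃ s : 𝓞 K, (s : K) = t := ⟨⟨t, ht⟩, rfl⟩
  have h1 : s ^ 3 = j (DD T S) := by
    apply RingOfIntegers.coe_injective
    rw [map_pow]
    exact h
  obtain ⟨z, rfl⟩ := j.surjective s
  rw [← map_pow] at h1
  have h2 : z ^ 3 = DD T S := j.injective h1
  obtain ⟨⟨π, hπ⟩⟩ := ne_S hT h9
  have h3 : π ∣ DD T S := (Finset.dvd_prod_of_mem (fun x => x) hπ).mul_right _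
  rw [← h2] at h3
  have h4 : π ∣ z := (hS π hπ).prime.dvd_of_dvd_pow h3
  have h5 : π ^ 3 ∣ DD T S := by
    rw [← h2]
    exact pow_dvd_pow_of_dvd h4 3
  exact (cls_DD hT hS h9).2.1 π (hS π hπ).prime h5

end Pool.Agent.X253.CF
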