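import Mathlib
import Pool.Agent.X253.CF.Tr

/-!
# Project CF: the exact law for all the cube-free `D`
-/

set_option autoImplicit false
set_option linter.unusedVariables false

open scoped Classical
open Finset Filter

namespace Pool.Agent.X253.CF

open NumberField WeierstrassCurve
open Pool.Agent.Y692.QS (Ei w nr toC)
open Pool.Agent.Y715.T.RecG (Pq)
open Pool.Agent.XL6 (SelK prob finalXL)
open Pool.Agent.Y696.CTK (ED)
open Pool.Agent.Y703.XL (cr cr_pos cr_le t_C9 t_LA)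
open Pool.Agent.Y703.XL.Inf (killed SelInf sel_card sel_triv)
open Pool.Agent.X253.C3 (ClsC)

/-- the law for the sets containing `T` -/
theorem t_all (T : Finset Ei) (b r : ℕ) {ε : ℝ} (hε : 0 < ε) :
    ∃ X₀ : ℕ, ∀ X : ℕ, X₀ ≤ X →
      |(((TS T b X).filter (Gw T r)).card : ℝ) - cr r * ((TS T b X).card : ℝ)| ≤ ε * X :=
  t_TS (K.t_KEG Pool.Agent.Y363.XK.t_BIL (B.t_BOX Pool.Agent.Y710.XK.t_EQ t_LA T b r)
    (by positivity)) N.t_CNT G.t_BAD G.t_FEW t_C9 hε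

/-- **the law for the pairs** -/
theorem t_pairs (r : ℕ) : Tendsto (fun Y : ℕ =>
    (((PP Y).filter fun p => Gw p.1 r p.2).card : ℝ) / ((PP Y).card : ℝ)) atTop (nhds (cr r)) :=
  t_LIM (G := fun T S => Gw T r S) N.t_CNT (cr_pos t_C9 r).le (cr_le t_C9 r)
    fun T b ε hε => t_all T b r hε

theorem coe_ne {K : Type} [Field K] [NumberField K] (j : Ei ≃+* 𝓞 K) {T S : Finset Ei}
    (hT : T ⊆ S) (hS : ∀ π ∈ S, Pq π) (h9 : (nm T * nm S) % 9 ≠ 1) : (j (DD T S) : K) ≠ 0 := by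
  intro h
  apply not_cubeC j hT hS h9 0
  rw [h]
  norm_num

/-- the facts on one `D` -/
theorem one_CF {K : Type} [Field K] [NumberField K] (j : Ei ≃+* 𝓞 K) {ω : K}
    (hω : ω ^ 2 + ω + 1 = 0) {T S : Finset Ei} (hT : T ⊆ S) (hS : ∀ π ∈ S, Pq π)
    (h9 : (nm T * nm S) % 9 ≠ 1) :
    (∃ r : ℕ, (killed ω (j (DD T S) : K)).ncard = 3 ^ r ∧
      Module.finrank ℤ (ED (j (DD T S) : K)).toAffine.Point ≤ 2 * r) ∧
    ((killed ω (j (DD T S) : K)).ncard = 1 ↔ ∀ x : SelInf (j (DD T S) : K), x = 0) ∧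
    ∀ r : ℕ, (killed ω (j (DD T S) : K)).ncard = 3 ^ r ↔ Gw T r S := by
  obtain ⟨h1, ⟨r, hr⟩, h3⟩ := selK_S (K := K) j hT hS h9
  have h4 : (SelK (j (DD T S) : K)).ncard = 3 * (killed ω (j (DD T S) : K)).ncard :=
    sel_card (coe_ne j hT hS h9) hω (not_cubeC j hT hS h9)
  have key : ∀ r : ℕ, (killed ω (j (DD T S) : K)).ncard = 3 ^ r ↔ nW T S = 3 ^ (r + 1) := by
    intro r
    rw [← h1, h4, pow_succ']
    constructor
    · intro h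
      rw [h]
    · intro h
      exact Nat.eq_of_mul_eq_mul_left (by norm_num) h
  exact ⟨⟨r, (key r).2 hr, h3 r hr.le⟩, sel_triv (coe_ne j hT hS h9) hω, key⟩

/-- **The exact law for all the cube-free `D`.** -/
theorem finalCF (K : Type) [Field K] [NumberField K] [IsCyclotomicExtension {3} ℚ K] (ω : K)
    (hω : ω ^ 2 + ω + 1 = 0) :
    (∃ c : ℝ, 0 < c ∧ ∃ X₀ : ℕ, ∀ X : ℕ, X₀ ≤ X →
      c * X ≤ ({D : 𝓞 K | Algebra.norm ℤ D ≤ X ∧ ClsC D}.ncard : ℝ)) ∧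
    (∀ D : 𝓞 K, ClsC D →
      (∃ r : ℕ, (killed ω (D : K)).ncard = 3 ^ r ∧
        Module.finrank ℤ (ED (D : K)).toAffine.Point ≤ 2 * r) ∧
      ((killed ω (D : K)).ncard = 1 ↔ ∀ x : SelInf (D : K), x = 0)) ∧
    (∀ r : ℕ, Filter.Tendsto (fun X : ℕ =>
      ({D : 𝓞 K | Algebra.norm ℤ D ≤ X ∧ ClsC D ∧ (killed ω (D : K)).ncard = 3 ^ r}.ncard : ℝ) /
        ({D : 𝓞 K | Algebra.norm ℤ D ≤ X ∧ ClsC D}.ncard : ℝ)) Filter.atTop (nhds (prob r))) ∧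
    Filter.Tendsto (fun X : ℕ =>
      ({D : 𝓞 K | Algebra.norm ℤ D ≤ X ∧ ClsC D ∧ ∀ x : SelInf (D : K), x = 0}.ncard : ℝ) /
        ({D : 𝓞 K | Algebra.norm ℤ D ≤ X ∧ ClsC D}.ncard : ℝ)) Filter.atTop (nhds (prob 0)) ∧
    (0.639 < prob 0 ∧ prob 0 < 0.6391 ∧ HasSum prob 1) := by
  obtain ⟨⟨j, hj⟩, -⟩ := Pool.Agent.Y455.CTK.jex K
  obtain ⟨-, -, -, hp, -, -⟩ := finalXL K
  have hden : ∀ X : ℕ, {D : 𝓞 K | Algebra.norm ℤ D ≤ X ∧ ClsC D}.ncard = (PP X).card := by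
    intro X
    have h := count_K j hj X (fun _ => True) (fun _ _ => True) fun _ _ _ _ _ => Iff.rfl
    rw [Finset.filter_true] at h
    rw [← h]
    congr 1
    ext D
    simp only [Set.mem_ofPred_eq, and_true]
  have hex : ∀ D : 𝓞 K, ClsC D → ∃ T S : Finset Ei, T ⊆ S ∧ (∀ π ∈ S, Pq π) ∧
      (nm T * nm S) % 9 ≠ 1 ∧ D = j (DD T S) := by
    intro D hD
    obtain ⟨z, rfl⟩ := j.surjective D
    obtain ⟨T, S, h1, h2, h3, h4⟩ := cls_ex ((clsC_iff j hj z).1 hD)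
    exact ⟨T, S, h1, h2, h3, by rw [h4]⟩
  have hone : ∀ D : 𝓞 K, ClsC D →
      (∃ r : ℕ, (killed ω (D : K)).ncard = 3 ^ r ∧
        Module.finrank ℤ (ED (D : K)).toAffine.Point ≤ 2 * r) ∧
      ((killed ω (D : K)).ncard = 1 ↔ ∀ x : SelInf (D : K), x = 0) := by
    intro D hD
    obtain ⟨T, S, h1, h2, h3, rfl⟩ := hex D hD
    obtain ⟨g1, g2, -⟩ := one_CF j hω h1 h2 h3
    exact ⟨g1, g2⟩
  have hlaw : ∀ r : ℕ, Filter.Tendsto (fun X : ℕ =>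
      ({D : 𝓞 K | Algebra.norm ℤ D ≤ X ∧ ClsC D ∧ (killed ω (D : K)).ncard = 3 ^ r}.ncard : ℝ) /
        ({D : 𝓞 K | Algebra.norm ℤ D ≤ X ∧ ClsC D}.ncard : ℝ)) Filter.atTop (nhds (prob r)) := by
    intro r
    refine (t_pairs r).congr fun X => ?_
    rw [hden X, ← count_K j hj X (fun D => (killed ω (D : K)).ncard = 3 ^ r)
      (fun T S => Gw T r S) fun T S h1 h2 h3 => (one_CF j hω h1 h2 h3).2.2 r]
  refine ⟨?_, hone, hlaw, ?_, hp⟩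
  · obtain ⟨c, X₀, hc, h⟩ := PP_low
    refine ⟨c, hc, X₀, fun X hX => ?_⟩
    rw [hden X]
    exact h X hX
  · refine (hlaw 0).congr fun X => ?_
    have e1 : {D : 𝓞 K | Algebra.norm ℤ D ≤ X ∧ ClsC D ∧ (killed ω (D : K)).ncard = 3 ^ 0} =
        {D : 𝓞 K | Algebra.norm ℤ D ≤ X ∧ ClsC D ∧ ∀ x : SelInf (D : K), x = 0} := by
      ext D
      refine and_congr_right fun _ => and_congr_right fun hD => ?_
      rw [pow_zero]
      exact (hone D hD).2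
    rw [e1]

end Pool.Agent.X253.CF
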