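import Mathlib
import Pool.Agent.X253.CF.Fin

/-!
# Project CF: the tail of the rank
-/

set_option autoImplicit false
set_option linter.unusedVariables false

open scoped Classical
open Finset Filter

namespace Pool.Agent.X253.CF

open NumberField WeierstrassCurve
open Pool.Agent.Y692.QS (Ei w nr toC)
open Pool.Agent.Y715.T.RecG (Pq)
open Pool.Agent.XL6 (SelK prob finalXL)
open Pool.Agent.Y696.CTK (ED)
open Pool.Agent.Y703.XL (cr cr_pos cr_le t_C9 t_LA)
open Pool.Agent.X253.C3 (ClsC)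

/-- the pairs with large property and the pairs with small kernel -/
theorem pairs_tail (X R : ℕ) (G : Finset Ei → Finset Ei → Prop)
    (hG : ∀ p ∈ PP X, G p.1 p.2 → ∀ r ≤ R, ¬ Gw p.1 r p.2) :
    ((PP X).filter fun p => G p.1 p.2).card +
      ∑ r ∈ range (R + 1), ((PP X).filter fun p => Gw p.1 r p.2).card ≤ (PP X).card := by
  have hdis : ∀ r ∈ range (R + 1), ∀ r' ∈ range (R + 1), r ≠ r' →
      Disjoint ((PP X).filter fun p => Gw p.1 r p.2) ((PP X).filter fun p => Gw p.1 r' p.2) := by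
    intro r _ r' _ hne
    rw [Finset.disjoint_left]
    intro p hp hp'
    have h1 : nW p.1 p.2 = 3 ^ (r + 1) := (Finset.mem_filter.1 hp).2
    have h2 : nW p.1 p.2 = 3 ^ (r' + 1) := (Finset.mem_filter.1 hp').2
    rw [h1] at h2
    have h3 := Nat.pow_right_injective (le_refl 2 |>.trans (by norm_num : 2 ≤ 3)) h2
    omega
  rw [← Finset.card_biUnion hdis, ← Finset.card_union_of_disjoint]
  · refine Finset.card_le_card (Finset.union_subset (Finset.filter_subset _ _) ?_)
    intro p hp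
    rw [Finset.mem_biUnion] at hp
    obtain ⟨r, -, hp⟩ := hp
    exact (Finset.mem_filter.1 hp).1
  · rw [Finset.disjoint_left]
    intro p hp hp'
    rw [Finset.mem_biUnion] at hp'
    obtain ⟨r, hr, hp'⟩ := hp'
    rw [Finset.mem_filter] at hp hp'
    rw [Finset.mem_range] at hr
    exact hG p hp.1 hp.2 r (by omega) hp'.2

/-- **the tail of the rank** -/
theorem tailCF (K : Type) [Field K] [NumberField K] [IsCyclotomicExtension {3} ℚ K] (R : ℕ)
    {ε : ℝ} (hε : 0 < ε) : ∀ᶠ X : ℕ in atTop,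
      ({D : 𝓞 K | Algebra.norm ℤ D ≤ X ∧ ClsC D ∧
        2 * R < Module.finrank ℤ (ED (D : K)).toAffine.Point}.ncard : ℝ) ≤
      (1 - ∑ r ∈ range (R + 1), prob r + ε) *
        ({D : 𝓞 K | Algebra.norm ℤ D ≤ X ∧ ClsC D}.ncard : ℝ) := by
  obtain ⟨⟨j, hj⟩, -⟩ := Pool.Agent.Y455.CTK.jex K
  have hden : ∀ X : ℕ, {D : 𝓞 K | Algebra.norm ℤ D ≤ X ∧ ClsC D}.ncard = (PP X).card := by
    intro X
    have h := count_K j hj X (fun _ => True) (fun _ _ => True) fun _ _ _ _ _ => Iff.rfl
    rw [Finset.filter_true] at h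
    rw [← h]
    congr 1
    ext D
    simp only [Set.mem_ofPred_eq, and_true]
  obtain ⟨G, hG⟩ : ∃ G : Finset Ei → Finset Ei → Prop, G = fun T S =>
      2 * R < Module.finrank ℤ (ED (j (DD T S) : K)).toAffine.Point := ⟨_, rfl⟩
  have hnum : ∀ X : ℕ, {D : 𝓞 K | Algebra.norm ℤ D ≤ X ∧ ClsC D ∧
      2 * R < Module.finrank ℤ (ED (D : K)).toAffine.Point}.ncard =
      ((PP X).filter fun p => G p.1 p.2).card := fun X =>
    count_K j hj X (fun D => 2 * R < Module.finrank ℤ (ED (D : K)).toAffine.Point) G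
      fun T S _ _ _ => by rw [hG]
  obtain ⟨c, X₀, hc, hlow⟩ := PP_low
  have hlim : Tendsto (fun Y : ℕ => ∑ r ∈ range (R + 1),
      (((PP Y).filter fun p => Gw p.1 r p.2).card : ℝ) / ((PP Y).card : ℝ)) atTop
      (nhds (∑ r ∈ range (R + 1), prob r)) :=
    tendsto_finset_sum _ fun r _ => t_pairs r
  filter_upwards [hlim.eventually (lt_mem_nhds (show ∑ r ∈ range (R + 1), prob r - ε <
    ∑ r ∈ range (R + 1), prob r by linarith)), eventually_ge_atTop X₀, eventually_ge_atTop 1]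
    with X h1 h2 h3
  have hX : (0 : ℝ) < X := by exact_mod_cast h3
  have hpos : (0 : ℝ) < ((PP X).card : ℝ) := lt_of_lt_of_le (by positivity) (hlow X h2)
  rw [hden X, hnum X]
  have h4 := pairs_tail X R G (by
    intro p hp hGp r hr hGw
    rw [hG] at hGp
    unfold PP at hp
    rw [Finset.mem_filter, Finset.mem_product] at hp
    obtain ⟨⟨-, hp2⟩, h5, -, h6⟩ := hp
    have h7 := (selK_S (K := K) j h5 (Pool.Agent.X253.CF.K.mem_SS.1 hp2).1.1 h6).2.2 r
      (le_of_eq hGw)
    have h8 : 2 * R < Module.finrank ℤ (ED (j (DD p.1 p.2) : K)).toAffine.Point := hGp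
    omega)
  have h5 : (((PP X).filter fun p => G p.1 p.2).card : ℝ) +
      ∑ r ∈ range (R + 1), (((PP X).filter fun p => Gw p.1 r p.2).card : ℝ) ≤
      ((PP X).card : ℝ) := by exact_mod_cast h4
  rw [← Finset.sum_div, lt_div_iff₀ hpos] at h1
  nlinarith

end Pool.Agent.X253.CF
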