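import Mathlib
import Pool.Agent.X253.CF.Tail

/-!
# Project CF: the exact proportion of the cube-free `D` with `E_D(K)` finite and `Ш[3^∞] = 0`
-/

set_option autoImplicit false
set_option linter.unusedVariables false

open scoped Classical
open Finset Filter

namespace Pool.Agent.X253.CF

open NumberField WeierstrassCurve
open Pool.Agent.Y692.QS (Ei w nr toC)
open Pool.Agent.Y715.T.Rec (cs)
open Pool.Agent.Y715.T.RecG (Pq)
open Pool.Agent.Y703.CT
open Pool.Agent.XL6 (KerV SelK prob finalXL)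
open Pool.Agent.Y696.CTK
open Pool.Agent.X253.C3 (ClsC tri_iffE)

/-- the kernel of order three -/
theorem ker_iff3 {J : Type} [Fintype J] [Nonempty J] {π : J → Ei} {e : J → ZMod 3} :
    Ker π e ↔ (KerV π e).ncard = 3 := by
  have hfin : (KerV π e).Finite := Set.toFinite _
  have hc : ∀ c : ZMod 3, (fun _ => c : J → ZMod 3) ∈ KerV π e := fun c j => by simp
  have hcard : (Set.range (fun (c : ZMod 3) (_ : J) => c)).ncard = 3 := by
    rw [Set.ncard_range_of_injective, Nat.card_zmod]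
    intro c c' h
    exact congrFun h (Classical.arbitrary J)
  constructor
  · intro hk
    have hcc : KerV π e = Set.range (fun (c : ZMod 3) (_ : J) => c) := by
      ext v
      constructor
      · intro hv
        exact ⟨v (Classical.arbitrary J), funext fun i => hk v hv _ i⟩
      · rintro ⟨c, rfl⟩
        exact hc c
    rw [hcc, hcard]
  · intro h3 v hv i k
    have hcc : Set.range (fun (c : ZMod 3) (_ : J) => c) = KerV π e := by
      apply Set.eq_of_subset_of_ncard_le _ _ hfin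
      · rintro _ ⟨c, rfl⟩
        exact hc c
      · rw [h3, hcard]
    have hv' : v ∈ KerV π e := hv
    rw [← hcc] at hv'
    obtain ⟨c, rfl⟩ := hv'
    rfl

theorem tri_S {K : Type} [Field K] [NumberField K] (j : Ei ≃+* 𝓞 K) {T S : Finset Ei}
    (hT : T ⊆ S) (hS : ∀ π ∈ S, Pq π) (h9 : (nm T * nm S) % 9 ≠ 1) :
    Tri (j (DD T S)) ↔ Gw T 0 S := by
  have hne := ne_S hT h9
  have h1 : ¬ (9 : ℤ) ∣ nr (pD (fun i : S => (i : Ei)) (fun i => wt T i)) - 1 := by
    rw [pD_S hT, Pool.Agent.Y550.XK.NS.mod_iff, nrm_DD]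
    exact h9
  have h2 := tri_iffE j (dt_S T hS) h1
  rw [pD_S hT] at h2
  rw [h2, ker_iff3, ker_S]
  rfl

theorem prob_zero : prob 0 = ∏' i : ℕ, (1 - (1 / 3 : ℝ) ^ (2 * i + 1)) := by
  unfold prob
  rw [Finset.range_zero, Finset.prod_empty, div_one]

/-- **The exact proportion.** -/
theorem prop_exact (K : Type) [Field K] [NumberField K] [IsCyclotomicExtension {3} ℚ K] :
    (∃ c : ℝ, 0 < c ∧ ∃ X₀ : ℕ, ∀ X : ℕ, X₀ ≤ X →
      c * X ≤ ({D : 𝓞 K | Algebra.norm ℤ D ≤ X ∧ ClsC D}.ncard : ℝ)) ∧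
    Tendsto (fun X : ℕ => ({D : 𝓞 K | Algebra.norm ℤ D ≤ X ∧ ClsC D ∧ Tri D}.ncard : ℝ) /
      ({D : 𝓞 K | Algebra.norm ℤ D ≤ X ∧ ClsC D}.ncard : ℝ)) atTop
      (nhds (∏' i : ℕ, (1 - (1 / 3 : ℝ) ^ (2 * i + 1)))) ∧
    0.639 < ∏' i : ℕ, (1 - (1 / 3 : ℝ) ^ (2 * i + 1)) ∧
    ∏' i : ℕ, (1 - (1 / 3 : ℝ) ^ (2 * i + 1)) < 0.6391 := by
  obtain ⟨⟨j, hj⟩, -⟩ := Pool.Agent.Y455.CTK.jex K
  obtain ⟨-, -, -, ⟨hp1, hp2, -⟩, -, -⟩ := finalXL K
  rw [← prob_zero]
  have hden : ∀ X : ℕ, {D : 𝓞 K | Algebra.norm ℤ D ≤ X ∧ ClsC D}.ncard = (PP X).card := by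
    intro X
    have h := count_K j hj X (fun _ => True) (fun _ _ => True) fun _ _ _ _ _ => Iff.rfl
    rw [Finset.filter_true] at h
    rw [← h]
    congr 1
    ext D
    simp only [Set.mem_ofPred_eq, and_true]
  refine ⟨?_, ?_, hp1, hp2⟩
  · obtain ⟨c, X₀, hc, h⟩ := PP_low
    refine ⟨c, hc, X₀, fun X hX => ?_⟩
    rw [hden X]
    exact h X hX
  · refine (t_pairs 0).congr fun X => ?_
    rw [hden X, ← count_K j hj X (fun D => Tri D)
      (fun T S => Gw T 0 S) fun T S h1 h2 h3 => tri_S j h1 h2 h3]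

end Pool.Agent.X253.CF
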