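import Pool.Agent.X253.CF.AvC

/-!
# Project CF: the sum of the dimensions, part two
-/

set_option autoImplicit false

open scoped Classical
open Finset Filter

namespace Pool.Agent.X253.CF

open Pool.Agent.Y692.QS (Ei w nr toC)
open Pool.Agent.Y715.T.RecG (Pq)
open Pool.Agent.Y699.E (nrm QB)
open Pool.Agent.Y703.CX (eL zz kk eL_tendsto logX_eq ev_eL kk_ge kk_le X_pos one_add_log lin_le)
open Pool.Agent.Y703.XL (cr cr_pos cr_le t_C9 t_LA)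

/-- the auxiliary parameter -/
noncomputable def Rr (Y : ℕ) : ℕ := ⌊(eL Y - 1) / 96⌋₊

/-- the dimension, if it is larger than `B` -/
noncomputable def gB (B : ℕ) (T S : Finset Ei) : ℝ := if B < rW T S then (rW T S : ℝ) else 0

theorem Rr_le {Y : ℕ} (h : 1 ≤ eL Y) : 96 * (Rr Y : ℝ) ≤ eL Y - 1 := by
  have h0 : 0 ≤ (eL Y - 1) / 96 := div_nonneg (by linarith) (by norm_num)
  have := Nat.floor_le h0
  unfold Rr
  linarith

theorem Rr_gt (Y : ℕ) : eL Y - 1 < 96 * ((Rr Y : ℝ) + 1) := by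
  have := Nat.lt_floor_add_one ((eL Y - 1) / 96)
  unfold Rr
  linarith

theorem Rr_tendsto : Tendsto Rr atTop atTop := by
  refine tendsto_nat_floor_atTop.comp ?_
  exact (tendsto_atTop_add_const_right _ (-1) eL_tendsto).atTop_div_const (by norm_num)

theorem two_pow_le (R : ℕ) : (2 : ℝ) ^ R ≤ Real.exp R := by
  have h : (2 : ℝ) ≤ Real.exp 1 := by
    have := Real.add_one_le_exp (1 : ℝ)
    linarith
  calc (2 : ℝ) ^ R ≤ (Real.exp 1) ^ R := by gcongr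
    _ = Real.exp R := by rw [← Real.exp_nat_mul, mul_one]

theorem eL_div {Y : ℕ} (h2 : 2 ≤ eL Y) {N : ℕ} (hN : 1 ≤ N) (hNR : N ≤ 2 ^ Rr Y) :
    eL Y - 1 ≤ eL (Y / N) := by
  have hL := logX_eq (show 0 < eL Y by linarith)
  have hY : 1 ≤ Y := X_pos (by linarith)
  have hY' : (0 : ℝ) < Y := by exact_mod_cast hY
  have hR := Rr_le (show 1 ≤ eL Y by linarith)
  have hR0 : (0 : ℝ) ≤ Rr Y := Nat.cast_nonneg _
  have he := Real.add_one_le_exp (eL Y)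
  rw [← hL] at he
  have hN1 : ((2 * N : ℕ) : ℝ) ≤ Real.exp (Real.log Y / 2) := by
    have h1 : ((N : ℕ) : ℝ) ≤ 2 ^ Rr Y := by exact_mod_cast hNR
    have h3 := two_pow_le (Rr Y + 1)
    push_cast at h3 ⊢
    have h4 : Real.exp ((Rr Y : ℝ) + 1) ≤ Real.exp (Real.log Y / 2) :=
      Real.exp_le_exp.2 (by linarith)
    rw [pow_succ] at h3
    linarith
  have hNY : 2 * N ≤ Y := by
    have h3 : Real.exp (Real.log Y / 2) ≤ Y := by
      calc Real.exp (Real.log Y / 2) ≤ Real.exp (Real.log Y) :=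
            Real.exp_le_exp.2 (by linarith)
        _ = Y := Real.exp_log hY'
    exact_mod_cast hN1.trans h3
  have hX1 : 1 ≤ Y / N := (Nat.one_le_div_iff hN).2 (by omega)
  have hdm : Y ≤ 2 * N * (Y / N) := by
    have h3 := Nat.div_add_mod Y N
    have h4 := Nat.mod_lt Y hN
    nlinarith
  have hXp : (0 : ℝ) < ((Y / N : ℕ) : ℝ) := by exact_mod_cast hX1
  have hlog : Real.log Y / 2 ≤ Real.log ((Y / N : ℕ) : ℝ) := by
    have h3 : (Y : ℝ) ≤ ((2 * N : ℕ) : ℝ) * ((Y / N : ℕ) : ℝ) := by exact_mod_cast hdm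
    have h4 : (Y : ℝ) ≤ Real.exp (Real.log Y / 2) * ((Y / N : ℕ) : ℝ) :=
      h3.trans (mul_le_mul_of_nonneg_right hN1 hXp.le)
    have h5 := Real.log_le_log hY' h4
    rw [Real.log_mul (Real.exp_pos _).ne' hXp.ne', Real.log_exp] at h5
    linarith
  have hpos : 0 < Real.log Y := by linarith
  have h6 : Real.log (Real.log Y / 2) ≤ eL (Y / N) := Real.log_le_log (by linarith) hlog
  have h7 : Real.log (Real.log Y / 2) = eL Y - Real.log 2 :=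
    Real.log_div hpos.ne' (by norm_num)
  have h8 := Real.log_two_lt_d9
  linarith

theorem sup_le_nm {T : Finset Ei} (hT : ∀ π ∈ T, Pq π) : T.sup nrm ≤ nm T := by
  refine Finset.sup_le fun π hπ => ?_
  have h := nm_mono hT (Finset.singleton_subset_iff.2 hπ)
  rwa [show nm {π} = nrm π from Finset.prod_singleton _ _] at h

theorem ev_T : ∀ᶠ Y : ℕ in atTop, ∀ T : Finset Ei, (∀ π ∈ T, Pq π) → nm T ≤ 2 ^ Rr Y →
    ∀ r ≤ Rr Y, |(((TS T (bT T) (Y / nm T)).filter (Gw T r)).card : ℝ) -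
      cr r * ((TS T (bT T) (Y / nm T)).card : ℝ)| ≤ Y * Real.exp (-2 * (Rr Y : ℝ)) := by
  obtain ⟨X₀, hX₀⟩ := eventually_atTop.1 unif
  filter_upwards [ev_eL (X₀ + 1), ev_eL 2] with Y h1 h2 T hT hN r hr
  have hp := nm_pos hT
  have h3 := eL_div h2 hp hN
  have hR := Rr_le (show 1 ≤ eL Y by linarith)
  obtain ⟨X, hX⟩ : ∃ X : ℕ, X = Y / nm T := ⟨_, rfl⟩
  rw [← hX] at h3 ⊢
  have h4 : X₀ ≤ X := by
    have g1 : eL X ≤ Real.log X := Real.log_le_self (Real.log_natCast_nonneg X)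
    have g2 : Real.log X ≤ X := Real.log_le_self (Nat.cast_nonneg _)
    have : (X₀ : ℝ) ≤ X := by linarith
    exact_mod_cast this
  have hr' : (r : ℝ) ≤ Rr Y := by exact_mod_cast hr
  have h5 := hX₀ X h4 T (bT T) r ?_ ?_
  · refine h5.trans ?_
    have h6 : (X : ℝ) ≤ Y := by
      rw [hX]
      exact_mod_cast Nat.div_le_self _ _
    have h7 : Real.exp (-(1 / 48) * eL X) ≤ Real.exp (-2 * (Rr Y : ℝ)) :=
      Real.exp_le_exp.2 (by linarith)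
    exact mul_le_mul h6 h7 (Real.exp_pos _).le (Nat.cast_nonneg _)
  · refine (sup_le_nm hT).trans (hN.trans ?_)
    unfold zz
    refine Nat.le_floor ?_
    push_cast
    refine (two_pow_le _).trans (Real.exp_le_exp.2 ?_)
    have h6 : 1 ≤ eL X := by linarith
    have h7 : eL X ≤ (eL X) ^ 3 := le_self_pow₀ h6 (by norm_num)
    linarith
  · linarith

theorem gB_le (B : ℕ) (T S : Finset Ei) : gB B T S ≤ S.card := by
  unfold gB
  split_ifs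
  · exact_mod_cast rW_le T S
  · exact Nat.cast_nonneg _

theorem sum_TS {C : ℝ} (hC : CntP C) (Y m : ℕ) :
    ∑ T ∈ (SS Y).filter (fun T => 2 ^ m ≤ nm T),
      ((TS T (bT T) (Y / nm T)).card : ℝ) ≤ 4 * C ^ 2 * Y * (1 / 2) ^ m := by
  have hC1 := hC.one
  calc _ ≤ ∑ T ∈ (SS Y).filter (fun T => 2 ^ m ≤ nm T), C * Y * (1 / (nm T : ℝ) ^ 2) := by
        refine Finset.sum_le_sum fun T hT => ?_
        refine (TS_card hC (K.mem_SS.1 (Finset.mem_filter.1 hT).1).1.1 (bT T) Y).trans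
          (le_of_eq ?_)
        ring
    _ = C * Y * ∑ T ∈ (SS Y).filter (fun T => 2 ^ m ≤ nm T), 1 / (nm T : ℝ) ^ 2 := by
        rw [Finset.mul_sum]
    _ ≤ C * Y * (4 * C * (1 / 2) ^ m) :=
        mul_le_mul_of_nonneg_left (tail hC m Y) (by positivity)
    _ = _ := by ring

theorem sum_big {C : ℝ} (hC : CntP C) (B k : ℕ) {Y : ℕ} (hY : 1 ≤ Y) :
    ∑ T ∈ SS Y, ∑ S ∈ (TS T (bT T) (Y / nm T)).filter (fun S => ¬ S.card ≤ k), gB B T S ≤
      64 * C * Y * (1 + Real.log Y) ^ 2 * ((k + 2) / 2 ^ k) := by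
  have hC1 := hC.one
  have hl := Real.log_natCast_nonneg Y
  have h1 : ∀ T ∈ SS Y,
      ∑ S ∈ (TS T (bT T) (Y / nm T)).filter (fun S => ¬ S.card ≤ k), gB B T S ≤
      C * Y * (1 + Real.log Y) * ((k + 2) / 2 ^ k) * (1 / (nm T : ℝ)) := by
    intro T hT
    have hT' := K.mem_SS.1 hT
    have hp := nm_pos hT'.1.1
    have hp' : (0 : ℝ) < nm T := by exact_mod_cast hp
    have hX1 : 1 ≤ Y / nm T := (Nat.one_le_div_iff hp).2 hT'.2
    have hXp : (0 : ℝ) < ((Y / nm T : ℕ) : ℝ) := by exact_mod_cast hX1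
    calc _ ≤ ∑ S ∈ (TS T (bT T) (Y / nm T)).filter (fun S => ¬ S.card ≤ k), (S.card : ℝ) :=
          Finset.sum_le_sum fun S _ => gB_le B T S
      _ ≤ ∑ S ∈ (SS (Y / nm T)).filter (fun S => k < S.card), (S.card : ℝ) := by
          refine Finset.sum_le_sum_of_subset_of_nonneg ?_ fun _ _ _ => Nat.cast_nonneg _
          intro S hS
          rw [Finset.mem_filter] at hS ⊢
          obtain ⟨hS1, hS2⟩ := hS
          unfold TS at hS1
          rw [Finset.mem_filter] at hS1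
          exact ⟨hS1.1, not_le.1 hS2⟩
      _ ≤ C * (((Y / nm T : ℕ) : ℝ) * (1 + Real.log ((Y / nm T : ℕ) : ℝ))) *
            ((k + 2) / 2 ^ k) := many_sum hC _ k hX1
      _ ≤ C * (((Y : ℝ) / nm T) * (1 + Real.log Y)) * ((k + 2) / 2 ^ k) := by
          have g1 : ((Y / nm T : ℕ) : ℝ) ≤ (Y : ℝ) / nm T := Nat.cast_div_le
          have g2 : Real.log ((Y / nm T : ℕ) : ℝ) ≤ Real.log Y :=
            Real.log_le_log hXp (by exact_mod_cast Nat.div_le_self _ _)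
          have g3 : 0 ≤ Real.log ((Y / nm T : ℕ) : ℝ) := Real.log_natCast_nonneg _
          gcongr
      _ = _ := by ring
  refine (Finset.sum_le_sum h1).trans ?_
  rw [← Finset.mul_sum]
  have h2 := K.sum_inv hY (A := SS Y) fun S hS => ⟨(K.mem_SS.1 hS).1.1, (K.mem_SS.1 hS).2⟩
  have h3 : 0 ≤ C * Y * (1 + Real.log Y) * ((k + 2) / 2 ^ k) := by positivity
  calc _ ≤ C * Y * (1 + Real.log Y) * ((k + 2) / 2 ^ k) * (64 * (1 + Real.log Y)) :=
        mul_le_mul_of_nonneg_left h2 h3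
    _ = _ := by ring

theorem sum_gB {C : ℝ} (hC : CntP C) (B k R : ℕ) {Y : ℕ} (hY : 1 ≤ Y) {e : ℝ} (he : 0 ≤ e)
    (h : ∀ T : Finset Ei, (∀ π ∈ T, Pq π) → nm T ≤ 2 ^ R →
    ∀ r ≤ R, |(((TS T (bT T) (Y / nm T)).filter (Gw T r)).card : ℝ) -
      cr r * ((TS T (bT T) (Y / nm T)).card : ℝ)| ≤ e) :
    ∑ p ∈ PP Y, gB B p.1 p.2 ≤
      ((B + 2) * (1 / 8) ^ B + (B + k) * (1 / 8) ^ R) * (4 * C ^ 2 * Y) +
      C * 2 ^ R * ((B + k) * ((R + 1) * e)) + k * (4 * C ^ 2 * Y * (1 / 2) ^ R) +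
      64 * C * Y * (1 + Real.log Y) ^ 2 * ((k + 2) / 2 ^ k) := by
  have hC1 := hC.one
  rw [sum_Tw Y (gB B)]
  have hsplit : ∀ T ∈ SS Y, ∑ S ∈ TS T (bT T) (Y / nm T), gB B T S =
      ∑ S ∈ (TS T (bT T) (Y / nm T)).filter (fun S => S.card ≤ k), gB B T S +
      ∑ S ∈ (TS T (bT T) (Y / nm T)).filter (fun S => ¬ S.card ≤ k), gB B T S :=
    fun T _ => (Finset.sum_filter_add_sum_filter_not _ _ _).symm
  rw [Finset.sum_congr rfl hsplit, Finset.sum_add_distrib]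
  refine add_le_add ?_ (sum_big hC B k hY)
  rw [← Finset.sum_filter_not_add_sum_filter (SS Y) (fun T => 2 ^ R ≤ nm T)]
  refine add_le_add ?_ ?_
  · have h1 : ∀ T ∈ (SS Y).filter (fun T => ¬ 2 ^ R ≤ nm T),
      ∑ S ∈ (TS T (bT T) (Y / nm T)).filter (fun S => S.card ≤ k), gB B T S ≤
        ((B + 2) * (1 / 8) ^ B + (B + k) * (1 / 8) ^ R) *
          ((TS T (bT T) (Y / nm T)).card : ℝ) + (B + k) * ((R + 1) * e) := by
      intro T hT
      rw [Finset.mem_filter] at hT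
      exact sum_gt he (h T (K.mem_SS.1 hT.1).1.1 (not_le.1 hT.2).le) B k
    refine (Finset.sum_le_sum h1).trans ?_
    rw [Finset.sum_add_distrib, ← Finset.mul_sum, Finset.sum_const, nsmul_eq_mul]
    refine add_le_add ?_ ?_
    · refine mul_le_mul_of_nonneg_left ?_ (by positivity)
      have h2 := sum_TS hC Y 0
      rw [pow_zero, pow_zero, mul_one] at h2
      refine le_trans (Finset.sum_le_sum_of_subset_of_nonneg ?_ fun _ _ _ => Nat.cast_nonneg _) h2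
      intro T hT
      rw [Finset.mem_filter] at hT ⊢
      exact ⟨hT.1, nm_pos (K.mem_SS.1 hT.1).1.1⟩
    · refine mul_le_mul_of_nonneg_right ?_ (by positivity)
      have h3 : ((SS Y).filter (fun T => ¬ 2 ^ R ≤ nm T)).card ≤ (SS (2 ^ R)).card := by
        refine Finset.card_le_card fun T hT => ?_
        rw [Finset.mem_filter] at hT
        exact K.mem_SS.2 ⟨(K.mem_SS.1 hT.1).1, (not_le.1 hT.2).le⟩
      refine le_trans (Nat.cast_le.2 h3) ((hC.all (2 ^ R) Nat.one_le_two_pow).trans ?_)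
      push_cast
      exact le_rfl
  · have h1 : ∀ T ∈ (SS Y).filter (fun T => 2 ^ R ≤ nm T),
      ∑ S ∈ (TS T (bT T) (Y / nm T)).filter (fun S => S.card ≤ k), gB B T S ≤
        k * ((TS T (bT T) (Y / nm T)).card : ℝ) := by
      intro T hT
      calc _ ≤ ∑ S ∈ (TS T (bT T) (Y / nm T)).filter (fun S => S.card ≤ k), (k : ℝ) := by
            refine Finset.sum_le_sum fun S hS => (gB_le B T S).trans ?_
            exact_mod_cast (Finset.mem_filter.1 hS).2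
        _ = (((TS T (bT T) (Y / nm T)).filter (fun S => S.card ≤ k)).card : ℝ) * k := by
            rw [Finset.sum_const, nsmul_eq_mul]
        _ ≤ _ := by
            rw [mul_comm]
            refine mul_le_mul_of_nonneg_left ?_ (Nat.cast_nonneg _)
            exact_mod_cast Finset.card_filter_le _ _
    refine (Finset.sum_le_sum h1).trans ?_
    rw [← Finset.mul_sum]
    exact mul_le_mul_of_nonneg_left (sum_TS hC Y R) (Nat.cast_nonneg _)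

theorem kk_Rr {Y : ℕ} (h2 : 2 ≤ eL Y) : (kk Y : ℝ) ≤ 1067 * ((Rr Y : ℝ) + 1) := by
  have h1 := kk_le (show 1 ≤ eL Y by linarith)
  have h3 := Rr_gt Y
  have h4 : (0 : ℝ) ≤ Rr Y := Nat.cast_nonneg _
  linarith

theorem num2 (R : ℕ) : (2 : ℝ) ^ R * Real.exp (-2 * (R : ℝ)) ≤ (1 / 2) ^ R := by
  have h : (4 : ℝ) ≤ Real.exp 2 := by
    have h1 : (2 : ℝ) ≤ Real.exp 1 := by
      have := Real.add_one_le_exp (1 : ℝ)
      linarith
    have h2 : Real.exp 2 = Real.exp 1 * Real.exp 1 := by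
      rw [← Real.exp_add]
      norm_num
    rw [h2]
    nlinarith
  have h3 : Real.exp (-2 * (R : ℝ)) = (Real.exp (-2)) ^ R := by
    rw [← Real.exp_nat_mul]
    congr 1
    ring
  rw [h3, ← mul_pow]
  refine pow_le_pow_left₀ (by positivity) ?_ R
  rw [Real.exp_neg, ← div_eq_mul_inv, div_le_div_iff₀ (Real.exp_pos _) (by norm_num)]
  linarith

theorem num3 {Y : ℕ} (h2 : 2 ≤ eL Y) :
    (1 + Real.log Y) ^ 2 * (1 / 2 ^ kk Y) ≤ 4 * (1 / 2) ^ Rr Y := by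
  have h1 := one_add_log (X := Y) (by linarith)
  have hl := Real.log_natCast_nonneg Y
  have hk := kk_ge Y
  have hR := Rr_le (show 1 ≤ eL Y by linarith)
  have hR0 : (0 : ℝ) ≤ Rr Y := Nat.cast_nonneg _
  have h3 : (1 + Real.log Y) ^ 2 ≤ 4 * Real.exp (2 * eL Y) := by
    have e : 4 * Real.exp (2 * eL Y) = (2 * Real.exp (eL Y)) ^ 2 := by
      rw [mul_pow, ← Real.exp_nat_mul]
      norm_num
    rw [e]
    gcongr
  have h4 : Real.exp (2 * eL Y) * 2 ^ Rr Y ≤ 2 ^ kk Y := by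
    have g1 := two_pow_le (Rr Y)
    have g2 : (2 : ℝ) ^ kk Y = Real.exp (kk Y * Real.log 2) := by
      rw [Real.exp_nat_mul, Real.exp_log (by norm_num)]
    have g3 := Real.log_two_gt_d9
    rw [g2]
    calc Real.exp (2 * eL Y) * 2 ^ Rr Y ≤ Real.exp (2 * eL Y) * Real.exp (Rr Y) := by gcongr
      _ = Real.exp (2 * eL Y + Rr Y) := (Real.exp_add _ _).symm
      _ ≤ _ := Real.exp_le_exp.2 (by nlinarith)
  have p2 : (0 : ℝ) < 2 ^ Rr Y := by positivity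
  have pk : (0 : ℝ) < 2 ^ kk Y := by positivity
  calc (1 + Real.log Y) ^ 2 * (1 / 2 ^ kk Y) ≤ 4 * Real.exp (2 * eL Y) * (1 / 2 ^ kk Y) := by
        gcongr
    _ = 4 * (Real.exp (2 * eL Y) / 2 ^ kk Y) := by ring
    _ ≤ 4 * (1 / 2 ^ Rr Y) := by
        refine mul_le_mul_of_nonneg_left ?_ (by norm_num)
        rw [div_le_div_iff₀ pk p2]
        linarith
    _ = _ := by rw [one_div_pow]

theorem fin_num {C : ℝ} (hC1 : 1 ≤ C) (B : ℕ) {Y : ℕ} (h2 : 2 ≤ eL Y) :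
    ((B + 2) * (1 / 8) ^ B + (B + kk Y) * (1 / 8) ^ Rr Y) * (4 * C ^ 2 * Y) +
      C * 2 ^ Rr Y * ((B + kk Y) * ((Rr Y + 1) * (Y * Real.exp (-2 * (Rr Y : ℝ))))) +
      kk Y * (4 * C ^ 2 * Y * (1 / 2) ^ Rr Y) +
      64 * C * Y * (1 + Real.log Y) ^ 2 * ((kk Y + 2) / 2 ^ kk Y) ≤
    (4 * C ^ 2 * ((B + 2) * (1 / 8) ^ B) +
      (4 * C ^ 2 * (B + 1067) + C * (B + 1067) + 4 * C ^ 2 * 1067 + 256 * 1069 * C) *
        (((Rr Y : ℝ) + 1) ^ 2 * (1 / 2) ^ Rr Y)) * Y := by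
  have hk := kk_Rr h2
  have e2 := num2 (Rr Y)
  have e3 := num3 h2
  have e8 : (1 / 8 : ℝ) ^ Rr Y ≤ (1 / 2) ^ Rr Y := by gcongr; norm_num
  have hk0 : (0 : ℝ) ≤ kk Y := Nat.cast_nonneg _
  have hR0 : (0 : ℝ) ≤ Rr Y := Nat.cast_nonneg _
  have hY0 : (0 : ℝ) ≤ Y := Nat.cast_nonneg _
  have hB0 : (0 : ℝ) ≤ B := Nat.cast_nonneg _
  have ha0 : (0 : ℝ) ≤ (1 / 2) ^ Rr Y := by positivity
  have h80 : (0 : ℝ) ≤ (1 / 8) ^ Rr Y := by positivity
  obtain ⟨ρ, hρ⟩ : ∃ ρ : ℝ, ρ = Rr Y := ⟨_, rfl⟩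
  obtain ⟨κ, hκ⟩ : ∃ κ : ℝ, κ = kk Y := ⟨_, rfl⟩
  obtain ⟨a, ha⟩ : ∃ a : ℝ, a = (1 / 2) ^ Rr Y := ⟨_, rfl⟩
  obtain ⟨a8, ha8⟩ : ∃ a8 : ℝ, a8 = (1 / 8) ^ Rr Y := ⟨_, rfl⟩
  rw [← hρ, ← hκ] at hk
  rw [← hρ, ← ha] at e2
  rw [← ha] at e3 ha0
  rw [← ha, ← ha8] at e8
  rw [← hρ] at hR0
  rw [← hκ] at hk0
  rw [← ha8] at h80
  rw [← hρ, ← hκ, ← ha, ← ha8]
  have s1 : ρ + 1 ≤ (ρ + 1) ^ 2 := by nlinarith
  have f2 : (B + κ) ≤ (B + 1067) * (ρ + 1) := by nlinarith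
  have f1 : (B + κ) ≤ (B + 1067) * (ρ + 1) ^ 2 := f2.trans (by gcongr)
  have f2' : (B + κ) * (ρ + 1) ≤ (B + 1067) * (ρ + 1) ^ 2 := by
    calc (B + κ) * (ρ + 1) ≤ (B + 1067) * (ρ + 1) * (ρ + 1) := by gcongr
      _ = _ := by ring
  have f3 : κ ≤ 1067 * (ρ + 1) ^ 2 := hk.trans (by gcongr)
  have f4 : κ + 2 ≤ 1069 * (ρ + 1) ^ 2 := by linarith
  have t1 : (B + κ) * a8 * (4 * C ^ 2 * Y) ≤
      (B + 1067) * (ρ + 1) ^ 2 * a * (4 * C ^ 2 * Y) := by gcongr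
  have t2 : C * 2 ^ Rr Y * ((B + κ) * ((ρ + 1) * (Y * Real.exp (-2 * ρ)))) ≤
      C * Y * ((B + 1067) * (ρ + 1) ^ 2) * a := by
    calc C * 2 ^ Rr Y * ((B + κ) * ((ρ + 1) * (Y * Real.exp (-2 * ρ)))) =
          C * Y * ((B + κ) * (ρ + 1)) * (2 ^ Rr Y * Real.exp (-2 * ρ)) := by ring
      _ ≤ _ := by gcongr
  have t3 : κ * (4 * C ^ 2 * Y * a) ≤ 1067 * (ρ + 1) ^ 2 * (4 * C ^ 2 * Y * a) := by gcongr
  have t4 : 64 * C * Y * (1 + Real.log Y) ^ 2 * ((κ + 2) / 2 ^ kk Y) ≤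
      64 * C * Y * (1069 * (ρ + 1) ^ 2) * (4 * a) := by
    calc 64 * C * Y * (1 + Real.log Y) ^ 2 * ((κ + 2) / 2 ^ kk Y) =
          64 * C * Y * (κ + 2) * ((1 + Real.log Y) ^ 2 * (1 / 2 ^ kk Y)) := by ring
      _ ≤ _ := by gcongr
  calc _ = (B + 2) * (1 / 8) ^ B * (4 * C ^ 2 * Y) + (B + κ) * a8 * (4 * C ^ 2 * Y) +
        C * 2 ^ Rr Y * ((B + κ) * ((ρ + 1) * (Y * Real.exp (-2 * ρ)))) +
        κ * (4 * C ^ 2 * Y * a) +
        64 * C * Y * (1 + Real.log Y) ^ 2 * ((κ + 2) / 2 ^ kk Y) := by ring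
    _ ≤ (B + 2) * (1 / 8) ^ B * (4 * C ^ 2 * Y) +
        (B + 1067) * (ρ + 1) ^ 2 * a * (4 * C ^ 2 * Y) +
        C * Y * ((B + 1067) * (ρ + 1) ^ 2) * a +
        1067 * (ρ + 1) ^ 2 * (4 * C ^ 2 * Y * a) +
        64 * C * Y * (1069 * (ρ + 1) ^ 2) * (4 * a) := by linarith
    _ = _ := by ring

theorem pow_lim : Tendsto (fun n : ℕ => ((n : ℝ) + 1) ^ 2 * (1 / 2) ^ n) atTop (nhds 0) := by
  have h1 := tendsto_pow_const_mul_const_pow_of_lt_one 2 (r := (1 / 2 : ℝ)) (by norm_num)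
    (by norm_num)
  have h2 := ((tendsto_add_atTop_iff_nat 1).2 h1).const_mul 2
  rw [mul_zero] at h2
  refine h2.congr fun n => ?_
  push_cast
  rw [pow_succ (1 / 2 : ℝ) n]
  ring

/-- **the sum of the large dimensions** -/
theorem sum_gB' : ∃ A : ℝ, 0 < A ∧ ∀ (B : ℕ) (ε : ℝ), 0 < ε → ∀ᶠ Y : ℕ in atTop,
    ∑ p ∈ PP Y, gB B p.1 p.2 ≤ (A * ((B + 2) * (1 / 8) ^ B) + ε) * Y := by
  obtain ⟨C, hC⟩ := N.t_CNT
  have hC1 := hC.one
  refine ⟨4 * C ^ 2, by positivity, fun B ε hε => ?_⟩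
  have h1 := (pow_lim.comp Rr_tendsto).const_mul
    (4 * C ^ 2 * (B + 1067) + C * (B + 1067) + 4 * C ^ 2 * 1067 + 256 * 1069 * C)
  rw [mul_zero] at h1
  filter_upwards [h1.eventually (gt_mem_nhds hε), ev_T, ev_eL 2] with Y h2 h3 h4
  have hY : 1 ≤ Y := X_pos (by linarith)
  have h5 := sum_gB hC B (kk Y) (Rr Y) hY (e := Y * Real.exp (-2 * (Rr Y : ℝ)))
    (by positivity) h3
  refine h5.trans ((fin_num hC1 B h4).trans ?_)
  refine mul_le_mul_of_nonneg_right ?_ (Nat.cast_nonneg _)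
  have h6 : (4 * C ^ 2 * (B + 1067) + C * (B + 1067) + 4 * C ^ 2 * 1067 + 256 * 1069 * C) *
        (((Rr Y : ℝ) + 1) ^ 2 * (1 / 2) ^ Rr Y) < ε := h2
  linarith

end Pool.Agent.X253.CF
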