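import Mathlib
import Pool.Agent.X253.CF.AvD

/-!
# Project CF: the average of the dimensions
-/

set_option autoImplicit false
set_option linter.unusedVariables false

open scoped Classical
open Finset Filter

namespace Pool.Agent.X253.CF

open NumberField WeierstrassCurve
open Pool.Agent.Y692.QS (Ei w nr toC)
open Pool.Agent.Y715.T.RecG (Pq)
open Pool.Agent.Y699.E (nrm QB nrm_cast)
open Pool.Agent.XL6 (SelK prob finalXL)
open Pool.Agent.Y696.CTK (ED)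
open Pool.Agent.Y703.XL (cr cr_pos cr_le t_C9 t_LA)
open Pool.Agent.Y703.XL.Inf (killed SelInf sel_card sel_triv)
open Pool.Agent.X253.C3 (ClsC)

theorem Gw_iff {T S : Finset Ei} (hT : T ⊆ S) (h9 : (nm T * nm S) % 9 ≠ 1) (r : ℕ) :
    Gw T r S ↔ rW T S = r := by
  obtain ⟨s, hs⟩ := ex_Gw hT h9
  have h1 : rW T S = s := rW_of hs
  constructor
  · exact rW_of
  · intro h
    rw [← h, h1]
    exact hs

theorem split_avg (Y B : ℕ) : ∑ p ∈ PP Y, (rW p.1 p.2 : ℝ) =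
    ∑ r ∈ range (B + 1), (r : ℝ) * (((PP Y).filter fun p => Gw p.1 r p.2).card : ℝ) +
    ∑ p ∈ PP Y, gB B p.1 p.2 := by
  have h1 : ∀ p ∈ PP Y, (rW p.1 p.2 : ℝ) =
      ∑ r ∈ range (B + 1), (if Gw p.1 r p.2 then (r : ℝ) else 0) + gB B p.1 p.2 := by
    intro p hp
    obtain ⟨hT, hS, h9⟩ := mem_PP hp
    have h2 : ∑ r ∈ range (B + 1), (if Gw p.1 r p.2 then (r : ℝ) else 0) =
        ∑ r ∈ range (B + 1), (if rW p.1 p.2 = r then (r : ℝ) else 0) := by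
      refine Finset.sum_congr rfl fun r _ => ?_
      have h3 := Gw_iff hT h9 r
      by_cases h4 : Gw p.1 r p.2
      · rw [if_pos h4, if_pos (h3.1 h4)]
      · rw [if_neg h4, if_neg fun h5 => h4 (h3.2 h5)]
    rw [h2, Finset.sum_ite_eq]
    unfold gB
    by_cases h : B < rW p.1 p.2
    · rw [if_pos h, if_neg (by rw [Finset.mem_range]; omega), zero_add]
    · rw [if_neg h, if_pos (by rw [Finset.mem_range]; omega), add_zero]
  rw [Finset.sum_congr rfl h1, Finset.sum_add_distrib, Finset.sum_comm]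
  congr 1
  refine Finset.sum_congr rfl fun r _ => ?_
  rw [← Finset.sum_filter, Finset.sum_const, nsmul_eq_mul, mul_comm]

theorem gB_nonneg (B : ℕ) (T S : Finset Ei) : 0 ≤ gB B T S := by
  unfold gB
  split_ifs
  · exact Nat.cast_nonneg _
  · exact le_rfl

theorem B_lim (A : ℝ) : Tendsto (fun B : ℕ => A * (((B : ℝ) + 2) * (1 / 8) ^ B)) atTop
    (nhds 0) := by
  have h1 := tendsto_pow_const_mul_const_pow_of_lt_one 1 (r := (1 / 8 : ℝ)) (by norm_num)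
    (by norm_num)
  have h2 := (tendsto_pow_atTop_nhds_zero_of_lt_one (r := (1 / 8 : ℝ)) (by norm_num)
    (by norm_num)).const_mul 2
  have h3 := (h1.add h2).const_mul A
  rw [mul_zero, add_zero, mul_zero] at h3
  refine h3.congr fun B => ?_
  ring

/-- **the average of the dimensions** -/
theorem avg_lim : Tendsto (fun Y : ℕ => (∑ p ∈ PP Y, (rW p.1 p.2 : ℝ)) / ((PP Y).card : ℝ))
    atTop (nhds mu) := by
  obtain ⟨A, hA, hg⟩ := sum_gB'
  obtain ⟨c₀, X₀, hc₀, hlow⟩ := PP_low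
  rw [Metric.tendsto_nhds]
  intro η hη
  have hB1 : Tendsto (fun B : ℕ => ∑ r ∈ range (B + 1), (r : ℝ) * cr r) atTop (nhds mu) :=
    (tendsto_add_atTop_iff_nat (f := fun B : ℕ => ∑ r ∈ range B, (r : ℝ) * cr r) 1).2
      summable_mu.hasSum.tendsto_sum_nat
  have hη6 : 0 < η * c₀ / 6 := by positivity
  obtain ⟨B, hb1, hb2⟩ := ((hB1.eventually (Metric.ball_mem_nhds mu (show 0 < η / 3 by
    positivity))).and ((B_lim A).eventually (gt_mem_nhds hη6))).exists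
  replace hb1 := Metric.mem_ball.1 hb1
  rw [Real.dist_eq] at hb1
  have hlim : Tendsto (fun Y : ℕ => ∑ r ∈ range (B + 1),
      (r : ℝ) * ((((PP Y).filter fun p => Gw p.1 r p.2).card : ℝ) / ((PP Y).card : ℝ))) atTop
      (nhds (∑ r ∈ range (B + 1), (r : ℝ) * cr r)) :=
    tendsto_finsetSum _ fun r _ => (t_pairs r).const_mul _
  filter_upwards [hlim.eventually (Metric.ball_mem_nhds _ (show 0 < η / 3 by positivity)),
    hg B (η * c₀ / 6) hη6, eventually_ge_atTop X₀, eventually_ge_atTop 1] with Y h1 h2 h3 h4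
  replace h1 := Metric.mem_ball.1 h1
  rw [Real.dist_eq] at h1
  have hY : (0 : ℝ) < Y := by exact_mod_cast h4
  have hlo := hlow Y h3
  have hpos : (0 : ℝ) < ((PP Y).card : ℝ) := lt_of_lt_of_le (by positivity) hlo
  rw [Real.dist_eq, split_avg Y B, add_div, Finset.sum_div]
  have e1 : ∑ r ∈ range (B + 1),
      (r : ℝ) * (((PP Y).filter fun p => Gw p.1 r p.2).card : ℝ) / ((PP Y).card : ℝ) =
      ∑ r ∈ range (B + 1),
      (r : ℝ) * ((((PP Y).filter fun p => Gw p.1 r p.2).card : ℝ) / ((PP Y).card : ℝ)) :=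
    Finset.sum_congr rfl fun r _ => mul_div_assoc _ _ _
  rw [e1]
  have h5 : (∑ p ∈ PP Y, gB B p.1 p.2) / ((PP Y).card : ℝ) ≤ η / 3 := by
    rw [div_le_iff₀ hpos]
    have g1 : (A * ((B + 2) * (1 / 8) ^ B) + η * c₀ / 6) * (Y : ℝ) ≤
        (η * c₀ / 6 + η * c₀ / 6) * Y := by
      refine mul_le_mul_of_nonneg_right ?_ hY.le
      have : A * (((B : ℝ) + 2) * (1 / 8) ^ B) < η * c₀ / 6 := hb2
      linarith
    have g2 : (η * c₀ / 6 + η * c₀ / 6) * (Y : ℝ) = η / 3 * (c₀ * Y) := by ring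
    have g3 : η / 3 * (c₀ * Y) ≤ η / 3 * ((PP Y).card : ℝ) :=
      mul_le_mul_of_nonneg_left hlo (by positivity)
    linarith
  have h6 : 0 ≤ (∑ p ∈ PP Y, gB B p.1 p.2) / ((PP Y).card : ℝ) :=
    div_nonneg (Finset.sum_nonneg fun p _ => gB_nonneg B p.1 p.2) hpos.le
  rw [abs_lt] at h1 hb1 ⊢
  constructor <;> linarith [h1.1, h1.2, hb1.1, hb1.2]

theorem PP_iff (X : ℕ) (p : Finset Ei × Finset Ei) : p ∈ PP X ↔ p.1 ⊆ p.2 ∧
    (∀ π ∈ p.2, Pq π) ∧ nm p.1 * nm p.2 ≤ X ∧ (nm p.1 * nm p.2) % 9 ≠ 1 := by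
  unfold PP
  rw [Finset.mem_filter, Finset.mem_product, Pool.Agent.X253.CF.K.mem_SS,
    Pool.Agent.X253.CF.K.mem_SS]
  constructor
  · rintro ⟨⟨h1, h2⟩, h3, h4, h5⟩
    exact ⟨h3, h2.1.1, h4, h5⟩
  · rintro ⟨h3, h2, h4, h5⟩
    have hTp : ∀ π ∈ p.1, Pq π := fun π hπ => h2 π (h3 hπ)
    have g1 := nm_pos h2
    have g2 := nm_pos hTp
    refine ⟨⟨⟨⟨hTp, trivial⟩, ?_⟩, ⟨⟨h2, trivial⟩, ?_⟩⟩, h3, h4, h5⟩
    · exact (Nat.le_mul_of_pos_right _ g1).trans h4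
    · exact (Nat.le_mul_of_pos_left _ g2).trans h4

theorem avg_tr {α β : Type} (P : Finset α) (f : α → β) (hf : Set.InjOn f (P : Set α))
    (g : β → ℝ) (h : α → ℝ) (hgh : ∀ p ∈ P, g (f p) = h p) :
    (∑ D ∈ P.image f, g D) / ((P.image f).card : ℝ) = (∑ p ∈ P, h p) / (P.card : ℝ) := by
  rw [Finset.sum_image hf, Finset.card_image_of_injOn hf, Finset.sum_congr rfl hgh]

section
variable {K : Type} [Field K] [NumberField K] (j : Ei ≃+* 𝓞 K)

theorem set_S (hj : ∀ z : Ei, Algebra.norm ℤ (j z) = nr z) (X : ℕ) :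
    {D : 𝓞 K | Algebra.norm ℤ D ≤ X ∧ ClsC D} =
      (((PP X).image fun p : Finset Ei × Finset Ei => j (DD p.1 p.2) : Finset (𝓞 K)) :
        Set (𝓞 K)) := by
  ext D
  rw [Finset.mem_coe, Finset.mem_image]
  constructor
  · rintro ⟨h1, h2⟩
    obtain ⟨z, rfl⟩ := j.surjective D
    obtain ⟨T, S, hT, hS, h9, rfl⟩ := cls_ex ((clsC_iff j hj z).1 h2)
    refine ⟨(T, S), (PP_iff X _).2 ⟨hT, hS, ?_, h9⟩, rfl⟩
    rw [hj, ← nrm_cast, nrm_DD] at h1
    exact_mod_cast h1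
  · rintro ⟨⟨T, S⟩, hp, rfl⟩
    obtain ⟨hT, hS, hX, h9⟩ := (PP_iff X _).1 hp
    refine ⟨?_, (clsC_iff j hj _).2 (cls_DD hT hS h9)⟩
    rw [hj, ← nrm_cast, nrm_DD]
    exact_mod_cast hX

theorem inj_S (X : ℕ) : Set.InjOn (fun p : Finset Ei × Finset Ei => j (DD p.1 p.2))
    ((PP X : Finset (Finset Ei × Finset Ei)) : Set (Finset Ei × Finset Ei)) := by
  rintro ⟨T, S⟩ hp ⟨T', S'⟩ hp' h
  rw [Finset.mem_coe] at hp hp'
  obtain ⟨hT, hS, -, -⟩ := (PP_iff X _).1 hp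
  obtain ⟨hT', hS', -, -⟩ := (PP_iff X _).1 hp'
  obtain ⟨e1, e2⟩ := DD_inj hT hS hT' hS' (j.injective h)
  exact Prod.ext e1 e2

theorem log_S {ω : K} (hω : ω ^ 2 + ω + 1 = 0) {T S : Finset Ei} (hT : T ⊆ S)
    (hS : ∀ π ∈ S, Pq π) (h9 : (nm T * nm S) % 9 ≠ 1) :
    (killed ω (j (DD T S) : K)).ncard = 3 ^ rW T S ∧
      Module.finrank ℤ (ED (j (DD T S) : K)).toAffine.Point ≤ 2 * rW T S := by
  obtain ⟨⟨r, h3, h4⟩, -, h5⟩ := one_CF (K := K) j hω hT hS h9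
  have h6 : rW T S = r := rW_of ((h5 r).1 h3)
  rw [h6]
  exact ⟨h3, h4⟩

end

/-- the dimension of the group of the classes killed by `√-3` -/
noncomputable def dimK {K : Type} [Field K] [NumberField K] (ω : K) (D : 𝓞 K) : ℕ :=
  Nat.log 3 (killed ω (D : K)).ncard

theorem dimK_of {K : Type} [Field K] [NumberField K] {ω : K} {D : 𝓞 K} {r : ℕ}
    (h : (killed ω (D : K)).ncard = 3 ^ r) : dimK ω D = r := by
  unfold dimK
  rw [h, Nat.log_pow (by norm_num)]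

/-- **The average over `𝓞 K`.** -/
theorem avgCF (K : Type) [Field K] [NumberField K] [IsCyclotomicExtension {3} ℚ K] (ω : K)
    (hω : ω ^ 2 + ω + 1 = 0) : ∃ S : ℕ → Finset (𝓞 K),
    (∀ X : ℕ, {D : 𝓞 K | Algebra.norm ℤ D ≤ X ∧ ClsC D} = ((S X : Finset (𝓞 K)) : Set (𝓞 K))) ∧
    (∀ D : 𝓞 K, ClsC D → (killed ω (D : K)).ncard = 3 ^ dimK ω D ∧
      Module.finrank ℤ (ED (D : K)).toAffine.Point ≤ 2 * dimK ω D) ∧
    Tendsto (fun X : ℕ => (∑ D ∈ S X, (dimK ω D : ℝ)) / ((S X).card : ℝ)) atTop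
      (nhds mu) := by
  obtain ⟨⟨j, hj⟩, -⟩ := Pool.Agent.Y455.CTK.jex K
  refine ⟨fun X => (PP X).image fun p : Finset Ei × Finset Ei => j (DD p.1 p.2),
    set_S j hj, ?_, ?_⟩
  · intro D hD
    obtain ⟨z, rfl⟩ := j.surjective D
    obtain ⟨T, S, hT, hS, h9, rfl⟩ := cls_ex ((clsC_iff j hj z).1 hD)
    obtain ⟨h1, h2⟩ := log_S j hω hT hS h9
    have h3 := dimK_of h1
    rw [h3]
    exact ⟨h1, h2⟩
  · refine avg_lim.congr fun X => ?_
    refine (avg_tr (PP X) _ (inj_S j X) (fun D => (dimK ω D : ℝ)) _ fun p hp => ?_).symm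
    obtain ⟨hT, hS, h9⟩ := mem_PP hp
    have h3 := dimK_of (log_S j hω hT hS h9).1
    exact congrArg (fun n : ℕ => (n : ℝ)) h3

end Pool.Agent.X253.CF
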