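import Mathlib
import Pool.Agent.X253.CF.AvE

/-!
# Project CF: all the moments of the dimension
-/

set_option autoImplicit false
set_option linter.unusedVariables false

open scoped Classical
open Finset Filter

namespace Pool.Agent.X253.CF

open NumberField WeierstrassCurve
open Pool.Agent.Y692.QS (Ei w nr toC)
open Pool.Agent.Y715.T.RecG (Pq)
open Pool.Agent.Y699.E (nrm QB nrm_cast)
open Pool.Agent.Y703.CX (eL zz kk eL_tendsto logX_eq ev_eL kk_ge kk_le X_pos one_add_log lin_le)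
open Pool.Agent.Y696.CTK (ED)
open Pool.Agent.Y703.XL (cr cr_pos cr_le t_C9 t_LA)
open Pool.Agent.Y703.XL.Inf (killed)
open Pool.Agent.X253.C3 (ClsC)

/-- a pointwise inequality -/
theorem pwm (m B k n : ℕ) (hn : n ≤ k) : (if B < n then (n : ℝ) ^ m else 0) ≤
    ∑ R ∈ Finset.Ico B k, ((R : ℝ) + 1) ^ m * (if R < n then (1 : ℝ) else 0) := by
  have h0 : ∀ R ∈ Finset.Ico B k,
      (0 : ℝ) ≤ ((R : ℝ) + 1) ^ m * (if R < n then (1 : ℝ) else 0) := by
    intro R _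
    refine mul_nonneg (by positivity) ?_
    split_ifs <;> norm_num
  by_cases h : B < n
  · rw [if_pos h]
    have h1 : n - 1 ∈ Finset.Ico B k := by
      rw [Finset.mem_Ico]
      omega
    have h2 := Finset.single_le_sum h0 h1
    refine le_trans (le_of_eq ?_) h2
    rw [if_pos (by omega), mul_one]
    congr 1
    have h3 : ((n - 1 + 1 : ℕ) : ℝ) = n := by rw [Nat.sub_add_cancel (by omega)]
    push_cast at h3
    exact h3.symm
  · rw [if_neg h]
    exact Finset.sum_nonneg h0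

/-- the terms of the series -/
noncomputable def FF (q : ℝ) (m n : ℕ) : ℝ := ((n : ℝ) + 1) ^ m * q ^ n

theorem FF_nonneg {q : ℝ} (hq : 0 < q) (m n : ℕ) : 0 ≤ FF q m n := by
  unfold FF
  positivity

theorem summable_FF {q : ℝ} (hq : 0 < q) (hq1 : q < 1) (m : ℕ) : Summable (FF q m) := by
  have h1 := summable_pow_mul_geometric_of_norm_lt_one (R := ℝ) m (r := q) (by
    rw [Real.norm_eq_abs, abs_of_pos hq]
    exact hq1)
  have h2 := ((summable_nat_add_iff 1).2 h1).mul_right q⁻¹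
  refine h2.congr fun n => ?_
  unfold FF
  push_cast
  rw [pow_succ q n]
  field_simp

/-- the tail of the series -/
noncomputable def dl (m B : ℕ) : ℝ := ∑' i : ℕ, FF (1 / 8) m (i + B)

theorem dl_lim (m : ℕ) : Tendsto (dl m) atTop (nhds 0) := tendsto_sum_nat_add (FF (1 / 8) m)

theorem dl_ge (m B k : ℕ) : ∑ R ∈ Finset.Ico B k, FF (1 / 8) m R ≤ dl m B := by
  rw [Finset.sum_Ico_eq_sum_range]
  have h1 : Summable fun i : ℕ => FF (1 / 8) m (i + B) :=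
    (summable_nat_add_iff B).2 (summable_FF (by norm_num) (by norm_num) m)
  have h2 := h1.sum_le_tsum (range (k - B)) fun i _ => FF_nonneg (by norm_num) m (i + B)
  refine le_trans (le_of_eq ?_) h2
  exact Finset.sum_congr rfl fun i _ => by rw [add_comm]

theorem dl_nonneg (m B : ℕ) : 0 ≤ dl m B := tsum_nonneg fun i => FF_nonneg (by norm_num) m (i + B)

section one
variable {T : Finset Ei} {b X R₁ : ℕ} {e : ℝ}

theorem sum_gtm (m : ℕ) (he : 0 ≤ e) (h : ∀ r ≤ R₁, |(((TS T b X).filter (Gw T r)).card : ℝ) -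
      cr r * ((TS T b X).card : ℝ)| ≤ e) (B k : ℕ) :
    ∑ S ∈ (TS T b X).filter (fun S => S.card ≤ k),
      (if B < rW T S then (rW T S : ℝ) ^ m else 0) ≤
      (dl m B + k ^ (m + 1) * (1 / 8) ^ R₁) * ((TS T b X).card : ℝ) +
        k ^ (m + 1) * ((R₁ + 1) * e) := by
  have hN : (0 : ℝ) ≤ ((TS T b X).card : ℝ) := Nat.cast_nonneg _
  obtain ⟨f, hf⟩ : ∃ f : ℕ → ℝ, f = fun R => (((TS T b X).filter fun S => R < rW T S).card : ℝ) :=
    ⟨_, rfl⟩
  have hfb : ∀ R, f R ≤ (1 / 8) ^ R * ((TS T b X).card : ℝ) +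
      ((1 / 8) ^ R₁ * ((TS T b X).card : ℝ) + (R₁ + 1) * e) := fun R => by
    rw [hf]
    exact (cnt_gt' he h R).trans (le_of_eq (by ring))
  have hsum : ∀ R, ∑ S ∈ (TS T b X).filter (fun S => S.card ≤ k),
      (if R < rW T S then (1 : ℝ) else 0) ≤ f R := by
    intro R
    rw [← Finset.sum_filter, Finset.sum_const, nsmul_eq_mul, mul_one, hf]
    beta_reduce
    have : ((TS T b X).filter (fun S => S.card ≤ k)).filter (fun S => R < rW T S) ⊆
        (TS T b X).filter (fun S => R < rW T S) := by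
      intro S hS
      rw [Finset.mem_filter, Finset.mem_filter] at hS
      exact Finset.mem_filter.2 ⟨hS.1.1, hS.2⟩
    exact_mod_cast Finset.card_le_card this
  have g0 : (0 : ℝ) ≤ (1 / 8) ^ R₁ * ((TS T b X).card : ℝ) + (R₁ + 1) * e := by positivity
  calc _ ≤ ∑ S ∈ (TS T b X).filter (fun S => S.card ≤ k),
          ∑ R ∈ Finset.Ico B k, ((R : ℝ) + 1) ^ m * (if R < rW T S then (1 : ℝ) else 0) :=
        Finset.sum_le_sum fun S hS => pwm m B k _ ((rW_le T S).trans (Finset.mem_filter.1 hS).2)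
    _ = ∑ R ∈ Finset.Ico B k, ((R : ℝ) + 1) ^ m *
          ∑ S ∈ (TS T b X).filter (fun S => S.card ≤ k),
            (if R < rW T S then (1 : ℝ) else 0) := by
        rw [Finset.sum_comm]
        exact Finset.sum_congr rfl fun R _ => (Finset.mul_sum _ _ _).symm
    _ ≤ ∑ R ∈ Finset.Ico B k, (FF (1 / 8) m R * ((TS T b X).card : ℝ) +
          k ^ m * ((1 / 8) ^ R₁ * ((TS T b X).card : ℝ) + (R₁ + 1) * e)) := by
        refine Finset.sum_le_sum fun R hR => ?_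
        rw [Finset.mem_Ico] at hR
        have h1 : ((R : ℝ) + 1) ^ m ≤ k ^ m := by
          have : (R : ℝ) + 1 ≤ k := by exact_mod_cast hR.2
          gcongr
        have h2 : ((R : ℝ) + 1) ^ m * ∑ S ∈ (TS T b X).filter (fun S => S.card ≤ k),
            (if R < rW T S then (1 : ℝ) else 0) ≤ ((R : ℝ) + 1) ^ m *
            ((1 / 8) ^ R * ((TS T b X).card : ℝ) +
              ((1 / 8) ^ R₁ * ((TS T b X).card : ℝ) + (R₁ + 1) * e)) :=
          mul_le_mul_of_nonneg_left ((hsum R).trans (hfb R)) (by positivity)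
        refine h2.trans ?_
        have h3 := mul_le_mul_of_nonneg_right h1 g0
        unfold FF
        rw [mul_add, ← mul_assoc]
        linarith
    _ = (∑ R ∈ Finset.Ico B k, FF (1 / 8) m R) * ((TS T b X).card : ℝ) +
          ((k - B : ℕ) : ℝ) *
            (k ^ m * ((1 / 8) ^ R₁ * ((TS T b X).card : ℝ) + (R₁ + 1) * e)) := by
        rw [Finset.sum_add_distrib, ← Finset.sum_mul, Finset.sum_const, Nat.card_Ico,
          nsmul_eq_mul]
    _ ≤ dl m B * ((TS T b X).card : ℝ) +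
          k * (k ^ m * ((1 / 8) ^ R₁ * ((TS T b X).card : ℝ) + (R₁ + 1) * e)) := by
        have g2 : ((k - B : ℕ) : ℝ) ≤ k := by exact_mod_cast Nat.sub_le _ _
        have g1 := dl_ge m B k
        refine add_le_add (mul_le_mul_of_nonneg_right g1 hN)
          (mul_le_mul_of_nonneg_right g2 (by positivity))
    _ = _ := by ring

end one

/-- the bound -/
noncomputable def MM (m : ℕ) : ℝ := ∑' n : ℕ, FF (2 / 3) m n

theorem MM_ge (m n : ℕ) : ((n : ℝ) + 1) ^ m * (1 / 2) ^ n ≤ MM m * (3 / 4) ^ n := by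
  have h1 : FF (2 / 3) m n ≤ MM m :=
    (summable_FF (by norm_num) (by norm_num) m).le_tsum n fun i _ => FF_nonneg (by norm_num) m i
  have h2 : (1 / 2 : ℝ) ^ n = (2 / 3) ^ n * (3 / 4) ^ n := by
    rw [← mul_pow]
    norm_num
  have h3 : (0 : ℝ) ≤ (3 / 4) ^ n := by positivity
  rw [h2, ← mul_assoc]
  exact mul_le_mul_of_nonneg_right h1 h3

theorem MM_nonneg (m : ℕ) : 0 ≤ MM m := tsum_nonneg fun i => FF_nonneg (by norm_num) m i

/-- sets with many primes -/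
theorem many_summ (m : ℕ) {C : ℝ} (hC : CntP C) (X k : ℕ) (hX : 1 ≤ X) :
    ∑ S ∈ (SS X).filter (fun S => k < S.card), (S.card : ℝ) ^ m ≤
      C * (X * (1 + Real.log X)) * (4 * MM m * (3 / 4) ^ k) := by
  obtain ⟨L, hL⟩ : ∃ L : ℕ, L = (SS X).sup Finset.card := ⟨_, rfl⟩
  obtain ⟨f, hf⟩ : ∃ f : ℕ → ℝ, f = fun R => (((SS X).filter fun S => R < S.card).card : ℝ) :=
    ⟨_, rfl⟩
  have hA : (0 : ℝ) ≤ C * (X * (1 + Real.log X)) := by
    have h1 := hC.one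
    have h2 := Real.log_natCast_nonneg X
    positivity
  have hfb : ∀ R, f R ≤ C * (X * (1 + Real.log X)) * (1 / 2) ^ R := by
    intro R
    rw [hf, one_div, inv_pow, ← div_eq_mul_inv, le_div_iff₀ (by positivity)]
    exact hC.many X R hX
  have hsum : ∀ R, ∑ S ∈ SS X, (if R < S.card then (1 : ℝ) else 0) = f R := by
    intro R
    rw [← Finset.sum_filter, Finset.sum_const, nsmul_eq_mul, mul_one, hf]
  calc _ ≤ ∑ S ∈ SS X, ∑ R ∈ Finset.Ico k L,
          ((R : ℝ) + 1) ^ m * (if R < S.card then (1 : ℝ) else 0) := by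
        rw [Finset.sum_filter]
        exact Finset.sum_le_sum fun S hS => pwm m k L _ (by
            rw [hL]
            exact Finset.le_sup (f := Finset.card) hS)
    _ = ∑ R ∈ Finset.Ico k L, ((R : ℝ) + 1) ^ m * f R := by
        rw [Finset.sum_comm]
        exact Finset.sum_congr rfl fun R _ => by rw [← Finset.mul_sum, hsum]
    _ ≤ ∑ R ∈ Finset.Ico k L, C * (X * (1 + Real.log X)) * (MM m * (3 / 4) ^ R) := by
        refine Finset.sum_le_sum fun R _ => ?_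
        have h1 := mul_le_mul_of_nonneg_left (hfb R) (show (0 : ℝ) ≤ ((R : ℝ) + 1) ^ m by
          positivity)
        have h2 := mul_le_mul_of_nonneg_left (MM_ge m R) hA
        linarith
    _ = C * (X * (1 + Real.log X)) * (MM m * ∑ R ∈ Finset.Ico k L, (3 / 4 : ℝ) ^ R) := by
        rw [Finset.mul_sum, Finset.mul_sum]
    _ ≤ C * (X * (1 + Real.log X)) * (MM m * (4 * (3 / 4) ^ k)) := by
        refine mul_le_mul_of_nonneg_left (mul_le_mul_of_nonneg_left ?_ (MM_nonneg m)) hA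
        rcases le_total k L with hBk | hBk
        · have := geom_sum_Ico_le_of_lt_one (m := k) (n := L) (x := (3 / 4 : ℝ))
            (by norm_num) (by norm_num)
          refine this.trans (le_of_eq ?_)
          ring
        · rw [Finset.Ico_eq_empty_of_le hBk, Finset.sum_empty]
          positivity
    _ = _ := by ring

/-- the power of the dimension, if it is larger than `B` -/
noncomputable def gBm (m B : ℕ) (T S : Finset Ei) : ℝ :=
  if B < rW T S then (rW T S : ℝ) ^ m else 0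

theorem gBm_le (m B : ℕ) (T S : Finset Ei) : gBm m B T S ≤ (S.card : ℝ) ^ m := by
  unfold gBm
  split_ifs
  · have : (rW T S : ℝ) ≤ S.card := by exact_mod_cast rW_le T S
    gcongr
  · positivity

theorem gBm_nonneg (m B : ℕ) (T S : Finset Ei) : 0 ≤ gBm m B T S := by
  unfold gBm
  split_ifs <;> positivity

theorem sum_bigm (m : ℕ) {C : ℝ} (hC : CntP C) (B k : ℕ) {Y : ℕ} (hY : 1 ≤ Y) :
    ∑ T ∈ SS Y, ∑ S ∈ (TS T (bT T) (Y / nm T)).filter (fun S => ¬ S.card ≤ k),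
      gBm m B T S ≤ 64 * C * Y * (1 + Real.log Y) ^ 2 * (4 * MM m * (3 / 4) ^ k) := by
  have hC1 := hC.one
  have hM := MM_nonneg m
  have hl := Real.log_natCast_nonneg Y
  have h1 : ∀ T ∈ SS Y,
      ∑ S ∈ (TS T (bT T) (Y / nm T)).filter (fun S => ¬ S.card ≤ k), gBm m B T S ≤
      C * Y * (1 + Real.log Y) * (4 * MM m * (3 / 4) ^ k) * (1 / (nm T : ℝ)) := by
    intro T hT
    have hT' := K.mem_SS.1 hT
    have hp := nm_pos hT'.1.1
    have hp' : (0 : ℝ) < nm T := by exact_mod_cast hp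
    have hX1 : 1 ≤ Y / nm T := (Nat.one_le_div_iff hp).2 hT'.2
    have hXp : (0 : ℝ) < ((Y / nm T : ℕ) : ℝ) := by exact_mod_cast hX1
    calc _ ≤ ∑ S ∈ (TS T (bT T) (Y / nm T)).filter (fun S => ¬ S.card ≤ k),
            (S.card : ℝ) ^ m :=
          Finset.sum_le_sum fun S _ => gBm_le m B T S
      _ ≤ ∑ S ∈ (SS (Y / nm T)).filter (fun S => k < S.card), (S.card : ℝ) ^ m := by
          refine Finset.sum_le_sum_of_subset_of_nonneg ?_ fun _ _ _ => by positivity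
          intro S hS
          rw [Finset.mem_filter] at hS ⊢
          obtain ⟨hS1, hS2⟩ := hS
          unfold TS at hS1
          rw [Finset.mem_filter] at hS1
          exact ⟨hS1.1, not_le.1 hS2⟩
      _ ≤ C * (((Y / nm T : ℕ) : ℝ) * (1 + Real.log ((Y / nm T : ℕ) : ℝ))) *
            (4 * MM m * (3 / 4) ^ k) := many_summ m hC _ k hX1
      _ ≤ C * (((Y : ℝ) / nm T) * (1 + Real.log Y)) * (4 * MM m * (3 / 4) ^ k) := by
          have g1 : ((Y / nm T : ℕ) : ℝ) ≤ (Y : ℝ) / nm T := Nat.cast_div_le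
          have g2 : Real.log ((Y / nm T : ℕ) : ℝ) ≤ Real.log Y :=
            Real.log_le_log hXp (by exact_mod_cast Nat.div_le_self _ _)
          have g3 : 0 ≤ Real.log ((Y / nm T : ℕ) : ℝ) := Real.log_natCast_nonneg _
          gcongr
      _ = _ := by ring
  refine (Finset.sum_le_sum h1).trans ?_
  rw [← Finset.mul_sum]
  have h2 := K.sum_inv hY (A := SS Y) fun S hS => ⟨(K.mem_SS.1 hS).1.1, (K.mem_SS.1 hS).2⟩
  have h3 : 0 ≤ C * Y * (1 + Real.log Y) * (4 * MM m * (3 / 4) ^ k) := by positivity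
  calc _ ≤ C * Y * (1 + Real.log Y) * (4 * MM m * (3 / 4) ^ k) * (64 * (1 + Real.log Y)) :=
        mul_le_mul_of_nonneg_left h2 h3
    _ = _ := by ring

theorem sum_gBm (m : ℕ) {C : ℝ} (hC : CntP C) (B k R : ℕ) {Y : ℕ} (hY : 1 ≤ Y) {e : ℝ}
    (he : 0 ≤ e)
    (h : ∀ T : Finset Ei, (∀ π ∈ T, Pq π) → nm T ≤ 2 ^ R →
    ∀ r ≤ R, |(((TS T (bT T) (Y / nm T)).filter (Gw T r)).card : ℝ) -
      cr r * ((TS T (bT T) (Y / nm T)).card : ℝ)| ≤ e) :
    ∑ p ∈ PP Y, gBm m B p.1 p.2 ≤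
      (dl m B + k ^ (m + 1) * (1 / 8) ^ R) * (4 * C ^ 2 * Y) +
      C * 2 ^ R * (k ^ (m + 1) * ((R + 1) * e)) + k ^ m * (4 * C ^ 2 * Y * (1 / 2) ^ R) +
      64 * C * Y * (1 + Real.log Y) ^ 2 * (4 * MM m * (3 / 4) ^ k) := by
  have hC1 := hC.one
  have hd := dl_nonneg m B
  rw [sum_Tw Y (gBm m B)]
  have hsplit : ∀ T ∈ SS Y, ∑ S ∈ TS T (bT T) (Y / nm T), gBm m B T S =
      ∑ S ∈ (TS T (bT T) (Y / nm T)).filter (fun S => S.card ≤ k), gBm m B T S +
      ∑ S ∈ (TS T (bT T) (Y / nm T)).filter (fun S => ¬ S.card ≤ k), gBm m B T S :=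
    fun T _ => (Finset.sum_filter_add_sum_filter_not _ _ _).symm
  rw [Finset.sum_congr rfl hsplit, Finset.sum_add_distrib]
  refine add_le_add ?_ (sum_bigm m hC B k hY)
  rw [← Finset.sum_filter_not_add_sum_filter (SS Y) (fun T => 2 ^ R ≤ nm T)]
  refine add_le_add ?_ ?_
  · have h1 : ∀ T ∈ (SS Y).filter (fun T => ¬ 2 ^ R ≤ nm T),
      ∑ S ∈ (TS T (bT T) (Y / nm T)).filter (fun S => S.card ≤ k), gBm m B T S ≤
        (dl m B + k ^ (m + 1) * (1 / 8) ^ R) *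
          ((TS T (bT T) (Y / nm T)).card : ℝ) + k ^ (m + 1) * ((R + 1) * e) := by
      intro T hT
      rw [Finset.mem_filter] at hT
      exact sum_gtm m he (h T (K.mem_SS.1 hT.1).1.1 (not_le.1 hT.2).le) B k
    refine (Finset.sum_le_sum h1).trans ?_
    rw [Finset.sum_add_distrib, ← Finset.mul_sum, Finset.sum_const, nsmul_eq_mul]
    refine add_le_add ?_ ?_
    · refine mul_le_mul_of_nonneg_left ?_ (by positivity)
      have h2 := sum_TS hC Y 0
      rw [pow_zero, pow_zero, mul_one] at h2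
      refine le_trans (Finset.sum_le_sum_of_subset_of_nonneg ?_ fun _ _ _ => Nat.cast_nonneg _) h2
      intro T hT
      rw [Finset.mem_filter] at hT ⊢
      exact ⟨hT.1, nm_pos (K.mem_SS.1 hT.1).1.1⟩
    · refine mul_le_mul_of_nonneg_right ?_ (by positivity)
      have h3 : ((SS Y).filter (fun T => ¬ 2 ^ R ≤ nm T)).card ≤ (SS (2 ^ R)).card := by
        refine Finset.card_le_card fun T hT => ?_
        rw [Finset.mem_filter] at hT
        exact K.mem_SS.2 ⟨(K.mem_SS.1 hT.1).1, (not_le.1 hT.2).le⟩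
      refine le_trans (Nat.cast_le.2 h3) ((hC.all (2 ^ R) Nat.one_le_two_pow).trans ?_)
      push_cast
      exact le_rfl
  · have h1 : ∀ T ∈ (SS Y).filter (fun T => 2 ^ R ≤ nm T),
      ∑ S ∈ (TS T (bT T) (Y / nm T)).filter (fun S => S.card ≤ k), gBm m B T S ≤
        k ^ m * ((TS T (bT T) (Y / nm T)).card : ℝ) := by
      intro T hT
      calc _ ≤ ∑ S ∈ (TS T (bT T) (Y / nm T)).filter (fun S => S.card ≤ k), (k : ℝ) ^ m := by
            refine Finset.sum_le_sum fun S hS => (gBm_le m B T S).trans ?_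
            have : (S.card : ℝ) ≤ k := by exact_mod_cast (Finset.mem_filter.1 hS).2
            gcongr
        _ = (((TS T (bT T) (Y / nm T)).filter (fun S => S.card ≤ k)).card : ℝ) * k ^ m := by
            rw [Finset.sum_const, nsmul_eq_mul]
        _ ≤ _ := by
            rw [mul_comm]
            refine mul_le_mul_of_nonneg_left ?_ (by positivity)
            exact_mod_cast Finset.card_filter_le _ _
    refine (Finset.sum_le_sum h1).trans ?_
    rw [← Finset.mul_sum]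
    exact mul_le_mul_of_nonneg_left (sum_TS hC Y R) (by positivity)

theorem exp_quarter : Real.exp (1 / 4) ≤ 4 / 3 := by
  have h1 : (Real.exp (1 / 4)) ^ 4 = Real.exp 1 := by
    rw [← Real.exp_nat_mul]
    norm_num
  have h2 := Real.exp_one_lt_d9
  refine le_of_pow_le_pow_left₀ (n := 4) (by norm_num) (by norm_num) ?_
  rw [h1]
  norm_num
  linarith

theorem num3m {Y : ℕ} (h2 : 2 ≤ eL Y) :
    (1 + Real.log Y) ^ 2 * (3 / 4) ^ kk Y ≤ 4 * (1 / 2) ^ Rr Y := by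
  have h1 := one_add_log (X := Y) (by linarith)
  have hl := Real.log_natCast_nonneg Y
  have hk := kk_ge Y
  have hR := Rr_le (show 1 ≤ eL Y by linarith)
  have hR0 : (0 : ℝ) ≤ Rr Y := Nat.cast_nonneg _
  have h3 : (1 + Real.log Y) ^ 2 ≤ 4 * Real.exp (2 * eL Y) := by
    have e : 4 * Real.exp (2 * eL Y) = (2 * Real.exp (eL Y)) ^ 2 := by
      rw [mul_pow, ← Real.exp_nat_mul]
      norm_num
    rw [e]
    gcongr
  have h4 : Real.exp (2 * eL Y) * 2 ^ Rr Y ≤ (4 / 3) ^ kk Y := by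
    have g1 := two_pow_le (Rr Y)
    have g2 : Real.exp (kk Y * (1 / 4)) ≤ (4 / 3 : ℝ) ^ kk Y := by
      rw [Real.exp_nat_mul]
      exact pow_le_pow_left₀ (Real.exp_pos _).le exp_quarter _
    refine le_trans ?_ g2
    calc Real.exp (2 * eL Y) * 2 ^ Rr Y ≤ Real.exp (2 * eL Y) * Real.exp (Rr Y) := by gcongr
      _ = Real.exp (2 * eL Y + Rr Y) := (Real.exp_add _ _).symm
      _ ≤ _ := Real.exp_le_exp.2 (by linarith)
  have p2 : (0 : ℝ) < 2 ^ Rr Y := by positivity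
  have pk : (0 : ℝ) < (4 / 3) ^ kk Y := by positivity
  have e3 : (3 / 4 : ℝ) ^ kk Y = 1 / (4 / 3) ^ kk Y := by
    rw [one_div, ← inv_pow]
    norm_num
  rw [e3]
  calc (1 + Real.log Y) ^ 2 * (1 / (4 / 3) ^ kk Y) ≤
        4 * Real.exp (2 * eL Y) * (1 / (4 / 3) ^ kk Y) := by gcongr
    _ = 4 * (Real.exp (2 * eL Y) / (4 / 3) ^ kk Y) := by ring
    _ ≤ 4 * (1 / 2 ^ Rr Y) := by
        refine mul_le_mul_of_nonneg_left ?_ (by norm_num)
        rw [div_le_div_iff₀ pk p2]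
        linarith
    _ = _ := by rw [one_div_pow]

theorem fin_numm (m : ℕ) {C : ℝ} (hC1 : 1 ≤ C) (B : ℕ) {Y : ℕ} (h2 : 2 ≤ eL Y) :
    (dl m B + (kk Y : ℝ) ^ (m + 1) * (1 / 8) ^ Rr Y) * (4 * C ^ 2 * Y) +
      C * 2 ^ Rr Y * ((kk Y : ℝ) ^ (m + 1) * ((Rr Y + 1) * (Y * Real.exp (-2 * (Rr Y : ℝ))))) +
      (kk Y : ℝ) ^ m * (4 * C ^ 2 * Y * (1 / 2) ^ Rr Y) +
      64 * C * Y * (1 + Real.log Y) ^ 2 * (4 * MM m * (3 / 4) ^ kk Y) ≤
    (4 * C ^ 2 * dl m B +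
      (4 * C ^ 2 * 1067 ^ (m + 1) + C * 1067 ^ (m + 1) + 4 * C ^ 2 * 1067 ^ m +
        1024 * C * MM m) *
        (((Rr Y : ℝ) + 1) ^ (m + 2) * (1 / 2) ^ Rr Y)) * Y := by
  have hM := MM_nonneg m
  have hk := kk_Rr h2
  have e2 := num2 (Rr Y)
  have e3 := num3m h2
  have e8 : (1 / 8 : ℝ) ^ Rr Y ≤ (1 / 2) ^ Rr Y := by gcongr; norm_num
  have hk0 : (0 : ℝ) ≤ kk Y := Nat.cast_nonneg _
  have hR0 : (0 : ℝ) ≤ Rr Y := Nat.cast_nonneg _
  have hY0 : (0 : ℝ) ≤ Y := Nat.cast_nonneg _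
  have ha0 : (0 : ℝ) ≤ (1 / 2) ^ Rr Y := by positivity
  have h80 : (0 : ℝ) ≤ (1 / 8) ^ Rr Y := by positivity
  obtain ⟨ρ, hρ⟩ : ∃ ρ : ℝ, ρ = Rr Y := ⟨_, rfl⟩
  obtain ⟨κ, hκ⟩ : ∃ κ : ℝ, κ = kk Y := ⟨_, rfl⟩
  obtain ⟨a, ha⟩ : ∃ a : ℝ, a = (1 / 2) ^ Rr Y := ⟨_, rfl⟩
  obtain ⟨a8, ha8⟩ : ∃ a8 : ℝ, a8 = (1 / 8) ^ Rr Y := ⟨_, rfl⟩
  rw [← hρ, ← hκ] at hk
  rw [← hρ, ← ha] at e2
  rw [← ha] at e3 ha0
  rw [← ha, ← ha8] at e8
  rw [← hρ] at hR0
  rw [← hκ] at hk0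
  rw [← ha8] at h80
  rw [← hρ, ← hκ, ← ha, ← ha8]
  have s0 : (1 : ℝ) ≤ ρ + 1 := by linarith
  have f1 : κ ^ (m + 1) ≤ 1067 ^ (m + 1) * (ρ + 1) ^ (m + 2) := by
    calc κ ^ (m + 1) ≤ (1067 * (ρ + 1)) ^ (m + 1) := by gcongr
      _ = 1067 ^ (m + 1) * (ρ + 1) ^ (m + 1) := mul_pow _ _ _
      _ ≤ _ := by
          refine mul_le_mul_of_nonneg_left ?_ (by positivity)
          exact pow_le_pow_right₀ s0 (by omega)
  have f2 : κ ^ (m + 1) * (ρ + 1) ≤ 1067 ^ (m + 1) * (ρ + 1) ^ (m + 2) := by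
    calc κ ^ (m + 1) * (ρ + 1) ≤ (1067 * (ρ + 1)) ^ (m + 1) * (ρ + 1) := by gcongr
      _ = _ := by rw [mul_pow]; ring
  have f3 : κ ^ m ≤ 1067 ^ m * (ρ + 1) ^ (m + 2) := by
    calc κ ^ m ≤ (1067 * (ρ + 1)) ^ m := by gcongr
      _ = 1067 ^ m * (ρ + 1) ^ m := mul_pow _ _ _
      _ ≤ _ := by
          refine mul_le_mul_of_nonneg_left ?_ (by positivity)
          exact pow_le_pow_right₀ s0 (by omega)
  have f4 : 1 ≤ (ρ + 1) ^ (m + 2) := one_le_pow₀ s0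
  have t1 : κ ^ (m + 1) * a8 * (4 * C ^ 2 * Y) ≤
      1067 ^ (m + 1) * (ρ + 1) ^ (m + 2) * a * (4 * C ^ 2 * Y) := by gcongr
  have t2 : C * 2 ^ Rr Y * (κ ^ (m + 1) * ((ρ + 1) * (Y * Real.exp (-2 * ρ)))) ≤
      C * Y * (1067 ^ (m + 1) * (ρ + 1) ^ (m + 2)) * a := by
    calc C * 2 ^ Rr Y * (κ ^ (m + 1) * ((ρ + 1) * (Y * Real.exp (-2 * ρ)))) =
          C * Y * (κ ^ (m + 1) * (ρ + 1)) * (2 ^ Rr Y * Real.exp (-2 * ρ)) := by ring
      _ ≤ _ := by gcongr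
  have t3 : κ ^ m * (4 * C ^ 2 * Y * a) ≤
      1067 ^ m * (ρ + 1) ^ (m + 2) * (4 * C ^ 2 * Y * a) := by gcongr
  have t4 : 64 * C * Y * (1 + Real.log Y) ^ 2 * (4 * MM m * (3 / 4) ^ kk Y) ≤
      256 * C * Y * MM m * (ρ + 1) ^ (m + 2) * (4 * a) := by
    calc 64 * C * Y * (1 + Real.log Y) ^ 2 * (4 * MM m * (3 / 4) ^ kk Y) =
          256 * C * Y * MM m * 1 * ((1 + Real.log Y) ^ 2 * (3 / 4) ^ kk Y) := by ring
      _ ≤ _ := by gcongr
  calc _ = dl m B * (4 * C ^ 2 * Y) + κ ^ (m + 1) * a8 * (4 * C ^ 2 * Y) +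
        C * 2 ^ Rr Y * (κ ^ (m + 1) * ((ρ + 1) * (Y * Real.exp (-2 * ρ)))) +
        κ ^ m * (4 * C ^ 2 * Y * a) +
        64 * C * Y * (1 + Real.log Y) ^ 2 * (4 * MM m * (3 / 4) ^ kk Y) := by ring
    _ ≤ dl m B * (4 * C ^ 2 * Y) +
        1067 ^ (m + 1) * (ρ + 1) ^ (m + 2) * a * (4 * C ^ 2 * Y) +
        C * Y * (1067 ^ (m + 1) * (ρ + 1) ^ (m + 2)) * a +
        1067 ^ m * (ρ + 1) ^ (m + 2) * (4 * C ^ 2 * Y * a) +
        256 * C * Y * MM m * (ρ + 1) ^ (m + 2) * (4 * a) := by linarith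
    _ = _ := by ring

theorem pow_limm (m : ℕ) : Tendsto (fun n : ℕ => ((n : ℝ) + 1) ^ m * (1 / 2) ^ n) atTop
    (nhds 0) := (summable_FF (q := 1 / 2) (by norm_num) (by norm_num) m).tendsto_atTop_zero

/-- **the sum of the powers of the large dimensions** -/
theorem sum_gBm' (m : ℕ) : ∃ A : ℝ, 0 < A ∧ ∀ (B : ℕ) (ε : ℝ), 0 < ε → ∀ᶠ Y : ℕ in atTop,
    ∑ p ∈ PP Y, gBm m B p.1 p.2 ≤ (A * dl m B + ε) * Y := by
  obtain ⟨C, hC⟩ := N.t_CNT
  have hC1 := hC.one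
  refine ⟨4 * C ^ 2, by positivity, fun B ε hε => ?_⟩
  have h1 := ((pow_limm (m + 2)).comp Rr_tendsto).const_mul
    (4 * C ^ 2 * 1067 ^ (m + 1) + C * 1067 ^ (m + 1) + 4 * C ^ 2 * 1067 ^ m + 1024 * C * MM m)
  rw [mul_zero] at h1
  filter_upwards [h1.eventually (gt_mem_nhds hε), ev_T, ev_eL 2] with Y h2 h3 h4
  have hY : 1 ≤ Y := X_pos (by linarith)
  have h5 := sum_gBm m hC B (kk Y) (Rr Y) hY (e := Y * Real.exp (-2 * (Rr Y : ℝ)))
    (by positivity) h3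
  refine h5.trans ((fin_numm m hC1 B h4).trans ?_)
  refine mul_le_mul_of_nonneg_right ?_ (Nat.cast_nonneg _)
  have h6 : (4 * C ^ 2 * 1067 ^ (m + 1) + C * 1067 ^ (m + 1) + 4 * C ^ 2 * 1067 ^ m +
      1024 * C * MM m) * (((Rr Y : ℝ) + 1) ^ (m + 2) * (1 / 2) ^ Rr Y) < ε := h2
  linarith

/-- the moments of the limit distribution -/
noncomputable def mum (m : ℕ) : ℝ := ∑' r : ℕ, (r : ℝ) ^ m * cr r

theorem cr_le8 (r : ℕ) : cr r ≤ 8 * (1 / 8) ^ r := by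
  rcases Nat.eq_zero_or_pos r with h | h
  · rw [h, pow_zero]
    have := cr_zero
    linarith
  · obtain ⟨i, rfl⟩ : ∃ i, r = 1 + i := ⟨r - 1, by omega⟩
    have h1 := cr_geo (a := 1) le_rfl i
    have h2 := cr_le t_C9 1
    have h3 : (0 : ℝ) ≤ (1 / 8) ^ i := by positivity
    rw [pow_add, pow_one]
    nlinarith

theorem summable_mum (m : ℕ) : Summable fun r : ℕ => (r : ℝ) ^ m * cr r := by
  have h := summable_pow_mul_geometric_of_norm_lt_one (R := ℝ) m (r := 1 / 8) (by norm_num)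
  refine Summable.of_nonneg_of_le (fun i => mul_nonneg (by positivity) (cr_nonneg _))
    (fun i => ?_) (h.mul_left 8)
  have h1 := mul_le_mul_of_nonneg_left (cr_le8 i) (show (0 : ℝ) ≤ (i : ℝ) ^ m by positivity)
  linarith

theorem mum_one : mum 1 = mu := by
  unfold mum mu
  simp only [pow_one]

theorem split_avgm (m Y B : ℕ) : ∑ p ∈ PP Y, (rW p.1 p.2 : ℝ) ^ m =
    ∑ r ∈ range (B + 1), (r : ℝ) ^ m * (((PP Y).filter fun p => Gw p.1 r p.2).card : ℝ) +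
    ∑ p ∈ PP Y, gBm m B p.1 p.2 := by
  have h1 : ∀ p ∈ PP Y, (rW p.1 p.2 : ℝ) ^ m =
      ∑ r ∈ range (B + 1), (if Gw p.1 r p.2 then (r : ℝ) ^ m else 0) + gBm m B p.1 p.2 := by
    intro p hp
    obtain ⟨hT, hS, h9⟩ := mem_PP hp
    have h2 : ∑ r ∈ range (B + 1), (if Gw p.1 r p.2 then (r : ℝ) ^ m else 0) =
        ∑ r ∈ range (B + 1), (if rW p.1 p.2 = r then (r : ℝ) ^ m else 0) := by
      refine Finset.sum_congr rfl fun r _ => ?_
      have h3 := Gw_iff hT h9 r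
      by_cases h4 : Gw p.1 r p.2
      · rw [if_pos h4, if_pos (h3.1 h4)]
      · rw [if_neg h4, if_neg fun h5 => h4 (h3.2 h5)]
    rw [h2, Finset.sum_ite_eq]
    unfold gBm
    by_cases h : B < rW p.1 p.2
    · rw [if_pos h, if_neg (by rw [Finset.mem_range]; omega), zero_add]
    · rw [if_neg h, if_pos (by rw [Finset.mem_range]; omega), add_zero]
  rw [Finset.sum_congr rfl h1, Finset.sum_add_distrib, Finset.sum_comm]
  congr 1
  refine Finset.sum_congr rfl fun r _ => ?_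
  rw [← Finset.sum_filter, Finset.sum_const, nsmul_eq_mul, mul_comm]

/-- **the moments of the dimensions** -/
theorem avg_limm (m : ℕ) : Tendsto (fun Y : ℕ =>
    (∑ p ∈ PP Y, (rW p.1 p.2 : ℝ) ^ m) / ((PP Y).card : ℝ)) atTop (nhds (mum m)) := by
  obtain ⟨A, hA, hg⟩ := sum_gBm' m
  obtain ⟨c₀, X₀, hc₀, hlow⟩ := PP_low
  rw [Metric.tendsto_nhds]
  intro η hη
  have hB1 : Tendsto (fun B : ℕ => ∑ r ∈ range (B + 1), (r : ℝ) ^ m * cr r) atTop
      (nhds (mum m)) :=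
    (tendsto_add_atTop_iff_nat (f := fun B : ℕ => ∑ r ∈ range B, (r : ℝ) ^ m * cr r) 1).2
      (summable_mum m).hasSum.tendsto_sum_nat
  have hB2 : Tendsto (fun B : ℕ => A * dl m B) atTop (nhds 0) := by
    have := (dl_lim m).const_mul A
    rwa [mul_zero] at this
  have hη6 : 0 < η * c₀ / 6 := by positivity
  obtain ⟨B, hb1, hb2⟩ := ((hB1.eventually (Metric.ball_mem_nhds (mum m)
    (show 0 < η / 3 by positivity))).and (hB2.eventually (gt_mem_nhds hη6))).exists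
  replace hb1 := Metric.mem_ball.1 hb1
  rw [Real.dist_eq] at hb1
  have hlim : Tendsto (fun Y : ℕ => ∑ r ∈ range (B + 1),
      (r : ℝ) ^ m * ((((PP Y).filter fun p => Gw p.1 r p.2).card : ℝ) / ((PP Y).card : ℝ)))
      atTop (nhds (∑ r ∈ range (B + 1), (r : ℝ) ^ m * cr r)) :=
    tendsto_finsetSum _ fun r _ => (t_pairs r).const_mul _
  filter_upwards [hlim.eventually (Metric.ball_mem_nhds _ (show 0 < η / 3 by positivity)),
    hg B (η * c₀ / 6) hη6, eventually_ge_atTop X₀, eventually_ge_atTop 1] with Y h1 h2 h3 h4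
  replace h1 := Metric.mem_ball.1 h1
  rw [Real.dist_eq] at h1
  have hY : (0 : ℝ) < Y := by exact_mod_cast h4
  have hlo := hlow Y h3
  have hpos : (0 : ℝ) < ((PP Y).card : ℝ) := lt_of_lt_of_le (by positivity) hlo
  rw [Real.dist_eq, split_avgm m Y B, add_div, Finset.sum_div]
  have e1 : ∑ r ∈ range (B + 1),
      (r : ℝ) ^ m * (((PP Y).filter fun p => Gw p.1 r p.2).card : ℝ) / ((PP Y).card : ℝ) =
      ∑ r ∈ range (B + 1),
      (r : ℝ) ^ m * ((((PP Y).filter fun p => Gw p.1 r p.2).card : ℝ) / ((PP Y).card : ℝ)) :=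
    Finset.sum_congr rfl fun r _ => mul_div_assoc _ _ _
  rw [e1]
  have h5 : (∑ p ∈ PP Y, gBm m B p.1 p.2) / ((PP Y).card : ℝ) ≤ η / 3 := by
    rw [div_le_iff₀ hpos]
    have g1 : (A * dl m B + η * c₀ / 6) * (Y : ℝ) ≤ (η * c₀ / 6 + η * c₀ / 6) * Y := by
      refine mul_le_mul_of_nonneg_right ?_ hY.le
      have : A * dl m B < η * c₀ / 6 := hb2
      linarith
    have g2 : (η * c₀ / 6 + η * c₀ / 6) * (Y : ℝ) = η / 3 * (c₀ * Y) := by ring
    have g3 : η / 3 * (c₀ * Y) ≤ η / 3 * ((PP Y).card : ℝ) :=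
      mul_le_mul_of_nonneg_left hlo (by positivity)
    linarith
  have h6 : 0 ≤ (∑ p ∈ PP Y, gBm m B p.1 p.2) / ((PP Y).card : ℝ) :=
    div_nonneg (Finset.sum_nonneg fun p _ => gBm_nonneg m B p.1 p.2) hpos.le
  rw [abs_lt] at h1 hb1 ⊢
  constructor <;> linarith [h1.1, h1.2, hb1.1, hb1.2]

/-- **The moments over `𝓞 K`.** -/
theorem momCF (K : Type) [Field K] [NumberField K] [IsCyclotomicExtension {3} ℚ K] (ω : K)
    (hω : ω ^ 2 + ω + 1 = 0) : ∃ S : ℕ → Finset (𝓞 K),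
    (∀ X : ℕ, {D : 𝓞 K | Algebra.norm ℤ D ≤ X ∧ ClsC D} = ((S X : Finset (𝓞 K)) : Set (𝓞 K))) ∧
    (∀ D : 𝓞 K, ClsC D → (killed ω (D : K)).ncard = 3 ^ dimK ω D ∧
      Module.finrank ℤ (ED (D : K)).toAffine.Point ≤ 2 * dimK ω D) ∧
    ∀ m : ℕ, Tendsto (fun X : ℕ => (∑ D ∈ S X, (dimK ω D : ℝ) ^ m) / ((S X).card : ℝ)) atTop
      (nhds (mum m)) := by
  obtain ⟨⟨j, hj⟩, -⟩ := Pool.Agent.Y455.CTK.jex K
  refine ⟨fun X => (PP X).image fun p : Finset Ei × Finset Ei => j (DD p.1 p.2),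
    set_S j hj, ?_, fun m => ?_⟩
  · intro D hD
    obtain ⟨z, rfl⟩ := j.surjective D
    obtain ⟨T, S, hT, hS, h9, rfl⟩ := cls_ex ((clsC_iff j hj z).1 hD)
    obtain ⟨h1, h2⟩ := log_S j hω hT hS h9
    have h3 := dimK_of h1
    rw [h3]
    exact ⟨h1, h2⟩
  · refine (avg_limm m).congr fun X => ?_
    refine (avg_tr (PP X) _ (inj_S j X) (fun D => (dimK ω D : ℝ) ^ m) _ fun p hp => ?_).symm
    obtain ⟨hT, hS, h9⟩ := mem_PP hp
    have h3 := dimK_of (log_S j hω hT hS h9).1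
    exact congrArg (fun n : ℕ => (n : ℝ) ^ m) h3

end Pool.Agent.X253.CF
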