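import Mathlib
import Pool.Agent.X253.CF.AvF

/-!
# Project CF: the law with an error term
-/

set_option autoImplicit false
set_option linter.unusedVariables false

open scoped Classical
open Finset Filter

namespace Pool.Agent.X253.CF

open NumberField WeierstrassCurve
open Pool.Agent.Y692.QS (Ei w nr toC)
open Pool.Agent.Y715.T.RecG (Pq)
open Pool.Agent.Y699.E (nrm QB nrm_cast)
open Pool.Agent.Y703.CX (eL zz kk eL_tendsto logX_eq ev_eL kk_ge kk_le X_pos one_add_log lin_le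
  rpow_eL)
open Pool.Agent.Y703.CT
open Pool.Agent.XL6 (prob)
open Pool.Agent.Y696.CTK
open Pool.Agent.Y703.XL (cr cr_pos cr_le t_C9 t_LA)
open Pool.Agent.Y703.XL.Inf (killed)
open Pool.Agent.X253.C3 (ClsC)
open Pool.Agent.X253.CF.S3 (Sel3 sel3_card sel3_pow)

/-- the number of the pairs with dimension more than `R` -/
noncomputable def Fn (Y R : ℕ) : ℕ := ((PP Y).filter fun p => R < rW p.1 p.2).card

theorem card_Gw (Y r : ℕ) : ((PP Y).filter fun p => Gw p.1 r p.2) =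
    (PP Y).filter fun p => rW p.1 p.2 = r := by
  refine Finset.filter_congr fun p hp => ?_
  obtain ⟨hT, hS, h9⟩ := mem_PP hp
  exact Gw_iff hT h9 r

theorem Fn_add (Y R : ℕ) : Fn Y R +
    ∑ r ∈ range (R + 1), ((PP Y).filter fun p => Gw p.1 r p.2).card = (PP Y).card := by
  have h1 : ((PP Y).filter fun p => ¬ R < rW p.1 p.2).card =
      ∑ r ∈ range (R + 1), ((PP Y).filter fun p => Gw p.1 r p.2).card := by
    rw [Finset.card_eq_sum_card_fiberwise (f := fun p => rW p.1 p.2) (t := range (R + 1)) (by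
      intro p hp
      rw [Finset.mem_coe, Finset.mem_filter] at hp
      rw [Finset.mem_coe, Finset.mem_range]
      show rW p.1 p.2 < R + 1
      have := hp.2
      omega)]
    refine Finset.sum_congr rfl fun r hr => ?_
    rw [card_Gw, Finset.filter_filter]
    congr 1
    refine Finset.filter_congr fun p _ => ?_
    rw [Finset.mem_range] at hr
    constructor
    · exact fun h => h.2
    · intro h
      exact ⟨by omega, h⟩
  rw [← h1]
  unfold Fn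
  exact Finset.card_filter_add_card_filter_not _

theorem law_R {C : ℝ} (hC : CntP C) {Y : ℕ} (R : ℕ) {e : ℝ} (he : 0 ≤ e)
    (h : ∀ T : Finset Ei, (∀ π ∈ T, Pq π) → nm T ≤ 2 ^ R →
    ∀ r ≤ R, |(((TS T (bT T) (Y / nm T)).filter (Gw T r)).card : ℝ) -
      cr r * ((TS T (bT T) (Y / nm T)).card : ℝ)| ≤ e) {r : ℕ} (hr : r ≤ R) :
    |(((PP Y).filter fun p => Gw p.1 r p.2).card : ℝ) - cr r * ((PP Y).card : ℝ)| ≤
      C * 2 ^ R * e + 4 * C ^ 2 * Y * (1 / 2) ^ R := by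
  have hC1 := hC.one
  have hc0 := cr_nonneg r
  have hc1 := cr_le t_C9 r
  have e1 : ((PP Y).filter fun p => Gw p.1 r p.2).card =
      ∑ T ∈ SS Y, ((TS T (bT T) (Y / nm T)).filter (Gw T r)).card :=
    sum_T Y (fun T S => Gw T r S)
  have e2 := sum_T Y (fun _ _ => True)
  simp only [Finset.filter_true] at e2
  rw [e1, e2]
  push_cast
  rw [Finset.mul_sum, ← Finset.sum_sub_distrib]
  refine (Finset.abs_sum_le_sum_abs _ _).trans ?_
  rw [← Finset.sum_filter_not_add_sum_filter (SS Y) (fun T => 2 ^ R ≤ nm T)]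
  refine add_le_add ?_ ?_
  · refine (Finset.sum_le_card_nsmul _ _ e fun T hT => ?_).trans ?_
    · rw [Finset.mem_filter] at hT
      exact h T (K.mem_SS.1 hT.1).1.1 (not_le.1 hT.2).le r hr
    · rw [nsmul_eq_mul]
      refine mul_le_mul_of_nonneg_right ?_ he
      have h3 : ((SS Y).filter (fun T => ¬ 2 ^ R ≤ nm T)).card ≤ (SS (2 ^ R)).card := by
        refine Finset.card_le_card fun T hT => ?_
        rw [Finset.mem_filter] at hT
        exact K.mem_SS.2 ⟨(K.mem_SS.1 hT.1).1, (not_le.1 hT.2).le⟩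
      refine le_trans (Nat.cast_le.2 h3) ((hC.all (2 ^ R) Nat.one_le_two_pow).trans ?_)
      push_cast
      exact le_rfl
  · refine (Finset.sum_le_sum fun T hT => ?_).trans (sum_TS hC Y R)
    have h2 : (((TS T (bT T) (Y / nm T)).filter (Gw T r)).card : ℝ) ≤
        ((TS T (bT T) (Y / nm T)).card : ℝ) := by
      exact_mod_cast Finset.card_filter_le _ _
    have h3 : (0 : ℝ) ≤ ((TS T (bT T) (Y / nm T)).card : ℝ) := Nat.cast_nonneg _
    exact Pool.Agent.Y703.CX.abs_sub_le_of (Nat.cast_nonneg _) h2 (mul_nonneg hc0 h3)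
      (mul_le_of_le_one_left h3 hc1)

theorem PP_up {C : ℝ} (hC : CntP C) (Y : ℕ) : ((PP Y).card : ℝ) ≤ 4 * C ^ 2 * Y := by
  have e2 := sum_T Y (fun _ _ => True)
  simp only [Finset.filter_true] at e2
  have h2 := sum_TS hC Y 0
  rw [pow_zero, pow_zero, mul_one] at h2
  rw [e2]
  push_cast
  refine le_trans (Finset.sum_le_sum_of_subset_of_nonneg ?_ fun _ _ _ => Nat.cast_nonneg _) h2
  intro T hT
  rw [Finset.mem_filter]
  exact ⟨hT, nm_pos (K.mem_SS.1 hT).1.1⟩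

theorem tl_nonneg (R : ℕ) : 0 ≤ tl R := by
  rw [tl_eq]
  exact tsum_nonneg fun i => cr_nonneg _

theorem law_tail0 {C : ℝ} (hC : CntP C) {Y R₀ : ℕ} {δ : ℝ} (hδ : 0 ≤ δ)
    (h : ∀ r ≤ R₀, |(((PP Y).filter fun p => Gw p.1 r p.2).card : ℝ) -
      cr r * ((PP Y).card : ℝ)| ≤ δ) (R : ℕ) :
    |(Fn Y R : ℝ) - tl R * ((PP Y).card : ℝ)| ≤
      (R₀ + 1) * δ + (1 / 8) ^ R₀ * (4 * C ^ 2 * Y) := by
  have hC1 := hC.one
  have hY0 : (0 : ℝ) ≤ Y := Nat.cast_nonneg _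
  have hkey : ∀ R ≤ R₀, |(Fn Y R : ℝ) - tl R * ((PP Y).card : ℝ)| ≤ (R₀ + 1) * δ := by
    intro R hR
    have h1 : (Fn Y R : ℝ) + ∑ r ∈ range (R + 1),
        (((PP Y).filter fun p => Gw p.1 r p.2).card : ℝ) = ((PP Y).card : ℝ) := by
      exact_mod_cast Fn_add Y R
    have h2 : (Fn Y R : ℝ) - tl R * ((PP Y).card : ℝ) = -(∑ r ∈ range (R + 1),
        ((((PP Y).filter fun p => Gw p.1 r p.2).card : ℝ) - cr r * ((PP Y).card : ℝ))) := by
      unfold tl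
      rw [Finset.sum_sub_distrib, ← Finset.sum_mul]
      linarith
    rw [h2, abs_neg]
    refine (Finset.abs_sum_le_sum_abs _ _).trans ?_
    have h3 : (R : ℝ) ≤ R₀ := by exact_mod_cast hR
    calc _ ≤ ∑ r ∈ range (R + 1), δ := Finset.sum_le_sum fun r hr => h r (by
            rw [Finset.mem_range] at hr
            omega)
      _ = (R + 1) * δ := by
          rw [Finset.sum_const, Finset.card_range, nsmul_eq_mul]
          push_cast
          rfl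
      _ ≤ _ := by gcongr
  have p8 : (0 : ℝ) ≤ (1 / 8) ^ R₀ * (4 * C ^ 2 * Y) := by positivity
  rcases le_total R R₀ with hR | hR
  · refine (hkey R hR).trans ?_
    linarith
  · have h1 : (Fn Y R : ℝ) ≤ Fn Y R₀ := by
      have : Fn Y R ≤ Fn Y R₀ := by
        refine Finset.card_le_card fun p hp => ?_
        rw [Finset.mem_filter] at hp ⊢
        exact ⟨hp.1, by omega⟩
      exact_mod_cast this
    have h2 := (abs_le.1 (hkey R₀ le_rfl)).2
    have h3 := PP_up hC Y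
    have h4 : tl R * ((PP Y).card : ℝ) ≤ (1 / 8) ^ R₀ * (4 * C ^ 2 * Y) :=
      mul_le_mul ((tl_le R).trans (pow_le_pow_of_le_one (by norm_num) (by norm_num) hR)) h3
        (Nat.cast_nonneg _) (by positivity)
    have h5 : tl R₀ * ((PP Y).card : ℝ) ≤ (1 / 8) ^ R₀ * (4 * C ^ 2 * Y) :=
      mul_le_mul (tl_le R₀) h3 (Nat.cast_nonneg _) (by positivity)
    have h6 : 0 ≤ tl R * ((PP Y).card : ℝ) := mul_nonneg (tl_nonneg R) (Nat.cast_nonneg _)
    have h7 : (0 : ℝ) ≤ Fn Y R := Nat.cast_nonneg _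
    have h8 : 0 ≤ ((R₀ : ℝ) + 1) * δ := by positivity
    rw [abs_le]
    constructor <;> linarith

theorem ev_err {A : ℝ} (hA : 0 < A) : ∀ᶠ Y : ℕ in atTop,
    A * (((Rr Y : ℝ) + 1) * (1 / 2) ^ Rr Y) ≤ 1 / 2 * (Real.log Y) ^ (-(1 / 200) : ℝ) := by
  filter_upwards [lin_le (a := 1 / 500) (b := 2 * A * Real.exp 1) (by norm_num) (by positivity),
    ev_eL 2] with Y h1 h2
  have hR := Rr_le (show 1 ≤ eL Y by linarith)
  have hG := Rr_gt Y
  have hR0 : (0 : ℝ) ≤ Rr Y := Nat.cast_nonneg _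
  rw [rpow_eL (show 0 < eL Y by linarith)]
  have g1 : (1 / 2 : ℝ) ^ Rr Y ≤ Real.exp 1 * Real.exp (-(7 / 1000) * eL Y) := by
    have e1 : (1 / 2 : ℝ) ^ Rr Y = Real.exp (-((Rr Y : ℝ) * Real.log 2)) := by
      rw [Real.exp_neg, Real.exp_nat_mul, Real.exp_log (by norm_num), one_div, inv_pow]
    rw [e1, ← Real.exp_add]
    refine Real.exp_le_exp.2 ?_
    have h3 := Real.log_two_gt_d9
    have h4 : (Rr Y : ℝ) * 0.69 ≤ (Rr Y : ℝ) * Real.log 2 :=
      mul_le_mul_of_nonneg_left (by linarith) hR0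
    linarith
  have g2 : (Rr Y : ℝ) + 1 ≤ eL Y := by linarith
  have p0 : 0 ≤ eL Y := by linarith
  calc A * (((Rr Y : ℝ) + 1) * (1 / 2) ^ Rr Y) ≤
        A * (eL Y * (Real.exp 1 * Real.exp (-(7 / 1000) * eL Y))) := by gcongr
    _ = 1 / 2 * (2 * A * Real.exp 1 * eL Y) * Real.exp (-(7 / 1000) * eL Y) := by ring
    _ ≤ 1 / 2 * Real.exp (1 / 500 * eL Y) * Real.exp (-(7 / 1000) * eL Y) := by gcongr
    _ = 1 / 2 * Real.exp (-(1 / 200) * eL Y) := by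
        rw [mul_assoc, ← Real.exp_add]
        congr 2
        ring

theorem ev_tail : ∀ᶠ Y : ℕ in atTop, ∀ R : ℕ,
    |(Fn Y R : ℝ) - tl R * ((PP Y).card : ℝ)| ≤
      1 / 2 * (Real.log Y) ^ (-(1 / 200) : ℝ) * Y := by
  obtain ⟨C, hC⟩ := N.t_CNT
  have hC1 := hC.one
  filter_upwards [ev_err (A := C + 8 * C ^ 2) (by positivity), ev_T] with Y h1 h2 R
  have hY0 : (0 : ℝ) ≤ Y := Nat.cast_nonneg _
  have hR0 : (0 : ℝ) ≤ Rr Y := Nat.cast_nonneg _
  obtain ⟨δ, hδ⟩ : ∃ δ : ℝ, δ = C * 2 ^ Rr Y * (Y * Real.exp (-2 * (Rr Y : ℝ))) +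
    4 * C ^ 2 * Y * (1 / 2) ^ Rr Y := ⟨_, rfl⟩
  have hδ0 : 0 ≤ δ := by
    rw [hδ]
    positivity
  have h4 : δ ≤ (C + 4 * C ^ 2) * (1 / 2) ^ Rr Y * Y := by
    have e2 := mul_le_mul_of_nonneg_left (num2 (Rr Y)) (show 0 ≤ C * (Y : ℝ) by positivity)
    calc δ = C * Y * (2 ^ Rr Y * Real.exp (-2 * (Rr Y : ℝ))) +
          4 * C ^ 2 * Y * (1 / 2) ^ Rr Y := by rw [hδ]; ring
      _ ≤ C * Y * (1 / 2) ^ Rr Y + 4 * C ^ 2 * Y * (1 / 2) ^ Rr Y := by linarith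
      _ = _ := by ring
  have h5 := law_tail0 hC hδ0 (R₀ := Rr Y) (fun r hr => by
    rw [hδ]
    exact law_R hC (Rr Y) (by positivity) h2 hr) R
  refine h5.trans ?_
  have e8 : (1 / 8 : ℝ) ^ Rr Y ≤ (1 / 2) ^ Rr Y := by gcongr; norm_num
  have ha0 : (0 : ℝ) ≤ (1 / 2) ^ Rr Y := by positivity
  calc ((Rr Y : ℝ) + 1) * δ + (1 / 8) ^ Rr Y * (4 * C ^ 2 * Y) ≤
        ((Rr Y : ℝ) + 1) * ((C + 4 * C ^ 2) * (1 / 2) ^ Rr Y * Y) +
          (1 / 2) ^ Rr Y * (4 * C ^ 2 * Y) := by gcongr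
    _ ≤ ((Rr Y : ℝ) + 1) * ((C + 4 * C ^ 2) * (1 / 2) ^ Rr Y * Y) +
          ((Rr Y : ℝ) + 1) * ((1 / 2) ^ Rr Y * (4 * C ^ 2 * Y)) := by
        have : 0 ≤ (Rr Y : ℝ) * ((1 / 2) ^ Rr Y * (4 * C ^ 2 * Y)) := by positivity
        linarith
    _ = (C + 8 * C ^ 2) * (((Rr Y : ℝ) + 1) * (1 / 2) ^ Rr Y) * Y := by ring
    _ ≤ _ := mul_le_mul_of_nonneg_right h1 hY0

theorem ev_Gw : ∀ᶠ Y : ℕ in atTop, ∀ r : ℕ,
    |(((PP Y).filter fun p => Gw p.1 r p.2).card : ℝ) - cr r * ((PP Y).card : ℝ)| ≤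
      (Real.log Y) ^ (-(1 / 200) : ℝ) * Y := by
  filter_upwards [ev_tail] with Y h1 r
  have hfn : ∀ R : ℕ, (Fn Y R : ℝ) + ∑ r ∈ range (R + 1),
      (((PP Y).filter fun p => Gw p.1 r p.2).card : ℝ) = ((PP Y).card : ℝ) := fun R => by
    exact_mod_cast Fn_add Y R
  have hE : 0 ≤ 1 / 2 * (Real.log Y) ^ (-(1 / 200) : ℝ) * Y := (abs_nonneg _).trans (h1 0)
  rcases Nat.eq_zero_or_pos r with h | h
  · subst h
    have h2 := hfn 0
    rw [zero_add, Finset.sum_range_one] at h2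
    have h3 : tl 0 = 1 - cr 0 := by
      unfold tl
      rw [zero_add, Finset.sum_range_one]
    have h4 := h1 0
    rw [h3] at h4
    have e : (((PP Y).filter fun p => Gw p.1 0 p.2).card : ℝ) - cr 0 * ((PP Y).card : ℝ) =
        -((Fn Y 0 : ℝ) - (1 - cr 0) * ((PP Y).card : ℝ)) := by linarith
    rw [e, abs_neg]
    linarith
  · obtain ⟨s, rfl⟩ : ∃ s, r = s + 1 := ⟨r - 1, by omega⟩
    have h2 := hfn s
    have h3 := hfn (s + 1)
    rw [Finset.sum_range_succ _ (s + 1)] at h3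
    have h4 : tl (s + 1) = tl s - cr (s + 1) := by
      unfold tl
      rw [Finset.sum_range_succ _ (s + 1)]
      ring
    have h5 := h1 s
    have h6 := h1 (s + 1)
    rw [h4] at h6
    have e : (((PP Y).filter fun p => Gw p.1 (s + 1) p.2).card : ℝ) -
        cr (s + 1) * ((PP Y).card : ℝ) =
        ((Fn Y s : ℝ) - tl s * ((PP Y).card : ℝ)) -
          ((Fn Y (s + 1) : ℝ) - (tl s - cr (s + 1)) * ((PP Y).card : ℝ)) := by linarith
    rw [e]
    refine (abs_sub _ _).trans ?_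
    linarith

section K
variable {K : Type} [Field K] [NumberField K] (j : Ei ≃+* 𝓞 K)

theorem den_K (hj : ∀ z : Ei, Algebra.norm ℤ (j z) = nr z) (X : ℕ) :
    {D : 𝓞 K | Algebra.norm ℤ D ≤ X ∧ ClsC D}.ncard = (PP X).card := by
  have h := count_K j hj X (fun _ => True) (fun _ _ => True) fun _ _ _ _ _ => Iff.rfl
  rw [Finset.filter_true] at h
  rw [← h]
  congr 1
  ext D
  simp only [Set.mem_ofPred_eq, and_true]

/-- a property which forces the dimension to be large -/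
theorem up_K (hj : ∀ z : Ei, Algebra.norm ℤ (j z) = nr z) (X R : ℕ) (Q : 𝓞 K → Prop)
    (hQ : ∀ T S : Finset Ei, T ⊆ S → (∀ π ∈ S, Pq π) → (nm T * nm S) % 9 ≠ 1 →
      Q (j (DD T S)) → R < rW T S) :
    {D : 𝓞 K | Algebra.norm ℤ D ≤ X ∧ ClsC D ∧ Q D}.ncard ≤ Fn X R := by
  rw [count_K j hj X Q (fun T S => Q (j (DD T S))) fun _ _ _ _ _ => Iff.rfl]
  refine Finset.card_le_card fun p hp => ?_
  rw [Finset.mem_filter] at hp ⊢
  obtain ⟨hT, hS, h9⟩ := mem_PP hp.1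
  exact ⟨hp.1, hQ p.1 p.2 hT hS h9 hp.2⟩

/-- a property which is implied by a large dimension -/
theorem lo_K (hj : ∀ z : Ei, Algebra.norm ℤ (j z) = nr z) (X R : ℕ) (Q : 𝓞 K → Prop)
    (hQ : ∀ T S : Finset Ei, T ⊆ S → (∀ π ∈ S, Pq π) → (nm T * nm S) % 9 ≠ 1 →
      R < rW T S → Q (j (DD T S))) :
    Fn X R ≤ {D : 𝓞 K | Algebra.norm ℤ D ≤ X ∧ ClsC D ∧ Q D}.ncard := by
  rw [count_K j hj X Q (fun T S => Q (j (DD T S))) fun _ _ _ _ _ => Iff.rfl]
  refine Finset.card_le_card fun p hp => ?_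
  rw [Finset.mem_filter] at hp ⊢
  obtain ⟨hT, hS, h9⟩ := mem_PP hp.1
  exact ⟨hp.1, hQ p.1 p.2 hT hS h9 hp.2⟩

end K

/-- **The ranks, with an error term.** -/
theorem rateCF (K : Type) [Field K] [NumberField K] [IsCyclotomicExtension {3} ℚ K] (ω : K)
    (hω : ω ^ 2 + ω + 1 = 0) : ∀ᶠ X : ℕ in atTop,
    (∀ r : ℕ, |({D : 𝓞 K | Algebra.norm ℤ D ≤ X ∧ ClsC D ∧
        (killed ω (D : K)).ncard = 3 ^ r}.ncard : ℝ) -
        prob r * ({D : 𝓞 K | Algebra.norm ℤ D ≤ X ∧ ClsC D}.ncard : ℝ)| ≤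
      (Real.log X) ^ (-(1 / 200) : ℝ) * X) ∧
    |({D : 𝓞 K | Algebra.norm ℤ D ≤ X ∧ ClsC D ∧ Tri D}.ncard : ℝ) -
        prob 0 * ({D : 𝓞 K | Algebra.norm ℤ D ≤ X ∧ ClsC D}.ncard : ℝ)| ≤
      (Real.log X) ^ (-(1 / 200) : ℝ) * X ∧
    (∀ R : ℕ, ({D : 𝓞 K | Algebra.norm ℤ D ≤ X ∧ ClsC D ∧
        2 * R < Module.finrank ℤ (ED (D : K)).toAffine.Point}.ncard : ℝ) ≤
      (1 - ∑ r ∈ range (R + 1), prob r) *
        ({D : 𝓞 K | Algebra.norm ℤ D ≤ X ∧ ClsC D}.ncard : ℝ) +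
      (Real.log X) ^ (-(1 / 200) : ℝ) * X) := by
  obtain ⟨⟨j, hj⟩, -⟩ := Pool.Agent.Y455.CTK.jex K
  filter_upwards [ev_Gw, ev_tail] with X h1 h2
  have hE : 0 ≤ 1 / 2 * (Real.log X) ^ (-(1 / 200) : ℝ) * X := (abs_nonneg _).trans (h2 0)
  rw [den_K j hj X]
  refine ⟨fun r => ?_, ?_, fun R => ?_⟩
  · rw [count_K j hj X (fun D => (killed ω (D : K)).ncard = 3 ^ r)
      (fun T S => Gw T r S) fun T S h1 h2 h3 => (one_CF j hω h1 h2 h3).2.2 r]
    exact h1 r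
  · rw [count_K j hj X (fun D => Tri D)
      (fun T S => Gw T 0 S) fun T S h1 h2 h3 => tri_S j h1 h2 h3]
    exact h1 0
  · have h3 := up_K j hj X R
      (fun D => 2 * R < Module.finrank ℤ (ED (D : K)).toAffine.Point) (by
        intro T S hT hS h9 h
        have h4 := (log_S (K := K) j hω hT hS h9).2
        omega)
    have h4 : ({D : 𝓞 K | Algebra.norm ℤ D ≤ X ∧ ClsC D ∧
        2 * R < Module.finrank ℤ (ED (D : K)).toAffine.Point}.ncard : ℝ) ≤ Fn X R := by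
      exact_mod_cast h3
    have h5 := (abs_le.1 (h2 R)).2
    have h6 : tl R = 1 - ∑ r ∈ range (R + 1), prob r := rfl
    rw [← h6]
    linarith

/-- **The `3`-Selmer groups, with an error term.** -/
theorem selRate (K : Type) [Field K] [NumberField K] [IsCyclotomicExtension {3} ℚ K] (ω : K)
    (hω : ω ^ 2 + ω + 1 = 0) : ∀ᶠ X : ℕ in atTop,
    |({D : 𝓞 K | Algebra.norm ℤ D ≤ X ∧ ClsC D ∧ Nat.card (Sel3 (D : K)) = 3}.ncard : ℝ) -
        prob 0 * ({D : 𝓞 K | Algebra.norm ℤ D ≤ X ∧ ClsC D}.ncard : ℝ)| ≤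
      (Real.log X) ^ (-(1 / 200) : ℝ) * X ∧
    (∀ R : ℕ, ({D : 𝓞 K | Algebra.norm ℤ D ≤ X ∧ ClsC D ∧
        3 ^ (2 * R + 1) < Nat.card (Sel3 (D : K))}.ncard : ℝ) ≤
      (1 - ∑ r ∈ range (R + 1), prob r) *
        ({D : 𝓞 K | Algebra.norm ℤ D ≤ X ∧ ClsC D}.ncard : ℝ) +
      (Real.log X) ^ (-(1 / 200) : ℝ) * X) ∧
    (∀ R : ℕ, (1 - ∑ r ∈ range R, prob r) *
        ({D : 𝓞 K | Algebra.norm ℤ D ≤ X ∧ ClsC D}.ncard : ℝ) -
      (Real.log X) ^ (-(1 / 200) : ℝ) * X ≤ ({D : 𝓞 K | Algebra.norm ℤ D ≤ X ∧ ClsC D ∧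
        3 ^ (R + 1) ≤ Nat.card (Sel3 (D : K))}.ncard : ℝ)) := by
  obtain ⟨⟨j, hj⟩, -⟩ := Pool.Agent.Y455.CTK.jex K
  filter_upwards [ev_Gw, ev_tail] with X h1 h2
  have hE : 0 ≤ 1 / 2 * (Real.log X) ^ (-(1 / 200) : ℝ) * X := (abs_nonneg _).trans (h2 0)
  rw [den_K j hj X]
  refine ⟨?_, fun R => ?_, fun R => ?_⟩
  · rw [count_K j hj X (fun D => Nat.card (Sel3 (D : K)) = 3)
      (fun T S => Gw T 0 S) fun T S h1 h2 h3 => ?_]
    · exact h1 0
    · constructor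
      · intro h
        obtain ⟨r, hr⟩ := ex_Gw h1 h3
        obtain ⟨g1, g2⟩ := sel3_S (K := K) j hω h1 h2 h3 hr
        rw [h] at g1
        have hr0 : r = 0 := by
          by_contra hr0
          have : 3 ^ 2 ≤ 3 ^ (r + 1) := Nat.pow_le_pow_right (by norm_num) (by omega)
          omega
        rw [hr0] at hr
        exact hr
      · intro h
        obtain ⟨g1, g2⟩ := sel3_S (K := K) j hω h1 h2 h3 h
        norm_num at g1 g2
        omega
  · have h3 := up_K j hj X R (fun D => 3 ^ (2 * R + 1) < Nat.card (Sel3 (D : K))) (by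
        intro T S hT hS h9 h
        have h4 := (sel3_S (K := K) j hω hT hS h9 ((Gw_iff hT h9 _).2 rfl)).2
        have h5 := lt_of_lt_of_le h h4
        have h6 := (Nat.pow_lt_pow_iff_right (by norm_num)).1 h5
        omega)
    have h4 : ({D : 𝓞 K | Algebra.norm ℤ D ≤ X ∧ ClsC D ∧
        3 ^ (2 * R + 1) < Nat.card (Sel3 (D : K))}.ncard : ℝ) ≤ Fn X R := by
      exact_mod_cast h3
    have h5 := (abs_le.1 (h2 R)).2
    have h6 : tl R = 1 - ∑ r ∈ range (R + 1), prob r := rfl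
    rw [← h6]
    linarith
  · rcases Nat.eq_zero_or_pos R with hR | hR
    · subst hR
      rw [Finset.range_zero, Finset.sum_empty, sub_zero, one_mul]
      have h3 : {D : 𝓞 K | Algebra.norm ℤ D ≤ X ∧ ClsC D ∧
          3 ^ (0 + 1) ≤ Nat.card (Sel3 (D : K))}.ncard = (PP X).card := by
        rw [count_K j hj X (fun D => 3 ^ (0 + 1) ≤ Nat.card (Sel3 (D : K)))
          (fun _ _ => True) fun T S hT hS h9 => ?_]
        · rw [Finset.filter_true]
        · refine ⟨fun _ => trivial, fun _ => ?_⟩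
          have h4 := (sel3_S (K := K) j hω hT hS h9 ((Gw_iff hT h9 _).2 rfl)).1
          exact le_trans (Nat.pow_le_pow_right (by norm_num) (by omega)) h4
      rw [h3]
      linarith
    · obtain ⟨s, rfl⟩ : ∃ s, R = s + 1 := ⟨R - 1, by omega⟩
      have h3 := lo_K j hj X s (fun D => 3 ^ (s + 1 + 1) ≤ Nat.card (Sel3 (D : K))) (by
        intro T S hT hS h9 h
        have h4 := (sel3_S (K := K) j hω hT hS h9 ((Gw_iff hT h9 _).2 rfl)).1
        exact le_trans (Nat.pow_le_pow_right (by norm_num) (by omega)) h4)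
      have h4 : (Fn X s : ℝ) ≤ ({D : 𝓞 K | Algebra.norm ℤ D ≤ X ∧ ClsC D ∧
          3 ^ (s + 1 + 1) ≤ Nat.card (Sel3 (D : K))}.ncard : ℝ) := by
        exact_mod_cast h3
      have h5 := (abs_le.1 (h2 s)).1
      have h6 : tl s = 1 - ∑ r ∈ range (s + 1), prob r := rfl
      rw [← h6]
      linarith

/-- **The mean of the dimension of the `3`-Selmer groups.** -/
theorem selMean (K : Type) [Field K] [NumberField K] [IsCyclotomicExtension {3} ℚ K] (ω : K)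
    (hω : ω ^ 2 + ω + 1 = 0) : ∃ S : ℕ → Finset (𝓞 K),
    (∀ X : ℕ, {D : 𝓞 K | Algebra.norm ℤ D ≤ X ∧ ClsC D} = ((S X : Finset (𝓞 K)) : Set (𝓞 K))) ∧
    (∀ D : 𝓞 K, ClsC D →
      dimK ω D + 1 ≤ Nat.log 3 (Nat.card (Sel3 (D : K))) ∧
      Nat.log 3 (Nat.card (Sel3 (D : K))) ≤ 2 * dimK ω D + 1) ∧
    Tendsto (fun X : ℕ => (∑ D ∈ S X, (dimK ω D : ℝ) ^ 1) / ((S X).card : ℝ)) atTop
      (nhds mu) := by
  obtain ⟨S, hS, -, hlim⟩ := momCF K ω hω
  refine ⟨S, hS, ?_, ?_⟩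
  · obtain ⟨⟨j, hj⟩, -⟩ := Pool.Agent.Y455.CTK.jex K
    intro D hD
    obtain ⟨z, rfl⟩ := j.surjective D
    obtain ⟨T, S, hT, hS, h9, rfl⟩ := cls_ex ((clsC_iff j hj z).1 hD)
    have h3 := dimK_of (log_S j hω hT hS h9).1
    obtain ⟨g1, g2⟩ := sel3_S (K := K) j hω hT hS h9 ((Gw_iff hT h9 _).2 rfl)
    rw [h3]
    constructor
    · have := Nat.log_mono_right (b := 3) g1
      rwa [Nat.log_pow (by norm_num)] at this
    · have := Nat.log_mono_right (b := 3) g2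
      rwa [Nat.log_pow (by norm_num)] at this
  · have := hlim 1
    rwa [mum_one] at this

end Pool.Agent.X253.CF
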