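import Mathlib
import Pool.Agent.X253.CF.Ex

/-!
# Project CF: finite generation, numerical values
-/

set_option autoImplicit false
set_option linter.unusedVariables false

open scoped Classical
open Finset Filter

namespace Pool.Agent.X253.CF

open NumberField WeierstrassCurve
open Pool.Agent.Y692.QS (Ei w nr toC)
open Pool.Agent.Y715.T.RecG (Pq)
open Pool.Agent.Y703.CT
open Pool.Agent.Y715.T.Gi Pool.Agent.Y715.T.Nr Pool.Agent.Y715.T.Df Pool.Agent.Y715.T.Ell
open Pool.Agent.XL6 (SelK prob finalXL)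
open Pool.Agent.Y696.CTK
open Pool.Agent.Y155.CT (a_mul a_cont AG AG_fg)
open Pool.Agent.Y350.CTK.Mw (act_act act_inj)
open Pool.Agent.X253.C3 (ClsC)

section
variable {K : Type} [Field K] [NumberField K] {j : Ei ≃+* 𝓞 K} {D : Ei}
  {e : AlgebraicClosure K ≃+* QB} {i₀ : QB} {hi : i₀ ^ 2 + i₀ + 1 = 0} {u : QB}
  {a : GK i₀ → ZMod 3}
  {Ψ : Pool.Agent.TH841.SH.D.Pt (ED (j D : K)) (AlgebraicClosure K) ≃+ Pt QB}
  {g : Pool.Agent.TH841.SH.D.Gal K ≃* GK i₀}

/-- finite generation over `K` -/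
theorem fg_of (hD : D ≠ 0) (hTr : TrfData K j D e i₀ hi u a Ψ g) :
    Module.Finite ℤ (ED (j D : K)).toAffine.Point := by
  obtain ⟨hTw, he, hgc, hgsc, hge, hΨ, hact⟩ := hTr
  have hfg := AG_fg (hi := hi) (a_mul hD hTw) (a_cont hD hTw)
  let φ : K →ₐ[K] AlgebraicClosure K := Algebra.ofId K (AlgebraicClosure K)
  let em : Pool.Agent.TH841.SH.D.Pt (ED (j D : K)) K →+ Pt QB :=
    Ψ.toAddMonoidHom.comp (Pool.Agent.TH841.SH.D.act (ED (j D : K)) φ)
  have hinj : Function.Injective em := Ψ.injective.comp (act_inj _ φ)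
  have hfix : ∀ (P : Pool.Agent.TH841.SH.D.Pt (ED (j D : K)) K) (σ : GK i₀),
      Pool.Agent.Y703.CT.act hi a σ (em P) = em P := by
    intro P σ
    have h1 := hact (g.symm σ) (Pool.Agent.TH841.SH.D.act (ED (j D : K)) φ P)
    rw [g.apply_symm_apply] at h1
    refine h1.symm.trans ?_
    rw [act_act]
    have h2 : ((g.symm σ).toAlgHom).comp φ = φ := by
      refine AlgHom.ext fun x => ?_
      exact (g.symm σ).commutes x
    rw [h2]
    rfl
  let em' : Pool.Agent.TH841.SH.D.Pt (ED (j D : K)) K →+ AG hi a :=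
    { toFun := fun P => ⟨em P, fun σ => hfix P σ⟩
      map_zero' := Subtype.ext (map_zero em)
      map_add' := fun P Q => Subtype.ext (map_add em P Q) }
  have h1 : Module.Finite ℤ (Pool.Agent.TH841.SH.D.Pt (ED (j D : K)) K) :=
    Module.Finite.of_injective em'.toIntLinearMap fun P Q h => hinj (congrArg Subtype.val h)
  exact h1

end

/-- **`E_D(K)` is finitely generated.** -/
theorem fg_CF (K : Type) [Field K] [NumberField K] [IsCyclotomicExtension {3} ℚ K] {D : 𝓞 K}
    (hD : ClsC D) : Module.Finite ℤ (ED (D : K)).toAffine.Point := by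
  obtain ⟨⟨j, hj⟩, -⟩ := Pool.Agent.Y455.CTK.jex K
  obtain ⟨z, rfl⟩ := j.surjective D
  obtain ⟨T, S, hT, hS, h9, rfl⟩ := cls_ex ((clsC_iff j hj z).1 hD)
  have hne : DD T S ≠ 0 := by
    intro h
    apply coe_ne (K := K) j hT hS h9
    rw [h, map_zero]
    rfl
  obtain ⟨e', i₀, hi, u, a, Ψ, g, hdata⟩ := parts.trf K j _ hne
  exact fg_of hne hdata

/-- numerical values of the sums of the limits -/
theorem prob_num (h1 : 0.639 < prob 0) : 0.9585 < ∑ r ∈ range 2, prob r ∧
    0.9984 < ∑ r ∈ range 3, prob r := by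
  have e1 : prob 1 = prob 0 / 2 := by
    unfold prob
    rw [Finset.range_zero, Finset.prod_empty, Finset.prod_range_one]
    norm_num
  have e2 : prob 2 = prob 0 / 16 := by
    unfold prob
    rw [Finset.range_zero, Finset.prod_empty, Finset.prod_range_succ, Finset.prod_range_one]
    norm_num
  rw [Finset.sum_range_succ, Finset.sum_range_succ, Finset.sum_range_succ, Finset.sum_range_succ,
    Finset.sum_range_zero, Finset.sum_range_succ, Finset.sum_range_zero, e1, e2]
  constructor <;> linarith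

end Pool.Agent.X253.CF
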