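import Pool.Agent.X253.CF.TwB

/-!
# Project CF: the average for the twists, the limit
-/

set_option autoImplicit false
set_option linter.unusedVariables false
set_option linter.unusedSectionVars false

open scoped Classical
open Finset Filter

namespace Pool.Agent.X253.CF

open Pool.Agent.Y692.QS (Ei w nr toC)
open Pool.Agent.Y715.T.RecG (Pq)
open Pool.Agent.Y699.E (nrm QB)
open Pool.Agent.Y703.CX (eL zz kk eL_tendsto logX_eq ev_eL kk_ge kk_le X_pos one_add_log lin_le)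
open Pool.Agent.Y703.XL (cr cr_pos cr_le t_C9 t_LA)

/-- the pairs avoiding `M` -/
noncomputable def PM (M : Finset Ei) (Y : ℕ) : Finset (Finset Ei × Finset Ei) :=
  (PP Y).filter fun p => Disjoint p.2 M

theorem filter_inst {α : Type} (s : Finset α) (p : α → Prop) (i1 i2 : DecidablePred p) :
    (@Finset.filter α p i1 s).card = (@Finset.filter α p i2 s).card := by
  have h : i1 = i2 := Subsingleton.elim _ _
  rw [h]

section mask
variable {M A A₂ : Finset Ei}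

/-- the number of the pairs avoiding `M` -/
theorem PM_low (hM : ∀ π ∈ M, Pq π ∧ nrm π % 9 = 1) : ∃ (c : ℝ) (X₀ : ℕ), 0 < c ∧
    ∀ X : ℕ, X₀ ≤ X → c * X ≤ ((PM M X).card : ℝ) := by
  obtain ⟨c, X₀, hc, h⟩ := PP_low
  refine ⟨c / (2 ^ M.card * 2 ^ M.card), X₀, by positivity, fun X hX => ?_⟩
  have h1 : (PP X).card ≤ (PM M X ×ˢ (M.powerset ×ˢ M.powerset)).card := by
    refine Finset.card_le_card_of_injOn
      (fun p => ((p.1 \ M, p.2 \ M), (p.1 ∩ M, p.2 ∩ M))) ?_ ?_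
    · intro p hp
      rw [Finset.mem_coe] at hp ⊢
      obtain ⟨hT, hS, hX, h9⟩ := (PP_iff X p).1 hp
      rw [Finset.mem_product, Finset.mem_product, Finset.mem_powerset, Finset.mem_powerset]
      refine ⟨?_, Finset.inter_subset_right, Finset.inter_subset_right⟩
      unfold PM
      rw [Finset.mem_filter]
      refine ⟨(PP_iff X _).2 ⟨Finset.sdiff_subset_sdiff hT le_rfl,
        fun π hπ => hS π (Finset.sdiff_subset hπ), ?_, ?_⟩, Finset.sdiff_disjoint⟩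
      · exact (Nat.mul_le_mul (nm_mono (fun π hπ => hS π (hT hπ)) Finset.sdiff_subset)
          (nm_mono hS Finset.sdiff_subset)).trans hX
      · have key : ∀ U : Finset Ei, nm U % 9 = nm (U \ M) % 9 := by
          intro U
          have e1 : U \ M ∪ U ∩ M = U := Finset.sdiff_union_inter U M
          have e2 : nm U = nm (U \ M) * nm (U ∩ M) := by
            rw [← nm_union (Finset.disjoint_sdiff_inter U M), e1]
          rw [e2, mul_one9 (nm_one fun π hπ => (hM π (Finset.mem_inter.1 hπ).2).2)]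
        show (nm (p.1 \ M) * nm (p.2 \ M)) % 9 ≠ 1
        rw [Nat.mul_mod, ← key, ← key, ← Nat.mul_mod]
        exact h9
    · intro p _ q _ h
      have h1 := congrArg (fun z => z.1.1 ∪ z.2.1) h
      have h2 := congrArg (fun z => z.1.2 ∪ z.2.2) h
      simp only [Finset.sdiff_union_inter] at h1 h2
      exact Prod.ext h1 h2
  rw [Finset.card_product, Finset.card_product, Finset.card_powerset] at h1
  have h2 : ((PP X).card : ℝ) ≤ (PM M X).card * (2 ^ M.card * 2 ^ M.card) := by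
    exact_mod_cast h1
  have h3 := h X hX
  rw [div_mul_eq_mul_div, div_le_iff₀ (by positivity)]
  linarith

theorem mem_PM (hM : ∀ π ∈ M, Pq π ∧ nrm π % 9 = 1) (hA : A ⊆ M) (hA₂ : A₂ ⊆ A) {X : ℕ}
    {p : Finset Ei × Finset Ei} (hp : p ∈ PM M X) : p.1 ∪ A₂ ⊆ p.2 ∪ A ∧
    (∀ π ∈ p.2 ∪ A, Pq π) ∧ (nm (p.1 ∪ A₂) * nm (p.2 ∪ A)) % 9 ≠ 1 := by
  unfold PM at hp
  rw [Finset.mem_filter] at hp
  obtain ⟨hp, hd⟩ := hp
  obtain ⟨hT, hS, h9⟩ := mem_PP hp
  have hTd : Disjoint p.1 M := hd.mono_left hT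
  refine ⟨Finset.union_subset_union hT hA₂, fun π hπ => ?_, ?_⟩
  · rcases Finset.mem_union.1 hπ with h | h
    · exact hS π h
    · exact (hM π (hA h)).1
  · rw [nm_union (hTd.mono_right (hA₂.trans hA)), nm_union (hd.mono_right hA)]
    have e1 := mul_one9 (n := nm p.1) (nm_one fun π hπ => (hM π (hA (hA₂ hπ))).2)
    have e2 := mul_one9 (n := nm p.2) (nm_one fun π hπ => (hM π (hA hπ)).2)
    rw [Nat.mul_mod, e1, e2, ← Nat.mul_mod]
    exact h9

theorem law_RM {C : ℝ} (hC : CntP C) {Y : ℕ} (R : ℕ) {e : ℝ} (he : 0 ≤ e)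
    (h : ∀ T : Finset Ei, (∀ π ∈ T, Pq π) → nm T ≤ 2 ^ R →
    ∀ r ≤ R, |((((TS T (bT T) (Y / nm T)).filter fun S => Disjoint S M).filter
        fun S => Gw (T ∪ A₂) r (S ∪ A)).card : ℝ) -
      cr r * (((TS T (bT T) (Y / nm T)).filter fun S => Disjoint S M).card : ℝ)| ≤ e)
    {r : ℕ} (hr : r ≤ R) :
    |(((PM M Y).filter fun p => Gw (p.1 ∪ A₂) r (p.2 ∪ A)).card : ℝ) -
        cr r * ((PM M Y).card : ℝ)| ≤
      C * 2 ^ R * e + 4 * C ^ 2 * Y * (1 / 2) ^ R := by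
  have hC1 := hC.one
  have hc0 := cr_nonneg r
  have hc1 := cr_le t_C9 r
  have e1 : ((PM M Y).filter fun p => Gw (p.1 ∪ A₂) r (p.2 ∪ A)).card =
      ∑ T ∈ SS Y, (((TS T (bT T) (Y / nm T)).filter fun S => Disjoint S M).filter
        fun S => Gw (T ∪ A₂) r (S ∪ A)).card := by
    unfold PM
    rw [Finset.filter_filter]
    refine (filter_inst _ _ _ _).trans
      ((sum_T Y (fun T S => Disjoint S M ∧ Gw (T ∪ A₂) r (S ∪ A))).trans
        (Finset.sum_congr rfl fun T _ => ?_))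
    rw [Finset.filter_filter]
    exact filter_inst _ _ _ _
  have e2 : (PM M Y).card =
      ∑ T ∈ SS Y, ((TS T (bT T) (Y / nm T)).filter fun S => Disjoint S M).card := by
    unfold PM
    exact (filter_inst _ _ _ _).trans ((sum_T Y (fun T S => Disjoint S M)).trans
      (Finset.sum_congr rfl fun T _ => filter_inst _ _ _ _))
  rw [e1, e2]
  push_cast
  rw [Finset.mul_sum, ← Finset.sum_sub_distrib]
  refine (Finset.abs_sum_le_sum_abs _ _).trans ?_
  rw [← Finset.sum_filter_not_add_sum_filter (SS Y) (fun T => 2 ^ R ≤ nm T)]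
  refine add_le_add ?_ ?_
  · refine (Finset.sum_le_card_nsmul _ _ e fun T hT => ?_).trans ?_
    · rw [Finset.mem_filter] at hT
      exact h T (K.mem_SS.1 hT.1).1.1 (not_le.1 hT.2).le r hr
    · rw [nsmul_eq_mul]
      refine mul_le_mul_of_nonneg_right ?_ he
      have h3 : ((SS Y).filter (fun T => ¬ 2 ^ R ≤ nm T)).card ≤ (SS (2 ^ R)).card := by
        refine Finset.card_le_card fun T hT => ?_
        rw [Finset.mem_filter] at hT
        exact K.mem_SS.2 ⟨(K.mem_SS.1 hT.1).1, (not_le.1 hT.2).le⟩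
      refine le_trans (Nat.cast_le.2 h3) ((hC.all (2 ^ R) Nat.one_le_two_pow).trans ?_)
      push_cast
      exact le_rfl
  · refine (Finset.sum_le_sum fun T hT => ?_).trans (sum_TS hC Y R)
    have h2 : ((((TS T (bT T) (Y / nm T)).filter fun S => Disjoint S M).filter
        fun S => Gw (T ∪ A₂) r (S ∪ A)).card : ℝ) ≤
        (((TS T (bT T) (Y / nm T)).filter fun S => Disjoint S M).card : ℝ) := by
      exact_mod_cast Finset.card_filter_le _ _
    have h3 : (0 : ℝ) ≤ (((TS T (bT T) (Y / nm T)).filter fun S => Disjoint S M).card : ℝ) :=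
      Nat.cast_nonneg _
    have h4 : (((TS T (bT T) (Y / nm T)).filter fun S => Disjoint S M).card : ℝ) ≤
        ((TS T (bT T) (Y / nm T)).card : ℝ) := by
      exact_mod_cast Finset.card_filter_le _ _
    exact (Pool.Agent.Y703.CX.abs_sub_le_of (Nat.cast_nonneg _) h2 (mul_nonneg hc0 h3)
      (mul_le_of_le_one_left h3 hc1)).trans h4

/-- **the law for the twists** -/
theorem t_pairsM (hM : ∀ π ∈ M, Pq π ∧ nrm π % 9 = 1) (hA : A ⊆ M) (hA₂ : A₂ ⊆ A) (r : ℕ) :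
    Tendsto (fun Y : ℕ => (((PM M Y).filter fun p => Gw (p.1 ∪ A₂) r (p.2 ∪ A)).card : ℝ) /
      ((PM M Y).card : ℝ)) atTop (nhds (cr r)) := by
  obtain ⟨C, hC⟩ := N.t_CNT
  have hC1 := hC.one
  obtain ⟨c₀, X₀, hc₀, hlow⟩ := PM_low hM
  have hlim : Tendsto (fun n : ℕ => (C * nm A + 4 * C ^ 2) * (1 / 2 : ℝ) ^ n) atTop (nhds 0) := by
    have := (tendsto_pow_atTop_nhds_zero_of_lt_one (r := (1 / 2 : ℝ)) (by norm_num)
      (by norm_num)).const_mul (C * nm A + 4 * C ^ 2)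
    rwa [mul_zero] at this
  rw [Metric.tendsto_nhds]
  intro ε hε
  have hε' : 0 < ε * c₀ / 2 := by positivity
  filter_upwards [(hlim.comp Rr_tendsto).eventually (gt_mem_nhds hε'), ev_TM hM hA hA₂,
    eventually_ge_atTop X₀, eventually_ge_atTop 1, Rr_tendsto.eventually_ge_atTop r]
    with Y h1 h2 h3 h4 h5
  have hY : (0 : ℝ) < Y := by exact_mod_cast h4
  have hlo := hlow Y h3
  have hpos : (0 : ℝ) < ((PM M Y).card : ℝ) := lt_of_lt_of_le (by positivity) hlo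
  have h6 := law_RM hC (Rr Y) (e := nm A * (Y * Real.exp (-2 * (Rr Y : ℝ)))) (by positivity)
    h2 h5
  rw [Real.dist_eq]
  have e3 : (((PM M Y).filter fun p => Gw (p.1 ∪ A₂) r (p.2 ∪ A)).card : ℝ) /
      ((PM M Y).card : ℝ) - cr r =
      ((((PM M Y).filter fun p => Gw (p.1 ∪ A₂) r (p.2 ∪ A)).card : ℝ) -
        cr r * ((PM M Y).card : ℝ)) / ((PM M Y).card : ℝ) := by
    field_simp
  rw [e3, abs_div, abs_of_pos hpos, div_lt_iff₀ hpos]
  have h7 : C * 2 ^ Rr Y * (nm A * (Y * Real.exp (-2 * (Rr Y : ℝ)))) +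
      4 * C ^ 2 * Y * (1 / 2) ^ Rr Y ≤ (C * nm A + 4 * C ^ 2) * (1 / 2) ^ Rr Y * Y := by
    have e2 := mul_le_mul_of_nonneg_left (num2 (Rr Y))
      (show 0 ≤ C * (nm A : ℝ) * (Y : ℝ) by positivity)
    calc C * 2 ^ Rr Y * (nm A * (Y * Real.exp (-2 * (Rr Y : ℝ)))) +
          4 * C ^ 2 * Y * (1 / 2) ^ Rr Y =
          C * nm A * Y * (2 ^ Rr Y * Real.exp (-2 * (Rr Y : ℝ))) +
          4 * C ^ 2 * Y * (1 / 2) ^ Rr Y := by ring
      _ ≤ C * nm A * Y * (1 / 2) ^ Rr Y + 4 * C ^ 2 * Y * (1 / 2) ^ Rr Y := by linarith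
      _ = _ := by ring
  have h8 : (C * nm A + 4 * C ^ 2) * (1 / 2) ^ Rr Y < ε * c₀ / 2 := h1
  have h9 : (C * nm A + 4 * C ^ 2) * (1 / 2) ^ Rr Y * Y ≤ ε * c₀ / 2 * Y :=
    mul_le_mul_of_nonneg_right h8.le hY.le
  have h10 : ε * c₀ / 2 * Y = ε / 2 * (c₀ * Y) := by ring
  have h11 : ε / 2 * (c₀ * Y) ≤ ε / 2 * ((PM M Y).card : ℝ) :=
    mul_le_mul_of_nonneg_left hlo (by positivity)
  have h12 : 0 < ε * ((PM M Y).card : ℝ) := by positivity
  linarith

theorem split_avgM (hM : ∀ π ∈ M, Pq π ∧ nrm π % 9 = 1) (hA : A ⊆ M) (hA₂ : A₂ ⊆ A) (Y B : ℕ) :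
    ∑ p ∈ PM M Y, (rM A A₂ p.1 p.2 : ℝ) =
    ∑ r ∈ range (B + 1), (r : ℝ) *
      (((PM M Y).filter fun p => Gw (p.1 ∪ A₂) r (p.2 ∪ A)).card : ℝ) +
    ∑ p ∈ PP Y, gM M A A₂ B p.1 p.2 := by
  have h0 : ∑ p ∈ PP Y, gM M A A₂ B p.1 p.2 =
      ∑ p ∈ PM M Y, (if B < rM A A₂ p.1 p.2 then (rM A A₂ p.1 p.2 : ℝ) else 0) := by
    unfold PM
    exact (Finset.sum_filter _ _).symm
  have h1 : ∀ p ∈ PM M Y, (rM A A₂ p.1 p.2 : ℝ) =
      ∑ r ∈ range (B + 1), (if Gw (p.1 ∪ A₂) r (p.2 ∪ A) then (r : ℝ) else 0) +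
        (if B < rM A A₂ p.1 p.2 then (rM A A₂ p.1 p.2 : ℝ) else 0) := by
    intro p hp
    obtain ⟨hT, hS, h9⟩ := mem_PM hM hA hA₂ hp
    have h2 : ∑ r ∈ range (B + 1), (if Gw (p.1 ∪ A₂) r (p.2 ∪ A) then (r : ℝ) else 0) =
        ∑ r ∈ range (B + 1), (if rM A A₂ p.1 p.2 = r then (r : ℝ) else 0) := by
      refine Finset.sum_congr rfl fun r _ => ?_
      have h3 : Gw (p.1 ∪ A₂) r (p.2 ∪ A) ↔ rM A A₂ p.1 p.2 = r := Gw_iff hT h9 r
      by_cases h4 : Gw (p.1 ∪ A₂) r (p.2 ∪ A)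
      · rw [if_pos h4, if_pos (h3.1 h4)]
      · rw [if_neg h4, if_neg fun h5 => h4 (h3.2 h5)]
    rw [h2, Finset.sum_ite_eq]
    by_cases h : B < rM A A₂ p.1 p.2
    · rw [if_pos h, if_neg (by rw [Finset.mem_range]; omega), zero_add]
    · rw [if_neg h, if_pos (by rw [Finset.mem_range]; omega), add_zero]
  rw [h0, Finset.sum_congr rfl h1, Finset.sum_add_distrib, Finset.sum_comm]
  congr 1
  refine Finset.sum_congr rfl fun r _ => ?_
  rw [← Finset.sum_filter, Finset.sum_const, nsmul_eq_mul, mul_comm]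

/-- **the average for the twists** -/
theorem avg_limM (hM : ∀ π ∈ M, Pq π ∧ nrm π % 9 = 1) (hA : A ⊆ M) (hA₂ : A₂ ⊆ A) :
    Tendsto (fun Y : ℕ => (∑ p ∈ PM M Y, (rM A A₂ p.1 p.2 : ℝ)) / ((PM M Y).card : ℝ))
    atTop (nhds mu) := by
  obtain ⟨a₀, ha₀, hg⟩ := sum_gM' hM hA hA₂
  obtain ⟨c₀, X₀, hc₀, hlow⟩ := PM_low hM
  rw [Metric.tendsto_nhds]
  intro η hη
  have hB1 : Tendsto (fun B : ℕ => ∑ r ∈ range (B + 1), (r : ℝ) * cr r) atTop (nhds mu) :=
    (tendsto_add_atTop_iff_nat (f := fun B : ℕ => ∑ r ∈ range B, (r : ℝ) * cr r) 1).2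
      summable_mu.hasSum.tendsto_sum_nat
  have hη6 : 0 < η * c₀ / 6 := by positivity
  obtain ⟨B, hb1, hb2⟩ := ((hB1.eventually (Metric.ball_mem_nhds mu (show 0 < η / 3 by
    positivity))).and ((B_lim a₀).eventually (gt_mem_nhds hη6))).exists
  replace hb1 := Metric.mem_ball.1 hb1
  rw [Real.dist_eq] at hb1
  have hlim : Tendsto (fun Y : ℕ => ∑ r ∈ range (B + 1), (r : ℝ) *
      ((((PM M Y).filter fun p => Gw (p.1 ∪ A₂) r (p.2 ∪ A)).card : ℝ) /
        ((PM M Y).card : ℝ))) atTop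
      (nhds (∑ r ∈ range (B + 1), (r : ℝ) * cr r)) :=
    tendsto_finsetSum _ fun r _ => (t_pairsM hM hA hA₂ r).const_mul _
  filter_upwards [hlim.eventually (Metric.ball_mem_nhds _ (show 0 < η / 3 by positivity)),
    hg B (η * c₀ / 6) hη6, eventually_ge_atTop X₀, eventually_ge_atTop 1] with Y h1 h2 h3 h4
  replace h1 := Metric.mem_ball.1 h1
  rw [Real.dist_eq] at h1
  have hY : (0 : ℝ) < Y := by exact_mod_cast h4
  have hlo := hlow Y h3
  have hpos : (0 : ℝ) < ((PM M Y).card : ℝ) := lt_of_lt_of_le (by positivity) hlo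
  rw [Real.dist_eq, split_avgM hM hA hA₂ Y B, add_div, Finset.sum_div]
  have e1 : ∑ r ∈ range (B + 1), (r : ℝ) *
      (((PM M Y).filter fun p => Gw (p.1 ∪ A₂) r (p.2 ∪ A)).card : ℝ) / ((PM M Y).card : ℝ) =
      ∑ r ∈ range (B + 1), (r : ℝ) *
      ((((PM M Y).filter fun p => Gw (p.1 ∪ A₂) r (p.2 ∪ A)).card : ℝ) /
        ((PM M Y).card : ℝ)) :=
    Finset.sum_congr rfl fun r _ => mul_div_assoc _ _ _
  rw [e1]
  have h5 : (∑ p ∈ PP Y, gM M A A₂ B p.1 p.2) / ((PM M Y).card : ℝ) ≤ η / 3 := by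
    rw [div_le_iff₀ hpos]
    have g1 : (a₀ * ((B + 2) * (1 / 8) ^ B) + η * c₀ / 6) * (Y : ℝ) ≤
        (η * c₀ / 6 + η * c₀ / 6) * Y := by
      refine mul_le_mul_of_nonneg_right ?_ hY.le
      have : a₀ * (((B : ℝ) + 2) * (1 / 8) ^ B) < η * c₀ / 6 := hb2
      linarith
    have g2 : (η * c₀ / 6 + η * c₀ / 6) * (Y : ℝ) = η / 3 * (c₀ * Y) := by ring
    have g3 : η / 3 * (c₀ * Y) ≤ η / 3 * ((PM M Y).card : ℝ) :=
      mul_le_mul_of_nonneg_left hlo (by positivity)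
    linarith
  have h6 : 0 ≤ (∑ p ∈ PP Y, gM M A A₂ B p.1 p.2) / ((PM M Y).card : ℝ) :=
    div_nonneg (Finset.sum_nonneg fun p _ => gM_nonneg M A A₂ B p.1 p.2) hpos.le
  rw [abs_lt] at h1 hb1 ⊢
  constructor <;> linarith [h1.1, h1.2, hb1.1, hb1.2]

end mask

end Pool.Agent.X253.CF
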