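import Pool.Agent.X253.C3.Pts3

/-!
# Project CF: the rank over `K(∛l : l ∈ T)`
-/

set_option autoImplicit false
set_option linter.unusedSectionVars false

open NumberField WeierstrassCurve

namespace Pool.Agent.X253.CF.Tw

open Pool.Agent.TH841.NF (Sc tF tF_zero tF_some tF_add)
open Pool.Agent.X253.C3
open scoped Classical

section gen
variable {G : Type} [AddCommGroup G]

theorem rank_sup {ι : Type} (s : Finset ι) (R : ι → Submodule ℤ G) :
    Module.rank ℤ (↥(⨆ i ∈ s, R i) : Type) ≤ ∑ i ∈ s, Module.rank ℤ (R i) := by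
  induction s using Finset.induction_on with
  | empty =>
    have e : (⨆ i ∈ (∅ : Finset ι), R i) = ⊥ := by simp
    rw [e, rank_bot, Finset.sum_empty]
  | insert a s ha ih =>
    rw [Finset.iSup_insert, Finset.sum_insert ha]
    exact (Submodule.rank_add_le_rank_add_rank _ _).trans (add_le_add le_rfl ih)

/-- the rank from the points killed into a sum of subgroups -/
theorem rank_of {ι : Type} [Fintype ι] (N : ι → Type) [∀ i, AddCommGroup (N i)]
    [∀ i, Module.Finite ℤ (N i)] (f : ∀ i, N i →+ G) (n : ℕ) (hn : n ≠ 0)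
    (hk : {x : G | n • x = 0}.Finite)
    (h : ∀ x : G, ∃ y : ∀ i, N i, ∑ i, f i (y i) = n • x) :
    Module.Finite ℤ G ∧ Module.finrank ℤ G ≤ ∑ i, Module.finrank ℤ (N i) := by
  obtain ⟨R, hR⟩ : ∃ R : ι → Submodule ℤ G, R = fun i => LinearMap.range (f i).toIntLinearMap :=
    ⟨_, rfl⟩
  obtain ⟨g, hg⟩ : ∃ g : G →ₗ[ℤ] G, ∀ x, g x = n • x :=
    ⟨(nsmulAddMonoidHom n : G →+ G).toIntLinearMap, fun _ => rfl⟩
  have hsub : LinearMap.range g ≤ ⨆ i ∈ (Finset.univ : Finset ι), R i := by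
    rintro _ ⟨x, rfl⟩
    obtain ⟨y, hy⟩ := h x
    rw [hg, ← hy]
    refine Submodule.sum_mem _ fun i _ => ?_
    refine Submodule.mem_iSup_of_mem i (Submodule.mem_iSup_of_mem (Finset.mem_univ i) ?_)
    rw [hR]
    exact ⟨y i, rfl⟩
  have hRfg : ∀ i, (R i).FG := by
    intro i
    rw [hR]
    exact Module.Finite.iff_fg.1 inferInstance
  have hfg : (⨆ i ∈ (Finset.univ : Finset ι), R i).FG :=
    Submodule.fg_biSup _ _ fun i _ => hRfg i
  have hN : IsNoetherian ℤ (↥(⨆ i ∈ (Finset.univ : Finset ι), R i) : Type) :=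
    isNoetherian_of_fg_of_noetherian _ hfg
  refine ⟨?_, ?_⟩
  · refine ⟨Submodule.fg_of_fg_map_of_fg_inf_ker g ?_ ?_⟩
    · rw [Submodule.map_top]
      exact (isNoetherian_submodule.1 hN) _ hsub
    · rw [top_inf_eq]
      have : Finite (LinearMap.ker g) := by
        refine Set.Finite.subset hk ?_
        intro x hx
        have : g x = 0 := hx
        rwa [hg] at this
      exact Module.Finite.iff_fg.1 inferInstance
  · refine Module.finrank_le_of_rank_le ?_
    have h1 := LinearMap.rank_range_add_rank_ker g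
    have h2 : Module.rank ℤ (LinearMap.ker g) = 0 := by
      rw [rank_eq_zero_iff]
      rintro ⟨x, hx⟩
      refine ⟨(n : ℤ), by exact_mod_cast hn, ?_⟩
      apply Subtype.ext
      have h3 : g x = 0 := hx
      rw [hg] at h3
      show (n : ℤ) • x = 0
      rw [natCast_zsmul]
      exact h3
    rw [h2, add_zero] at h1
    rw [← h1]
    refine (Submodule.rank_mono hsub).trans ((rank_sup _ R).trans ?_)
    push_cast
    refine Finset.sum_le_sum fun i _ => ?_
    rw [hR, Module.finrank_eq_rank]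
    exact rank_range_le _

end gen

section main

variable {K F : Type} [Field K] [NumberField K] [Field F] [NumberField F] [Algebra K F]

/-- **The rank over `F = K(∛l : l ∈ T)`** -/
theorem rank_tower (I : K) (hI : I ^ 2 + I + 1 = 0) {T : Type} [Fintype T] (l : T → K)
    (hl : ∀ i, l i ≠ 0)
    (x : T → F) (hx : ∀ i, x i ^ 3 = algebraMap K F (l i))
    (hgen : ∀ S : Subfield F, (∀ k : K, algebraMap K F k ∈ S) → (∀ i, x i ∈ S) → S = ⊤)
    (a : K) (ha : a ≠ 0)
    (hyp : ∀ ε : T → Fin 3, Module.Finite ℤ (Ec (a * ∏ i, l i ^ (ε i : ℕ))).toAffine.Point) :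
    Module.Finite ℤ (Ec (algebraMap K F a)).toAffine.Point ∧
    Module.finrank ℤ (Ec (algebraMap K F a)).toAffine.Point ≤
      ∑ ε : T → Fin 3, Module.finrank ℤ (Ec (a * ∏ i, l i ^ (ε i : ℕ))).toAffine.Point := by
  have hgal : IsGalois K F := galois3 I hI l x hx hgen
  have hfd : FiniteDimensional K F := Pool.Agent.Y715.CS.finKF
  have _ : Fintype (F ≃ₐ[K] F) := Fintype.ofFinite _
  have haF : algebraMap K F a ≠ 0 := (map_ne_zero _).2 ha
  have hx0 : ∀ i, x i ≠ 0 := by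
    intro i h0
    have h1 := hx i
    rw [h0, zero_pow (by norm_num)] at h1
    exact hl i ((map_eq_zero _).1 h1.symm)
  obtain ⟨u, hu⟩ : ∃ u : (T → Fin 3) → F, ∀ ε, u ε = ∏ i, x i ^ (ε i : ℕ) := ⟨_, fun ε => rfl⟩
  have hune : ∀ ε, u ε ≠ 0 := fun ε => by
    rw [hu]
    exact Finset.prod_ne_zero_iff.2 fun i _ => pow_ne_zero _ (hx0 i)
  have hu3 : ∀ ε, u ε ^ 3 = algebraMap K F (∏ i, l i ^ (ε i : ℕ)) := by
    intro ε
    rw [hu, ← Finset.prod_pow, map_prod]
    refine Finset.prod_congr rfl fun i _ => ?_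
    rw [map_pow, ← hx i, ← pow_mul, ← pow_mul, mul_comm]
  -- the cocycle
  obtain ⟨w, hw⟩ : ∃ w : (F ≃ₐ[K] F) → T → F, ∀ σ i, w σ i = σ (x i) / x i := ⟨_, fun _ _ => rfl⟩
  have hwx : ∀ σ i, σ (x i) = w σ i * x i := fun σ i => by
    rw [hw, div_mul_cancel₀ _ (hx0 i)]
  have hw3 : ∀ σ i, w σ i ^ 3 = 1 := by
    intro σ i
    have h1 : σ (x i) ^ 3 = x i ^ 3 := by
      rw [← map_pow, hx i, AlgEquiv.commutes]
    rw [hw, div_pow, h1, div_self (pow_ne_zero _ (hx0 i))]
  obtain ⟨J, hJ⟩ : ∃ J : F, J = algebraMap K F I := ⟨_, rfl⟩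
  have hJ2 : J ^ 2 + J + 1 = 0 := by
    rw [hJ, ← map_pow, ← map_one (algebraMap K F), ← map_add, ← map_add, hI, map_zero]
  have hcube : ∀ z : F, z ^ 3 = 1 → ∃ c : K, z = algebraMap K F c := by
    intro z hz
    have h5 : (z - 1) * ((z - J) * (z - J ^ 2)) = 0 := by
      linear_combination hz + (- z ^ 2 + z + J * z - z * 1 + (1 - J)) * hJ2
    rcases mul_eq_zero.1 h5 with h6 | h6
    · exact ⟨1, by rw [map_one]; linear_combination h6⟩
    · rcases mul_eq_zero.1 h6 with h7 | h7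
      · exact ⟨I, by rw [← hJ]; linear_combination h7⟩
      · exact ⟨I ^ 2, by rw [map_pow, ← hJ]; linear_combination h7⟩
  obtain ⟨W, hW⟩ : ∃ W : (T → Fin 3) → (F ≃ₐ[K] F) → F, ∀ ε σ, W ε σ =
      ∏ i, w σ i ^ (ε i : ℕ) := ⟨_, fun _ _ => rfl⟩
  have hW3 : ∀ ε σ, W ε σ ^ 3 = 1 := by
    intro ε σ
    rw [hW, ← Finset.prod_pow]
    refine Finset.prod_eq_one fun i _ => ?_
    rw [← pow_mul, mul_comm, pow_mul, hw3, one_pow]
  have hWu : ∀ ε σ, σ (u ε) = W ε σ * u ε := by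
    intro ε σ
    rw [hu, hW, map_prod, ← Finset.prod_mul_distrib]
    refine Finset.prod_congr rfl fun i _ => ?_
    rw [map_pow, hwx, mul_pow]
  have hWfix : ∀ ε σ (τ : F ≃ₐ[K] F), τ (W ε σ) = W ε σ := by
    intro ε σ τ
    obtain ⟨c, hc⟩ := hcube _ (hW3 ε σ)
    rw [hc, AlgEquiv.commutes]
  have hWmul : ∀ ε (τ σ : F ≃ₐ[K] F), W ε σ * W ε τ = W ε (τ * σ) := by
    intro ε τ σ
    apply mul_right_cancel₀ (hune ε)
    rw [← hWu, AlgEquiv.mul_apply, hWu ε σ, map_mul, hWfix, hWu ε τ]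
    ring
  have hd : ∀ σ : F ≃ₐ[K] F, ((σ : F ≃+* F) : F →+* F) (algebraMap K F a) = algebraMap K F a :=
    fun σ => σ.commutes a
  -- the projections
  obtain ⟨Pr, hPr⟩ : ∃ Pr : (T → Fin 3) → (Ec (algebraMap K F a)).toAffine.Point →
      (Ec (algebraMap K F a)).toAffine.Point, ∀ ε P, Pr ε P =
      ∑ σ : F ≃ₐ[K] F, B ((σ : F ≃+* F) : F →+* F) (W ε σ) (hd σ) (hW3 ε σ) P :=
    ⟨_, fun _ _ => rfl⟩
  have hfix : ∀ ε P (τ : F ≃ₐ[K] F),
      B ((τ : F ≃+* F) : F →+* F) (W ε τ) (hd τ) (hW3 ε τ) (Pr ε P) = Pr ε P := by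
    intro ε P τ
    rw [hPr, map_sum]
    have h1 : ∀ σ : F ≃ₐ[K] F, B ((τ : F ≃+* F) : F →+* F) (W ε τ) (hd τ) (hW3 ε τ)
        (B ((σ : F ≃+* F) : F →+* F) (W ε σ) (hd σ) (hW3 ε σ) P) =
        B (((τ * σ : F ≃ₐ[K] F) : F ≃+* F) : F →+* F) (W ε (τ * σ)) (hd (τ * σ))
          (hW3 ε (τ * σ)) P := by
      intro σ
      refine B_comp _ _ _ _ _ _ _ _ _ _ _ _ (fun _ => rfl) ?_ P
      rw [← hWmul]
      exact congrArg (· * W ε τ) (hWfix ε σ τ)
    rw [Finset.sum_congr rfl fun σ _ => h1 σ]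
    exact Equiv.sum_comp (Equiv.mulLeft τ) (fun σ : F ≃ₐ[K] F =>
      B ((σ : F ≃+* F) : F →+* F) (W ε σ) (hd σ) (hW3 ε σ) P)
  have hsum : ∀ P, ∑ ε, Pr ε P = (3 ^ Fintype.card T : ℕ) • P := by
    intro P
    have h0 : ∑ ε, Pr ε P = ∑ σ : F ≃ₐ[K] F, ∑ ε,
        B ((σ : F ≃+* F) : F →+* F) (W ε σ) (hd σ) (hW3 ε σ) P := by
      simp only [hPr]
      exact Finset.sum_comm
    rw [h0, Finset.sum_eq_single 1]
    · have h2 : ∀ ε, B (((1 : F ≃ₐ[K] F) : F ≃+* F) : F →+* F) (W ε 1) (hd 1) (hW3 ε 1) P =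
          P := by
        intro ε
        have hW1 : W ε 1 = 1 := by
          apply mul_right_cancel₀ (hune ε)
          rw [← hWu, one_mul, AlgEquiv.one_apply]
        match P with
        | 0 => rw [map_zero]
        | .some X Y h =>
          obtain ⟨g1, e1⟩ := B_some (((1 : F ≃ₐ[K] F) : F ≃+* F) : F →+* F) (W ε 1) (hd 1)
            (hW3 ε 1) X Y h
          rw [e1, Affine.Point.some.injEq, hW1, one_pow, one_pow, mul_one, mul_one]
          exact ⟨rfl, rfl⟩
      rw [Finset.sum_congr rfl fun ε _ => h2 ε, Finset.sum_const, Finset.card_univ,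
        Fintype.card_fun, Fintype.card_fin]
    · intro σ _ hσ
      have hne : ∃ i, w σ i ≠ 1 := by
        by_contra hcon
        push Not at hcon
        apply hσ
        have h5 := hgen (RingHom.eqLocusField ((σ : F ≃+* F) : F →+* F) (RingHom.id F))
          (fun y => σ.commutes y) (fun i => by
            show σ (x i) = x i
            rw [hwx, hcon i, one_mul])
        ext y
        have h7 : y ∈ RingHom.eqLocusField ((σ : F ≃+* F) : F →+* F) (RingHom.id F) := by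
          rw [h5]; trivial
        exact h7
      refine sum_zero (w σ) (hw3 σ) hne _ fun z hz3 hz1 ε ε' ε'' h' h'' => ?_
      rw [← hW, ← hW] at h' h''
      have hzz : z ^ 2 + z + 1 = 0 := by
        have h5 : (z - 1) * (z ^ 2 + z + 1) = 0 := by linear_combination hz3
        exact (mul_eq_zero.1 h5).resolve_left (sub_ne_zero.2 hz1)
      have hz4 : (z ^ 2) ^ 2 + z ^ 2 + 1 = 0 := by linear_combination (z ^ 2 - z + 1) * hzz
      have hz5 : z ^ 2 ≠ 1 := by
        intro h5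
        apply hz1
        linear_combination hz3 - z * h5
      match P with
      | 0 => rw [map_zero, map_zero, map_zero, add_zero, add_zero]
      | .some X Y h =>
        obtain ⟨g1, e1⟩ := B_some ((σ : F ≃+* F) : F →+* F) (W ε σ) (hd σ) (hW3 ε σ) X Y h
        obtain ⟨g2, e2⟩ := B_some ((σ : F ≃+* F) : F →+* F) (W ε' σ) (hd σ) (hW3 ε' σ) X Y h
        obtain ⟨g3, e3⟩ := B_some ((σ : F ≃+* F) : F →+* F) (W ε'' σ) (hd σ) (hW3 ε'' σ) X Y h
        rw [e1, e2, e3]
        refine sum3' (Ec (algebraMap K F a)) rfl rfl rfl rfl haF hz4 hz5 _ _ _ ?_ ?_ ?_ ?_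
        · rw [h']
          ring
        · rw [hW3, hW3]
        · rw [h'']
          ring
        · rw [hW3, hW3]
    · intro h
      exact absurd (Finset.mem_univ _) h
  -- the embeddings of the points of the twists
  have hSc : ∀ ε, Sc (algebraMap K F) (u ε)⁻¹ (Ec (a * ∏ i, l i ^ (ε i : ℕ)))
      (Ec (algebraMap K F a)) := by
    intro ε
    refine ⟨inv_ne_zero (hune ε), ?_, ?_, ?_, ?_, ?_⟩
    · change (0 : F) = algebraMap K F 0 * _
      rw [map_zero, zero_mul]
    · change (0 : F) = algebraMap K F 0 * _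
      rw [map_zero, zero_mul]
    · change algebraMap K F a = algebraMap K F (a * ∏ i, l i ^ (ε i : ℕ)) * ((u ε)⁻¹) ^ 3
      rw [map_mul, ← hu3, inv_pow, mul_assoc, mul_inv_cancel₀ (pow_ne_zero 3 (hune ε)), mul_one]
    · change (0 : F) = algebraMap K F 0 * _
      rw [map_zero, zero_mul]
    · change (0 : F) = algebraMap K F 0 * _
      rw [map_zero, zero_mul]
  obtain ⟨em, hem⟩ : ∃ em : ∀ ε : T → Fin 3, (Ec (a * ∏ i, l i ^ (ε i : ℕ))).toAffine.Point →+
      (Ec (algebraMap K F a)).toAffine.Point, ∀ ε P, em ε P = tF (hSc ε) P :=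
    ⟨fun ε => { toFun := tF (hSc ε), map_zero' := rfl, map_add' := tF_add (hSc ε) },
      fun _ _ => rfl⟩
  have hex : ∀ ε, ∀ Q : (Ec (algebraMap K F a)).toAffine.Point, (∀ τ : F ≃ₐ[K] F,
      B ((τ : F ≃+* F) : F →+* F) (W ε τ) (hd τ) (hW3 ε τ) Q = Q) → ∃ P, em ε P = Q := by
    intro ε
    rintro (_ | ⟨X, Y, hn⟩) hP
    · exact ⟨0, map_zero _⟩
    · have hfix : ∀ τ : F ≃ₐ[K] F, τ (X * u ε ^ 2) = X * u ε ^ 2 ∧
          τ (Y * u ε ^ 3) = Y * u ε ^ 3 := by
        intro τ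
        have h1 := hP τ
        obtain ⟨h2, e2⟩ := B_some ((τ : F ≃+* F) : F →+* F) (W ε τ) (hd τ) (hW3 ε τ) X Y hn
        have h1' : B ((τ : F ≃+* F) : F →+* F) (W ε τ) (hd τ) (hW3 ε τ)
          (Affine.Point.some X Y hn) = Affine.Point.some X Y hn := h1
        rw [e2, Affine.Point.some.injEq] at h1'
        obtain ⟨h3, h4⟩ := h1'
        have h3' : τ X * W ε τ ^ 2 = X := h3
        have h4' : τ Y * W ε τ ^ 3 = Y := h4
        rw [map_mul, map_mul, map_pow, map_pow, hWu]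
        constructor
        · linear_combination (u ε ^ 2) * h3'
        · linear_combination (u ε ^ 3) * h4'
      obtain ⟨U, hU⟩ := (IsGalois.mem_range_algebraMap_iff_fixed (X * u ε ^ 2)).2
        fun τ => (hfix τ).1
      obtain ⟨V, hV⟩ := (IsGalois.mem_range_algebraMap_iff_fixed (Y * u ε ^ 3)).2
        fun τ => (hfix τ).2
      have heq : Y ^ 2 + algebraMap K F a * Y = X ^ 3 := (Ec_eqn _ X Y).1 hn.1
      have hd0 : a * ∏ i, l i ^ (ε i : ℕ) ≠ 0 :=
        mul_ne_zero ha (Finset.prod_ne_zero_iff.2 fun i _ => pow_ne_zero _ (hl i))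
      have hns : (Ec (a * ∏ i, l i ^ (ε i : ℕ))).toAffine.Nonsingular U V := by
        rw [← Affine.equation_iff_nonsingular_of_Δ_ne_zero]
        · rw [Ec_eqn]
          apply (algebraMap K F).injective
          rw [map_add, map_pow, map_pow, map_mul, map_mul, ← hu3, hU, hV]
          linear_combination u ε ^ 6 * heq
        · have : (Ec (a * ∏ i, l i ^ (ε i : ℕ))).toAffine.Δ =
              -27 * (a * ∏ i, l i ^ (ε i : ℕ)) ^ 4 := by
            simp only [Ec, WeierstrassCurve.Δ, WeierstrassCurve.b₂, WeierstrassCurve.b₄,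
              WeierstrassCurve.b₆, WeierstrassCurve.b₈]
            ring
          rw [this]
          exact mul_ne_zero (by norm_num) (pow_ne_zero 4 hd0)
      refine ⟨.some U V hns, ?_⟩
      rw [hem, tF_some, Affine.Point.some.injEq]
      constructor
      · rw [hU, inv_pow, mul_assoc, mul_inv_cancel₀ (pow_ne_zero 2 (hune ε)), mul_one]
      · rw [hV, inv_pow, mul_assoc, mul_inv_cancel₀ (pow_ne_zero 3 (hune ε)), mul_one]
  refine rank_of (fun ε : T → Fin 3 => (Ec (a * ∏ i, l i ^ (ε i : ℕ))).toAffine.Point) em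
    (3 ^ Fintype.card T) (by positivity) ?_ ?_
  · have := fin_pow (tors3 haF) (Fintype.card T) (Set.finite_singleton 0)
    exact this
  · intro P
    choose Q hQ using fun ε => hex ε (Pr ε P) (hfix ε P)
    refine ⟨Q, ?_⟩
    rw [← hsum P]
    exact Finset.sum_congr rfl fun ε _ => hQ ε

end main

end Pool.Agent.X253.CF.Tw
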