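import Mathlib
import Pool.Agent.X253.CF.TwC
import Pool.Agent.X253.CF.TwP
import Pool.Agent.X253.CF.Fg
import Pool.Agent.X253.C3.Deg3

/-!
# Project CF: the average rank over the fields `K(∛l : l ∈ P)`
-/

set_option autoImplicit false
set_option linter.unusedVariables false
set_option linter.unusedSectionVars false

open scoped Classical
open Finset Filter

namespace Pool.Agent.X253.CF

open NumberField WeierstrassCurve
open Pool.Agent.Y692.QS (Ei w nr toC)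
open Pool.Agent.Y715.T.RecG (Pq)
open Pool.Agent.Y699.E (nrm QB nrm_cast PD mem_PD PS PS_prod)
open Pool.Agent.Y696.CTK (ED)
open Pool.Agent.Y703.XL (cr cr_pos cr_le t_C9 t_LA)
open Pool.Agent.Y703.XL.Inf (killed)
open Pool.Agent.X253.C3 (ClsC Ec deg3)

theorem dvd_DD {T S : Finset Ei} (hT : T ⊆ S) (hS : ∀ π ∈ S, Pq π) {π : Ei} (hπ : Pq π)
    (h : π ∣ DD T S) : π ∈ S := by
  have hTp : ∀ π ∈ T, Pq π := fun π hπ => hS π (hT hπ)
  have h1 := (PS_prod hS).1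
  have h2 := (PS_prod hTp).1
  unfold DD at h
  rcases hπ.prime.dvd_or_dvd h with h3 | h3
  · have h4 : π ∈ PD (∏ π ∈ S, π) := (mem_PD h1.ne).2 ⟨hπ, h3⟩
    rwa [(PS_prod hS).2] at h4
  · have h4 : π ∈ PD (∏ π ∈ T, π) := (mem_PD h2.ne).2 ⟨hπ, h3⟩
    rw [(PS_prod hTp).2] at h4
    exact hT h4

theorem DD_union {T S A A₂ : Finset Ei} (h1 : Disjoint S A) (h2 : Disjoint T A₂) :
    DD (T ∪ A₂) (S ∪ A) = DD T S * DD A₂ A := by
  unfold DD
  rw [Finset.prod_union h1, Finset.prod_union h2]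
  ring

section
variable {K : Type} [Field K] [NumberField K] (j : Ei ≃+* 𝓞 K)
  {M A A₂ : Finset Ei}

theorem setM (hj : ∀ z : Ei, Algebra.norm ℤ (j z) = nr z) (hM : ∀ π ∈ M, Pq π ∧ nrm π % 9 = 1)
    (X : ℕ) : {D : 𝓞 K | Algebra.norm ℤ D ≤ X ∧ ClsC D ∧ ∀ π ∈ M, ¬ j π ∣ D} =
      (((PM M X).image fun p : Finset Ei × Finset Ei => j (DD p.1 p.2) : Finset (𝓞 K)) :
        Set (𝓞 K)) := by
  ext D
  rw [Finset.mem_coe, Finset.mem_image]
  constructor
  · rintro ⟨h1, h2, h3⟩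
    have h4 : D ∈ (((PP X).image fun p : Finset Ei × Finset Ei => j (DD p.1 p.2) :
        Finset (𝓞 K)) : Set (𝓞 K)) := by
      rw [← set_S j hj X]
      exact ⟨h1, h2⟩
    rw [Finset.mem_coe, Finset.mem_image] at h4
    obtain ⟨p, hp, rfl⟩ := h4
    refine ⟨p, ?_, rfl⟩
    unfold PM
    rw [Finset.mem_filter]
    refine ⟨hp, ?_⟩
    rw [Finset.disjoint_left]
    intro π hπ hπM
    refine h3 π hπM (map_dvd j ?_)
    unfold DD
    exact (Finset.dvd_prod_of_mem (fun x => x) hπ).mul_right _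
  · rintro ⟨p, hp, rfl⟩
    unfold PM at hp
    rw [Finset.mem_filter] at hp
    obtain ⟨hp, hd⟩ := hp
    have h4 : j (DD p.1 p.2) ∈ {D : 𝓞 K | Algebra.norm ℤ D ≤ X ∧ ClsC D} := by
      rw [set_S j hj X, Finset.mem_coe, Finset.mem_image]
      exact ⟨p, hp, rfl⟩
    refine ⟨h4.1, h4.2, fun π hπ h => ?_⟩
    obtain ⟨hT, hS, h9⟩ := mem_PP hp
    have h5 := map_dvd j.symm h
    rw [RingEquiv.symm_apply_apply, RingEquiv.symm_apply_apply] at h5
    exact Finset.disjoint_left.1 hd (dvd_DD hT hS (hM π hπ).1 h5) hπ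

/-- one twist -/
theorem oneM {ω : K} (hω : ω ^ 2 + ω + 1 = 0) (hM : ∀ π ∈ M, Pq π ∧ nrm π % 9 = 1)
    (hA : A ⊆ M) (hA₂ : A₂ ⊆ A) {X : ℕ} {p : Finset Ei × Finset Ei} (hp : p ∈ PM M X) :
    (killed ω (j (DD p.1 p.2 * DD A₂ A) : K)).ncard = 3 ^ rM A A₂ p.1 p.2 ∧
      Module.finrank ℤ (ED (j (DD p.1 p.2 * DD A₂ A) : K)).toAffine.Point ≤
        2 * rM A A₂ p.1 p.2 ∧ dimK ω (j (DD p.1 p.2 * DD A₂ A)) = rM A A₂ p.1 p.2 := by
  obtain ⟨h1, h2, h3⟩ := mem_PM hM hA hA₂ hp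
  have hd : Disjoint p.2 M := by
    unfold PM at hp
    exact (Finset.mem_filter.1 hp).2
  have hT : p.1 ⊆ p.2 := by
    unfold PM at hp
    exact (mem_PP (Finset.mem_filter.1 hp).1).1
  have e := DD_union (T := p.1) (S := p.2) (A := A) (A₂ := A₂) (hd.mono_right hA)
    ((hd.mono_left hT).mono_right (hA₂.trans hA))
  have h4 := log_S (K := K) j hω h1 h2 h3
  rw [e] at h4
  exact ⟨h4.1, h4.2, dimK_of h4.1⟩

/-- the average for one twist -/
theorem avgTw {ω : K} (hω : ω ^ 2 + ω + 1 = 0) (hM : ∀ π ∈ M, Pq π ∧ nrm π % 9 = 1)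
    (hA : A ⊆ M) (hA₂ : A₂ ⊆ A) :
    Tendsto (fun X : ℕ => (∑ D ∈ (PM M X).image fun p : Finset Ei × Finset Ei =>
      j (DD p.1 p.2), (dimK ω (D * j (DD A₂ A)) : ℝ)) /
      (((PM M X).image fun p : Finset Ei × Finset Ei => j (DD p.1 p.2)).card : ℝ)) atTop
      (nhds mu) := by
  refine (avg_limM hM hA hA₂).congr fun X => ?_
  have hinj : Set.InjOn (fun p : Finset Ei × Finset Ei => j (DD p.1 p.2))
      ((PM M X : Finset (Finset Ei × Finset Ei)) : Set (Finset Ei × Finset Ei)) := by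
    refine (inj_S j X).mono ?_
    intro p hp
    unfold PM at hp
    exact (Finset.mem_filter.1 (Finset.mem_coe.1 hp)).1
  refine (avg_tr (PM M X) _ hinj (fun D => (dimK ω (D * j (DD A₂ A)) : ℝ)) _
    fun p hp => ?_).symm
  have h := (oneM j hω hM hA hA₂ hp).2.2
  rw [map_mul] at h
  exact congrArg (fun n : ℕ => (n : ℝ)) h

end

section tower
variable {K : Type} [Field K] [NumberField K]

theorem fin3 (e : Fin 3) {R : Type} [CommMonoid R] (x : R) :
    (if e ≠ 0 then x else 1) * (if e = 2 then x else 1) = x ^ (e : ℕ) := by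
  fin_cases e
  · simp
  · simp
  · simp [pow_two]

/-- the exponents -/
theorem prodE (j : Ei ≃+* 𝓞 K) (P : Finset (𝓞 K)) (ε : P → Fin 3) :
    ∏ i : P, (i : 𝓞 K) ^ (ε i : ℕ) =
      j (DD ((univ.filter fun i : P => ε i = 2).image fun i : P => j.symm (i : 𝓞 K))
        ((univ.filter fun i : P => ε i ≠ 0).image fun i : P => j.symm (i : 𝓞 K))) := by
  have hinj : Function.Injective fun i : P => j.symm (i : 𝓞 K) :=
    fun a b h => Subtype.ext (j.symm.injective h)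
  unfold DD
  rw [Finset.prod_image hinj.injOn, Finset.prod_image hinj.injOn, map_mul, map_prod, map_prod,
    Finset.prod_filter, Finset.prod_filter, ← Finset.prod_mul_distrib]
  refine Finset.prod_congr rfl fun i _ => ?_
  rw [RingEquiv.apply_symm_apply]
  exact (fin3 (ε i) (i : 𝓞 K)).symm

/-- **The average rank over `F = K(∛l : l ∈ P)`.** -/
theorem towCF [IsCyclotomicExtension {3} ℚ K] (P : Finset (𝓞 K))
    (hP : ∀ l ∈ P, Prime l ∧ (3 : 𝓞 K) ∣ l - 1 ∧ (9 : ℤ) ∣ Algebra.norm ℤ l - 1)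
    (F : Type) [Field F] [NumberField F] [Algebra K F] (x : 𝓞 K → F)
    (hx : ∀ l ∈ P, x l ^ 3 = algebraMap K F l)
    (hgen : ∀ L : Subfield F, (∀ a : K, algebraMap K F a ∈ L) → (∀ l ∈ P, x l ∈ L) → L = ⊤) :
    Module.finrank K F = 3 ^ P.card ∧
    (∃ c : ℝ, 0 < c ∧ ∃ X₀ : ℕ, ∀ X : ℕ, X₀ ≤ X →
      c * X ≤ ({D : 𝓞 K | Algebra.norm ℤ D ≤ X ∧ ClsC D ∧ ∀ l ∈ P, ¬ l ∣ D}.ncard : ℝ)) ∧
    ∃ (S : ℕ → Finset (𝓞 K)) (f : 𝓞 K → ℕ),
      (∀ X : ℕ, {D : 𝓞 K | Algebra.norm ℤ D ≤ X ∧ ClsC D ∧ ∀ l ∈ P, ¬ l ∣ D} =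
        ((S X : Finset (𝓞 K)) : Set (𝓞 K))) ∧
      (∀ D : 𝓞 K, ClsC D → (∀ l ∈ P, ¬ l ∣ D) →
        Module.Finite ℤ (Ec (algebraMap K F (D : K))).toAffine.Point ∧
        Module.finrank ℤ (Ec (algebraMap K F (D : K))).toAffine.Point ≤ 2 * f D) ∧
      Tendsto (fun X : ℕ => (∑ D ∈ S X, (f D : ℝ)) / ((S X).card : ℝ)) atTop
        (nhds (3 ^ P.card * mu)) := by
  obtain ⟨⟨j, hj⟩, -⟩ := Pool.Agent.Y455.CTK.jex K
  obtain ⟨ω, hω⟩ : ∃ ω : K, ω ^ 2 + ω + 1 = 0 := by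
    refine ⟨((j w : 𝓞 K) : K), ?_⟩
    have hww : (w : Ei) ^ 2 + w + 1 = 0 := by decide
    have h : (j w) ^ 2 + j w + 1 = 0 := by
      rw [← map_pow, ← map_one j, ← map_add, ← map_add, hww, map_zero]
    have h' := congrArg (fun x : 𝓞 K => (x : K)) h
    simpa using h'
  obtain ⟨M, hMd⟩ : ∃ M : Finset Ei, M = P.image j.symm := ⟨_, rfl⟩
  have hM : ∀ π ∈ M, Pq π ∧ nrm π % 9 = 1 := by
    intro π hπ
    rw [hMd, Finset.mem_image] at hπ
    obtain ⟨l, hl, rfl⟩ := hπ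
    obtain ⟨h1, h2, h3⟩ := hP l hl
    refine ⟨⟨(MulEquiv.prime_iff (j.symm : 𝓞 K ≃* Ei)).2 h1,
      Pool.Agent.Y696.CTK.three_dvd_symm j h2⟩, ?_⟩
    rw [← Pool.Agent.Y550.XK.NS.mod_iff, ← hj, RingEquiv.apply_symm_apply]
    exact h3
  have hcond : ∀ D : 𝓞 K, (∀ l ∈ P, ¬ l ∣ D) ↔ ∀ π ∈ M, ¬ j π ∣ D := by
    intro D
    constructor
    · intro h π hπ
      rw [hMd, Finset.mem_image] at hπ
      obtain ⟨l, hl, rfl⟩ := hπ
      rw [RingEquiv.apply_symm_apply]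
      exact h l hl
    · intro h l hl
      have := h (j.symm l) (by
        rw [hMd]
        exact Finset.mem_image_of_mem _ hl)
      rwa [RingEquiv.apply_symm_apply] at this
  have hset : ∀ X : ℕ, {D : 𝓞 K | Algebra.norm ℤ D ≤ X ∧ ClsC D ∧ ∀ l ∈ P, ¬ l ∣ D} =
      (((PM M X).image fun p : Finset Ei × Finset Ei => j (DD p.1 p.2) : Finset (𝓞 K)) :
        Set (𝓞 K)) := by
    intro X
    rw [← setM j hj hM X]
    ext D
    exact and_congr_right fun _ => and_congr_right fun _ => hcond D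
  obtain ⟨Am, hAm⟩ : ∃ Am : (P → Fin 3) → Finset Ei, ∀ ε, Am ε =
      (univ.filter fun i : P => ε i ≠ 0).image fun i : P => j.symm (i : 𝓞 K) :=
    ⟨_, fun _ => rfl⟩
  obtain ⟨A2, hA2⟩ : ∃ A2 : (P → Fin 3) → Finset Ei, ∀ ε, A2 ε =
      (univ.filter fun i : P => ε i = 2).image fun i : P => j.symm (i : 𝓞 K) :=
    ⟨_, fun _ => rfl⟩
  have hAM : ∀ ε, Am ε ⊆ M := by
    intro ε π hπ
    rw [hAm, Finset.mem_image] at hπ
    obtain ⟨i, -, rfl⟩ := hπ
    rw [hMd]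
    exact Finset.mem_image_of_mem _ i.2
  have hAA : ∀ ε, A2 ε ⊆ Am ε := by
    intro ε π hπ
    rw [hA2, Finset.mem_image] at hπ
    obtain ⟨i, hi, rfl⟩ := hπ
    rw [hAm, Finset.mem_image]
    refine ⟨i, ?_, rfl⟩
    rw [Finset.mem_filter] at hi ⊢
    refine ⟨hi.1, ?_⟩
    rw [hi.2]
    decide
  have hprod : ∀ ε : P → Fin 3, ∏ i : P, (i : 𝓞 K) ^ (ε i : ℕ) = j (DD (A2 ε) (Am ε)) := by
    intro ε
    rw [hAm, hA2]
    exact prodE j P ε
  refine ⟨?_, ?_, fun X => (PM M X).image fun p : Finset Ei × Finset Ei => j (DD p.1 p.2),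
    fun D => ∑ ε : P → Fin 3, dimK ω (D * j (DD (A2 ε) (Am ε))), hset, ?_, ?_⟩
  · have h1 := deg3 ω hω (fun i : P => (i : 𝓞 K)) (fun i => (hP i i.2).1) (by
      intro i k hik hd
      have h2 := Pool.Agent.Y699.E.eq_of_dvd (hM (j.symm (i : 𝓞 K)) (by
        rw [hMd]
        exact Finset.mem_image_of_mem _ i.2)).1 (hM (j.symm (k : 𝓞 K)) (by
        rw [hMd]
        exact Finset.mem_image_of_mem _ k.2)).1 (map_dvd j.symm hd)
      exact hik (Subtype.ext (j.symm.injective h2))) (fun i => x i)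
      (fun i => hx i i.2) (fun L h1 h2 => hgen L h1 fun l hl => h2 ⟨l, hl⟩)
    rw [h1, Fintype.card_coe]
  · obtain ⟨c, X₀, hc, h⟩ := PM_low hM
    refine ⟨c, hc, X₀, fun X hX => ?_⟩
    rw [hset X, Set.ncard_coe_finset, Finset.card_image_of_injOn]
    · exact h X hX
    · refine (inj_S j X).mono ?_
      intro p hp
      unfold PM at hp
      exact (Finset.mem_filter.1 (Finset.mem_coe.1 hp)).1
  · intro D hD hDP
    obtain ⟨z, rfl⟩ := j.surjective D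
    obtain ⟨T, S, hT, hS, h9, rfl⟩ := cls_ex ((clsC_iff j hj z).1 hD)
    have hp : ((T, S) : Finset Ei × Finset Ei) ∈ PM M (nm T * nm S) := by
      unfold PM
      rw [Finset.mem_filter]
      refine ⟨(PP_iff _ _).2 ⟨hT, hS, le_rfl, h9⟩, ?_⟩
      rw [Finset.disjoint_left]
      intro π hπ hπM
      refine (hcond _).1 hDP π hπM (map_dvd j ?_)
      unfold DD
      exact (Finset.dvd_prod_of_mem (fun x => x) hπ).mul_right _
    have hone := fun ε => oneM (K := K) j hω hM (hAM ε) (hAA ε) hp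
    have hcls : ∀ ε, ClsC (j (DD T S * DD (A2 ε) (Am ε)) : 𝓞 K) := by
      intro ε
      obtain ⟨h1, h2, h3⟩ := mem_PM hM (hAM ε) (hAA ε) hp
      have hd : Disjoint S M := by
        unfold PM at hp
        exact (Finset.mem_filter.1 hp).2
      have e := DD_union (T := T) (S := S) (A := Am ε) (A₂ := A2 ε) (hd.mono_right (hAM ε))
        ((hd.mono_left hT).mono_right ((hAA ε).trans (hAM ε)))
      rw [← e]
      exact (clsC_iff j hj _).2 (cls_DD h1 h2 h3)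
    have hcoe : ∀ ε : P → Fin 3, ((j (DD T S * DD (A2 ε) (Am ε)) : 𝓞 K) : K) =
        (j (DD T S) : K) * ∏ i : P, ((i : 𝓞 K) : K) ^ (ε i : ℕ) := by
      intro ε
      have e1 : j (DD T S * DD (A2 ε) (Am ε)) =
          j (DD T S) * ∏ i : P, (i : 𝓞 K) ^ (ε i : ℕ) := by
        rw [hprod, map_mul]
      rw [e1]
      simp only [map_mul, map_prod, map_pow]
    have hne : (j (DD T S) : K) ≠ 0 := coe_ne j hT hS h9
    obtain ⟨g1, g2⟩ := Tw.rank_tower (F := F) ω hω (fun i : P => ((i : 𝓞 K) : K))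
      (fun i h0 => (hP i i.2).1.ne_zero (RingOfIntegers.coe_injective (h0.trans (map_zero _).symm)))
      (fun i => x i) (fun i => hx i i.2) (fun L h1 h2 => hgen L h1 fun l hl => h2 ⟨l, hl⟩)
      (j (DD T S) : K) hne (fun ε => by
        have h1 := fg_CF K (hcls ε)
        rw [hcoe ε] at h1
        exact h1)
    refine ⟨g1, g2.trans ?_⟩
    show _ ≤ 2 * ∑ ε : P → Fin 3, dimK ω (j (DD T S) * j (DD (A2 ε) (Am ε)))
    rw [Finset.mul_sum]
    refine le_trans (Finset.sum_le_sum (g := fun ε : P → Fin 3 =>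
      2 * dimK ω (j (DD T S) * j (DD (A2 ε) (Am ε)))) fun ε _ => ?_)
      (le_of_eq (Finset.sum_congr (by ext ε; simp) fun _ _ => rfl))
    obtain ⟨-, h2, h3⟩ := hone ε
    rw [hcoe ε] at h2
    have h4 : dimK ω (j (DD T S) * j (DD (A2 ε) (Am ε))) = rM (Am ε) (A2 ε) T S := by
      rw [← map_mul]
      exact h3
    rw [h4]
    exact h2
  · have h1 : Tendsto (fun X : ℕ => ∑ ε : P → Fin 3,
        (∑ D ∈ (PM M X).image fun p : Finset Ei × Finset Ei => j (DD p.1 p.2),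
          (dimK ω (D * j (DD (A2 ε) (Am ε))) : ℝ)) /
        (((PM M X).image fun p : Finset Ei × Finset Ei => j (DD p.1 p.2)).card : ℝ)) atTop
        (nhds (∑ ε : P → Fin 3, mu)) :=
      tendsto_finsetSum _ fun ε _ => avgTw j hω hM (hAM ε) (hAA ε)
    have e : ∑ ε : P → Fin 3, mu = 3 ^ P.card * mu := by
      rw [Finset.sum_const, Finset.card_univ, Fintype.card_fun, Fintype.card_fin,
        Fintype.card_coe, nsmul_eq_mul]
      push_cast
      rfl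
    rw [e] at h1
    refine h1.congr fun X => ?_
    rw [← Finset.sum_div]
    congr 1
    rw [Finset.sum_comm]
    refine Finset.sum_congr rfl fun D _ => ?_
    push_cast
    rfl

end tower

end Pool.Agent.X253.CF
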