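import Mathlib
import Pool.Agent.X253.CF.TwD

/-!
# Project CF: the number of the `D` prime to `P`
-/

set_option autoImplicit false
set_option linter.unusedVariables false

open scoped Classical
open Finset Filter

namespace Pool.Agent.X253.CF

open NumberField
open Pool.Agent.Y692.QS (Ei w nr toC)
open Pool.Agent.Y715.T.RecG (Pq)
open Pool.Agent.Y699.E (nrm QB nrm_cast)
open Pool.Agent.X253.C3 (ClsC)

theorem countTow {K : Type} [Field K] [NumberField K] [IsCyclotomicExtension {3} ℚ K]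
    (P : Finset (𝓞 K))
    (hP : ∀ l ∈ P, Prime l ∧ (3 : 𝓞 K) ∣ l - 1 ∧ (9 : ℤ) ∣ Algebra.norm ℤ l - 1) :
    ∃ c : ℝ, 0 < c ∧ ∃ X₀ : ℕ, ∀ X : ℕ, X₀ ≤ X →
      c * X ≤ ({D : 𝓞 K | Algebra.norm ℤ D ≤ X ∧ ClsC D ∧ ∀ l ∈ P, ¬ l ∣ D}.ncard : ℝ) := by
  obtain ⟨⟨j, hj⟩, -⟩ := Pool.Agent.Y455.CTK.jex K
  obtain ⟨M, hMd⟩ : ∃ M : Finset Ei, M = P.image j.symm := ⟨_, rfl⟩
  have hM : ∀ π ∈ M, Pq π ∧ nrm π % 9 = 1 := by
    intro π hπ
    rw [hMd, Finset.mem_image] at hπ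
    obtain ⟨l, hl, rfl⟩ := hπ
    obtain ⟨h1, h2, h3⟩ := hP l hl
    refine ⟨⟨(MulEquiv.prime_iff (j.symm : 𝓞 K ≃* Ei)).2 h1,
      Pool.Agent.Y696.CTK.three_dvd_symm j h2⟩, ?_⟩
    rw [← Pool.Agent.Y550.XK.NS.mod_iff, ← hj, RingEquiv.apply_symm_apply]
    exact h3
  have hcond : ∀ D : 𝓞 K, (∀ l ∈ P, ¬ l ∣ D) ↔ ∀ π ∈ M, ¬ j π ∣ D := by
    intro D
    constructor
    · intro h π hπ
      rw [hMd, Finset.mem_image] at hπ
      obtain ⟨l, hl, rfl⟩ := hπ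
      rw [RingEquiv.apply_symm_apply]
      exact h l hl
    · intro h l hl
      have := h (j.symm l) (by
        rw [hMd]
        exact Finset.mem_image_of_mem _ hl)
      rwa [RingEquiv.apply_symm_apply] at this
  have hset : ∀ X : ℕ, {D : 𝓞 K | Algebra.norm ℤ D ≤ X ∧ ClsC D ∧ ∀ l ∈ P, ¬ l ∣ D} =
      (((PM M X).image fun p : Finset Ei × Finset Ei => j (DD p.1 p.2) : Finset (𝓞 K)) :
        Set (𝓞 K)) := by
    intro X
    rw [← setM j hj hM X]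
    ext D
    exact and_congr_right fun _ => and_congr_right fun _ => hcond D
  obtain ⟨c, X₀, hc, h⟩ := PM_low hM
  refine ⟨c, hc, X₀, fun X hX => ?_⟩
  rw [hset X, Set.ncard_coe_finset, Finset.card_image_of_injOn]
  · exact h X hX
  · refine (inj_S j X).mono ?_
    intro p hp
    unfold PM at hp
    exact (Finset.mem_filter.1 (Finset.mem_coe.1 hp)).1

end Pool.Agent.X253.CF
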