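import Mathlib
import Pool.Agent.X253.CF.TwD
import Pool.Agent.X253.CF.AvF

/-!
# Project CF: all the moments of the dimensions of the twists
-/

set_option autoImplicit false
set_option linter.unusedVariables false
set_option linter.unusedSectionVars false

open scoped Classical
open Finset Filter

namespace Pool.Agent.X253.CF

open NumberField WeierstrassCurve
open Pool.Agent.Y692.QS (Ei w nr toC)
open Pool.Agent.Y715.T.RecG (Pq)
open Pool.Agent.Y699.E (nrm QB nrm_cast)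
open Pool.Agent.Y696.CTK (ED)
open Pool.Agent.Y703.CX (eL zz kk eL_tendsto logX_eq ev_eL kk_ge kk_le X_pos one_add_log lin_le)
open Pool.Agent.Y703.XL (cr cr_pos cr_le t_C9 t_LA)
open Pool.Agent.Y703.XL.Inf (killed)
open Pool.Agent.X253.C3 (ClsC Ec deg3)

section abs
variable {α : Type} {𝒮 : Finset α} {rr : α → ℕ} {GG : ℕ → α → Prop} {R₁ : ℕ} {e : ℝ}

theorem sum_gtAm (m : ℕ) (hG : ∀ r S, GG r S → rr S = r) (he : 0 ≤ e)
    (h : ∀ r ≤ R₁, |((𝒮.filter (GG r)).card : ℝ) - cr r * (𝒮.card : ℝ)| ≤ e) (B k : ℕ)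
    (Q : α → Prop) [DecidablePred Q] (hQ : ∀ S ∈ 𝒮, Q S → rr S ≤ k) :
    ∑ S ∈ 𝒮.filter Q, (if B < rr S then (rr S : ℝ) ^ m else 0) ≤
      (dl m B + k ^ (m + 1) * (1 / 8) ^ R₁) * (𝒮.card : ℝ) +
        k ^ (m + 1) * ((R₁ + 1) * e) := by
  have hN : (0 : ℝ) ≤ (𝒮.card : ℝ) := Nat.cast_nonneg _
  obtain ⟨f, hf⟩ : ∃ f : ℕ → ℝ, f = fun R => ((𝒮.filter fun S => R < rr S).card : ℝ) :=
    ⟨_, rfl⟩
  have hfb : ∀ R, f R ≤ (1 / 8) ^ R * (𝒮.card : ℝ) +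
      ((1 / 8) ^ R₁ * (𝒮.card : ℝ) + (R₁ + 1) * e) := fun R => by
    rw [hf]
    exact (cnt_gtA' hG he h R).trans (le_of_eq (by ring))
  have hsum : ∀ R, ∑ S ∈ 𝒮.filter Q, (if R < rr S then (1 : ℝ) else 0) ≤ f R := by
    intro R
    rw [← Finset.sum_filter, Finset.sum_const, nsmul_eq_mul, mul_one, hf]
    beta_reduce
    have : (𝒮.filter Q).filter (fun S => R < rr S) ⊆ 𝒮.filter (fun S => R < rr S) := by
      intro S hS
      rw [Finset.mem_filter, Finset.mem_filter] at hS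
      exact Finset.mem_filter.2 ⟨hS.1.1, hS.2⟩
    exact_mod_cast Finset.card_le_card this
  have g0 : (0 : ℝ) ≤ (1 / 8) ^ R₁ * (𝒮.card : ℝ) + (R₁ + 1) * e := by positivity
  calc _ ≤ ∑ S ∈ 𝒮.filter Q,
          ∑ R ∈ Finset.Ico B k, ((R : ℝ) + 1) ^ m * (if R < rr S then (1 : ℝ) else 0) :=
        Finset.sum_le_sum fun S hS => pwm m B k _ (hQ S (Finset.mem_filter.1 hS).1
          (Finset.mem_filter.1 hS).2)
    _ = ∑ R ∈ Finset.Ico B k, ((R : ℝ) + 1) ^ m *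
          ∑ S ∈ 𝒮.filter Q, (if R < rr S then (1 : ℝ) else 0) := by
        rw [Finset.sum_comm]
        exact Finset.sum_congr rfl fun R _ => (Finset.mul_sum _ _ _).symm
    _ ≤ ∑ R ∈ Finset.Ico B k, (FF (1 / 8) m R * (𝒮.card : ℝ) +
          k ^ m * ((1 / 8) ^ R₁ * (𝒮.card : ℝ) + (R₁ + 1) * e)) := by
        refine Finset.sum_le_sum fun R hR => ?_
        rw [Finset.mem_Ico] at hR
        have h1 : ((R : ℝ) + 1) ^ m ≤ k ^ m := by
          have : (R : ℝ) + 1 ≤ k := by exact_mod_cast hR.2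
          gcongr
        have h2 : ((R : ℝ) + 1) ^ m * ∑ S ∈ 𝒮.filter Q,
            (if R < rr S then (1 : ℝ) else 0) ≤ ((R : ℝ) + 1) ^ m *
            ((1 / 8) ^ R * (𝒮.card : ℝ) +
              ((1 / 8) ^ R₁ * (𝒮.card : ℝ) + (R₁ + 1) * e)) :=
          mul_le_mul_of_nonneg_left ((hsum R).trans (hfb R)) (by positivity)
        refine h2.trans ?_
        have h3 := mul_le_mul_of_nonneg_right h1 g0
        unfold FF
        rw [mul_add, ← mul_assoc]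
        linarith
    _ = (∑ R ∈ Finset.Ico B k, FF (1 / 8) m R) * (𝒮.card : ℝ) +
          ((k - B : ℕ) : ℝ) *
            (k ^ m * ((1 / 8) ^ R₁ * (𝒮.card : ℝ) + (R₁ + 1) * e)) := by
        rw [Finset.sum_add_distrib, ← Finset.sum_mul, Finset.sum_const, Nat.card_Ico,
          nsmul_eq_mul]
    _ ≤ dl m B * (𝒮.card : ℝ) +
          k * (k ^ m * ((1 / 8) ^ R₁ * (𝒮.card : ℝ) + (R₁ + 1) * e)) := by
        have g2 : ((k - B : ℕ) : ℝ) ≤ k := by exact_mod_cast Nat.sub_le _ _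
        have g1 := dl_ge m B k
        refine add_le_add (mul_le_mul_of_nonneg_right g1 hN)
          (mul_le_mul_of_nonneg_right g2 (by positivity))
    _ = _ := by ring

end abs

/-- the power of the dimension of the twist, if it is larger than `B` and `S` avoids `M` -/
noncomputable def gMm (m : ℕ) (M A A₂ : Finset Ei) (B : ℕ) (T S : Finset Ei) : ℝ :=
  if Disjoint S M then (if B < rM A A₂ T S then (rM A A₂ T S : ℝ) ^ m else 0) else 0

theorem gMm_le (m : ℕ) (M A A₂ : Finset Ei) (B : ℕ) (T S : Finset Ei) :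
    gMm m M A A₂ B T S ≤ ((S.card : ℝ) + A.card) ^ m := by
  unfold gMm
  have h : (rM A A₂ T S : ℝ) ≤ (S.card : ℝ) + A.card := by exact_mod_cast rM_le A A₂ T S
  split_ifs
  · gcongr
  · positivity
  · positivity

theorem gMm_nonneg (m : ℕ) (M A A₂ : Finset Ei) (B : ℕ) (T S : Finset Ei) :
    0 ≤ gMm m M A A₂ B T S := by
  unfold gMm
  split_ifs <;> positivity

theorem sum_bigSm (m : ℕ) {C : ℝ} (hC : CntP C) (k : ℕ) {Y : ℕ} (hY : 1 ≤ Y) :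
    ∑ T ∈ SS Y, ∑ S ∈ (TS T (bT T) (Y / nm T)).filter (fun S => ¬ S.card ≤ k),
      (S.card : ℝ) ^ m ≤ 64 * C * Y * (1 + Real.log Y) ^ 2 * (4 * MM m * (3 / 4) ^ k) := by
  have hC1 := hC.one
  have hM := MM_nonneg m
  have hl := Real.log_natCast_nonneg Y
  have h1 : ∀ T ∈ SS Y,
      ∑ S ∈ (TS T (bT T) (Y / nm T)).filter (fun S => ¬ S.card ≤ k), (S.card : ℝ) ^ m ≤
      C * Y * (1 + Real.log Y) * (4 * MM m * (3 / 4) ^ k) * (1 / (nm T : ℝ)) := by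
    intro T hT
    have hT' := K.mem_SS.1 hT
    have hp := nm_pos hT'.1.1
    have hp' : (0 : ℝ) < nm T := by exact_mod_cast hp
    have hX1 : 1 ≤ Y / nm T := (Nat.one_le_div_iff hp).2 hT'.2
    have hXp : (0 : ℝ) < ((Y / nm T : ℕ) : ℝ) := by exact_mod_cast hX1
    calc _ ≤ ∑ S ∈ (SS (Y / nm T)).filter (fun S => k < S.card), (S.card : ℝ) ^ m := by
          refine Finset.sum_le_sum_of_subset_of_nonneg ?_ fun _ _ _ => by positivity
          intro S hS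
          rw [Finset.mem_filter] at hS ⊢
          obtain ⟨hS1, hS2⟩ := hS
          unfold TS at hS1
          rw [Finset.mem_filter] at hS1
          exact ⟨hS1.1, not_le.1 hS2⟩
      _ ≤ C * (((Y / nm T : ℕ) : ℝ) * (1 + Real.log ((Y / nm T : ℕ) : ℝ))) *
            (4 * MM m * (3 / 4) ^ k) := many_summ m hC _ k hX1
      _ ≤ C * (((Y : ℝ) / nm T) * (1 + Real.log Y)) * (4 * MM m * (3 / 4) ^ k) := by
          have g1 : ((Y / nm T : ℕ) : ℝ) ≤ (Y : ℝ) / nm T := Nat.cast_div_le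
          have g2 : Real.log ((Y / nm T : ℕ) : ℝ) ≤ Real.log Y :=
            Real.log_le_log hXp (by exact_mod_cast Nat.div_le_self _ _)
          have g3 : 0 ≤ Real.log ((Y / nm T : ℕ) : ℝ) := Real.log_natCast_nonneg _
          gcongr
      _ = _ := by ring
  refine (Finset.sum_le_sum h1).trans ?_
  rw [← Finset.mul_sum]
  have h2 := K.sum_inv hY (A := SS Y) fun S hS => ⟨(K.mem_SS.1 hS).1.1, (K.mem_SS.1 hS).2⟩
  have h3 : 0 ≤ C * Y * (1 + Real.log Y) * (4 * MM m * (3 / 4) ^ k) := by positivity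
  calc _ ≤ C * Y * (1 + Real.log Y) * (4 * MM m * (3 / 4) ^ k) * (64 * (1 + Real.log Y)) :=
        mul_le_mul_of_nonneg_left h2 h3
    _ = _ := by ring

section mask
variable {M A A₂ : Finset Ei}

theorem sum_bigMm (m : ℕ) {C : ℝ} (hC : CntP C) (B k : ℕ) {Y : ℕ} (hY : 1 ≤ Y) :
    ∑ T ∈ SS Y, ∑ S ∈ (TS T (bT T) (Y / nm T)).filter (fun S => ¬ S.card ≤ k),
      gMm m M A A₂ B T S ≤
      (1 + (A.card : ℝ)) ^ m *
        (64 * C * Y * (1 + Real.log Y) ^ 2 * (4 * MM m * (3 / 4) ^ k)) := by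
  have h1 := mul_le_mul_of_nonneg_left (sum_bigSm m hC k hY)
    (show (0 : ℝ) ≤ (1 + (A.card : ℝ)) ^ m by positivity)
  refine le_trans ?_ h1
  rw [Finset.mul_sum]
  refine Finset.sum_le_sum fun T _ => ?_
  rw [Finset.mul_sum]
  refine Finset.sum_le_sum fun S hS => (gMm_le m M A A₂ B T S).trans ?_
  have h2 : 1 ≤ S.card := by
    have := (Finset.mem_filter.1 hS).2
    omega
  have h3 : (1 : ℝ) ≤ S.card := by exact_mod_cast h2
  have h4 : (0 : ℝ) ≤ A.card := Nat.cast_nonneg _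
  rw [← mul_pow]
  refine pow_le_pow_left₀ (by positivity) ?_ m
  nlinarith

theorem sum_gMm (m : ℕ) {C : ℝ} (hC : CntP C) (B k R : ℕ) {Y : ℕ} (hY : 1 ≤ Y) {e : ℝ}
    (he : 0 ≤ e)
    (h : ∀ T : Finset Ei, (∀ π ∈ T, Pq π) → nm T ≤ 2 ^ R →
    ∀ r ≤ R, |((((TS T (bT T) (Y / nm T)).filter fun S => Disjoint S M).filter
        fun S => Gw (T ∪ A₂) r (S ∪ A)).card : ℝ) -
      cr r * (((TS T (bT T) (Y / nm T)).filter fun S => Disjoint S M).card : ℝ)| ≤ e) :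
    ∑ p ∈ PP Y, gMm m M A A₂ B p.1 p.2 ≤
      (dl m B + ((k + A.card : ℕ) : ℝ) ^ (m + 1) * (1 / 8) ^ R) * (4 * C ^ 2 * Y) +
      C * 2 ^ R * (((k + A.card : ℕ) : ℝ) ^ (m + 1) * ((R + 1) * e)) +
      ((k + A.card : ℕ) : ℝ) ^ m * (4 * C ^ 2 * Y * (1 / 2) ^ R) +
      (1 + (A.card : ℝ)) ^ m *
        (64 * C * Y * (1 + Real.log Y) ^ 2 * (4 * MM m * (3 / 4) ^ k)) := by
  have hC1 := hC.one
  have hd := dl_nonneg m B
  rw [sum_Tw Y (gMm m M A A₂ B)]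
  have hsplit : ∀ T ∈ SS Y, ∑ S ∈ TS T (bT T) (Y / nm T), gMm m M A A₂ B T S =
      ∑ S ∈ (TS T (bT T) (Y / nm T)).filter (fun S => S.card ≤ k), gMm m M A A₂ B T S +
      ∑ S ∈ (TS T (bT T) (Y / nm T)).filter (fun S => ¬ S.card ≤ k), gMm m M A A₂ B T S :=
    fun T _ => (Finset.sum_filter_add_sum_filter_not _ _ _).symm
  rw [Finset.sum_congr rfl hsplit, Finset.sum_add_distrib]
  refine add_le_add ?_ (sum_bigMm m hC B k hY)
  rw [← Finset.sum_filter_not_add_sum_filter (SS Y) (fun T => 2 ^ R ≤ nm T)]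
  refine add_le_add ?_ ?_
  · have h1 : ∀ T ∈ (SS Y).filter (fun T => ¬ 2 ^ R ≤ nm T),
      ∑ S ∈ (TS T (bT T) (Y / nm T)).filter (fun S => S.card ≤ k), gMm m M A A₂ B T S ≤
        (dl m B + ((k + A.card : ℕ) : ℝ) ^ (m + 1) * (1 / 8) ^ R) *
          ((TS T (bT T) (Y / nm T)).card : ℝ) +
          ((k + A.card : ℕ) : ℝ) ^ (m + 1) * ((R + 1) * e) := by
      intro T hT
      rw [Finset.mem_filter] at hT
      have h2 := sum_gtAm (𝒮 := (TS T (bT T) (Y / nm T)).filter fun S => Disjoint S M)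
        (rr := rM A A₂ T) (GG := fun r S => Gw (T ∪ A₂) r (S ∪ A)) m (fun r S hS => rW_of hS) he
        (h T (K.mem_SS.1 hT.1).1.1 (not_le.1 hT.2).le) B (k + A.card)
        (fun S => S.card ≤ k) (fun S _ hS => (rM_le A A₂ T S).trans (by omega))
      have h3 : ∑ S ∈ (TS T (bT T) (Y / nm T)).filter (fun S => S.card ≤ k),
          gMm m M A A₂ B T S =
          ∑ S ∈ ((TS T (bT T) (Y / nm T)).filter fun S => Disjoint S M).filter
            (fun S => S.card ≤ k), (if B < rM A A₂ T S then (rM A A₂ T S : ℝ) ^ m else 0) := by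
        rw [Finset.filter_comm]
        exact (Finset.sum_filter _ _).symm
      rw [h3]
      refine h2.trans (add_le_add ?_ le_rfl)
      refine mul_le_mul_of_nonneg_left ?_ (by positivity)
      exact_mod_cast Finset.card_filter_le _ _
    refine (Finset.sum_le_sum h1).trans ?_
    rw [Finset.sum_add_distrib, ← Finset.mul_sum, Finset.sum_const, nsmul_eq_mul]
    refine add_le_add ?_ ?_
    · refine mul_le_mul_of_nonneg_left ?_ (by positivity)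
      have h2 := sum_TS hC Y 0
      rw [pow_zero, pow_zero, mul_one] at h2
      refine le_trans (Finset.sum_le_sum_of_subset_of_nonneg ?_ fun _ _ _ => Nat.cast_nonneg _) h2
      intro T hT
      rw [Finset.mem_filter] at hT ⊢
      exact ⟨hT.1, nm_pos (K.mem_SS.1 hT.1).1.1⟩
    · refine mul_le_mul_of_nonneg_right ?_ (by positivity)
      have h3 : ((SS Y).filter (fun T => ¬ 2 ^ R ≤ nm T)).card ≤ (SS (2 ^ R)).card := by
        refine Finset.card_le_card fun T hT => ?_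
        rw [Finset.mem_filter] at hT
        exact K.mem_SS.2 ⟨(K.mem_SS.1 hT.1).1, (not_le.1 hT.2).le⟩
      refine le_trans (Nat.cast_le.2 h3) ((hC.all (2 ^ R) Nat.one_le_two_pow).trans ?_)
      push_cast
      exact le_rfl
  · have h1 : ∀ T ∈ (SS Y).filter (fun T => 2 ^ R ≤ nm T),
      ∑ S ∈ (TS T (bT T) (Y / nm T)).filter (fun S => S.card ≤ k), gMm m M A A₂ B T S ≤
        ((k + A.card : ℕ) : ℝ) ^ m * ((TS T (bT T) (Y / nm T)).card : ℝ) := by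
      intro T hT
      calc _ ≤ ∑ S ∈ (TS T (bT T) (Y / nm T)).filter (fun S => S.card ≤ k),
            ((k + A.card : ℕ) : ℝ) ^ m := by
            refine Finset.sum_le_sum fun S hS => (gMm_le m M A A₂ B T S).trans ?_
            have h9 := (Finset.mem_filter.1 hS).2
            have h8 : (S.card : ℝ) + A.card ≤ ((k + A.card : ℕ) : ℝ) := by
              exact_mod_cast Nat.add_le_add_right h9 _
            exact pow_le_pow_left₀ (add_nonneg (Nat.cast_nonneg _) (Nat.cast_nonneg _)) h8 m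
        _ = (((TS T (bT T) (Y / nm T)).filter (fun S => S.card ≤ k)).card : ℝ) *
            ((k + A.card : ℕ) : ℝ) ^ m := by
            rw [Finset.sum_const, nsmul_eq_mul]
        _ ≤ _ := by
            rw [mul_comm]
            refine mul_le_mul_of_nonneg_left ?_ (by positivity)
            exact_mod_cast Finset.card_filter_le _ _
    refine (Finset.sum_le_sum h1).trans ?_
    rw [← Finset.mul_sum]
    exact mul_le_mul_of_nonneg_left (sum_TS hC Y R) (by positivity)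

theorem fin_numMm (m : ℕ) {C : ℝ} (hC1 : 1 ≤ C) (B a : ℕ) {n : ℝ} (hn : 0 ≤ n) {Y : ℕ}
    (h2 : 2 ≤ eL Y) :
    (dl m B + ((kk Y + a : ℕ) : ℝ) ^ (m + 1) * (1 / 8) ^ Rr Y) * (4 * C ^ 2 * Y) +
      C * 2 ^ Rr Y * (((kk Y + a : ℕ) : ℝ) ^ (m + 1) *
        ((Rr Y + 1) * (n * (Y * Real.exp (-2 * (Rr Y : ℝ)))))) +
      ((kk Y + a : ℕ) : ℝ) ^ m * (4 * C ^ 2 * Y * (1 / 2) ^ Rr Y) +
      (1 + (a : ℝ)) ^ m *
        (64 * C * Y * (1 + Real.log Y) ^ 2 * (4 * MM m * (3 / 4) ^ kk Y)) ≤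
    (4 * C ^ 2 * dl m B +
      (4 * C ^ 2 * (1067 + (a : ℝ)) ^ (m + 1) + C * n * (1067 + (a : ℝ)) ^ (m + 1) +
        4 * C ^ 2 * (1067 + (a : ℝ)) ^ m + (1 + (a : ℝ)) ^ m * (1024 * C * MM m)) *
        (((Rr Y : ℝ) + 1) ^ (m + 2) * (1 / 2) ^ Rr Y)) * Y := by
  have hM := MM_nonneg m
  have hk := kk_Rr h2
  have e2 := num2 (Rr Y)
  have e3 := num3m h2
  have e8 : (1 / 8 : ℝ) ^ Rr Y ≤ (1 / 2) ^ Rr Y := by gcongr; norm_num
  have hk0 : (0 : ℝ) ≤ kk Y := Nat.cast_nonneg _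
  have hR0 : (0 : ℝ) ≤ Rr Y := Nat.cast_nonneg _
  have hY0 : (0 : ℝ) ≤ Y := Nat.cast_nonneg _
  have ha0' : (0 : ℝ) ≤ a := Nat.cast_nonneg _
  have ha0 : (0 : ℝ) ≤ (1 / 2) ^ Rr Y := by positivity
  have h80 : (0 : ℝ) ≤ (1 / 8) ^ Rr Y := by positivity
  have hcast : ((kk Y + a : ℕ) : ℝ) = (kk Y : ℝ) + a := by push_cast; rfl
  rw [hcast]
  obtain ⟨ρ, hρ⟩ : ∃ ρ : ℝ, ρ = Rr Y := ⟨_, rfl⟩
  obtain ⟨κ, hκ⟩ : ∃ κ : ℝ, κ = kk Y := ⟨_, rfl⟩
  obtain ⟨q, hq⟩ : ∃ q : ℝ, q = (1 / 2) ^ Rr Y := ⟨_, rfl⟩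
  obtain ⟨q8, hq8⟩ : ∃ q8 : ℝ, q8 = (1 / 8) ^ Rr Y := ⟨_, rfl⟩
  obtain ⟨t, ht⟩ : ∃ t : ℝ, t = a := ⟨_, rfl⟩
  rw [← hρ, ← hκ] at hk
  rw [← hρ, ← hq] at e2
  rw [← hq] at e3 ha0
  rw [← hq, ← hq8] at e8
  rw [← hρ] at hR0
  rw [← hκ] at hk0
  rw [← hq8] at h80
  rw [← ht] at ha0'
  rw [← hρ, ← hκ, ← hq, ← hq8, ← ht]
  have s0 : (1 : ℝ) ≤ ρ + 1 := by linarith
  have f0 : κ + t ≤ (1067 + t) * (ρ + 1) := by nlinarith
  have z0 : 0 ≤ κ + t := by positivity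
  have f1 : (κ + t) ^ (m + 1) ≤ (1067 + t) ^ (m + 1) * (ρ + 1) ^ (m + 2) := by
    calc (κ + t) ^ (m + 1) ≤ ((1067 + t) * (ρ + 1)) ^ (m + 1) := by gcongr
      _ = (1067 + t) ^ (m + 1) * (ρ + 1) ^ (m + 1) := mul_pow _ _ _
      _ ≤ _ := by
          refine mul_le_mul_of_nonneg_left ?_ (by positivity)
          exact pow_le_pow_right₀ s0 (by omega)
  have f2 : (κ + t) ^ (m + 1) * (ρ + 1) ≤ (1067 + t) ^ (m + 1) * (ρ + 1) ^ (m + 2) := by
    calc (κ + t) ^ (m + 1) * (ρ + 1) ≤ ((1067 + t) * (ρ + 1)) ^ (m + 1) * (ρ + 1) := by gcongr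
      _ = _ := by rw [mul_pow]; ring
  have f3 : (κ + t) ^ m ≤ (1067 + t) ^ m * (ρ + 1) ^ (m + 2) := by
    calc (κ + t) ^ m ≤ ((1067 + t) * (ρ + 1)) ^ m := by gcongr
      _ = (1067 + t) ^ m * (ρ + 1) ^ m := mul_pow _ _ _
      _ ≤ _ := by
          refine mul_le_mul_of_nonneg_left ?_ (by positivity)
          exact pow_le_pow_right₀ s0 (by omega)
  have f4 : 1 ≤ (ρ + 1) ^ (m + 2) := one_le_pow₀ s0
  have t1 : (κ + t) ^ (m + 1) * q8 * (4 * C ^ 2 * Y) ≤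
      (1067 + t) ^ (m + 1) * (ρ + 1) ^ (m + 2) * q * (4 * C ^ 2 * Y) := by gcongr
  have t2 : C * 2 ^ Rr Y * ((κ + t) ^ (m + 1) * ((ρ + 1) * (n * (Y * Real.exp (-2 * ρ))))) ≤
      C * n * Y * ((1067 + t) ^ (m + 1) * (ρ + 1) ^ (m + 2)) * q := by
    calc C * 2 ^ Rr Y * ((κ + t) ^ (m + 1) * ((ρ + 1) * (n * (Y * Real.exp (-2 * ρ))))) =
          C * n * Y * ((κ + t) ^ (m + 1) * (ρ + 1)) * (2 ^ Rr Y * Real.exp (-2 * ρ)) := by ring
      _ ≤ _ := by gcongr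
  have t3 : (κ + t) ^ m * (4 * C ^ 2 * Y * q) ≤
      (1067 + t) ^ m * (ρ + 1) ^ (m + 2) * (4 * C ^ 2 * Y * q) := by gcongr
  have t4 : (1 + t) ^ m * (64 * C * Y * (1 + Real.log Y) ^ 2 * (4 * MM m * (3 / 4) ^ kk Y)) ≤
      (1 + t) ^ m * (256 * C * Y * MM m * (ρ + 1) ^ (m + 2) * (4 * q)) := by
    refine mul_le_mul_of_nonneg_left ?_ (by positivity)
    calc 64 * C * Y * (1 + Real.log Y) ^ 2 * (4 * MM m * (3 / 4) ^ kk Y) =
          256 * C * Y * MM m * 1 * ((1 + Real.log Y) ^ 2 * (3 / 4) ^ kk Y) := by ring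
      _ ≤ _ := by gcongr
  calc _ = dl m B * (4 * C ^ 2 * Y) + (κ + t) ^ (m + 1) * q8 * (4 * C ^ 2 * Y) +
        C * 2 ^ Rr Y * ((κ + t) ^ (m + 1) * ((ρ + 1) * (n * (Y * Real.exp (-2 * ρ))))) +
        (κ + t) ^ m * (4 * C ^ 2 * Y * q) +
        (1 + t) ^ m *
          (64 * C * Y * (1 + Real.log Y) ^ 2 * (4 * MM m * (3 / 4) ^ kk Y)) := by ring
    _ ≤ dl m B * (4 * C ^ 2 * Y) +
        (1067 + t) ^ (m + 1) * (ρ + 1) ^ (m + 2) * q * (4 * C ^ 2 * Y) +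
        C * n * Y * ((1067 + t) ^ (m + 1) * (ρ + 1) ^ (m + 2)) * q +
        (1067 + t) ^ m * (ρ + 1) ^ (m + 2) * (4 * C ^ 2 * Y * q) +
        (1 + t) ^ m * (256 * C * Y * MM m * (ρ + 1) ^ (m + 2) * (4 * q)) := by linarith
    _ = _ := by ring

/-- **the sum of the powers of the large dimensions of the twists** -/
theorem sum_gMm' (m : ℕ) (hM : ∀ π ∈ M, Pq π ∧ nrm π % 9 = 1) (hA : A ⊆ M) (hA₂ : A₂ ⊆ A) :
    ∃ a₀ : ℝ, 0 < a₀ ∧ ∀ (B : ℕ) (ε : ℝ), 0 < ε → ∀ᶠ Y : ℕ in atTop,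
    ∑ p ∈ PP Y, gMm m M A A₂ B p.1 p.2 ≤ (a₀ * dl m B + ε) * Y := by
  obtain ⟨C, hC⟩ := N.t_CNT
  have hC1 := hC.one
  refine ⟨4 * C ^ 2, by positivity, fun B ε hε => ?_⟩
  have h1 := ((pow_limm (m + 2)).comp Rr_tendsto).const_mul
    (4 * C ^ 2 * (1067 + (A.card : ℝ)) ^ (m + 1) +
      C * (nm A : ℝ) * (1067 + (A.card : ℝ)) ^ (m + 1) +
      4 * C ^ 2 * (1067 + (A.card : ℝ)) ^ m + (1 + (A.card : ℝ)) ^ m * (1024 * C * MM m))
  rw [mul_zero] at h1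
  filter_upwards [h1.eventually (gt_mem_nhds hε), ev_TM hM hA hA₂, ev_eL 2] with Y h2 h3 h4
  have hY : 1 ≤ Y := X_pos (by linarith)
  have h5 := sum_gMm m hC B (kk Y) (Rr Y) hY (e := nm A * (Y * Real.exp (-2 * (Rr Y : ℝ))))
    (by positivity) h3
  refine h5.trans ((fin_numMm m hC1 B A.card (n := nm A) (Nat.cast_nonneg _) h4).trans ?_)
  refine mul_le_mul_of_nonneg_right ?_ (Nat.cast_nonneg _)
  have h6 : (4 * C ^ 2 * (1067 + (A.card : ℝ)) ^ (m + 1) +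
      C * (nm A : ℝ) * (1067 + (A.card : ℝ)) ^ (m + 1) +
      4 * C ^ 2 * (1067 + (A.card : ℝ)) ^ m + (1 + (A.card : ℝ)) ^ m * (1024 * C * MM m)) *
        (((Rr Y : ℝ) + 1) ^ (m + 2) * (1 / 2) ^ Rr Y) < ε := h2
  linarith

theorem split_avgMm (m : ℕ) (hM : ∀ π ∈ M, Pq π ∧ nrm π % 9 = 1) (hA : A ⊆ M) (hA₂ : A₂ ⊆ A)
    (Y B : ℕ) :
    ∑ p ∈ PM M Y, (rM A A₂ p.1 p.2 : ℝ) ^ m =
    ∑ r ∈ range (B + 1), (r : ℝ) ^ m *
      (((PM M Y).filter fun p => Gw (p.1 ∪ A₂) r (p.2 ∪ A)).card : ℝ) +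
    ∑ p ∈ PP Y, gMm m M A A₂ B p.1 p.2 := by
  have h0 : ∑ p ∈ PP Y, gMm m M A A₂ B p.1 p.2 =
      ∑ p ∈ PM M Y, (if B < rM A A₂ p.1 p.2 then (rM A A₂ p.1 p.2 : ℝ) ^ m else 0) := by
    unfold PM
    exact (Finset.sum_filter _ _).symm
  have h1 : ∀ p ∈ PM M Y, (rM A A₂ p.1 p.2 : ℝ) ^ m =
      ∑ r ∈ range (B + 1), (if Gw (p.1 ∪ A₂) r (p.2 ∪ A) then (r : ℝ) ^ m else 0) +
        (if B < rM A A₂ p.1 p.2 then (rM A A₂ p.1 p.2 : ℝ) ^ m else 0) := by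
    intro p hp
    obtain ⟨hT, hS, h9⟩ := mem_PM hM hA hA₂ hp
    have h2 : ∑ r ∈ range (B + 1), (if Gw (p.1 ∪ A₂) r (p.2 ∪ A) then (r : ℝ) ^ m else 0) =
        ∑ r ∈ range (B + 1), (if rM A A₂ p.1 p.2 = r then (r : ℝ) ^ m else 0) := by
      refine Finset.sum_congr rfl fun r _ => ?_
      have h3 : Gw (p.1 ∪ A₂) r (p.2 ∪ A) ↔ rM A A₂ p.1 p.2 = r := Gw_iff hT h9 r
      by_cases h4 : Gw (p.1 ∪ A₂) r (p.2 ∪ A)
      · rw [if_pos h4, if_pos (h3.1 h4)]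
      · rw [if_neg h4, if_neg fun h5 => h4 (h3.2 h5)]
    rw [h2, Finset.sum_ite_eq]
    by_cases h : B < rM A A₂ p.1 p.2
    · rw [if_pos h, if_neg (by rw [Finset.mem_range]; omega), zero_add]
    · rw [if_neg h, if_pos (by rw [Finset.mem_range]; omega), add_zero]
  rw [h0, Finset.sum_congr rfl h1, Finset.sum_add_distrib, Finset.sum_comm]
  congr 1
  refine Finset.sum_congr rfl fun r _ => ?_
  rw [← Finset.sum_filter, Finset.sum_const, nsmul_eq_mul, mul_comm]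

/-- **the moments for the twists** -/
theorem avg_limMm (m : ℕ) (hM : ∀ π ∈ M, Pq π ∧ nrm π % 9 = 1) (hA : A ⊆ M) (hA₂ : A₂ ⊆ A) :
    Tendsto (fun Y : ℕ => (∑ p ∈ PM M Y, (rM A A₂ p.1 p.2 : ℝ) ^ m) / ((PM M Y).card : ℝ))
    atTop (nhds (mum m)) := by
  obtain ⟨a₀, ha₀, hg⟩ := sum_gMm' m hM hA hA₂
  obtain ⟨c₀, X₀, hc₀, hlow⟩ := PM_low hM
  rw [Metric.tendsto_nhds]
  intro η hη
  have hB1 : Tendsto (fun B : ℕ => ∑ r ∈ range (B + 1), (r : ℝ) ^ m * cr r) atTop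
      (nhds (mum m)) :=
    (tendsto_add_atTop_iff_nat (f := fun B : ℕ => ∑ r ∈ range B, (r : ℝ) ^ m * cr r) 1).2
      (summable_mum m).hasSum.tendsto_sum_nat
  have hB2 : Tendsto (fun B : ℕ => a₀ * dl m B) atTop (nhds 0) := by
    have := (dl_lim m).const_mul a₀
    rwa [mul_zero] at this
  have hη6 : 0 < η * c₀ / 6 := by positivity
  obtain ⟨B, hb1, hb2⟩ := ((hB1.eventually (Metric.ball_mem_nhds (mum m)
    (show 0 < η / 3 by positivity))).and (hB2.eventually (gt_mem_nhds hη6))).exists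
  replace hb1 := Metric.mem_ball.1 hb1
  rw [Real.dist_eq] at hb1
  have hlim : Tendsto (fun Y : ℕ => ∑ r ∈ range (B + 1), (r : ℝ) ^ m *
      ((((PM M Y).filter fun p => Gw (p.1 ∪ A₂) r (p.2 ∪ A)).card : ℝ) /
        ((PM M Y).card : ℝ))) atTop
      (nhds (∑ r ∈ range (B + 1), (r : ℝ) ^ m * cr r)) :=
    tendsto_finsetSum _ fun r _ => (t_pairsM hM hA hA₂ r).const_mul _
  filter_upwards [hlim.eventually (Metric.ball_mem_nhds _ (show 0 < η / 3 by positivity)),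
    hg B (η * c₀ / 6) hη6, eventually_ge_atTop X₀, eventually_ge_atTop 1] with Y h1 h2 h3 h4
  replace h1 := Metric.mem_ball.1 h1
  rw [Real.dist_eq] at h1
  have hY : (0 : ℝ) < Y := by exact_mod_cast h4
  have hlo := hlow Y h3
  have hpos : (0 : ℝ) < ((PM M Y).card : ℝ) := lt_of_lt_of_le (by positivity) hlo
  rw [Real.dist_eq, split_avgMm m hM hA hA₂ Y B, add_div, Finset.sum_div]
  have e1 : ∑ r ∈ range (B + 1), (r : ℝ) ^ m *
      (((PM M Y).filter fun p => Gw (p.1 ∪ A₂) r (p.2 ∪ A)).card : ℝ) / ((PM M Y).card : ℝ) =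
      ∑ r ∈ range (B + 1), (r : ℝ) ^ m *
      ((((PM M Y).filter fun p => Gw (p.1 ∪ A₂) r (p.2 ∪ A)).card : ℝ) /
        ((PM M Y).card : ℝ)) :=
    Finset.sum_congr rfl fun r _ => mul_div_assoc _ _ _
  rw [e1]
  have h5 : (∑ p ∈ PP Y, gMm m M A A₂ B p.1 p.2) / ((PM M Y).card : ℝ) ≤ η / 3 := by
    rw [div_le_iff₀ hpos]
    have g1 : (a₀ * dl m B + η * c₀ / 6) * (Y : ℝ) ≤
        (η * c₀ / 6 + η * c₀ / 6) * Y := by
      refine mul_le_mul_of_nonneg_right ?_ hY.le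
      have : a₀ * dl m B < η * c₀ / 6 := hb2
      linarith
    have g2 : (η * c₀ / 6 + η * c₀ / 6) * (Y : ℝ) = η / 3 * (c₀ * Y) := by ring
    have g3 : η / 3 * (c₀ * Y) ≤ η / 3 * ((PM M Y).card : ℝ) :=
      mul_le_mul_of_nonneg_left hlo (by positivity)
    linarith
  have h6 : 0 ≤ (∑ p ∈ PP Y, gMm m M A A₂ B p.1 p.2) / ((PM M Y).card : ℝ) :=
    div_nonneg (Finset.sum_nonneg fun p _ => gMm_nonneg m M A A₂ B p.1 p.2) hpos.le
  rw [abs_lt] at h1 hb1 ⊢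
  constructor <;> linarith [h1.1, h1.2, hb1.1, hb1.2]

end mask

section
variable {K : Type} [Field K] [NumberField K] (j : Ei ≃+* 𝓞 K)
  {M A A₂ : Finset Ei}

/-- the moments for one twist -/
theorem avgTwm (m : ℕ) {ω : K} (hω : ω ^ 2 + ω + 1 = 0)
    (hM : ∀ π ∈ M, Pq π ∧ nrm π % 9 = 1) (hA : A ⊆ M) (hA₂ : A₂ ⊆ A) :
    Tendsto (fun X : ℕ => (∑ D ∈ (PM M X).image fun p : Finset Ei × Finset Ei =>
      j (DD p.1 p.2), (dimK ω (D * j (DD A₂ A)) : ℝ) ^ m) /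
      (((PM M X).image fun p : Finset Ei × Finset Ei => j (DD p.1 p.2)).card : ℝ)) atTop
      (nhds (mum m)) := by
  refine (avg_limMm m hM hA hA₂).congr fun X => ?_
  have hinj : Set.InjOn (fun p : Finset Ei × Finset Ei => j (DD p.1 p.2))
      ((PM M X : Finset (Finset Ei × Finset Ei)) : Set (Finset Ei × Finset Ei)) := by
    refine (inj_S j X).mono ?_
    intro p hp
    unfold PM at hp
    exact (Finset.mem_filter.1 (Finset.mem_coe.1 hp)).1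
  refine (avg_tr (PM M X) _ hinj (fun D => (dimK ω (D * j (DD A₂ A)) : ℝ) ^ m) _
    fun p hp => ?_).symm
  have h := (oneM j hω hM hA hA₂ hp).2.2
  rw [map_mul] at h
  exact congrArg (fun n : ℕ => (n : ℝ) ^ m) h

end

end Pool.Agent.X253.CF
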