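import Mathlib
import Pool.Agent.X253.CF.TwF

/-!
# Project CF: all the moments of the rank over the fields `K(∛l : l ∈ P)`
-/

set_option autoImplicit false
set_option linter.unusedVariables false
set_option linter.unusedSectionVars false

open scoped Classical
open Finset Filter

namespace Pool.Agent.X253.CF

open NumberField WeierstrassCurve
open Pool.Agent.Y692.QS (Ei w nr toC)
open Pool.Agent.Y715.T.RecG (Pq)
open Pool.Agent.Y699.E (nrm QB nrm_cast PD mem_PD PS PS_prod)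
open Pool.Agent.Y696.CTK (ED)
open Pool.Agent.Y703.XL (cr cr_pos cr_le t_C9 t_LA)
open Pool.Agent.Y703.XL.Inf (killed)
open Pool.Agent.X253.C3 (ClsC Ec deg3)

section tower
variable {K : Type} [Field K] [NumberField K]

/-- **The moments over `F = K(∛l : l ∈ P)`.** -/
theorem towCFm [IsCyclotomicExtension {3} ℚ K] (P : Finset (𝓞 K))
    (hP : ∀ l ∈ P, Prime l ∧ (3 : 𝓞 K) ∣ l - 1 ∧ (9 : ℤ) ∣ Algebra.norm ℤ l - 1)
    (F : Type) [Field F] [NumberField F] [Algebra K F] (x : 𝓞 K → F)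
    (hx : ∀ l ∈ P, x l ^ 3 = algebraMap K F l)
    (hgen : ∀ L : Subfield F, (∀ a : K, algebraMap K F a ∈ L) → (∀ l ∈ P, x l ∈ L) → L = ⊤) :
    Module.finrank K F = 3 ^ P.card ∧
    ∃ (S : ℕ → Finset (𝓞 K)) (f : (P → Fin 3) → 𝓞 K → ℕ),
      (∀ X : ℕ, {D : 𝓞 K | Algebra.norm ℤ D ≤ X ∧ ClsC D ∧ ∀ l ∈ P, ¬ l ∣ D} =
        ((S X : Finset (𝓞 K)) : Set (𝓞 K))) ∧
      (∀ D : 𝓞 K, ClsC D → (∀ l ∈ P, ¬ l ∣ D) →
        Module.Finite ℤ (Ec (algebraMap K F (D : K))).toAffine.Point ∧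
        Module.finrank ℤ (Ec (algebraMap K F (D : K))).toAffine.Point ≤
          2 * ∑ ε : P → Fin 3, f ε D) ∧
      ∀ (m : ℕ) (ε : P → Fin 3), Tendsto (fun X : ℕ =>
        (∑ D ∈ S X, (f ε D : ℝ) ^ m) / ((S X).card : ℝ)) atTop (nhds (mum m)) := by
  obtain ⟨⟨j, hj⟩, -⟩ := Pool.Agent.Y455.CTK.jex K
  obtain ⟨ω, hω⟩ : ∃ ω : K, ω ^ 2 + ω + 1 = 0 := by
    refine ⟨((j w : 𝓞 K) : K), ?_⟩
    have hww : (w : Ei) ^ 2 + w + 1 = 0 := by decide
    have h : (j w) ^ 2 + j w + 1 = 0 := by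
      rw [← map_pow, ← map_one j, ← map_add, ← map_add, hww, map_zero]
    have h' := congrArg (fun x : 𝓞 K => (x : K)) h
    simpa using h'
  obtain ⟨M, hMd⟩ : ∃ M : Finset Ei, M = P.image j.symm := ⟨_, rfl⟩
  have hM : ∀ π ∈ M, Pq π ∧ nrm π % 9 = 1 := by
    intro π hπ
    rw [hMd, Finset.mem_image] at hπ
    obtain ⟨l, hl, rfl⟩ := hπ
    obtain ⟨h1, h2, h3⟩ := hP l hl
    refine ⟨⟨(MulEquiv.prime_iff (j.symm : 𝓞 K ≃* Ei)).2 h1,
      Pool.Agent.Y696.CTK.three_dvd_symm j h2⟩, ?_⟩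
    rw [← Pool.Agent.Y550.XK.NS.mod_iff, ← hj, RingEquiv.apply_symm_apply]
    exact h3
  have hcond : ∀ D : 𝓞 K, (∀ l ∈ P, ¬ l ∣ D) ↔ ∀ π ∈ M, ¬ j π ∣ D := by
    intro D
    constructor
    · intro h π hπ
      rw [hMd, Finset.mem_image] at hπ
      obtain ⟨l, hl, rfl⟩ := hπ
      rw [RingEquiv.apply_symm_apply]
      exact h l hl
    · intro h l hl
      have := h (j.symm l) (by
        rw [hMd]
        exact Finset.mem_image_of_mem _ hl)
      rwa [RingEquiv.apply_symm_apply] at this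
  have hset : ∀ X : ℕ, {D : 𝓞 K | Algebra.norm ℤ D ≤ X ∧ ClsC D ∧ ∀ l ∈ P, ¬ l ∣ D} =
      (((PM M X).image fun p : Finset Ei × Finset Ei => j (DD p.1 p.2) : Finset (𝓞 K)) :
        Set (𝓞 K)) := by
    intro X
    rw [← setM j hj hM X]
    ext D
    exact and_congr_right fun _ => and_congr_right fun _ => hcond D
  obtain ⟨Am, hAm⟩ : ∃ Am : (P → Fin 3) → Finset Ei, ∀ ε, Am ε =
      (univ.filter fun i : P => ε i ≠ 0).image fun i : P => j.symm (i : 𝓞 K) :=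
    ⟨_, fun _ => rfl⟩
  obtain ⟨A2, hA2⟩ : ∃ A2 : (P → Fin 3) → Finset Ei, ∀ ε, A2 ε =
      (univ.filter fun i : P => ε i = 2).image fun i : P => j.symm (i : 𝓞 K) :=
    ⟨_, fun _ => rfl⟩
  have hAM : ∀ ε, Am ε ⊆ M := by
    intro ε π hπ
    rw [hAm, Finset.mem_image] at hπ
    obtain ⟨i, -, rfl⟩ := hπ
    rw [hMd]
    exact Finset.mem_image_of_mem _ i.2
  have hAA : ∀ ε, A2 ε ⊆ Am ε := by
    intro ε π hπ
    rw [hA2, Finset.mem_image] at hπ
    obtain ⟨i, hi, rfl⟩ := hπ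
    rw [hAm, Finset.mem_image]
    refine ⟨i, ?_, rfl⟩
    rw [Finset.mem_filter] at hi ⊢
    refine ⟨hi.1, ?_⟩
    rw [hi.2]
    decide
  have hprod : ∀ ε : P → Fin 3, ∏ i : P, (i : 𝓞 K) ^ (ε i : ℕ) = j (DD (A2 ε) (Am ε)) := by
    intro ε
    rw [hAm, hA2]
    exact prodE j P ε
  refine ⟨?_, fun X => (PM M X).image fun p : Finset Ei × Finset Ei => j (DD p.1 p.2),
    fun ε D => dimK ω (D * j (DD (A2 ε) (Am ε))), hset, ?_, ?_⟩
  · have h1 := deg3 ω hω (fun i : P => (i : 𝓞 K)) (fun i => (hP i i.2).1) (by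
      intro i k hik hd
      have h2 := Pool.Agent.Y699.E.eq_of_dvd (hM (j.symm (i : 𝓞 K)) (by
        rw [hMd]
        exact Finset.mem_image_of_mem _ i.2)).1 (hM (j.symm (k : 𝓞 K)) (by
        rw [hMd]
        exact Finset.mem_image_of_mem _ k.2)).1 (map_dvd j.symm hd)
      exact hik (Subtype.ext (j.symm.injective h2))) (fun i => x i)
      (fun i => hx i i.2) (fun L h1 h2 => hgen L h1 fun l hl => h2 ⟨l, hl⟩)
    rw [h1, Fintype.card_coe]
  · intro D hD hDP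
    obtain ⟨z, rfl⟩ := j.surjective D
    obtain ⟨T, S, hT, hS, h9, rfl⟩ := cls_ex ((clsC_iff j hj z).1 hD)
    have hp : ((T, S) : Finset Ei × Finset Ei) ∈ PM M (nm T * nm S) := by
      unfold PM
      rw [Finset.mem_filter]
      refine ⟨(PP_iff _ _).2 ⟨hT, hS, le_rfl, h9⟩, ?_⟩
      rw [Finset.disjoint_left]
      intro π hπ hπM
      refine (hcond _).1 hDP π hπM (map_dvd j ?_)
      unfold DD
      exact (Finset.dvd_prod_of_mem (fun x => x) hπ).mul_right _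
    have hone := fun ε => oneM (K := K) j hω hM (hAM ε) (hAA ε) hp
    have hcls : ∀ ε, ClsC (j (DD T S * DD (A2 ε) (Am ε)) : 𝓞 K) := by
      intro ε
      obtain ⟨h1, h2, h3⟩ := mem_PM hM (hAM ε) (hAA ε) hp
      have hd : Disjoint S M := by
        unfold PM at hp
        exact (Finset.mem_filter.1 hp).2
      have e := DD_union (T := T) (S := S) (A := Am ε) (A₂ := A2 ε) (hd.mono_right (hAM ε))
        ((hd.mono_left hT).mono_right ((hAA ε).trans (hAM ε)))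
      rw [← e]
      exact (clsC_iff j hj _).2 (cls_DD h1 h2 h3)
    have hcoe : ∀ ε : P → Fin 3, ((j (DD T S * DD (A2 ε) (Am ε)) : 𝓞 K) : K) =
        (j (DD T S) : K) * ∏ i : P, ((i : 𝓞 K) : K) ^ (ε i : ℕ) := by
      intro ε
      have e1 : j (DD T S * DD (A2 ε) (Am ε)) =
          j (DD T S) * ∏ i : P, (i : 𝓞 K) ^ (ε i : ℕ) := by
        rw [hprod, map_mul]
      rw [e1]
      simp only [map_mul, map_prod, map_pow]
    have hne : (j (DD T S) : K) ≠ 0 := coe_ne j hT hS h9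
    obtain ⟨g1, g2⟩ := Tw.rank_tower (F := F) ω hω (fun i : P => ((i : 𝓞 K) : K))
      (fun i h0 => (hP i i.2).1.ne_zero (RingOfIntegers.coe_injective (h0.trans (map_zero _).symm)))
      (fun i => x i) (fun i => hx i i.2) (fun L h1 h2 => hgen L h1 fun l hl => h2 ⟨l, hl⟩)
      (j (DD T S) : K) hne (fun ε => by
        have h1 := fg_CF K (hcls ε)
        rw [hcoe ε] at h1
        exact h1)
    refine ⟨g1, g2.trans ?_⟩
    show _ ≤ 2 * ∑ ε : P → Fin 3, dimK ω (j (DD T S) * j (DD (A2 ε) (Am ε)))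
    rw [Finset.mul_sum]
    refine le_trans (Finset.sum_le_sum (g := fun ε : P → Fin 3 =>
      2 * dimK ω (j (DD T S) * j (DD (A2 ε) (Am ε)))) fun ε _ => ?_)
      (le_of_eq (Finset.sum_congr (by ext ε; simp) fun _ _ => rfl))
    obtain ⟨-, h2, h3⟩ := hone ε
    rw [hcoe ε] at h2
    have h4 : dimK ω (j (DD T S) * j (DD (A2 ε) (Am ε))) = rM (Am ε) (A2 ε) T S := by
      rw [← map_mul]
      exact h3
    rw [h4]
    exact h2
  · intro m ε
    exact avgTwm j m hω hM (hAM ε) (hAA ε)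

theorem pow_mean {ι : Type} [Fintype ι] [Nonempty ι] (f : ι → ℕ) (m : ℕ) :
    (2 * (∑ i, (f i : ℝ))) ^ m ≤ 2 ^ m * (Fintype.card ι : ℝ) ^ m *
      ((∑ i, (f i : ℝ) ^ m) / Fintype.card ι) := by
  have hN : (0 : ℝ) < Fintype.card ι := by exact_mod_cast Fintype.card_pos
  have h := Real.pow_arith_mean_le_arith_mean_pow (Finset.univ : Finset ι)
    (fun _ => 1 / (Fintype.card ι : ℝ)) (fun i => (f i : ℝ)) (fun _ _ => by positivity)
    (by
      rw [Finset.sum_const, Finset.card_univ, nsmul_eq_mul]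
      field_simp) (fun _ _ => Nat.cast_nonneg _) m
  rw [← Finset.mul_sum, ← Finset.mul_sum] at h
  have h2 : (2 * (∑ i, (f i : ℝ))) ^ m = 2 ^ m * (Fintype.card ι : ℝ) ^ m *
      (1 / (Fintype.card ι : ℝ) * ∑ i, (f i : ℝ)) ^ m := by
    rw [← mul_pow, ← mul_pow]
    congr 1
    field_simp
  have h3 : (∑ i, (f i : ℝ) ^ m) / Fintype.card ι =
      1 / (Fintype.card ι : ℝ) * ∑ i, (f i : ℝ) ^ m := by
    rw [one_div, inv_mul_eq_div]
  rw [h2, h3]
  exact mul_le_mul_of_nonneg_left h (by positivity)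

/-- **The moments of the rank over `F = K(∛l : l ∈ P)`.** -/
theorem towMom [IsCyclotomicExtension {3} ℚ K] (P : Finset (𝓞 K))
    (hP : ∀ l ∈ P, Prime l ∧ (3 : 𝓞 K) ∣ l - 1 ∧ (9 : ℤ) ∣ Algebra.norm ℤ l - 1)
    (F : Type) [Field F] [NumberField F] [Algebra K F] (x : 𝓞 K → F)
    (hx : ∀ l ∈ P, x l ^ 3 = algebraMap K F l)
    (hgen : ∀ L : Subfield F, (∀ a : K, algebraMap K F a ∈ L) → (∀ l ∈ P, x l ∈ L) → L = ⊤) :
    Module.finrank K F = 3 ^ P.card ∧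
    ∃ S : ℕ → Finset (𝓞 K),
      (∀ X : ℕ, {D : 𝓞 K | Algebra.norm ℤ D ≤ X ∧ ClsC D ∧ ∀ l ∈ P, ¬ l ∣ D} =
        ((S X : Finset (𝓞 K)) : Set (𝓞 K))) ∧
      (∀ D : 𝓞 K, ClsC D → (∀ l ∈ P, ¬ l ∣ D) →
        Module.Finite ℤ (Ec (algebraMap K F (D : K))).toAffine.Point) ∧
      ∀ (m : ℕ) (η : ℝ), 0 < η → ∀ᶠ X : ℕ in atTop,
        (∑ D ∈ S X, (Module.finrank ℤ (Ec (algebraMap K F (D : K))).toAffine.Point : ℝ) ^ m) /
          ((S X).card : ℝ) ≤ (2 ^ m * mum m + η) * (3 ^ P.card : ℝ) ^ m := by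
  obtain ⟨g1, S, f, hS, hf, hlim⟩ := towCFm P hP F x hx hgen
  refine ⟨g1, S, hS, fun D h1 h2 => (hf D h1 h2).1, fun m η hη => ?_⟩
  obtain ⟨N, hN⟩ : ∃ N : ℝ, N = 3 ^ P.card := ⟨_, rfl⟩
  have hN0 : 0 < N := by
    rw [hN]
    positivity
  have hcard : (Fintype.card (P → Fin 3) : ℝ) = N := by
    rw [hN, Fintype.card_fun, Fintype.card_fin, Fintype.card_coe]
    push_cast
    rfl
  have h1 : Tendsto (fun X : ℕ => ∑ ε : P → Fin 3,
      (∑ D ∈ S X, (f ε D : ℝ) ^ m) / ((S X).card : ℝ)) atTop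
      (nhds (∑ ε : P → Fin 3, mum m)) := tendsto_finsetSum _ fun ε _ => hlim m ε
  have e : ∑ ε : P → Fin 3, mum m = N * mum m := by
    rw [Finset.sum_const, Finset.card_univ, nsmul_eq_mul, hcard]
  rw [e] at h1
  have h2 : (0 : ℝ) < 2 ^ m := by positivity
  filter_upwards [h1.eventually (gt_mem_nhds (show N * mum m < N * mum m + N * (η / 2 ^ m) from
    lt_add_of_pos_right _ (by positivity)))] with X hX
  rw [← hN]
  have h3 : ∀ D ∈ S X, (Module.finrank ℤ (Ec (algebraMap K F (D : K))).toAffine.Point : ℝ) ^ m ≤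
      2 ^ m * N ^ m * ((∑ ε : P → Fin 3, (f ε D : ℝ) ^ m) / N) := by
    intro D hD
    have hD' : D ∈ {D : 𝓞 K | Algebra.norm ℤ D ≤ X ∧ ClsC D ∧ ∀ l ∈ P, ¬ l ∣ D} := by
      rw [hS X]
      exact hD
    have h4 := (hf D hD'.2.1 hD'.2.2).2
    have h5 : (Module.finrank ℤ (Ec (algebraMap K F (D : K))).toAffine.Point : ℝ) ≤
        2 * ∑ ε : P → Fin 3, (f ε D : ℝ) := by exact_mod_cast h4
    have h6 := pow_mean (fun ε : P → Fin 3 => f ε D) m
    rw [hcard] at h6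
    exact (pow_le_pow_left₀ (Nat.cast_nonneg _) h5 m).trans h6
  have h7 : (∑ D ∈ S X, (Module.finrank ℤ (Ec (algebraMap K F (D : K))).toAffine.Point : ℝ) ^ m) /
      ((S X).card : ℝ) ≤ 2 ^ m * N ^ m / N *
        ∑ ε : P → Fin 3, (∑ D ∈ S X, (f ε D : ℝ) ^ m) / ((S X).card : ℝ) := by
    rw [← Finset.sum_div, ← mul_div_assoc, Finset.sum_comm, Finset.mul_sum]
    refine div_le_div_of_nonneg_right (Finset.sum_le_sum fun D hD => (h3 D hD).trans
      (le_of_eq ?_)) (Nat.cast_nonneg _)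
    ring
  refine h7.trans ?_
  have h8 : 2 ^ m * N ^ m / N *
      ∑ ε : P → Fin 3, (∑ D ∈ S X, (f ε D : ℝ) ^ m) / ((S X).card : ℝ) ≤
      2 ^ m * N ^ m / N * (N * mum m + N * (η / 2 ^ m)) :=
    mul_le_mul_of_nonneg_left hX.le (by positivity)
  refine h8.trans (le_of_eq ?_)
  field_simp

end tower

end Pool.Agent.X253.CF
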