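import Pool.Agent.X253.CF.AvA

/-!
# Project CF: the law for the sets containing `T`, uniformly in `T` and with a rate
-/

set_option autoImplicit false

namespace Pool.Agent.X253.CF.K

open Finset
open Pool.Agent.Y692.QS (Ei w nr toC)
open Pool.Agent.Y715.T.Rec (cs)
open Pool.Agent.Y715.T.RecG (Pq)
open Pool.Agent.Y699.E (ez nrm QB mem_QB pq_nrm_two nrm_prod PS_prod PD SB mem_SB card_SB_le
  hsum_SB lg)
open Pool.Agent.Y703.CX (jj XX)
open Pool.Agent.Y703.XK
open scoped Classical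

/-- the sum over the boxes, with a uniform constant -/
theorem t_KEGu (hB1 : S_BIL) : ∃ C₁ : ℝ, 1 ≤ C₁ ∧
    ∀ (Nd : Finset Ei → Finset Ei → Prop) (G : Finset Ei → Prop) (cc B : ℝ), BXG Nd G cc B → 0 ≤ B →
    ∀ (X z H k V N : ℕ) (κ : ℝ), 1 ≤ X → 1 ≤ H → 1 ≤ z → 0 ≤ κ → C₁ ≤ κ ^ 24 * z →
    (H : ℝ) * Real.log X < N →
    |(((RR X z H k V).filter fun S => Nd (sm z S) (la z S) ∧ G S).card : ℝ) -
        cc * (((RR X z H k V).filter fun S => Nd (sm z S) (la z S)).card : ℝ)| ≤
      B * (1 / 3 : ℝ) ^ V * ((RR X z H k V).card : ℝ) +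
      (9 * N + 9 : ℝ) ^ k * (3 ^ (9 * k ^ 2 + 9) * κ) * (X * (1 + Real.log X)) := by
  obtain ⟨C₁, hC₁, hb1⟩ := hB1
  refine ⟨C₁, hC₁, ?_⟩
  intro Nd G cc B hB hB0 X z H k V N κ hX hH hz hκ h1 hN
  set T := (RR X z H k V).image (ky z H) with hT
  have hfib : ∀ P : Finset Ei → Prop, (((RR X z H k V).filter fun S => P S).card : ℝ) =
      ∑ k' ∈ T, (((RR X z H k V).filter fun S => ky z H S = k' ∧ P S).card : ℝ) := by
    intro P
    rw [Finset.card_eq_sum_card_fiberwise (f := ky z H) (t := T) (by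
      intro S hS
      rw [Finset.mem_coe, Finset.mem_filter] at hS
      exact Finset.mem_coe.2 (Finset.mem_image_of_mem _ hS.1))]
    push_cast
    refine Finset.sum_congr rfl fun k' _ => ?_
    congr 2
    ext S
    simp only [Finset.mem_filter]
    tauto
  have hall : ((RR X z H k V).card : ℝ) =
      ∑ k' ∈ T, (((RR X z H k V).filter fun S => ky z H S = k' ∧ True).card : ℝ) := by
    rw [Finset.card_eq_sum_card_fiberwise (f := ky z H) (t := T) (by
      intro S hS
      exact Finset.mem_coe.2 (Finset.mem_image_of_mem _ hS))]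
    push_cast
    exact Finset.sum_congr rfl fun k' _ => congrArg _ (fcc fun _ _ => by tauto)
  have q1 : (((RR X z H k V).filter fun S => Nd (sm z S) (la z S) ∧ G S).card : ℝ) =
      ∑ k' ∈ T, (((RR X z H k V).filter fun S => ky z H S = k' ∧
        (Nd (sm z S) (la z S) ∧ G S)).card : ℝ) :=
    (congrArg _ (fcc fun _ _ => Iff.rfl)).trans ((hfib fun S => Nd (sm z S) (la z S) ∧ G S).trans
      (Finset.sum_congr rfl fun k' _ => congrArg _ (fcc fun _ _ => Iff.rfl)))
  rw [q1, hfib, Finset.mul_sum, ← Finset.sum_sub_distrib, hall, Finset.mul_sum]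
  refine (Finset.abs_sum_le_sum_abs _ _).trans ?_
  have h3 : ∑ k' ∈ T, |(((RR X z H k V).filter fun S => ky z H S = k' ∧
      (Nd (sm z S) (la z S) ∧ G S)).card : ℝ) - cc * (((RR X z H k V).filter fun S =>
      ky z H S = k' ∧ Nd (sm z S) (la z S)).card : ℝ)| ≤
      ∑ k' ∈ T, (B * (1 / 3 : ℝ) ^ V * (((RR X z H k V).filter fun S =>
      ky z H S = k' ∧ True).card : ℝ) +
      (3 ^ (9 * k ^ 2) * κ) * (X * (1 / ((∏ p ∈ k'.1, nrm p : ℕ) : ℝ)))) := by
    refine Finset.sum_le_sum fun k' hk => ?_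
    obtain ⟨S₀, J⟩ := k'
    exact per_key hB hB0 hb1 hH hz hκ h1 hk
  refine h3.trans ?_
  rw [Finset.sum_add_distrib]
  refine add_le_add (le_refl _) ?_
  exact keg_err hX hH hz hκ hN fun k' hk => hk

end Pool.Agent.X253.CF.K

open scoped Classical
open Finset Filter

namespace Pool.Agent.X253.CF

open Pool.Agent.Y692.QS (Ei w nr toC)
open Pool.Agent.Y715.T.RecG (Pq)
open Pool.Agent.Y699.E (nrm QB)
open Pool.Agent.Y703.CX (jj XX eL zz kk eL_tendsto logX_eq rpow_eL HH NN ev_eL one_le_exp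
  HH_ge HH_le HH_pos kk_ge kk_le X_pos one_add_log lin_le zz_ge zz_pos)
open Pool.Agent.Y703.CQ (Sml sml_of sml_add)
open Pool.Agent.Y703.XK (Nd sm la bl S_C9 sml_eps kk_pos kap kap_nonneg kap_pow kap_le log_three cmp)
open Pool.Agent.Y703.XL (cr cr_pos cr_le t_C9 t_LA)

/-- sets with many primes -/
theorem sml_many' {C t : ℝ} (ht : t < 1) (h : CntP C) :
    Sml t fun X => (((SS X).filter fun S => kk X < S.card).card : ℝ) := by
  have hC := h.one
  apply sml_of (C := 2 * C) (a := 1) ht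
  filter_upwards [ev_eL 1] with X hX
  have h0 : 0 < eL X := by linarith
  have h1 := h.many X (kk X) (X_pos h0)
  have h2 : Real.exp (2 * eL X) ≤ 2 ^ kk X := by
    have e : (2 : ℝ) ^ kk X = Real.exp (kk X * Real.log 2) := by
      rw [mul_comm, Real.exp_mul, Real.exp_log (by norm_num), Real.rpow_natCast]
    rw [e]
    apply Real.exp_le_exp.2
    have h3 := kk_ge X
    have h4 := Real.log_two_gt_d9
    nlinarith
  have hX0 : (0 : ℝ) ≤ X := Nat.cast_nonneg _
  have h5 : (((SS X).filter fun S => kk X < S.card).card : ℝ) * Real.exp (2 * eL X) ≤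
      C * (X * (2 * Real.exp (eL X))) := by
    calc _ ≤ (((SS X).filter fun S => kk X < S.card).card : ℝ) * 2 ^ kk X := by gcongr
      _ ≤ C * (X * (1 + Real.log X)) := h1
      _ ≤ _ := by
        have := one_add_log h0
        gcongr
  have h6 : (2 * C) * (X * Real.exp (-1 * eL X)) * Real.exp (2 * eL X) =
      C * (X * (2 * Real.exp (eL X))) := by
    have e : Real.exp (-1 * eL X) * Real.exp (2 * eL X) = Real.exp (eL X) := by
      rw [← Real.exp_add]; congr 1; ring
    calc _ = 2 * C * X * (Real.exp (-1 * eL X) * Real.exp (2 * eL X)) := by ring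
      _ = _ := by rw [e]; ring
  rw [← h6] at h5
  exact le_of_mul_le_mul_right h5 (Real.exp_pos _)

/-- sets near the boundary -/
theorem sml_cut' {C t : ℝ} (ht : t < 1) (h : CntP C) :
    Sml t fun X => (((SS X).filter fun S => S.card ≤ kk X ∧
      X < (∏ π ∈ sm (zz X) S, nrm π) * ∏ π ∈ la (zz X) S, XX (HH X) (bl (HH X) π)).card : ℝ) := by
  have hC := h.one
  apply sml_of (C := 3 * C) (a := 1) ht
  filter_upwards [ev_eL 1, lin_le (a := 1) (b := 11) (by norm_num) (by norm_num),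
    lin_le (a := 1 / 2) (b := 4) (by norm_num) (by norm_num)] with X hX h11 h12
  have h0 : 0 < eL X := by linarith
  have h1 := h.cut X (zz X) (HH X) (kk X) (X_pos h0) (HH_pos h0) (kk_pos hX)
  refine h1.trans ?_
  have hH := HH_ge h0
  have hHp : (0 : ℝ) < HH X := lt_of_lt_of_le (Real.exp_pos _) hH
  have hX0 : (0 : ℝ) ≤ X := Nat.cast_nonneg _
  have hkp : (0 : ℝ) < kk X := by exact_mod_cast kk_pos hX
  rw [one_mul] at h11
  have hk1 : (kk X : ℝ) ≤ Real.exp (eL X) := (kk_le hX).trans h11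
  have h2 : (kk X : ℝ) / HH X ≤ Real.exp (-2 * eL X) := by
    rw [div_le_iff₀ hHp]
    calc (kk X : ℝ) ≤ Real.exp (eL X) := hk1
      _ = Real.exp (-2 * eL X) * Real.exp (3 * eL X) := by
          rw [← Real.exp_add]; congr 1; ring
      _ ≤ _ := mul_le_mul_of_nonneg_left hH (Real.exp_pos _).le
  have h3 : C * (X * (1 + Real.log X)) * ((kk X : ℝ) / HH X) ≤ 2 * C * (X * Real.exp (-1 * eL X)) := by
    have h4 := one_add_log h0
    have h5 : (0 : ℝ) ≤ 1 + Real.log X := by
      have := Real.log_natCast_nonneg X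
      linarith
    calc C * (X * (1 + Real.log X)) * ((kk X : ℝ) / HH X) ≤
          C * (X * (2 * Real.exp (eL X))) * Real.exp (-2 * eL X) := by gcongr
      _ = 2 * C * (X * (Real.exp (eL X) * Real.exp (-2 * eL X))) := by ring
      _ = 2 * C * (X * Real.exp (-1 * eL X)) := by
          rw [← Real.exp_add]
          have : eL X + -2 * eL X = -1 * eL X := by ring
          rw [this]
  have h6 : Real.exp (-(Real.log X) / kk X) ≤ Real.exp (-1 * eL X) := by
    apply Real.exp_le_exp.2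
    rw [div_le_iff₀ hkp, logX_eq h0]
    have h7 : (kk X : ℝ) ≤ 11 * eL X := kk_le hX
    have h8 : 16 * (eL X) ^ 2 ≤ Real.exp (eL X) := by
      have h9 : Real.exp (eL X) = Real.exp (1 / 2 * eL X) * Real.exp (1 / 2 * eL X) := by
        rw [← Real.exp_add]; congr 1; ring
      rw [h9]
      have h10 : (4 * eL X) * (4 * eL X) ≤ Real.exp (1 / 2 * eL X) * Real.exp (1 / 2 * eL X) :=
        mul_le_mul h12 h12 (by linarith) (Real.exp_pos _).le
      nlinarith
    nlinarith [sq_nonneg (eL X)]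
  have h13 : C * X * Real.exp (-(Real.log X) / kk X) ≤ C * (X * Real.exp (-1 * eL X)) := by
    rw [mul_assoc]
    gcongr
  linarith

/-- sets with two primes in one block -/
theorem sml_coll' {C t : ℝ} (ht : t < 1) (h : CntP C) : Sml t fun X => (((SS X).filter fun S =>
    ¬ Set.InjOn (bl (HH X)) (la (zz X) S : Set Ei)).card : ℝ) := by
  have hC := h.one
  apply sml_of (C := 4 * C) (a := 1) ht
  filter_upwards [ev_eL 1] with X hX
  have h0 : 0 < eL X := by linarith
  have h1 := h.coll X (zz X) (HH X) (X_pos h0) (zz_pos hX) (HH_pos h0)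
  refine h1.trans ?_
  have hH := HH_ge h0
  have hHp : (0 : ℝ) < HH X := lt_of_lt_of_le (Real.exp_pos _) hH
  have hX0 : (0 : ℝ) ≤ X := Nat.cast_nonneg _
  have hzp : (0 : ℝ) < zz X := by exact_mod_cast zz_pos hX
  have h2 : C * (X * (1 + Real.log X)) / HH X ≤ 2 * C * (X * Real.exp (-1 * eL X)) := by
    rw [div_le_iff₀ hHp]
    have h4 := one_add_log h0
    have e1 : Real.exp (eL X) ≤ Real.exp (-1 * eL X) * HH X := by
      calc Real.exp (eL X) ≤ Real.exp (-1 * eL X) * Real.exp (3 * eL X) := by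
            rw [← Real.exp_add]
            apply Real.exp_le_exp.2
            linarith
        _ ≤ _ := mul_le_mul_of_nonneg_left hH (Real.exp_pos _).le
    calc C * (X * (1 + Real.log X)) ≤ C * (X * (2 * Real.exp (eL X))) := by gcongr
      _ ≤ C * (X * (2 * (Real.exp (-1 * eL X) * HH X))) := by gcongr
      _ = 2 * C * (X * Real.exp (-1 * eL X)) * HH X := by ring
  have h3 : C * X / zz X ≤ 2 * C * (X * Real.exp (-1 * eL X)) := by
    rw [div_le_iff₀ hzp]
    have h4 := zz_ge hX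
    have h5 : (1 : ℝ) / 2 ≤ Real.exp (-1 * eL X) * zz X := by
      have h6 : (1 : ℝ) ≤ Real.exp (-1 * eL X) * Real.exp ((eL X) ^ 3) := by
        rw [← Real.exp_add]
        apply one_le_exp
        have h7 : eL X ≤ (eL X) ^ 3 := by
          have h8 : (eL X) ^ 3 = eL X * (eL X * eL X) := by ring
          rw [h8]
          nlinarith
        linarith
      calc (1 : ℝ) / 2 ≤ Real.exp (-1 * eL X) * Real.exp ((eL X) ^ 3) / 2 := by linarith
        _ = Real.exp (-1 * eL X) * (Real.exp ((eL X) ^ 3) / 2) := by ring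
        _ ≤ _ := mul_le_mul_of_nonneg_left h4 (Real.exp_pos _).le
    calc C * X = 2 * C * X * (1 / 2) := by ring
      _ ≤ 2 * C * X * (Real.exp (-1 * eL X) * zz X) := by gcongr
      _ = _ := by ring
  linarith

/-- the main error term -/
theorem sml_main' {C t : ℝ} (ht : t < 1) (hC : 1 ≤ C) : Sml t fun X => (9 * (NN X : ℝ) + 9) ^ kk X *
    (3 ^ (9 * kk X ^ 2 + 9) * kap C X) * (X * (1 + Real.log X)) := by
  apply sml_of (C := 4 * C) (a := 1) ht
  filter_upwards [ev_eL 40000] with X hX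
  set l := eL X with hl
  have h0 : 0 < eL X := by linarith
  have h1 : 1 ≤ eL X := by linarith
  have hX0 : (0 : ℝ) ≤ X := Nat.cast_nonneg _
  have hN : 9 * (NN X : ℝ) + 9 ≤ Real.exp (5 * l) := by
    have h2 : (NN X : ℝ) ≤ HH X * Real.log X + 1 := by
      unfold NN
      push_cast
      have := Nat.floor_le (a := (HH X : ℝ) * Real.log X)
        (mul_nonneg (Nat.cast_nonneg _) (Real.log_natCast_nonneg X))
      linarith
    have h3 : (HH X : ℝ) * Real.log X ≤ 2 * Real.exp (4 * l) := by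
      rw [logX_eq h0]
      calc (HH X : ℝ) * Real.exp (eL X) ≤ 2 * Real.exp (3 * eL X) * Real.exp (eL X) :=
            mul_le_mul_of_nonneg_right (HH_le h0) (Real.exp_pos _).le
        _ = 2 * Real.exp (4 * l) := by
            rw [mul_assoc, ← Real.exp_add]
            congr 2
            rw [hl]
            ring
    have h4 : 1 ≤ Real.exp (4 * l) := one_le_exp (by linarith)
    have h5 : (36 : ℝ) ≤ Real.exp l := by
      have := Real.add_one_le_exp l
      linarith
    have h6 : Real.exp (5 * l) = Real.exp (4 * l) * Real.exp l := by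
      rw [← Real.exp_add]; congr 1; ring
    rw [h6]
    nlinarith
  have hkk := kk_le h1
  have hkk0 : (0 : ℝ) ≤ kk X := Nat.cast_nonneg _
  have hA : (9 * (NN X : ℝ) + 9) ^ kk X ≤ Real.exp (55 * l ^ 2) := by
    calc (9 * (NN X : ℝ) + 9) ^ kk X ≤ (Real.exp (5 * l)) ^ kk X := by gcongr
      _ = Real.exp (kk X * (5 * l)) := (Real.exp_nat_mul _ _).symm
      _ ≤ Real.exp (55 * l ^ 2) := by
          apply Real.exp_le_exp.2
          nlinarith
  have hB : (3 : ℝ) ^ (9 * kk X ^ 2 + 9) ≤ Real.exp (1200 * l ^ 2) := by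
    have e : (3 : ℝ) ^ (9 * kk X ^ 2 + 9) = Real.exp ((9 * (kk X : ℝ) ^ 2 + 9) * Real.log 3) := by
      rw [mul_comm (9 * (kk X : ℝ) ^ 2 + 9) (Real.log 3), Real.exp_mul, Real.exp_log (by norm_num)]
      rw [← Real.rpow_natCast]
      congr 1
      push_cast
      ring
    rw [e]
    apply Real.exp_le_exp.2
    have h2 := log_three
    have h3 : (kk X : ℝ) ^ 2 ≤ 121 * l ^ 2 := by nlinarith
    have h4 : 0 ≤ (kk X : ℝ) ^ 2 := sq_nonneg _
    have h5 : (40000 : ℝ) ^ 2 ≤ l ^ 2 := by nlinarith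
    calc (9 * (kk X : ℝ) ^ 2 + 9) * Real.log 3 ≤ (9 * (kk X : ℝ) ^ 2 + 9) * 1.1 := by gcongr
      _ ≤ (9 * (121 * l ^ 2) + 9) * 1.1 := by gcongr
      _ ≤ 1200 * l ^ 2 := by linarith
  have hK := kap_le hC h1
  have hLg := one_add_log h0
  have hmain : (9 * (NN X : ℝ) + 9) ^ kk X * (3 ^ (9 * kk X ^ 2 + 9) * kap C X) *
      (X * (1 + Real.log X)) ≤ Real.exp (55 * l ^ 2) * (Real.exp (1200 * l ^ 2) *
        (2 * C * Real.exp (-l ^ 3 / 24))) * (X * (2 * Real.exp l)) := by
    have := kap_nonneg hC X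
    have : 0 ≤ 1 + Real.log X := by
      have := Real.log_natCast_nonneg X
      linarith
    gcongr
  refine hmain.trans ?_
  have e : Real.exp (55 * l ^ 2) * (Real.exp (1200 * l ^ 2) *
        (2 * C * Real.exp (-l ^ 3 / 24))) * (X * (2 * Real.exp l)) =
      4 * C * (X * Real.exp (55 * l ^ 2 + 1200 * l ^ 2 + -l ^ 3 / 24 + l)) := by
    rw [Real.exp_add, Real.exp_add, Real.exp_add]
    ring
  rw [e]
  have h9 : 55 * l ^ 2 + 1200 * l ^ 2 + -l ^ 3 / 24 + l ≤ -1 * l := by
    have h10 : 40000 * l ^ 2 ≤ l ^ 3 := by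
      have : l ^ 3 = l * l ^ 2 := by ring
      rw [this]
      exact mul_le_mul_of_nonneg_right hX (sq_nonneg l)
    nlinarith
  have h11 := Real.exp_le_exp.2 h9
  have hC0 : (0 : ℝ) ≤ 4 * C := by linarith
  gcongr


/-- the number `V` -/
noncomputable def VV (X : ℕ) : ℕ := ⌊eL X / 24⌋₊

theorem VV_le {X : ℕ} (h : 0 ≤ eL X) : (VV X : ℝ) ≤ eL X / 24 := Nat.floor_le (by positivity)

theorem VV_ge (X : ℕ) : eL X / 24 - 1 ≤ VV X := by
  have := Nat.lt_floor_add_one (eL X / 24)
  unfold VV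
  linarith

theorem pow_exp (n : ℕ) {a : ℝ} (ha : 0 < a) : a ^ n = Real.exp (n * Real.log a) := by
  rw [Real.exp_nat_mul, Real.exp_log ha]

theorem log3_ge : 1 ≤ Real.log 3 := by
  rw [Real.le_log_iff_exp_le (by norm_num)]
  have := Real.exp_one_lt_d9
  linarith

/-- sets with few large primes -/
theorem sml_few' : Sml (1 / 48) fun X => (((SS X).filter fun S => S.card ≤ kk X ∧
      (la (zz X) S).card ≤ (sm (zz X) S).card + VV X).card : ℝ) := by
  obtain ⟨C', X₀, hC', h⟩ := G.t_FEW'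
  apply sml_of (C := C') (a := 1 / 16) (by norm_num)
  filter_upwards [ev_eL 1, eventually_ge_atTop X₀] with X hX hX0
  have h0 : 0 ≤ eL X := by linarith
  refine (h X hX0 (VV X)).trans ?_
  have h1 : (3 / 2 : ℝ) ^ VV X ≤ Real.exp (eL X / 48) := by
    rw [pow_exp _ (by norm_num)]
    apply Real.exp_le_exp.2
    have h2 : Real.log (3 / 2) ≤ 1 / 2 := by
      rw [Real.log_le_iff_le_exp (by norm_num)]
      have := Real.add_one_le_exp (1 / 2 : ℝ)
      linarith
    have h3 := VV_le h0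
    have h4 : (0 : ℝ) ≤ VV X := Nat.cast_nonneg _
    nlinarith
  have hX0' : (0 : ℝ) ≤ X := Nat.cast_nonneg _
  calc C' * (3 / 2) ^ VV X * (X * Real.exp (-(1 / 12) * eL X)) ≤
        C' * Real.exp (eL X / 48) * (X * Real.exp (-(1 / 12) * eL X)) := by gcongr
    _ = C' * (X * (Real.exp (eL X / 48) * Real.exp (-(1 / 12) * eL X))) := by ring
    _ = C' * (X * Real.exp (-(1 / 16) * eL X)) := by
        rw [← Real.exp_add]
        congr 3
        ring

/-- sets with degenerate labels -/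
theorem sml_bad' : Sml (1 / 48) fun X =>
    (((SS X).filter fun S => S.card ≤ kk X ∧ ¬ Nd (sm (zz X) S) (la (zz X) S)).card : ℝ) := by
  obtain ⟨C', X₀, hC', h⟩ := G.t_BAD'
  apply sml_of (C := C') (a := 1 / 12) (by norm_num)
  filter_upwards [eventually_ge_atTop X₀] with X hX0
  exact h X hX0

/-- **the law for the sets containing `T`**, uniformly in `T` -/
theorem unif : ∀ᶠ X : ℕ in atTop, ∀ (T : Finset Ei) (b r : ℕ), T.sup nrm ≤ zz X →
    (r : ℝ) ≤ eL X / 96 →
    |(((TS T b X).filter (Gw T r)).card : ℝ) - cr r * ((TS T b X).card : ℝ)| ≤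
      X * Real.exp (-(1 / 48) * eL X) := by
  obtain ⟨C, hC1, hkey⟩ := K.t_KEGu Pool.Agent.Y363.XK.t_BIL
  obtain ⟨D, hD⟩ := N.t_CNT
  have hD1 := hD.one
  have hDp : 0 < D := by linarith
  have ht : (1 / 48 : ℝ) < 1 := by norm_num
  have s1 := sml_many' ht hD
  have s2 := sml_cut' ht hD
  have s3 := sml_coll' ht hD
  have s6 := sml_main' (t := 1 / 48) ht hC1
  have s7 : Sml (1 / 48) fun X : ℕ => 9 * D * (X * Real.exp (-(1 / 32) * eL X)) :=
    sml_of (C := 9 * D) (a := 1 / 32) (by norm_num) (Filter.Eventually.of_forall fun X => le_rfl)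
  have s := sml_add (sml_add (sml_add (sml_add (sml_add (sml_add s1 s2) s3) sml_few') sml_bad') s6) s7
  filter_upwards [s 1 one_pos, ev_eL 1] with X hX hl T b r hT hr
  rw [one_mul] at hX
  have hl0 : 0 < eL X := by linarith
  have hXp := X_pos hl0
  have hXp' : (0 : ℝ) < X := by exact_mod_cast hXp
  have hN : (HH X : ℝ) * Real.log X < NN X := by
    unfold NN
    push_cast
    exact Nat.lt_floor_add_one _
  have hmain := hkey (NT T b) (Gw T r) (cr r) (3 ^ (r + 1))
    (B.t_BOX Pool.Agent.Y710.XK.t_EQ t_LA T b r) (by positivity)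
    X (zz X) (HH X) (kk X) (VV X) (NN X) (kap C X) hXp (HH_pos hl0) (zz_pos hl)
    (kap_nonneg hC1 X) (kap_pow hC1 hl) hN
  set R := (RR X (zz X) (HH X) (kk X) (VV X)).filter
    fun S => NT T b (sm (zz X) S) (la (zz X) S) with hR
  have hTG : (RR X (zz X) (HH X) (kk X) (VV X)).filter
      (fun S => NT T b (sm (zz X) S) (la (zz X) S) ∧ Gw T r S) = R.filter (Gw T r) := by
    rw [hR, filter_filter]
  rw [hTG] at hmain
  have hTsm : ∀ S : Finset Ei, T ⊆ S → T ⊆ sm (zz X) S := by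
    intro S hS π hπ
    unfold sm
    rw [mem_filter]
    exact ⟨hS hπ, (Finset.le_sup (f := nrm) hπ).trans hT⟩
  have hRS : R ⊆ TS T b X := by
    intro S hS
    rw [hR, mem_filter] at hS
    obtain ⟨h1, h2, h3, h4⟩ := hS
    unfold TS
    rw [mem_filter]
    refine ⟨(mem_filter.1 h1).1, h2.trans (filter_subset _ _), ?_⟩
    rw [Pool.Agent.X253.CF.K.prod_split (zz X) S nrm]
    exact h4
  have hRc : ((RR X (zz X) (HH X) (kk X) (VV X)).card : ℝ) ≤ D * X :=
    le_trans (by exact_mod_cast card_le_card (filter_subset _ _)) (hD.all X hXp)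
  have hcmp := cmp (Gw T r) R (TS T b X) hRS (cr r) (cr_pos t_C9 r).le (cr_le t_C9 r)
  have hsub : TS T b X \ R ⊆ SS X \ ((RR X (zz X) (HH X) (kk X) (VV X)).filter
      fun S => Nd (sm (zz X) S) (la (zz X) S)) := by
    intro S hS
    rw [Finset.mem_sdiff] at hS ⊢
    obtain ⟨h1, h2⟩ := hS
    unfold TS at h1
    rw [mem_filter] at h1
    refine ⟨h1.1, fun h3 => h2 ?_⟩
    rw [mem_filter] at h3
    rw [hR, mem_filter]
    refine ⟨h3.1, hTsm S h1.2.1, h3.2, ?_⟩
    rw [← Pool.Agent.X253.CF.K.prod_split (zz X) S nrm]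
    exact h1.2.2
  have hout : ((TS T b X \ R).card : ℝ) ≤
      ((((SS X).filter fun S => kk X < S.card).card : ℝ) +
      (((SS X).filter fun S => S.card ≤ kk X ∧
        X < (∏ π ∈ sm (zz X) S, nrm π) * ∏ π ∈ la (zz X) S, XX (HH X) (bl (HH X) π)).card : ℝ) +
      (((SS X).filter fun S => ¬ Set.InjOn (bl (HH X)) (la (zz X) S : Set Ei)).card : ℝ) +
      (((SS X).filter fun S => S.card ≤ kk X ∧
        (la (zz X) S).card ≤ (sm (zz X) S).card + VV X).card : ℝ)) +
      (((SS X).filter fun S => S.card ≤ kk X ∧ ¬ Nd (sm (zz X) S) (la (zz X) S)).card : ℝ) := by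
    have g := (card_le_card hsub).trans (card_le_card (out_sub X (zz X) (HH X) (kk X) (VV X)))
    have g2 := (g.trans (card_union_le _ _)).trans (Nat.add_le_add_right ((card_union_le _ _).trans
      (Nat.add_le_add_right ((card_union_le _ _).trans
      (Nat.add_le_add_right (card_union_le _ _) _)) _)) _)
    exact_mod_cast g2
  have g1 : 3 ^ (r + 1) * (1 / 3 : ℝ) ^ VV X *
      ((RR X (zz X) (HH X) (kk X) (VV X)).card : ℝ) ≤
        9 * D * (X * Real.exp (-(1 / 32) * eL X)) := by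
    have g2 : (3 : ℝ) ^ (r + 1) * (1 / 3 : ℝ) ^ VV X ≤ 9 * Real.exp (-(1 / 32) * eL X) := by
      have e1 : (1 / 3 : ℝ) ^ VV X = Real.exp (-(VV X * Real.log 3)) := by
        rw [one_div, inv_pow, pow_exp _ (by norm_num), ← Real.exp_neg]
      have e2 : (9 : ℝ) = Real.exp (2 * Real.log 3) := by
        rw [mul_comm, Real.exp_mul, Real.exp_log (by norm_num)]
        norm_num
      rw [e1, e2, pow_exp _ (by norm_num), ← Real.exp_add, ← Real.exp_add]
      apply Real.exp_le_exp.2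
      have g3 := VV_ge X
      have g4 := log3_ge
      push_cast
      nlinarith
    calc 3 ^ (r + 1) * (1 / 3 : ℝ) ^ VV X *
        ((RR X (zz X) (HH X) (kk X) (VV X)).card : ℝ) ≤
          9 * Real.exp (-(1 / 32) * eL X) * (D * X) := by gcongr
      _ = _ := by ring
  linarith

end Pool.Agent.X253.CF
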