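import Pool.Agent.X253.CF.Ex

/-!
# Project CF: numerical facts on the limits
-/

set_option autoImplicit false

open scoped Classical
open Finset Filter

namespace Pool.Agent.X253.CF

open Pool.Agent.Y703.XL (cr cr_pos cr_le t_C9 t_LA t_SUM')

theorem cr_succ (r : ℕ) : cr (r + 1) = cr r / (3 ^ (r + 1) - 1) := by
  unfold cr
  rw [Finset.prod_range_succ, div_mul_eq_div_div]

theorem cr_nonneg (r : ℕ) : 0 ≤ cr r := (cr_pos t_C9 r).le

theorem cr_geo {a : ℕ} (ha : 1 ≤ a) (j : ℕ) : cr (a + j) ≤ cr a * (1 / 8) ^ j := by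
  induction j with
  | zero => simp
  | succ j ih =>
    have h1 : cr (a + (j + 1)) = cr (a + j) / (3 ^ (a + j + 1) - 1) := cr_succ (a + j)
    have h2 : (9 : ℝ) ≤ 3 ^ (a + j + 1) := by
      calc (9 : ℝ) = 3 ^ 2 := by norm_num
        _ ≤ 3 ^ (a + j + 1) := pow_le_pow_right₀ (by norm_num) (by omega)
    have h3 : (8 : ℝ) ≤ 3 ^ (a + j + 1) - 1 := by linarith
    have h4 := cr_nonneg (a + j)
    rw [h1, pow_succ]
    calc cr (a + j) / (3 ^ (a + j + 1) - 1) ≤ cr (a + j) / 8 := by gcongr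
      _ = cr (a + j) * (1 / 8) := by ring
      _ ≤ cr a * (1 / 8) ^ j * (1 / 8) := by gcongr
      _ = _ := by ring

theorem cr_zero : 0.639 < cr 0 ∧ cr 0 < 0.6391 := by
  have h := t_C9
  have e : cr 0 = Pool.Agent.Y703.XK.c9 := by
    unfold cr
    rw [Finset.range_zero, Finset.prod_empty, div_one]
  rw [e]
  exact ⟨h.2.2.2.1, h.2.2.2.2⟩

/-- the tail -/
noncomputable def tl (R : ℕ) : ℝ := 1 - ∑ r ∈ range (R + 1), cr r

theorem summable_cr : Summable cr := t_SUM'.summable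

theorem tl_eq (R : ℕ) : tl R = ∑' i : ℕ, cr (i + (R + 1)) := by
  have h1 := summable_cr.sum_add_tsum_nat_add (R + 1)
  rw [t_SUM'.tsum_eq] at h1
  unfold tl
  linarith

theorem geo8 : Summable fun i : ℕ => (1 / 8 : ℝ) ^ i :=
  summable_geometric_of_lt_one (by norm_num) (by norm_num)

theorem tl_le (R : ℕ) : tl R ≤ (1 / 8) ^ R := by
  rw [tl_eq]
  have h1 : ∀ i : ℕ, cr (i + (R + 1)) ≤ cr 1 * (1 / 8) ^ R * (1 / 8) ^ i := by
    intro i
    have h2 := cr_geo (a := 1) le_rfl (R + i)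
    have e : 1 + (R + i) = i + (R + 1) := by ring
    rw [e, pow_add] at h2
    linarith
  have h2 : Summable fun i : ℕ => cr (i + (R + 1)) :=
    (summable_nat_add_iff (R + 1)).2 summable_cr
  have h3 := h2.tsum_le_tsum h1 (geo8.mul_left _)
  rw [tsum_mul_left, tsum_geometric_of_lt_one (by norm_num) (by norm_num)] at h3
  refine h3.trans ?_
  have h4 : cr 1 = cr 0 / 2 := by
    rw [cr_succ 0]
    norm_num
  have h5 := cr_zero
  have h6 : (0 : ℝ) < (1 / 8) ^ R := by positivity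
  rw [h4]
  have e : (1 - 1 / 8 : ℝ)⁻¹ = 8 / 7 := by norm_num
  rw [e]
  nlinarith

/-- the mean of the limit distribution -/
noncomputable def mu : ℝ := ∑' r : ℕ, (r : ℝ) * cr r

theorem geo8' : Summable fun i : ℕ => (i : ℝ) * (1 / 8 : ℝ) ^ i := by
  have h := summable_pow_mul_geometric_of_norm_lt_one (R := ℝ) 1 (r := 1 / 8) (by norm_num)
  simpa using h

theorem mu_bound (i : ℕ) : ((i + 4 : ℕ) : ℝ) * cr (i + 4) ≤
    cr 3 * (1 / 8) * ((i : ℝ) * (1 / 8) ^ i + 4 * (1 / 8) ^ i) := by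
  have h1 := cr_geo (a := 3) (by norm_num) (i + 1)
  have e : 3 + (i + 1) = i + 4 := by ring
  rw [e, pow_succ] at h1
  have h2 : (0 : ℝ) ≤ ((i + 4 : ℕ) : ℝ) := Nat.cast_nonneg _
  calc ((i + 4 : ℕ) : ℝ) * cr (i + 4) ≤ ((i + 4 : ℕ) : ℝ) * (cr 3 * ((1 / 8) ^ i * (1 / 8))) := by
        gcongr
    _ = _ := by push_cast; ring

theorem summable_mu : Summable fun r : ℕ => (r : ℝ) * cr r := by
  rw [← summable_nat_add_iff 4]
  refine Summable.of_nonneg_of_le (fun i => ?_) mu_bound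
    ((geo8'.add (geo8.mul_left 4)).mul_left _)
  exact mul_nonneg (Nat.cast_nonneg _) (cr_nonneg _)

theorem mu_lt : mu < 0.405 := by
  unfold mu
  rw [← summable_mu.sum_add_tsum_nat_add 4]
  have h1 : ∑' i : ℕ, ((i + 4 : ℕ) : ℝ) * cr (i + 4) ≤
      cr 3 * (1 / 8) * (8 / 49 + 32 / 7) := by
    have h2 := ((summable_nat_add_iff 4).2 summable_mu).tsum_le_tsum mu_bound
      ((geo8'.add (geo8.mul_left 4)).mul_left _)
    refine h2.trans (le_of_eq ?_)
    rw [tsum_mul_left, geo8'.tsum_add (geo8.mul_left 4), tsum_mul_left,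
      tsum_geometric_of_lt_one (by norm_num) (by norm_num),
      tsum_coe_mul_geometric_of_norm_lt_one (by norm_num)]
    norm_num
  have c1 : cr 1 = cr 0 / 2 := by
    rw [cr_succ 0]
    norm_num
  have c2 : cr 2 = cr 0 / 16 := by
    rw [cr_succ 1, c1]
    norm_num
    ring
  have c3 : cr 3 = cr 0 / 416 := by
    rw [cr_succ 2, c2]
    norm_num
    ring
  have h5 := cr_zero
  rw [Finset.sum_range_succ, Finset.sum_range_succ, Finset.sum_range_succ,
    Finset.sum_range_succ, Finset.sum_range_zero, c1, c2]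
  rw [c3] at h1 ⊢
  push_cast at h1 ⊢
  linarith

theorem mu_gt : 0.4039 < mu := by
  unfold mu
  have h1 : ∑ r ∈ range 4, (r : ℝ) * cr r ≤ ∑' r : ℕ, (r : ℝ) * cr r :=
    summable_mu.sum_le_tsum _ fun r _ => mul_nonneg (Nat.cast_nonneg _) (cr_nonneg _)
  have c1 : cr 1 = cr 0 / 2 := by
    rw [cr_succ 0]
    norm_num
  have c2 : cr 2 = cr 0 / 16 := by
    rw [cr_succ 1, c1]
    norm_num
    ring
  have c3 : cr 3 = cr 0 / 416 := by
    rw [cr_succ 2, c2]
    norm_num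
    ring
  have h5 := cr_zero
  rw [Finset.sum_range_succ, Finset.sum_range_succ, Finset.sum_range_succ,
    Finset.sum_range_succ, Finset.sum_range_zero, c1, c2, c3] at h1
  push_cast at h1
  linarith

end Pool.Agent.X253.CF
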