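import Mathlib
import Pool.Agent.X253.CF.Fg

/-!
# The `3`-Selmer group of `y² + D y = x³` and the kernel of `√-3`
-/

set_option autoImplicit false
set_option linter.unusedSectionVars false
set_option linter.unusedVariables false

open scoped Classical

namespace Pool.Agent.X253.CF.S3

open WeierstrassCurve NumberField
open Pool.Agent.TH841.SH.D (Pt act Gal Coch IsCoc IsCob LocTriv coc_zero coc_add coc_neg
  loc_zero loc_add loc_neg)
open Pool.Agent.TH841.NF.D (IsShaCoc shaCoc)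
open Pool.Agent.Y703.XL.Inf

variable {K : Type} [Field K] [NumberField K] {D z : K}

/-- the cocycles with values in `E[3]` that are coboundaries in the curve at all places -/
def coc3 (D : K) : AddSubgroup (Coch (E1 D)) where
  carrier := {f | IsShaCoc (E1 D) f ∧ ∀ σ, 3 • f σ = 0}
  zero_mem' := ⟨(shaCoc (E1 D)).zero_mem, fun σ => smul_zero _⟩
  add_mem' := fun {f g} hf hg => ⟨(shaCoc (E1 D)).add_mem hf.1 hg.1, fun σ => by
    show 3 • (f σ + g σ) = 0
    rw [smul_add, hf.2, hg.2, add_zero]⟩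
  neg_mem' := fun {f} hf => ⟨(shaCoc (E1 D)).neg_mem hf.1, fun σ => by
    show 3 • -(f σ) = 0
    rw [smul_neg, hf.2, neg_zero]⟩

/-- the coboundaries of the points of `E[3]` -/
def cob3 (D : K) : AddSubgroup (Coch (E1 D)) where
  carrier := {f | ∃ P : Pt (E1 D) (AlgebraicClosure K), 3 • P = 0 ∧
    ∀ σ : Gal K, f σ = act (E1 D) σ.toAlgHom P - P}
  zero_mem' := ⟨0, smul_zero _, fun σ => by
    show (0 : Pt (E1 D) (AlgebraicClosure K)) = _
    rw [map_zero, sub_zero]⟩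
  add_mem' := fun {f g} hf hg => by
    obtain ⟨P, hn, hP⟩ := hf
    obtain ⟨Q, hm, hQ⟩ := hg
    refine ⟨P + Q, by rw [smul_add, hn, hm, add_zero], fun σ => ?_⟩
    show f σ + g σ = _
    rw [hP, hQ, map_add]
    abel
  neg_mem' := fun {f} hf => by
    obtain ⟨P, hn, hP⟩ := hf
    refine ⟨-P, by rw [smul_neg, hn, neg_zero], fun σ => ?_⟩
    show -f σ = _
    rw [hP, map_neg]
    abel

/-- the `3`-Selmer group -/
def Sel3 (D : K) : Type := coc3 D ⧸ (cob3 D).addSubgroupOf (coc3 D)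

/-- the group law -/
noncomputable instance Sel3.group (D : K) : AddCommGroup (Sel3 D) :=
  @QuotientAddGroup.Quotient.addCommGroup (coc3 D) _ ((cob3 D).addSubgroupOf (coc3 D))

lemma cbf_add (P Q : Pt (E1 D) (AlgebraicClosure K)) : cbf (P + Q) = cbf P + cbf Q := by
  funext σ
  show act (E1 D) σ.toAlgHom (P + Q) - (P + Q) =
    (act (E1 D) σ.toAlgHom P - P) + (act (E1 D) σ.toAlgHom Q - Q)
  rw [map_add]
  abel

lemma cbf_neg (P : Pt (E1 D) (AlgebraicClosure K)) : cbf (-P) = -cbf P := by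
  funext σ
  show act (E1 D) σ.toAlgHom (-P) - -P = -(act (E1 D) σ.toAlgHom P - P)
  rw [map_neg]
  abel

lemma cbf_ker (hD : D ≠ 0) (hz : z ^ 2 + z + 1 = 0) {P : Pt (E1 D) (AlgebraicClosure K)}
    (hP : ph hz P = 0) : cbf P = 0 := by
  funext σ
  show act (E1 D) σ.toAlgHom P - P = 0
  rw [ker_fix hD hz hP, sub_self]

lemma three_iff (hD : D ≠ 0) (hz : z ^ 2 + z + 1 = 0) (P : Pt (E1 D) (AlgebraicClosure K)) :
    3 • P = 0 ↔ ph hz (ph hz P) = 0 := by
  rw [ph_ph hD hz, neg_eq_zero]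

/-- the points of the kernel -/
lemma ker_three (hD : D ≠ 0) (hz : z ^ 2 + z + 1 = 0) :
    ∃ T : Pt (E1 D) (AlgebraicClosure K), T ≠ 0 ∧ ph hz T = 0 ∧
      ∀ R : Pt (E1 D) (AlgebraicClosure K), ph hz R = 0 → R = 0 ∨ R = T ∨ R = -T := by
  have h0 : ((E1 D).baseChange (AlgebraicClosure K)).toAffine.Nonsingular 0 0 :=
    ns_of hD (by ring)
  refine ⟨pp 0 0 h0, pp_ne _, ph_0 hD hz h0, fun R hR => ?_⟩
  rcases (ph_ker hD hz R).1 hR with h | ⟨y, hn, rfl⟩
  · exact Or.inl h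
  · right
    have h2 : y ^ 2 + algebraMap K _ D * y = 0 := by rw [(eqn _ _).1 hn.1]; ring
    have h3 : y * (y + algebraMap K _ D) = 0 := by linear_combination h2
    rcases mul_eq_zero.1 h3 with h4 | h4
    · exact Or.inl (pp_ext _ _ rfl h4)
    · right
      rw [neg_pp]
      exact pp_ext _ _ rfl (by linear_combination h4)

/-- a point with image the point of order three, its coboundary -/
lemma base_pt (hD : D ≠ 0) (hz : z ^ 2 + z + 1 = 0) (hc : ∀ t : K, t ^ 3 ≠ D) :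
    ∃ P₁ : Pt (E1 D) (AlgebraicClosure K), ph hz P₁ ≠ 0 ∧ ph hz (ph hz P₁) = 0 ∧
      cbf P₁ ≠ 0 ∧ cbf P₁ ≠ -cbf P₁ ∧
      ∀ P : Pt (E1 D) (AlgebraicClosure K), ph hz (ph hz P) = 0 →
        cbf P = 0 ∨ cbf P = cbf P₁ ∨ cbf P = -cbf P₁ := by
  obtain ⟨T, hT0, hT1, hT⟩ := ker_three (K := K) (D := D) hD hz
  obtain ⟨P₁, hP₁⟩ := ph_surj hD hz T
  have hne : cbf P₁ ≠ 0 := by
    intro h
    have h1 : ∀ σ : Gal K, act (E1 D) σ.toAlgHom P₁ = P₁ := fun σ => sub_eq_zero.1 (congrFun h σ)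
    have h2 := no_lift hD hz hc h1 (by rw [hP₁]; exact hT1)
    rw [hP₁] at h2
    exact hT0 h2
  have h3 : cbf P₁ + cbf P₁ + cbf P₁ = 0 := by
    rw [← cbf_add, ← cbf_add]
    apply cbf_ker hD hz
    have h4 : P₁ + P₁ + P₁ = -(ph hz (ph hz P₁)) := by
      rw [ph_ph hD hz, neg_neg]
      abel
    rw [h4, map_neg, hP₁, hT1, map_zero, neg_zero]
  refine ⟨P₁, by rw [hP₁]; exact hT0, by rw [hP₁]; exact hT1, hne, ?_, fun P hP => ?_⟩
  · intro h
    apply hne
    have h4 : cbf P₁ + cbf P₁ = 0 := by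
      nth_rewrite 1 [h]
      exact neg_add_cancel _
    rw [h4, zero_add] at h3
    exact h3
  · rcases hT _ hP with h8 | h8 | h8
    · exact Or.inl (cbf_ker hD hz h8)
    · right; left
      have h9 : cbf (P - P₁) = 0 := cbf_ker hD hz (by rw [map_sub, h8, hP₁, sub_self])
      have e2 : P = (P - P₁) + P₁ := by abel
      rw [e2, cbf_add, h9, zero_add]
    · right; right
      have h9 : cbf (P + P₁) = 0 := cbf_ker hD hz (by rw [map_add, h8, hP₁, neg_add_cancel])
      have e2 : P = (P + P₁) + -P₁ := by abel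
      rw [e2, cbf_add, h9, zero_add, cbf_neg]

lemma cob3_le (D : K) : cob3 D ≤ coc3 D := by
  rintro f ⟨P, hP, hf⟩
  have e : f = cbf P := funext hf
  rw [e]
  refine ⟨cbf_sha P, fun σ => ?_⟩
  show 3 • (act (E1 D) σ.toAlgHom P - P) = 0
  rw [smul_sub, ← map_nsmul, hP, map_zero, sub_zero]

/-- the coboundaries form a group of order three -/
lemma cob3_card (hD : D ≠ 0) (hz : z ^ 2 + z + 1 = 0) (hc : ∀ t : K, t ^ 3 ≠ D) :
    Nat.card (cob3 D) = 3 := by
  obtain ⟨P₁, h1, h2, h3, h4, h5⟩ := base_pt (K := K) (D := D) hD hz hc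
  have hm : cbf P₁ ∈ cob3 D := ⟨P₁, (three_iff hD hz P₁).2 h2, fun σ => rfl⟩
  have hset : (cob3 D : Set (Coch (E1 D))) = {0, cbf P₁, -cbf P₁} := by
    ext f
    constructor
    · rintro ⟨P, hP, hf⟩
      have e : f = cbf P := funext hf
      rw [e]
      rcases h5 P ((three_iff hD hz P).1 hP) with h | h | h
      · exact Or.inl h
      · exact Or.inr (Or.inl h)
      · exact Or.inr (Or.inr h)
    · rintro (rfl | rfl | h)
      · exact (cob3 D).zero_mem
      · exact hm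
      · rw [Set.mem_singleton_iff.1 h]
        exact (cob3 D).neg_mem hm
  have e1 : Nat.card (cob3 D) = (cob3 D : Set (Coch (E1 D))).ncard := Nat.card_coe_set_eq _
  rw [e1, hset, Set.ncard_eq_three]
  exact ⟨_, _, _, h3.symm, fun h => h3 (neg_eq_zero.1 h.symm), h4, rfl⟩

/-- the map `f ↦ √-3 f` -/
noncomputable def Ph (hD : D ≠ 0) (hz : z ^ 2 + z + 1 = 0) : coc3 D →+ Sg (D := D) hz where
  toFun f := ⟨fun σ => ph hz (f.1 σ), by
    have h1 : f.1 ∈ selCoc D := ⟨f.2.1, fun σ => ⟨1, by rw [pow_one]; exact f.2.2 σ⟩⟩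
    exact ⟨(ph_sel hz h1).1, fun σ => (three_iff hD hz _).1 (f.2.2 σ)⟩⟩
  map_zero' := by
    apply Subtype.ext
    funext σ
    exact map_zero (ph hz)
  map_add' f g := by
    apply Subtype.ext
    funext σ
    exact map_add (ph hz) (f.1 σ) (g.1 σ)

lemma Ph_ker_card (hD : D ≠ 0) (hz : z ^ 2 + z + 1 = 0) :
    Nat.card (Ph (K := K) (D := D) hD hz).ker = Nat.card (Sg (D := D) hz) := by
  refine Nat.card_congr ⟨fun f => ⟨f.1.1, f.1.2.1, fun σ => ?_⟩, fun f => ⟨⟨f.1, f.2.1, fun σ => ?_⟩, ?_⟩,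
    fun f => rfl, fun f => rfl⟩
  · have h1 := congrArg Subtype.val ((AddMonoidHom.mem_ker).1 f.2)
    exact congrFun h1 σ
  · rw [three_iff hD hz, f.2.2 σ, map_zero]
  · rw [AddMonoidHom.mem_ker]
    apply Subtype.ext
    funext σ
    exact f.2.2 σ

/-- **The order of the `3`-Selmer group.** -/
theorem sel3_card (hD : D ≠ 0) (hz : z ^ 2 + z + 1 = 0) (hc : ∀ t : K, t ^ 3 ≠ D) {r : ℕ}
    (hr : (killed z D).ncard = 3 ^ r) :
    3 ^ (r + 1) ≤ Nat.card (Sel3 D) ∧ Nat.card (Sel3 D) ≤ 3 ^ (2 * r + 1) := by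
  -- the order of `Sg`
  have hSg : Nat.card (Sg (D := D) hz) = 3 ^ (r + 1) := by
    have h1 := sel_card hD hz hc
    have e1 : {f : Coch (E1 D) | IsShaCoc (E1 D) f ∧
        ∀ σ, f σ = 0 ∨ ∃ y h, f σ = Affine.Point.some 0 y h} = (Sg (D := D) hz : Set _) := by
      ext f
      refine and_congr_right fun _ => forall_congr' fun σ => ?_
      exact (ph_ker hD hz (f σ)).symm
    rw [e1, hr] at h1
    have h2 : Nat.card (Sg (D := D) hz) = ((Sg (D := D) hz : Set (Coch (E1 D)))).ncard :=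
      Nat.card_coe_set_eq _
    rw [h2, h1, pow_succ']
  have hfin : Finite (Sg (D := D) hz) := Nat.finite_of_card_ne_zero (by rw [hSg]; positivity)
  -- the order of the group of the cocycles
  have h1 : Nat.card (Ph (K := K) (D := D) hD hz).ker * (Ph (K := K) (D := D) hD hz).ker.index =
      Nat.card (coc3 D) := AddSubgroup.card_mul_index _
  rw [AddSubgroup.index_ker, Ph_ker_card, hSg] at h1
  -- the quotient
  have h2 : Nat.card (coc3 D) = Nat.card (Sel3 D) * Nat.card ((cob3 D).addSubgroupOf (coc3 D)) :=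
    AddSubgroup.card_eq_card_quotient_mul_card_addSubgroup _
  have h3 : Nat.card ((cob3 D).addSubgroupOf (coc3 D)) = 3 := by
    rw [← cob3_card hD hz hc]
    exact Nat.card_congr (AddSubgroup.addSubgroupOfEquivOfLe (cob3_le D)).toEquiv
  rw [h3] at h2
  rw [h2] at h1
  have h4 : Nat.card (Sel3 D) = 3 ^ r * Nat.card (Ph (K := K) (D := D) hD hz).range := by
    have h5 : 3 * (3 ^ r * Nat.card (Ph (K := K) (D := D) hD hz).range) =
        3 * Nat.card (Sel3 D) := by
      rw [mul_comm 3 (Nat.card (Sel3 D)), ← h1]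
      ring
    exact (Nat.eq_of_mul_eq_mul_left (by norm_num) h5).symm
  -- the range
  have h5 : Nat.card (Ph (K := K) (D := D) hD hz).range ≤ 3 ^ (r + 1) := by
    rw [← hSg]
    exact Nat.card_le_card_of_injective _ Subtype.val_injective
  have h6 : 3 ≤ Nat.card (Ph (K := K) (D := D) hD hz).range := by
    obtain ⟨P₁, g1, g2, g3, g4, -⟩ := base_pt (K := K) (D := D) hD hz hc
    obtain ⟨Q, hQ⟩ := ph_surj hD hz P₁
    have hm : cbf Q ∈ coc3 D := by
      refine ⟨cbf_sha Q, fun σ => ?_⟩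
      rw [three_iff hD hz]
      show ph hz (ph hz (act (E1 D) σ.toAlgHom Q - Q)) = 0
      rw [map_sub, map_sub, ← act_ph, ← act_ph, hQ]
      exact sub_eq_zero.2 (ker_fix hD hz g2 σ)
    have hv : ((Ph (K := K) (D := D) hD hz ⟨cbf Q, hm⟩ : Sg (D := D) hz) : Coch (E1 D)) =
        cbf P₁ := by
      funext σ
      show ph hz (act (E1 D) σ.toAlgHom Q - Q) = act (E1 D) σ.toAlgHom P₁ - P₁
      rw [map_sub, ← act_ph, hQ]
    obtain ⟨x, hx⟩ : ∃ x : (Ph (K := K) (D := D) hD hz).range, (x.1 : Coch (E1 D)) = cbf P₁ :=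
      ⟨⟨_, ⟨_, rfl⟩⟩, hv⟩
    have hx0 : x ≠ 0 := by
      intro h
      apply g3
      rw [← hx, h]
      rfl
    have hxn : x ≠ -x := by
      intro h
      apply g4
      have h7 : ((x.1 : Sg (D := D) hz) : Coch (E1 D)) = -((x.1 : Sg (D := D) hz) : Coch (E1 D)) :=
        congrArg (fun y : (Ph (K := K) (D := D) hD hz).range =>
          ((y.1 : Sg (D := D) hz) : Coch (E1 D))) h
      rw [hx] at h7
      exact h7
    have hfr : Finite (Ph (K := K) (D := D) hD hz).range := inferInstance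
    have hset : ({0, x, -x} : Set (Ph (K := K) (D := D) hD hz).range).ncard = 3 := by
      rw [Set.ncard_eq_three]
      exact ⟨_, _, _, hx0.symm, fun h => hx0 (neg_eq_zero.1 h.symm), hxn, rfl⟩
    rw [← hset, ← Set.ncard_univ]
    exact Set.ncard_le_ncard (Set.subset_univ _) (Set.toFinite _)
  rw [h4]
  constructor
  · rw [pow_succ]
    exact Nat.mul_le_mul_left _ h6
  · have e : 3 ^ (2 * r + 1) = 3 ^ r * 3 ^ (r + 1) := by rw [← pow_add]; congr 1; ring
    rw [e]
    exact Nat.mul_le_mul_left _ h5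

/-- the `3`-Selmer group is killed by three, so its order is a power of three -/
theorem sel3_pow (hfin : Nat.card (Sel3 D) ≠ 0) : ∃ d : ℕ, Nat.card (Sel3 D) = 3 ^ d := by
  have : Finite (Sel3 D) := Nat.finite_of_card_ne_zero hfin
  have h3 : ∀ x : Sel3 D, 3 • x = 0 := by
    intro x
    let q : coc3 D →+ Sel3 D := QuotientAddGroup.mk' ((cob3 D).addSubgroupOf (coc3 D))
    obtain ⟨f, hf⟩ : ∃ f, q f = x := QuotientAddGroup.mk_surjective x
    have h1 : 3 • f = 0 := by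
      apply Subtype.ext
      funext σ
      exact f.2.2 σ
    rw [← hf, ← map_nsmul, h1, map_zero]
  have hp : IsPGroup 3 (Multiplicative (Sel3 D)) := by
    intro x
    refine ⟨1, ?_⟩
    rw [pow_one]
    exact h3 (Multiplicative.toAdd x)
  obtain ⟨d, hd⟩ := (IsPGroup.iff_card (p := 3) (G := Multiplicative (Sel3 D))).1 hp
  exact ⟨d, hd⟩

end Pool.Agent.X253.CF.S3
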