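import Mathlib
import Pool.Agent.X253.CF.Sel3

/-!
# Project CF: the `3`-Selmer groups of all the cube-free twists
-/

set_option autoImplicit false
set_option linter.unusedVariables false

open scoped Classical
open Finset Filter

namespace Pool.Agent.X253.CF

open NumberField WeierstrassCurve
open Pool.Agent.Y692.QS (Ei w nr toC)
open Pool.Agent.Y715.T.RecG (Pq)
open Pool.Agent.XL6 (SelK prob finalXL)
open Pool.Agent.Y696.CTK (ED)
open Pool.Agent.Y703.XL (cr cr_pos cr_le t_C9 t_LA)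
open Pool.Agent.Y703.XL.Inf (killed)
open Pool.Agent.X253.C3 (ClsC)
open Pool.Agent.X253.CF.S3 (Sel3 sel3_card sel3_pow)

/-- one `D` -/
theorem sel3_S {K : Type} [Field K] [NumberField K] (j : Ei ≃+* 𝓞 K) {ω : K}
    (hω : ω ^ 2 + ω + 1 = 0) {T S : Finset Ei} (hT : T ⊆ S) (hS : ∀ π ∈ S, Pq π)
    (h9 : (nm T * nm S) % 9 ≠ 1) {r : ℕ} (hr : Gw T r S) :
    3 ^ (r + 1) ≤ Nat.card (Sel3 (j (DD T S) : K)) ∧
      Nat.card (Sel3 (j (DD T S) : K)) ≤ 3 ^ (2 * r + 1) :=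
  sel3_card (coe_ne j hT hS h9) hω (not_cubeC j hT hS h9) ((one_CF j hω hT hS h9).2.2 r |>.2 hr)

theorem ex_Gw {T S : Finset Ei} (hT : T ⊆ S) (h9 : (nm T * nm S) % 9 ≠ 1) :
    ∃ r : ℕ, Gw T r S := by
  have hne := ne_S hT h9
  obtain ⟨r, hr⟩ := kerE_pow (π := fun i : S => (i : Ei)) (e := fun i : S => wt T i)
  rw [ker_S] at hr
  exact ⟨r, hr⟩

theorem mem_PP {X : ℕ} {p : Finset Ei × Finset Ei} (hp : p ∈ PP X) : p.1 ⊆ p.2 ∧
    (∀ π ∈ p.2, Pq π) ∧ (nm p.1 * nm p.2) % 9 ≠ 1 := by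
  unfold PP at hp
  rw [Finset.mem_filter, Finset.mem_product] at hp
  obtain ⟨⟨-, hp2⟩, h5, -, h6⟩ := hp
  exact ⟨h5, (Pool.Agent.X253.CF.K.mem_SS.1 hp2).1.1, h6⟩

/-- the limit of the proportions with small kernel -/
theorem lim_range (R : ℕ) : Tendsto (fun Y : ℕ => ∑ r ∈ range R,
    (((PP Y).filter fun p => Gw p.1 r p.2).card : ℝ) / ((PP Y).card : ℝ)) atTop
    (nhds (∑ r ∈ range R, prob r)) :=
  tendsto_finsetSum _ fun r _ => t_pairs r

/-- **The law of the `3`-Selmer groups.** -/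
theorem selLaw (K : Type) [Field K] [NumberField K] [IsCyclotomicExtension {3} ℚ K] (ω : K)
    (hω : ω ^ 2 + ω + 1 = 0) :
    (∀ D : 𝓞 K, ClsC D → ∃ d : ℕ, 1 ≤ d ∧ Nat.card (Sel3 (D : K)) = 3 ^ d) ∧
    Tendsto (fun X : ℕ =>
      ({D : 𝓞 K | Algebra.norm ℤ D ≤ X ∧ ClsC D ∧ Nat.card (Sel3 (D : K)) = 3}.ncard : ℝ) /
        ({D : 𝓞 K | Algebra.norm ℤ D ≤ X ∧ ClsC D}.ncard : ℝ)) atTop (nhds (prob 0)) ∧
    (∀ (R : ℕ) (ε : ℝ), 0 < ε → ∀ᶠ X : ℕ in atTop,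
      ({D : 𝓞 K | Algebra.norm ℤ D ≤ X ∧ ClsC D ∧
        3 ^ (2 * R + 1) < Nat.card (Sel3 (D : K))}.ncard : ℝ) ≤
      (1 - ∑ r ∈ range (R + 1), prob r + ε) *
        ({D : 𝓞 K | Algebra.norm ℤ D ≤ X ∧ ClsC D}.ncard : ℝ)) ∧
    (∀ (R : ℕ) (ε : ℝ), 0 < ε → ∀ᶠ X : ℕ in atTop,
      (1 - ∑ r ∈ range R, prob r - ε) *
        ({D : 𝓞 K | Algebra.norm ℤ D ≤ X ∧ ClsC D}.ncard : ℝ) ≤
      ({D : 𝓞 K | Algebra.norm ℤ D ≤ X ∧ ClsC D ∧
        3 ^ (R + 1) ≤ Nat.card (Sel3 (D : K))}.ncard : ℝ)) := by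
  obtain ⟨⟨j, hj⟩, -⟩ := Pool.Agent.Y455.CTK.jex K
  have hden : ∀ X : ℕ, {D : 𝓞 K | Algebra.norm ℤ D ≤ X ∧ ClsC D}.ncard = (PP X).card := by
    intro X
    have h := count_K j hj X (fun _ => True) (fun _ _ => True) fun _ _ _ _ _ => Iff.rfl
    rw [Finset.filter_true] at h
    rw [← h]
    congr 1
    ext D
    simp only [Set.mem_ofPred_eq, and_true]
  have hex : ∀ D : 𝓞 K, ClsC D → ∃ T S : Finset Ei, T ⊆ S ∧ (∀ π ∈ S, Pq π) ∧
      (nm T * nm S) % 9 ≠ 1 ∧ D = j (DD T S) := by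
    intro D hD
    obtain ⟨z, rfl⟩ := j.surjective D
    obtain ⟨T, S, h1, h2, h3, h4⟩ := cls_ex ((clsC_iff j hj z).1 hD)
    exact ⟨T, S, h1, h2, h3, by rw [h4]⟩
  refine ⟨?_, ?_, ?_, ?_⟩
  · intro D hD
    obtain ⟨T, S, h1, h2, h3, rfl⟩ := hex D hD
    obtain ⟨r, hr⟩ := ex_Gw h1 h3
    obtain ⟨g1, g2⟩ := sel3_S (K := K) j hω h1 h2 h3 hr
    have hne : Nat.card (Sel3 (j (DD T S) : K)) ≠ 0 := by
      have : 0 < 3 ^ (r + 1) := by positivity
      omega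
    obtain ⟨d, hd⟩ := sel3_pow hne
    refine ⟨d, ?_, hd⟩
    by_contra h0
    have hd0 : d = 0 := by omega
    rw [hd, hd0, pow_zero] at g1
    have : 3 ≤ 3 ^ (r + 1) := by
      calc 3 = 3 ^ 1 := (pow_one 3).symm
        _ ≤ 3 ^ (r + 1) := Nat.pow_le_pow_right (by norm_num) (by omega)
    omega
  · refine (t_pairs 0).congr fun X => ?_
    rw [hden X, ← count_K j hj X (fun D => Nat.card (Sel3 (D : K)) = 3)
      (fun T S => Gw T 0 S) fun T S h1 h2 h3 => ?_]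
    constructor
    · intro h
      obtain ⟨r, hr⟩ := ex_Gw h1 h3
      obtain ⟨g1, g2⟩ := sel3_S (K := K) j hω h1 h2 h3 hr
      rw [h] at g1
      have hr0 : r = 0 := by
        by_contra hr0
        have : 3 ^ 2 ≤ 3 ^ (r + 1) := Nat.pow_le_pow_right (by norm_num) (by omega)
        omega
      rw [hr0] at hr
      exact hr
    · intro h
      obtain ⟨g1, g2⟩ := sel3_S (K := K) j hω h1 h2 h3 h
      norm_num at g1 g2
      omega
  · intro R ε hε
    obtain ⟨G, hG⟩ : ∃ G : Finset Ei → Finset Ei → Prop, G = fun T S =>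
        3 ^ (2 * R + 1) < Nat.card (Sel3 (j (DD T S) : K)) := ⟨_, rfl⟩
    have hnum : ∀ X : ℕ, {D : 𝓞 K | Algebra.norm ℤ D ≤ X ∧ ClsC D ∧
        3 ^ (2 * R + 1) < Nat.card (Sel3 (D : K))}.ncard =
        ((PP X).filter fun p => G p.1 p.2).card := fun X =>
      count_K j hj X (fun D => 3 ^ (2 * R + 1) < Nat.card (Sel3 (D : K))) G
        fun T S _ _ _ => by rw [hG]
    obtain ⟨c, X₀, hc, hlow⟩ := PP_low
    filter_upwards [(lim_range (R + 1)).eventually (lt_mem_nhds (show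
      ∑ r ∈ range (R + 1), prob r - ε < ∑ r ∈ range (R + 1), prob r by linarith)),
      eventually_ge_atTop X₀, eventually_ge_atTop 1] with X h1 h2 h3
    have hX : (0 : ℝ) < X := by exact_mod_cast h3
    have hpos : (0 : ℝ) < ((PP X).card : ℝ) := lt_of_lt_of_le (by positivity) (hlow X h2)
    rw [hden X, hnum X]
    have h4 := pairs_tail X R G (by
      intro p hp hGp r hr hGw
      rw [hG] at hGp
      obtain ⟨k1, k2, k3⟩ := mem_PP hp
      have h7 := (sel3_S (K := K) j hω k1 k2 k3 hGw).2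
      have h8 : 3 ^ (2 * R + 1) < Nat.card (Sel3 (j (DD p.1 p.2) : K)) := hGp
      have h9 : 3 ^ (2 * r + 1) ≤ 3 ^ (2 * R + 1) := Nat.pow_le_pow_right (by norm_num) (by omega)
      omega)
    have h5 : (((PP X).filter fun p => G p.1 p.2).card : ℝ) +
        ∑ r ∈ range (R + 1), (((PP X).filter fun p => Gw p.1 r p.2).card : ℝ) ≤
        ((PP X).card : ℝ) := by exact_mod_cast h4
    rw [← Finset.sum_div, lt_div_iff₀ hpos] at h1
    nlinarith
  · intro R ε hε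
    obtain ⟨G, hG⟩ : ∃ G : Finset Ei → Finset Ei → Prop, G = fun T S =>
        3 ^ (R + 1) ≤ Nat.card (Sel3 (j (DD T S) : K)) := ⟨_, rfl⟩
    have hnum : ∀ X : ℕ, {D : 𝓞 K | Algebra.norm ℤ D ≤ X ∧ ClsC D ∧
        3 ^ (R + 1) ≤ Nat.card (Sel3 (D : K))}.ncard =
        ((PP X).filter fun p => G p.1 p.2).card := fun X =>
      count_K j hj X (fun D => 3 ^ (R + 1) ≤ Nat.card (Sel3 (D : K))) G
        fun T S _ _ _ => by rw [hG]
    obtain ⟨c, X₀, hc, hlow⟩ := PP_low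
    filter_upwards [(lim_range R).eventually (gt_mem_nhds (show
      ∑ r ∈ range R, prob r < ∑ r ∈ range R, prob r + ε by linarith)),
      eventually_ge_atTop X₀, eventually_ge_atTop 1] with X h1 h2 h3
    have hX : (0 : ℝ) < X := by exact_mod_cast h3
    have hpos : (0 : ℝ) < ((PP X).card : ℝ) := lt_of_lt_of_le (by positivity) (hlow X h2)
    rw [hden X, hnum X]
    have hsub : (PP X) ⊆ ((PP X).filter fun p => G p.1 p.2) ∪
        (range R).biUnion fun r => (PP X).filter fun p => Gw p.1 r p.2 := by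
      intro p hp
      obtain ⟨k1, k2, k3⟩ := mem_PP hp
      obtain ⟨r, hr⟩ := ex_Gw k1 k3
      rw [Finset.mem_union]
      by_cases hrR : r < R
      · right
        rw [Finset.mem_biUnion]
        exact ⟨r, Finset.mem_range.2 hrR, Finset.mem_filter.2 ⟨hp, hr⟩⟩
      · left
        rw [Finset.mem_filter]
        refine ⟨hp, ?_⟩
        rw [hG]
        exact le_trans (Nat.pow_le_pow_right (by norm_num) (by omega))
          (sel3_S (K := K) j hω k1 k2 k3 hr).1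
    have h4 := (Finset.card_le_card hsub).trans ((Finset.card_union_le _ _).trans
      (Nat.add_le_add_left Finset.card_biUnion_le _))
    have h5 : ((PP X).card : ℝ) ≤ (((PP X).filter fun p => G p.1 p.2).card : ℝ) +
        ∑ r ∈ range R, (((PP X).filter fun p => Gw p.1 r p.2).card : ℝ) := by exact_mod_cast h4
    rw [← Finset.sum_div, div_lt_iff₀ hpos] at h1
    nlinarith

end Pool.Agent.X253.CF
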