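import Pool.Agent.X253.CF.AvB
import Pool.Agent.X253.CF.AvN
import Pool.Agent.X253.CF.SelLaw

/-!
# Project CF: the sum of the dimensions, part one
-/

set_option autoImplicit false

open scoped Classical
open Finset Filter

namespace Pool.Agent.X253.CF

open Pool.Agent.Y692.QS (Ei w nr toC)
open Pool.Agent.Y715.T.RecG (Pq)
open Pool.Agent.Y699.E (nrm QB)
open Pool.Agent.Y703.CX (jj XX eL zz kk eL_tendsto logX_eq rpow_eL HH NN ev_eL one_le_exp
  HH_ge HH_le HH_pos kk_ge kk_le X_pos one_add_log lin_le zz_ge zz_pos)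
open Pool.Agent.Y703.XL (cr cr_pos cr_le t_C9 t_LA)

/-- the dimension minus one -/
noncomputable def rW (T S : Finset Ei) : ℕ := Nat.log 3 (nW T S) - 1

theorem rW_of {T S : Finset Ei} {r : ℕ} (h : Gw T r S) : rW T S = r := by
  unfold rW
  rw [show nW T S = 3 ^ (r + 1) from h, Nat.log_pow (by norm_num)]
  rfl

theorem rW_le (T S : Finset Ei) : rW T S ≤ S.card := by
  have h : nW T S ≤ 3 ^ S.card := by
    unfold nW
    calc Nat.card {v : S → ZMod 3 // ∀ π : S, ∑ ρ : S,
          wt T ρ * Pool.Agent.Y715.T.Rec.cs π ρ * (v ρ - v π) = 0} ≤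
          Nat.card (S → ZMod 3) := Nat.card_le_card_of_injective _ Subtype.val_injective
      _ = 3 ^ S.card := by
          rw [Nat.card_eq_fintype_card, Fintype.card_fun, ZMod.card, Fintype.card_coe]
  unfold rW
  have := Nat.log_mono_right (b := 3) h
  rw [Nat.log_pow (by norm_num)] at this
  omega

section one
variable {T : Finset Ei} {b X R₁ : ℕ} {e : ℝ}

theorem cnt_gt (h : ∀ r ≤ R₁, |(((TS T b X).filter (Gw T r)).card : ℝ) -
      cr r * ((TS T b X).card : ℝ)| ≤ e) {R : ℕ} (hR : R ≤ R₁) :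
    (((TS T b X).filter fun S => R < rW T S).card : ℝ) ≤
      tl R * ((TS T b X).card : ℝ) + (R + 1) * e := by
  have hdis : ∀ r ∈ range (R + 1), ∀ r' ∈ range (R + 1), r ≠ r' →
      Disjoint ((TS T b X).filter (Gw T r)) ((TS T b X).filter (Gw T r')) := by
    intro r _ r' _ hne
    rw [Finset.disjoint_left]
    intro S hS hS'
    have h1 := rW_of (Finset.mem_filter.1 hS).2
    have h2 := rW_of (Finset.mem_filter.1 hS').2
    omega
  have h1 : ((TS T b X).filter fun S => R < rW T S).card +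
      ∑ r ∈ range (R + 1), ((TS T b X).filter (Gw T r)).card ≤ (TS T b X).card := by
    rw [← Finset.card_biUnion hdis, ← Finset.card_union_of_disjoint]
    · refine Finset.card_le_card (Finset.union_subset (Finset.filter_subset _ _) ?_)
      intro S hS
      rw [Finset.mem_biUnion] at hS
      obtain ⟨r, -, hS⟩ := hS
      exact (Finset.mem_filter.1 hS).1
    · rw [Finset.disjoint_left]
      intro S hS hS'
      rw [Finset.mem_biUnion] at hS'
      obtain ⟨r, hr, hS'⟩ := hS'
      rw [Finset.mem_filter] at hS hS'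
      rw [Finset.mem_range] at hr
      have h2 := rW_of hS'.2
      have h3 := hS.2
      omega
  have h2 : (((TS T b X).filter fun S => R < rW T S).card : ℝ) +
      ∑ r ∈ range (R + 1), (((TS T b X).filter (Gw T r)).card : ℝ) ≤ ((TS T b X).card : ℝ) := by
    exact_mod_cast h1
  have h3 : ∑ r ∈ range (R + 1), (cr r * ((TS T b X).card : ℝ) - e) ≤
      ∑ r ∈ range (R + 1), (((TS T b X).filter (Gw T r)).card : ℝ) := by
    refine Finset.sum_le_sum fun r hr => ?_
    rw [Finset.mem_range] at hr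
    have := (abs_le.1 (h r (by omega))).1
    linarith
  rw [Finset.sum_sub_distrib, ← Finset.sum_mul, Finset.sum_const, Finset.card_range,
    nsmul_eq_mul] at h3
  unfold tl
  push_cast at h3
  linarith

theorem cnt_gt' (he : 0 ≤ e) (h : ∀ r ≤ R₁, |(((TS T b X).filter (Gw T r)).card : ℝ) -
      cr r * ((TS T b X).card : ℝ)| ≤ e) (R : ℕ) :
    (((TS T b X).filter fun S => R < rW T S).card : ℝ) ≤
      ((1 / 8) ^ R + (1 / 8) ^ R₁) * ((TS T b X).card : ℝ) + (R₁ + 1) * e := by
  have hN : (0 : ℝ) ≤ ((TS T b X).card : ℝ) := Nat.cast_nonneg _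
  have p1 : (0 : ℝ) ≤ (1 / 8) ^ R := by positivity
  have p2 : (0 : ℝ) ≤ (1 / 8) ^ R₁ := by positivity
  rcases le_total R R₁ with hR | hR
  · refine (cnt_gt h hR).trans ?_
    have h1 := tl_le R
    have h2 : ((R : ℝ) + 1) * e ≤ (R₁ + 1) * e := by
      have : (R : ℝ) ≤ R₁ := by exact_mod_cast hR
      gcongr
    nlinarith
  · have h0 : (((TS T b X).filter fun S => R < rW T S).card : ℝ) ≤
        (((TS T b X).filter fun S => R₁ < rW T S).card : ℝ) := by
      have : ((TS T b X).filter fun S => R < rW T S) ⊆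
          ((TS T b X).filter fun S => R₁ < rW T S) := by
        intro S hS
        rw [Finset.mem_filter] at hS ⊢
        exact ⟨hS.1, by omega⟩
      exact_mod_cast Finset.card_le_card this
    refine h0.trans ((cnt_gt h le_rfl).trans ?_)
    have h1 := tl_le R₁
    nlinarith

/-- a pointwise inequality -/
theorem pw (B k n : ℕ) (hn : n ≤ k) : (if B < n then (n : ℝ) else 0) ≤
    B * (if B < n then 1 else 0) + ∑ R ∈ Finset.Ico B k, if R < n then (1 : ℝ) else 0 := by
  by_cases h : B < n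
  · rw [if_pos h, if_pos h, mul_one]
    have h1 : ∑ R ∈ Finset.Ico B k, (if R < n then (1 : ℝ) else 0) = ((n - B : ℕ) : ℝ) := by
      rw [← Finset.sum_filter, Finset.sum_const, nsmul_eq_mul, mul_one]
      congr 1
      have : (Finset.Ico B k).filter (fun R => R < n) = Finset.Ico B n := by
        ext R
        rw [Finset.mem_filter, Finset.mem_Ico, Finset.mem_Ico]
        omega
      rw [this, Nat.card_Ico]
    rw [h1, Nat.cast_sub h.le]
    linarith
  · rw [if_neg h, if_neg h, mul_zero, zero_add]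
    exact Finset.sum_nonneg fun R _ => by split_ifs <;> norm_num

theorem sum_gt (he : 0 ≤ e) (h : ∀ r ≤ R₁, |(((TS T b X).filter (Gw T r)).card : ℝ) -
      cr r * ((TS T b X).card : ℝ)| ≤ e) (B k : ℕ) :
    ∑ S ∈ (TS T b X).filter (fun S => S.card ≤ k), (if B < rW T S then (rW T S : ℝ) else 0) ≤
      ((B + 2) * (1 / 8) ^ B + (B + k) * (1 / 8) ^ R₁) * ((TS T b X).card : ℝ) +
        (B + k) * ((R₁ + 1) * e) := by
  have hN : (0 : ℝ) ≤ ((TS T b X).card : ℝ) := Nat.cast_nonneg _
  obtain ⟨f, hf⟩ : ∃ f : ℕ → ℝ, f = fun R => (((TS T b X).filter fun S => R < rW T S).card : ℝ) :=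
    ⟨_, rfl⟩
  have hfb : ∀ R, f R ≤ ((1 / 8) ^ R + (1 / 8) ^ R₁) * ((TS T b X).card : ℝ) + (R₁ + 1) * e :=
    fun R => by
      rw [hf]
      exact cnt_gt' he h R
  have hsum : ∀ R, ∑ S ∈ (TS T b X).filter (fun S => S.card ≤ k),
      (if R < rW T S then (1 : ℝ) else 0) ≤ f R := by
    intro R
    rw [← Finset.sum_filter, Finset.sum_const, nsmul_eq_mul, mul_one, hf]
    beta_reduce
    have : ((TS T b X).filter (fun S => S.card ≤ k)).filter (fun S => R < rW T S) ⊆
        (TS T b X).filter (fun S => R < rW T S) := by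
      intro S hS
      rw [Finset.mem_filter, Finset.mem_filter] at hS
      exact Finset.mem_filter.2 ⟨hS.1.1, hS.2⟩
    exact_mod_cast Finset.card_le_card this
  have h1 : ∑ S ∈ (TS T b X).filter (fun S => S.card ≤ k),
      (if B < rW T S then (rW T S : ℝ) else 0) ≤ B * f B + ∑ R ∈ Finset.Ico B k, f R := by
    calc _ ≤ ∑ S ∈ (TS T b X).filter (fun S => S.card ≤ k),
          ((B : ℝ) * (if B < rW T S then 1 else 0) +
            ∑ R ∈ Finset.Ico B k, if R < rW T S then (1 : ℝ) else 0) :=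
          Finset.sum_le_sum fun S hS => pw B k _ ((rW_le T S).trans (Finset.mem_filter.1 hS).2)
      _ = B * (∑ S ∈ (TS T b X).filter (fun S => S.card ≤ k),
            (if B < rW T S then (1 : ℝ) else 0)) + ∑ R ∈ Finset.Ico B k,
            ∑ S ∈ (TS T b X).filter (fun S => S.card ≤ k),
              (if R < rW T S then (1 : ℝ) else 0) := by
          rw [Finset.sum_add_distrib, ← Finset.mul_sum, Finset.sum_comm]
      _ ≤ _ := by
          have h2 := hsum B
          have h3 : (0 : ℝ) ≤ B := Nat.cast_nonneg _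
          have h4 : ∑ R ∈ Finset.Ico B k, ∑ S ∈ (TS T b X).filter (fun S => S.card ≤ k),
              (if R < rW T S then (1 : ℝ) else 0) ≤ ∑ R ∈ Finset.Ico B k, f R :=
            Finset.sum_le_sum fun R _ => hsum R
          have h5 := mul_le_mul_of_nonneg_left h2 h3
          linarith
  refine h1.trans ?_
  have h2 : ∑ R ∈ Finset.Ico B k, f R ≤
      2 * (1 / 8) ^ B * ((TS T b X).card : ℝ) +
        k * ((1 / 8) ^ R₁ * ((TS T b X).card : ℝ) + (R₁ + 1) * e) := by
    calc ∑ R ∈ Finset.Ico B k, f R ≤ ∑ R ∈ Finset.Ico B k,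
          ((1 / 8) ^ R * ((TS T b X).card : ℝ) +
            ((1 / 8) ^ R₁ * ((TS T b X).card : ℝ) + (R₁ + 1) * e)) :=
          Finset.sum_le_sum fun R _ => (hfb R).trans (le_of_eq (by ring))
      _ = (∑ R ∈ Finset.Ico B k, (1 / 8 : ℝ) ^ R) * ((TS T b X).card : ℝ) +
          ((k - B : ℕ) : ℝ) * ((1 / 8) ^ R₁ * ((TS T b X).card : ℝ) + (R₁ + 1) * e) := by
          rw [Finset.sum_add_distrib, ← Finset.sum_mul, Finset.sum_const, Nat.card_Ico,
            nsmul_eq_mul]
      _ ≤ _ := by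
          have g1 : ∑ R ∈ Finset.Ico B k, (1 / 8 : ℝ) ^ R ≤ 2 * (1 / 8) ^ B := by
            rcases le_total B k with hBk | hBk
            · have := geom_sum_Ico_le_of_lt_one (m := B) (n := k) (x := (1 / 8 : ℝ))
                (by norm_num) (by norm_num)
              refine this.trans ?_
              have p : (0 : ℝ) < (1 / 8) ^ B := by positivity
              rw [div_le_iff₀ (by norm_num)]
              linarith
            · rw [Finset.Ico_eq_empty_of_le hBk, Finset.sum_empty]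
              positivity
          have g2 : ((k - B : ℕ) : ℝ) ≤ k := by exact_mod_cast Nat.sub_le _ _
          have g3 : (0 : ℝ) ≤ (1 / 8) ^ R₁ * ((TS T b X).card : ℝ) + (R₁ + 1) * e := by
            positivity
          gcongr
  have h3 := mul_le_mul_of_nonneg_left (hfb B) (show (0 : ℝ) ≤ B by positivity)
  have e1 : ((B : ℝ) + 2) * (1 / 8) ^ B = B * (1 / 8) ^ B + 2 * (1 / 8) ^ B := by ring
  calc _ ≤ B * (((1 / 8) ^ B + (1 / 8) ^ R₁) * ((TS T b X).card : ℝ) + (R₁ + 1) * e) +
        (2 * (1 / 8) ^ B * ((TS T b X).card : ℝ) +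
        k * ((1 / 8) ^ R₁ * ((TS T b X).card : ℝ) + (R₁ + 1) * e)) := add_le_add h3 h2
    _ = _ := by ring

end one

/-- sets with many primes -/
theorem many_sum {C : ℝ} (hC : CntP C) (X k : ℕ) (hX : 1 ≤ X) :
    ∑ S ∈ (SS X).filter (fun S => k < S.card), (S.card : ℝ) ≤
      C * (X * (1 + Real.log X)) * ((k + 2) / 2 ^ k) := by
  obtain ⟨L, hL⟩ : ∃ L : ℕ, L = (SS X).sup Finset.card := ⟨_, rfl⟩
  obtain ⟨f, hf⟩ : ∃ f : ℕ → ℝ, f = fun R => (((SS X).filter fun S => R < S.card).card : ℝ) :=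
    ⟨_, rfl⟩
  have hA : (0 : ℝ) ≤ C * (X * (1 + Real.log X)) := by
    have h1 := hC.one
    have h2 := Real.log_natCast_nonneg X
    positivity
  have hfb : ∀ R, f R ≤ C * (X * (1 + Real.log X)) * (1 / 2) ^ R := by
    intro R
    rw [hf, one_div, inv_pow, ← div_eq_mul_inv, le_div_iff₀ (by positivity)]
    exact hC.many X R hX
  have hsum : ∀ R, ∑ S ∈ SS X, (if R < S.card then (1 : ℝ) else 0) = f R := by
    intro R
    rw [← Finset.sum_filter, Finset.sum_const, nsmul_eq_mul, mul_one, hf]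
  have h1 : ∑ S ∈ (SS X).filter (fun S => k < S.card), (S.card : ℝ) ≤
      k * f k + ∑ R ∈ Finset.Ico k L, f R := by
    rw [Finset.sum_filter]
    calc _ ≤ ∑ S ∈ SS X, ((k : ℝ) * (if k < S.card then 1 else 0) +
            ∑ R ∈ Finset.Ico k L, if R < S.card then (1 : ℝ) else 0) :=
          Finset.sum_le_sum fun S hS => pw k L _ (by
            rw [hL]
            exact Finset.le_sup (f := Finset.card) hS)
      _ = k * f k + ∑ R ∈ Finset.Ico k L, f R := by
          rw [Finset.sum_add_distrib, ← Finset.mul_sum, hsum, Finset.sum_comm]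
          congr 1
          exact Finset.sum_congr rfl fun R _ => hsum R
  refine h1.trans ?_
  have h2 : ∑ R ∈ Finset.Ico k L, f R ≤ C * (X * (1 + Real.log X)) * (2 * (1 / 2) ^ k) := by
    refine (Finset.sum_le_sum fun R _ => hfb R).trans ?_
    rw [← Finset.mul_sum]
    refine mul_le_mul_of_nonneg_left ?_ hA
    rcases le_total k L with hBk | hBk
    · have := geom_sum_Ico_le_of_lt_one (m := k) (n := L) (x := (1 / 2 : ℝ))
        (by norm_num) (by norm_num)
      refine this.trans (le_of_eq ?_)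
      ring
    · rw [Finset.Ico_eq_empty_of_le hBk, Finset.sum_empty]
      positivity
  have h3 := mul_le_mul_of_nonneg_left (hfb k) (show (0 : ℝ) ≤ k by positivity)
  calc _ ≤ k * (C * (X * (1 + Real.log X)) * (1 / 2) ^ k) +
        C * (X * (1 + Real.log X)) * (2 * (1 / 2) ^ k) := add_le_add h3 h2
    _ = C * (X * (1 + Real.log X)) * ((k + 2) * (1 / 2) ^ k) := by ring
    _ = _ := by rw [one_div, inv_pow, ← div_eq_mul_inv]

/-- **the sum over `T`**, with weights -/
theorem sum_Tw (Y : ℕ) (g : Finset Ei → Finset Ei → ℝ) :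
    ∑ p ∈ PP Y, g p.1 p.2 = ∑ T ∈ SS Y, ∑ S ∈ TS T (bT T) (Y / nm T), g T S := by
  have hmaps : ∀ p ∈ PP Y, p.1 ∈ SS Y := by
    intro p hp
    unfold PP at hp
    rw [Finset.mem_filter, Finset.mem_product] at hp
    exact hp.1.1
  rw [← Finset.sum_fiberwise_of_maps_to hmaps]
  refine Finset.sum_congr rfl fun T hT => ?_
  have hT' := K.mem_SS.1 hT
  have hTp := nm_pos hT'.1.1
  refine Finset.sum_bij (fun p _ => p.2) ?_ ?_ ?_ ?_
  · intro p hp
    rw [Finset.mem_filter] at hp
    obtain ⟨hp, rfl⟩ := hp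
    unfold PP at hp
    rw [Finset.mem_filter, Finset.mem_product] at hp
    obtain ⟨⟨-, h1⟩, h2, h3, h4⟩ := hp
    unfold TS
    rw [Finset.mem_filter]
    refine ⟨K.mem_SS.2 ⟨(K.mem_SS.1 h1).1, ?_⟩, h2, fun h => h4 ?_⟩
    · rw [Nat.le_div_iff_mul_le hTp, mul_comm]
      exact h3
    · exact (mod_iff (nm_mod hT'.1.1)).2 h
  · intro p hp p' hp' h
    rw [Finset.mem_filter] at hp hp'
    exact Prod.ext (hp.2.trans hp'.2.symm) h
  · intro S hS
    unfold TS at hS
    rw [Finset.mem_filter] at hS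
    obtain ⟨h1, h2, h3⟩ := hS
    have h1' := K.mem_SS.1 h1
    refine ⟨(T, S), ?_, rfl⟩
    rw [Finset.mem_filter]
    refine ⟨?_, rfl⟩
    unfold PP
    rw [Finset.mem_filter, Finset.mem_product]
    refine ⟨⟨hT, K.mem_SS.2 ⟨h1'.1, h1'.2.trans (Nat.div_le_self _ _)⟩⟩, h2, ?_, fun h => h3 ?_⟩
    · have := h1'.2
      rw [Nat.le_div_iff_mul_le hTp, mul_comm] at this
      exact this
    · exact (mod_iff (nm_mod hT'.1.1)).1 h
  · intro p hp
    rw [Finset.mem_filter] at hp
    rw [hp.2]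

end Pool.Agent.X253.CF
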