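import Pool.Agent.Y703.XL.Stm

/-!
# Project CF: the exact law for all the cube-free `D` over `ℚ(ω)`

The definitions of `Pool.Agent.Y703.XK.Stm` without the condition modulo `9`.
-/

set_option autoImplicit false
set_option linter.unusedVariables false

open scoped Classical

namespace Pool.Agent.X253.CF

open Finset
open Pool.Agent.Y692.QS (Ei w nr toC)
open Pool.Agent.Y715.T.Rec (cs)
open Pool.Agent.Y715.T.RecG (Pq)
open Pool.Agent.Y699.E (ez nrm QB)
open Pool.Agent.Y703.CX (jj XX eL zz kk)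
open Pool.Agent.Y703.XK (Nd sm la bl)

/-- the sets of primary primes -/
def Cl (S : Finset Ei) : Prop := (∀ π ∈ S, Pq π) ∧ True

/-- the sets of primary primes with norm at most `X` -/
noncomputable def SS (X : ℕ) : Finset (Finset Ei) :=
  (QB X).powerset.filter fun S => Cl S ∧ ∏ π ∈ S, nrm π ≤ X

/-- the regular sets -/
noncomputable def RR (X z H k V : ℕ) : Finset (Finset Ei) :=
  (SS X).filter fun S => Set.InjOn (bl H) (la z S : Set Ei) ∧ S.card ≤ k ∧
    (∏ π ∈ sm z S, nrm π) * ∏ π ∈ la z S, XX H (bl H π) ≤ X ∧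
    (sm z S).card + V < (la z S).card

/-- sets with many primes, sets near the boundary, sets with two primes in a block. -/
structure CntP (C : ℝ) : Prop where
  one : 1 ≤ C
  all : ∀ X : ℕ, 1 ≤ X → ((SS X).card : ℝ) ≤ C * X
  many : ∀ X k : ℕ, 1 ≤ X → (((SS X).filter fun S => k < S.card).card : ℝ) * 2 ^ k ≤
    C * (X * (1 + Real.log X))
  cut : ∀ X z H k : ℕ, 1 ≤ X → 1 ≤ H → 1 ≤ k → (((SS X).filter fun S => S.card ≤ k ∧
    X < (∏ π ∈ sm z S, nrm π) * ∏ π ∈ la z S, XX H (bl H π)).card : ℝ) ≤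
      C * (X * (1 + Real.log X)) * (k / H) + C * X * Real.exp (-(Real.log X) / k)
  coll : ∀ X z H : ℕ, 1 ≤ X → 1 ≤ z → 1 ≤ H → (((SS X).filter fun S =>
    ¬ Set.InjOn (bl H) (la z S : Set Ei)).card : ℝ) ≤ C * (X * (1 + Real.log X)) / H + C * X / z

def S_CNT : Prop := ∃ C : ℝ, CntP C

/-- few sets have degenerate labels. -/
def S_BAD : Prop := ∀ ε : ℝ, 0 < ε → ∃ X₀ : ℕ, ∀ X : ℕ, X₀ ≤ X →
  (((SS X).filter fun S => S.card ≤ kk X ∧ ¬ Nd (sm (zz X) S) (la (zz X) S)).card : ℝ) ≤ ε * X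

/-- few sets have few large primes. -/
def S_FEW : Prop := ∀ (V : ℕ) (ε : ℝ), 0 < ε → ∃ X₀ : ℕ, ∀ X : ℕ, X₀ ≤ X →
  (((SS X).filter fun S => S.card ≤ kk X ∧ (la (zz X) S).card ≤ (sm (zz X) S).card + V).card : ℝ) ≤
    ε * X

/-- the weights: `2` on `T` and `1` elsewhere -/
noncomputable def wt (T : Finset Ei) (ρ : Ei) : ZMod 3 := if ρ ∈ T then 2 else 1

/-- the number of the solutions of the weighted Laplacian system of a set -/
noncomputable def nW (T S : Finset Ei) : ℕ :=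
  Nat.card {v : S → ZMod 3 // ∀ π : S, ∑ ρ : S, wt T ρ * cs π ρ * (v ρ - v π) = 0}

/-- the sets whose solution space has dimension `r + 1` -/
def Gw (T : Finset Ei) (r : ℕ) (S : Finset Ei) : Prop := nW T S = 3 ^ (r + 1)

/-- nondegenerate labels, the class modulo `9` and `T` among the small primes -/
def NT (T : Finset Ei) (b : ℕ) (S₀ S₁ : Finset Ei) : Prop :=
  T ⊆ S₀ ∧ Nd S₀ S₁ ∧ ((∏ π ∈ S₀, nrm π) * ∏ π ∈ S₁, nrm π) % 9 ≠ b

/-- the sets of the class containing `T` -/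
noncomputable def TS (T : Finset Ei) (b X : ℕ) : Finset (Finset Ei) :=
  (SS X).filter fun S => T ⊆ S ∧ (∏ π ∈ S, nrm π) % 9 ≠ b

end Pool.Agent.X253.CF
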