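import Pool.Agent.X253.CF.AvG

/-!
# Project CF: the law for the twists by the elements of a fixed finite set
-/

set_option autoImplicit false

open scoped Classical
open Finset Filter

namespace Pool.Agent.X253.CF

open Pool.Agent.Y692.QS (Ei w nr toC)
open Pool.Agent.Y715.T.RecG (Pq)
open Pool.Agent.Y699.E (nrm QB)
open Pool.Agent.Y703.CX (jj XX eL zz kk eL_tendsto logX_eq rpow_eL HH NN ev_eL one_le_exp
  HH_ge HH_le HH_pos kk_ge kk_le X_pos one_add_log lin_le zz_ge zz_pos)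
open Pool.Agent.Y703.CQ (Sml sml_of sml_add)
open Pool.Agent.Y703.XK (Nd sm la bl S_C9 sml_eps kk_pos kap kap_nonneg kap_pow kap_le log_three cmp)
open Pool.Agent.Y703.XL (cr cr_pos cr_le t_C9 t_LA)

/-- nondegenerate labels, the class modulo `9`, `T₀` among the small primes, `Z` avoided -/
def NZ (T₀ Z : Finset Ei) (b : ℕ) (S₀ S₁ : Finset Ei) : Prop :=
  (T₀ ⊆ S₀ ∧ Disjoint S₀ Z) ∧ Nd S₀ S₁ ∧ ((∏ π ∈ S₀, nrm π) * ∏ π ∈ S₁, nrm π) % 9 ≠ b

/-- the sets of the class containing `T₀` and avoiding `Z` -/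
noncomputable def TZ (T₀ Z : Finset Ei) (b X : ℕ) : Finset (Finset Ei) :=
  (SS X).filter fun S => (T₀ ⊆ S ∧ Disjoint S Z) ∧ (∏ π ∈ S, nrm π) % 9 ≠ b

theorem box_Z {W T₀ Z : Finset Ei} (hW : W ⊆ T₀) (b r : ℕ) :
    K.BXG (NZ T₀ Z b) (Gw W r) (cr r) (3 ^ (r + 1)) := by
  intro ι _ _ C X κ S₀ hκ hCX hHB hS₀ hC hdis hcard hres
  by_cases h : T₀ ⊆ S₀ ∧ Disjoint S₀ Z
  · have hiff : ∀ p : ι → Ei, NZ T₀ Z b S₀ (univ.image p) ↔ NT W b S₀ (univ.image p) := fun p =>
      ⟨fun g => ⟨hW.trans h.1, g.2.1, g.2.2⟩, fun g => ⟨h, g.2.1, g.2.2⟩⟩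
    have e1 : (Fintype.piFinset C).filter (fun p => NZ T₀ Z b S₀ (univ.image p) ∧
          Gw W r (S₀ ∪ univ.image p)) =
        (Fintype.piFinset C).filter (fun p => NT W b S₀ (univ.image p) ∧
          Gw W r (S₀ ∪ univ.image p)) :=
      Finset.filter_congr fun p _ => and_congr_left fun _ => hiff p
    have e2 : (Fintype.piFinset C).filter (fun p => NZ T₀ Z b S₀ (univ.image p)) =
        (Fintype.piFinset C).filter (fun p => NT W b S₀ (univ.image p)) :=
      Finset.filter_congr fun p _ => hiff p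
    rw [e1, e2]
    exact B.t_BOX Pool.Agent.Y710.XK.t_EQ t_LA W b r ι C X κ S₀ hκ hCX hHB hS₀ hC hdis hcard hres
  · have e1 : (Fintype.piFinset C).filter (fun p => NZ T₀ Z b S₀ (univ.image p) ∧
          Gw W r (S₀ ∪ univ.image p)) = ∅ :=
      Finset.filter_eq_empty_iff.2 fun p _ g => h g.1.1
    have e2 : (Fintype.piFinset C).filter (fun p => NZ T₀ Z b S₀ (univ.image p)) = ∅ :=
      Finset.filter_eq_empty_iff.2 fun p _ g => h g.1
    rw [e1, e2, Finset.card_empty, Nat.cast_zero, mul_zero, sub_zero, abs_zero, mul_zero, zero_add]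
    have h1 : (0 : ℝ) ≤ κ * ∏ j, (X j : ℝ) :=
      mul_nonneg hκ (Finset.prod_nonneg fun j _ => by positivity)
    positivity

/-- **the law for the sets containing `T₀` and avoiding `Z`**, with the weights `2` on `W` -/
theorem unifZ : ∀ᶠ X : ℕ in atTop, ∀ (W T₀ Z : Finset Ei) (b r : ℕ), W ⊆ T₀ →
    T₀.sup nrm ≤ zz X → Z.sup nrm ≤ zz X → (r : ℝ) ≤ eL X / 96 →
    |(((TZ T₀ Z b X).filter (Gw W r)).card : ℝ) - cr r * ((TZ T₀ Z b X).card : ℝ)| ≤
      X * Real.exp (-(1 / 48) * eL X) := by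
  obtain ⟨C, hC1, hkey⟩ := K.t_KEGu Pool.Agent.Y363.XK.t_BIL
  obtain ⟨D, hD⟩ := N.t_CNT
  have hD1 := hD.one
  have hDp : 0 < D := by linarith
  have ht : (1 / 48 : ℝ) < 1 := by norm_num
  have s1 := sml_many' ht hD
  have s2 := sml_cut' ht hD
  have s3 := sml_coll' ht hD
  have s6 := sml_main' (t := 1 / 48) ht hC1
  have s7 : Sml (1 / 48) fun X : ℕ => 9 * D * (X * Real.exp (-(1 / 32) * eL X)) :=
    sml_of (C := 9 * D) (a := 1 / 32) (by norm_num) (Filter.Eventually.of_forall fun X => le_rfl)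
  have s := sml_add (sml_add (sml_add (sml_add (sml_add (sml_add s1 s2) s3) sml_few') sml_bad') s6) s7
  filter_upwards [s 1 one_pos, ev_eL 1] with X hX hl W T₀ Z b r hW hT hZ hr
  rw [one_mul] at hX
  have hl0 : 0 < eL X := by linarith
  have hXp := X_pos hl0
  have hXp' : (0 : ℝ) < X := by exact_mod_cast hXp
  have hN : (HH X : ℝ) * Real.log X < NN X := by
    unfold NN
    push_cast
    exact Nat.lt_floor_add_one _
  have hmain := hkey (NZ T₀ Z b) (Gw W r) (cr r) (3 ^ (r + 1))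
    (box_Z hW b r) (by positivity)
    X (zz X) (HH X) (kk X) (VV X) (NN X) (kap C X) hXp (HH_pos hl0) (zz_pos hl)
    (kap_nonneg hC1 X) (kap_pow hC1 hl) hN
  set R := (RR X (zz X) (HH X) (kk X) (VV X)).filter
    fun S => NZ T₀ Z b (sm (zz X) S) (la (zz X) S) with hR
  have hTG : (RR X (zz X) (HH X) (kk X) (VV X)).filter
      (fun S => NZ T₀ Z b (sm (zz X) S) (la (zz X) S) ∧ Gw W r S) = R.filter (Gw W r) := by
    rw [hR, filter_filter]
  rw [hTG] at hmain
  have hTsm : ∀ S : Finset Ei, T₀ ⊆ S → T₀ ⊆ sm (zz X) S := by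
    intro S hS π hπ
    unfold sm
    rw [mem_filter]
    exact ⟨hS hπ, (Finset.le_sup (f := nrm) hπ).trans hT⟩
  have hRS : R ⊆ TZ T₀ Z b X := by
    intro S hS
    rw [hR, mem_filter] at hS
    obtain ⟨h1, ⟨h2, h2'⟩, h3, h4⟩ := hS
    unfold TZ
    rw [mem_filter]
    refine ⟨(mem_filter.1 h1).1, ⟨h2.trans (filter_subset _ _), ?_⟩, ?_⟩
    · rw [Finset.disjoint_left]
      intro π hπ hπZ
      refine Finset.disjoint_left.1 h2' ?_ hπZ
      unfold sm
      rw [mem_filter]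
      exact ⟨hπ, (Finset.le_sup (f := nrm) hπZ).trans hZ⟩
    rw [Pool.Agent.X253.CF.K.prod_split (zz X) S nrm]
    exact h4
  have hRc : ((RR X (zz X) (HH X) (kk X) (VV X)).card : ℝ) ≤ D * X :=
    le_trans (by exact_mod_cast card_le_card (filter_subset _ _)) (hD.all X hXp)
  have hcmp := cmp (Gw W r) R (TZ T₀ Z b X) hRS (cr r) (cr_pos t_C9 r).le (cr_le t_C9 r)
  have hsub : TZ T₀ Z b X \ R ⊆ SS X \ ((RR X (zz X) (HH X) (kk X) (VV X)).filter
      fun S => Nd (sm (zz X) S) (la (zz X) S)) := by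
    intro S hS
    rw [Finset.mem_sdiff] at hS ⊢
    obtain ⟨h1, h2⟩ := hS
    unfold TZ at h1
    rw [mem_filter] at h1
    refine ⟨h1.1, fun h3 => h2 ?_⟩
    rw [mem_filter] at h3
    rw [hR, mem_filter]
    refine ⟨h3.1, ⟨hTsm S h1.2.1.1, h1.2.1.2.mono_left (filter_subset _ _)⟩, h3.2, ?_⟩
    rw [← Pool.Agent.X253.CF.K.prod_split (zz X) S nrm]
    exact h1.2.2
  have hout : ((TZ T₀ Z b X \ R).card : ℝ) ≤
      ((((SS X).filter fun S => kk X < S.card).card : ℝ) +
      (((SS X).filter fun S => S.card ≤ kk X ∧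
        X < (∏ π ∈ sm (zz X) S, nrm π) * ∏ π ∈ la (zz X) S, XX (HH X) (bl (HH X) π)).card : ℝ) +
      (((SS X).filter fun S => ¬ Set.InjOn (bl (HH X)) (la (zz X) S : Set Ei)).card : ℝ) +
      (((SS X).filter fun S => S.card ≤ kk X ∧
        (la (zz X) S).card ≤ (sm (zz X) S).card + VV X).card : ℝ)) +
      (((SS X).filter fun S => S.card ≤ kk X ∧ ¬ Nd (sm (zz X) S) (la (zz X) S)).card : ℝ) := by
    have g := (card_le_card hsub).trans (card_le_card (out_sub X (zz X) (HH X) (kk X) (VV X)))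
    have g2 := (g.trans (card_union_le _ _)).trans (Nat.add_le_add_right ((card_union_le _ _).trans
      (Nat.add_le_add_right ((card_union_le _ _).trans
      (Nat.add_le_add_right (card_union_le _ _) _)) _)) _)
    exact_mod_cast g2
  have g1 : 3 ^ (r + 1) * (1 / 3 : ℝ) ^ VV X *
      ((RR X (zz X) (HH X) (kk X) (VV X)).card : ℝ) ≤
        9 * D * (X * Real.exp (-(1 / 32) * eL X)) := by
    have g2 : (3 : ℝ) ^ (r + 1) * (1 / 3 : ℝ) ^ VV X ≤ 9 * Real.exp (-(1 / 32) * eL X) := by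
      have e1 : (1 / 3 : ℝ) ^ VV X = Real.exp (-(VV X * Real.log 3)) := by
        rw [one_div, inv_pow, pow_exp _ (by norm_num), ← Real.exp_neg]
      have e2 : (9 : ℝ) = Real.exp (2 * Real.log 3) := by
        rw [mul_comm, Real.exp_mul, Real.exp_log (by norm_num)]
        norm_num
      rw [e1, e2, pow_exp _ (by norm_num), ← Real.exp_add, ← Real.exp_add]
      apply Real.exp_le_exp.2
      have g3 := VV_ge X
      have g4 := log3_ge
      push_cast
      nlinarith
    calc 3 ^ (r + 1) * (1 / 3 : ℝ) ^ VV X *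
        ((RR X (zz X) (HH X) (kk X) (VV X)).card : ℝ) ≤
          9 * Real.exp (-(1 / 32) * eL X) * (D * X) := by gcongr
      _ = _ := by ring
  linarith


section mask
variable {M A A₂ : Finset Ei}

theorem nm_union {S A : Finset Ei} (h : Disjoint S A) : nm (S ∪ A) = nm S * nm A :=
  Finset.prod_union h

theorem nm_one {A : Finset Ei} (h : ∀ π ∈ A, nrm π % 9 = 1) : nm A % 9 = 1 := by
  unfold nm
  induction A using Finset.induction_on with
  | empty => rfl
  | insert a s ha ih =>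
    rw [Finset.prod_insert ha, Nat.mul_mod, h a (Finset.mem_insert_self _ _),
      ih fun π hπ => h π (Finset.mem_insert_of_mem hπ)]

theorem mul_one9 {n m : ℕ} (h : m % 9 = 1) : (n * m) % 9 = n % 9 := by
  rw [Nat.mul_mod, h, mul_one, Nat.mod_mod]

/-- the bijection -/
theorem mask_card (hM : ∀ π ∈ M, Pq π ∧ nrm π % 9 = 1) (hA : A ⊆ M) {T : Finset Ei}
    (hT : Disjoint T M) (b X : ℕ) (P : Finset Ei → Prop) :
    (((TS T b X).filter fun S => Disjoint S M).filter fun S => P (S ∪ A)).card =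
      ((TZ (T ∪ A) (M \ A) b (X * nm A)).filter P).card := by
  have hAp : ∀ π ∈ A, Pq π := fun π hπ => (hM π (hA hπ)).1
  have hA9 : nm A % 9 = 1 := nm_one fun π hπ => (hM π (hA hπ)).2
  have hAn := nm_pos hAp
  refine Finset.card_bij (fun S _ => S ∪ A) ?_ ?_ ?_
  · intro S hS
    rw [Finset.mem_filter, Finset.mem_filter] at hS
    obtain ⟨⟨h1, h2⟩, h3⟩ := hS
    unfold TS at h1
    rw [Finset.mem_filter] at h1
    obtain ⟨h4, h5, h6⟩ := h1
    have h7 := K.mem_SS.1 h4
    have hSA : Disjoint S A := h2.mono_right hA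
    rw [Finset.mem_filter]
    unfold TZ
    rw [Finset.mem_filter]
    refine ⟨⟨K.mem_SS.2 ⟨⟨fun π hπ => ?_, trivial⟩, ?_⟩,
      ⟨Finset.union_subset_union_left h5, ?_⟩, ?_⟩, h3⟩
    · rcases Finset.mem_union.1 hπ with h | h
      · exact h7.1.1 π h
      · exact hAp π h
    · have : nm (S ∪ A) ≤ X * nm A := by
        rw [nm_union hSA]
        exact Nat.mul_le_mul_right _ h7.2
      exact this
    · rw [Finset.disjoint_union_left]
      exact ⟨h2.mono_right Finset.sdiff_subset, Finset.disjoint_sdiff⟩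
    · have : nm (S ∪ A) % 9 ≠ b := by
        rw [nm_union hSA, mul_one9 hA9]
        exact h6
      exact this
  · intro S hS S' hS' h
    rw [Finset.mem_filter, Finset.mem_filter] at hS hS'
    have g1 : Disjoint S A := hS.1.2.mono_right hA
    have g2 : Disjoint S' A := hS'.1.2.mono_right hA
    rw [← Finset.union_sdiff_cancel_right g1, ← Finset.union_sdiff_cancel_right g2, h]
  · intro S' hS'
    rw [Finset.mem_filter] at hS'
    obtain ⟨h1, h3⟩ := hS'
    unfold TZ at h1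
    rw [Finset.mem_filter] at h1
    obtain ⟨h4, ⟨h5, h5'⟩, h6⟩ := h1
    have h7 := K.mem_SS.1 h4
    have hAS : A ⊆ S' := Finset.subset_union_right.trans h5
    have e1 : S' \ A ∪ A = S' := Finset.sdiff_union_of_subset hAS
    have hdA : Disjoint (S' \ A) A := Finset.sdiff_disjoint
    have e2 : nm S' = nm (S' \ A) * nm A := by rw [← nm_union hdA, e1]
    refine ⟨S' \ A, ?_, e1⟩
    rw [Finset.mem_filter, Finset.mem_filter, e1]
    refine ⟨⟨?_, ?_⟩, h3⟩
    · unfold TS
      rw [Finset.mem_filter]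
      refine ⟨K.mem_SS.2 ⟨⟨fun π hπ => h7.1.1 π (Finset.sdiff_subset hπ), trivial⟩, ?_⟩, ?_, ?_⟩
      · have h8 : nm S' ≤ X * nm A := h7.2
        rw [e2] at h8
        exact Nat.le_of_mul_le_mul_right h8 hAn
      · intro π hπ
        rw [Finset.mem_sdiff]
        exact ⟨h5 (Finset.mem_union_left _ hπ), fun h => Finset.disjoint_left.1 hT hπ (hA h)⟩
      · have h8 : nm S' % 9 ≠ b := h6
        rw [e2, mul_one9 hA9] at h8
        exact h8
    · rw [Finset.disjoint_left]
      intro π hπ hπM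
      rw [Finset.mem_sdiff] at hπ
      exact Finset.disjoint_left.1 h5' hπ.1 (Finset.mem_sdiff.2 ⟨hπM, hπ.2⟩)

theorem eL_mono {X Y : ℕ} (h0 : 0 < eL X) (h : X ≤ Y) : eL X ≤ eL Y := by
  have h1 : 1 ≤ X := X_pos h0
  have h2 : (0 : ℝ) < X := by exact_mod_cast h1
  have h3 : Real.log X ≤ Real.log Y := Real.log_le_log h2 (by exact_mod_cast h)
  have h4 : 0 < Real.log X := by
    rw [logX_eq h0]
    exact Real.exp_pos _
  exact Real.log_le_log h4 h3

theorem zz_mono {X Y : ℕ} (h0 : 0 < eL X) (h : X ≤ Y) : zz X ≤ zz Y := by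
  have h1 := eL_mono h0 h
  unfold zz
  refine Nat.floor_le_floor (Real.exp_le_exp.2 ?_)
  exact pow_le_pow_left₀ h0.le h1 3

theorem zz_ev (k : ℕ) : ∀ᶠ X : ℕ in atTop, k ≤ zz X := by
  filter_upwards [ev_eL (max k 1)] with X hX
  have h1 : 1 ≤ eL X := le_trans (le_max_right _ _) hX
  have h2 : (k : ℝ) ≤ eL X := le_trans (by exact_mod_cast le_max_left _ _) hX
  unfold zz
  refine Nat.le_floor ?_
  have h3 : eL X ≤ (eL X) ^ 3 := le_self_pow₀ h1 (by norm_num)
  have h4 := Real.add_one_le_exp ((eL X) ^ 3)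
  linarith

/-- **the law for the twists** -/
theorem unifM (hM : ∀ π ∈ M, Pq π ∧ nrm π % 9 = 1) (hA : A ⊆ M) (hA₂ : A₂ ⊆ A) :
    ∀ᶠ X : ℕ in atTop, ∀ (T : Finset Ei) (b r : ℕ), T.sup nrm ≤ zz X → (r : ℝ) ≤ eL X / 96 →
    |((((TS T b X).filter fun S => Disjoint S M).filter
        fun S => Gw (T ∪ A₂) r (S ∪ A)).card : ℝ) -
      cr r * (((TS T b X).filter fun S => Disjoint S M).card : ℝ)| ≤
      nm A * (X * Real.exp (-(1 / 48) * eL X)) := by
  have hAp : ∀ π ∈ A, Pq π := fun π hπ => (hM π (hA hπ)).1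
  have hAn := nm_pos hAp
  obtain ⟨X₀, hX₀⟩ := eventually_atTop.1 unifZ
  filter_upwards [eventually_ge_atTop X₀, ev_eL 1, zz_ev (M.sup nrm)] with X h1 h2 h3 T b r hT hr
  have hp : (0 : ℝ) ≤ nm A * (X * Real.exp (-(1 / 48) * eL X)) := by positivity
  by_cases hTM : Disjoint T M
  · have hXX : X ≤ X * nm A := Nat.le_mul_of_pos_right _ hAn
    have h0 : 0 < eL X := by linarith
    have hz := zz_mono h0 hXX
    have he := eL_mono h0 hXX
    have hk := hX₀ (X * nm A) (h1.trans hXX) (T ∪ A₂) (T ∪ A) (M \ A) b r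
      (Finset.union_subset_union_right hA₂) (by
        rw [Finset.sup_union]
        exact sup_le (hT.trans hz) (((Finset.sup_mono hA).trans h3).trans hz))
      (((Finset.sup_mono Finset.sdiff_subset).trans h3).trans hz) (by linarith)
    have e1 := mask_card hM hA hTM b X (Gw (T ∪ A₂) r)
    have e2 := mask_card hM hA hTM b X (fun _ => True)
    simp only [Finset.filter_true] at e2
    rw [e1, e2]
    refine hk.trans ?_
    push_cast
    have h5 : Real.exp (-(1 / 48) * eL (X * nm A)) ≤ Real.exp (-(1 / 48) * eL X) :=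
      Real.exp_le_exp.2 (by linarith)
    calc (X : ℝ) * nm A * Real.exp (-(1 / 48) * eL (X * nm A)) ≤
          (X : ℝ) * nm A * Real.exp (-(1 / 48) * eL X) := by gcongr
      _ = _ := by ring
  · have e0 : (TS T b X).filter (fun S => Disjoint S M) = ∅ := by
      refine Finset.filter_eq_empty_iff.2 fun S hS h => hTM ?_
      unfold TS at hS
      rw [Finset.mem_filter] at hS
      exact h.mono_left hS.2.1
    rw [e0, Finset.filter_empty, Finset.card_empty, Nat.cast_zero, mul_zero, sub_zero, abs_zero]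
    exact hp

end mask

end Pool.Agent.X253.CF
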