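import Pool.Agent.X253.CF.TwA

/-!
# Project CF: the average for the twists by the elements of a fixed finite set
-/

set_option autoImplicit false
set_option linter.unusedVariables false
set_option linter.unusedSectionVars false

open scoped Classical
open Finset Filter

namespace Pool.Agent.X253.CF

open Pool.Agent.Y692.QS (Ei w nr toC)
open Pool.Agent.Y715.T.RecG (Pq)
open Pool.Agent.Y699.E (nrm QB)
open Pool.Agent.Y703.CX (eL zz kk eL_tendsto logX_eq ev_eL kk_ge kk_le X_pos one_add_log lin_le)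
open Pool.Agent.Y703.XL (cr cr_pos cr_le t_C9 t_LA)

section abs
variable {α : Type} {𝒮 : Finset α} {rr : α → ℕ} {GG : ℕ → α → Prop} {R₁ : ℕ} {e : ℝ}

theorem cnt_gtA (hG : ∀ r S, GG r S → rr S = r)
    (h : ∀ r ≤ R₁, |((𝒮.filter (GG r)).card : ℝ) - cr r * (𝒮.card : ℝ)| ≤ e) {R : ℕ}
    (hR : R ≤ R₁) :
    ((𝒮.filter fun S => R < rr S).card : ℝ) ≤ tl R * (𝒮.card : ℝ) + (R + 1) * e := by
  have hdis : ∀ r ∈ range (R + 1), ∀ r' ∈ range (R + 1), r ≠ r' →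
      Disjoint (𝒮.filter (GG r)) (𝒮.filter (GG r')) := by
    intro r _ r' _ hne
    rw [Finset.disjoint_left]
    intro S hS hS'
    have h1 := hG r S (Finset.mem_filter.1 hS).2
    have h2 := hG r' S (Finset.mem_filter.1 hS').2
    omega
  have h1 : (𝒮.filter fun S => R < rr S).card +
      ∑ r ∈ range (R + 1), (𝒮.filter (GG r)).card ≤ 𝒮.card := by
    rw [← Finset.card_biUnion hdis, ← Finset.card_union_of_disjoint]
    · refine Finset.card_le_card (Finset.union_subset (Finset.filter_subset _ _) ?_)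
      intro S hS
      rw [Finset.mem_biUnion] at hS
      obtain ⟨r, -, hS⟩ := hS
      exact (Finset.mem_filter.1 hS).1
    · rw [Finset.disjoint_left]
      intro S hS hS'
      rw [Finset.mem_biUnion] at hS'
      obtain ⟨r, hr, hS'⟩ := hS'
      rw [Finset.mem_filter] at hS hS'
      rw [Finset.mem_range] at hr
      have h2 := hG r S hS'.2
      have h3 := hS.2
      omega
  have h2 : ((𝒮.filter fun S => R < rr S).card : ℝ) +
      ∑ r ∈ range (R + 1), ((𝒮.filter (GG r)).card : ℝ) ≤ (𝒮.card : ℝ) := by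
    exact_mod_cast h1
  have h3 : ∑ r ∈ range (R + 1), (cr r * (𝒮.card : ℝ) - e) ≤
      ∑ r ∈ range (R + 1), ((𝒮.filter (GG r)).card : ℝ) := by
    refine Finset.sum_le_sum fun r hr => ?_
    rw [Finset.mem_range] at hr
    have := (abs_le.1 (h r (by omega))).1
    linarith
  rw [Finset.sum_sub_distrib, ← Finset.sum_mul, Finset.sum_const, Finset.card_range,
    nsmul_eq_mul] at h3
  unfold tl
  push_cast at h3
  linarith

theorem cnt_gtA' (hG : ∀ r S, GG r S → rr S = r) (he : 0 ≤ e)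
    (h : ∀ r ≤ R₁, |((𝒮.filter (GG r)).card : ℝ) - cr r * (𝒮.card : ℝ)| ≤ e) (R : ℕ) :
    ((𝒮.filter fun S => R < rr S).card : ℝ) ≤
      ((1 / 8) ^ R + (1 / 8) ^ R₁) * (𝒮.card : ℝ) + (R₁ + 1) * e := by
  have hN : (0 : ℝ) ≤ (𝒮.card : ℝ) := Nat.cast_nonneg _
  have p1 : (0 : ℝ) ≤ (1 / 8) ^ R := by positivity
  have p2 : (0 : ℝ) ≤ (1 / 8) ^ R₁ := by positivity
  rcases le_total R R₁ with hR | hR
  · refine (cnt_gtA hG h hR).trans ?_
    have h1 := tl_le R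
    have h2 : ((R : ℝ) + 1) * e ≤ (R₁ + 1) * e := by
      have : (R : ℝ) ≤ R₁ := by exact_mod_cast hR
      gcongr
    nlinarith
  · have h0 : ((𝒮.filter fun S => R < rr S).card : ℝ) ≤
        ((𝒮.filter fun S => R₁ < rr S).card : ℝ) := by
      have : (𝒮.filter fun S => R < rr S) ⊆ (𝒮.filter fun S => R₁ < rr S) := by
        intro S hS
        rw [Finset.mem_filter] at hS ⊢
        exact ⟨hS.1, by omega⟩
      exact_mod_cast Finset.card_le_card this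
    refine h0.trans ((cnt_gtA hG h le_rfl).trans ?_)
    have h1 := tl_le R₁
    nlinarith

theorem sum_gtA (hG : ∀ r S, GG r S → rr S = r) (he : 0 ≤ e)
    (h : ∀ r ≤ R₁, |((𝒮.filter (GG r)).card : ℝ) - cr r * (𝒮.card : ℝ)| ≤ e) (B k : ℕ)
    (Q : α → Prop) [DecidablePred Q] (hQ : ∀ S ∈ 𝒮, Q S → rr S ≤ k) :
    ∑ S ∈ 𝒮.filter Q, (if B < rr S then (rr S : ℝ) else 0) ≤
      ((B + 2) * (1 / 8) ^ B + (B + k) * (1 / 8) ^ R₁) * (𝒮.card : ℝ) +
        (B + k) * ((R₁ + 1) * e) := by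
  have hN : (0 : ℝ) ≤ (𝒮.card : ℝ) := Nat.cast_nonneg _
  obtain ⟨f, hf⟩ : ∃ f : ℕ → ℝ, f = fun R => ((𝒮.filter fun S => R < rr S).card : ℝ) :=
    ⟨_, rfl⟩
  have hfb : ∀ R, f R ≤ ((1 / 8) ^ R + (1 / 8) ^ R₁) * (𝒮.card : ℝ) + (R₁ + 1) * e :=
    fun R => by
      rw [hf]
      exact cnt_gtA' hG he h R
  have hsum : ∀ R, ∑ S ∈ 𝒮.filter Q, (if R < rr S then (1 : ℝ) else 0) ≤ f R := by
    intro R
    rw [← Finset.sum_filter, Finset.sum_const, nsmul_eq_mul, mul_one, hf]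
    beta_reduce
    have : (𝒮.filter Q).filter (fun S => R < rr S) ⊆ 𝒮.filter (fun S => R < rr S) := by
      intro S hS
      rw [Finset.mem_filter, Finset.mem_filter] at hS
      exact Finset.mem_filter.2 ⟨hS.1.1, hS.2⟩
    exact_mod_cast Finset.card_le_card this
  have h1 : ∑ S ∈ 𝒮.filter Q, (if B < rr S then (rr S : ℝ) else 0) ≤
      B * f B + ∑ R ∈ Finset.Ico B k, f R := by
    calc _ ≤ ∑ S ∈ 𝒮.filter Q, ((B : ℝ) * (if B < rr S then 1 else 0) +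
            ∑ R ∈ Finset.Ico B k, if R < rr S then (1 : ℝ) else 0) :=
          Finset.sum_le_sum fun S hS => pw B k _ (hQ S (Finset.mem_filter.1 hS).1
            (Finset.mem_filter.1 hS).2)
      _ = B * (∑ S ∈ 𝒮.filter Q, (if B < rr S then (1 : ℝ) else 0)) +
            ∑ R ∈ Finset.Ico B k, ∑ S ∈ 𝒮.filter Q, (if R < rr S then (1 : ℝ) else 0) := by
          rw [Finset.sum_add_distrib, ← Finset.mul_sum, Finset.sum_comm]
      _ ≤ _ := by
          have h2 := hsum B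
          have h3 : (0 : ℝ) ≤ B := Nat.cast_nonneg _
          have h4 : ∑ R ∈ Finset.Ico B k, ∑ S ∈ 𝒮.filter Q,
              (if R < rr S then (1 : ℝ) else 0) ≤ ∑ R ∈ Finset.Ico B k, f R :=
            Finset.sum_le_sum fun R _ => hsum R
          have h5 := mul_le_mul_of_nonneg_left h2 h3
          linarith
  refine h1.trans ?_
  have h2 : ∑ R ∈ Finset.Ico B k, f R ≤
      2 * (1 / 8) ^ B * (𝒮.card : ℝ) + k * ((1 / 8) ^ R₁ * (𝒮.card : ℝ) + (R₁ + 1) * e) := by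
    calc ∑ R ∈ Finset.Ico B k, f R ≤ ∑ R ∈ Finset.Ico B k,
          ((1 / 8) ^ R * (𝒮.card : ℝ) + ((1 / 8) ^ R₁ * (𝒮.card : ℝ) + (R₁ + 1) * e)) :=
          Finset.sum_le_sum fun R _ => (hfb R).trans (le_of_eq (by ring))
      _ = (∑ R ∈ Finset.Ico B k, (1 / 8 : ℝ) ^ R) * (𝒮.card : ℝ) +
          ((k - B : ℕ) : ℝ) * ((1 / 8) ^ R₁ * (𝒮.card : ℝ) + (R₁ + 1) * e) := by
          rw [Finset.sum_add_distrib, ← Finset.sum_mul, Finset.sum_const, Nat.card_Ico,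
            nsmul_eq_mul]
      _ ≤ _ := by
          have g1 : ∑ R ∈ Finset.Ico B k, (1 / 8 : ℝ) ^ R ≤ 2 * (1 / 8) ^ B := by
            rcases le_total B k with hBk | hBk
            · have := geom_sum_Ico_le_of_lt_one (m := B) (n := k) (x := (1 / 8 : ℝ))
                (by norm_num) (by norm_num)
              refine this.trans ?_
              have p : (0 : ℝ) < (1 / 8) ^ B := by positivity
              rw [div_le_iff₀ (by norm_num)]
              linarith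
            · rw [Finset.Ico_eq_empty_of_le hBk, Finset.sum_empty]
              positivity
          have g2 : ((k - B : ℕ) : ℝ) ≤ k := by exact_mod_cast Nat.sub_le _ _
          have g3 : (0 : ℝ) ≤ (1 / 8) ^ R₁ * (𝒮.card : ℝ) + (R₁ + 1) * e := by positivity
          gcongr
  have h3 := mul_le_mul_of_nonneg_left (hfb B) (show (0 : ℝ) ≤ B by positivity)
  calc _ ≤ B * (((1 / 8) ^ B + (1 / 8) ^ R₁) * (𝒮.card : ℝ) + (R₁ + 1) * e) +
        (2 * (1 / 8) ^ B * (𝒮.card : ℝ) +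
        k * ((1 / 8) ^ R₁ * (𝒮.card : ℝ) + (R₁ + 1) * e)) := add_le_add h3 h2
    _ = _ := by ring

end abs

/-- the dimension of the twist -/
noncomputable def rM (A A₂ T S : Finset Ei) : ℕ := rW (T ∪ A₂) (S ∪ A)

theorem rM_le (A A₂ T S : Finset Ei) : rM A A₂ T S ≤ S.card + A.card :=
  (rW_le _ _).trans (Finset.card_union_le _ _)

/-- the dimension of the twist, if it is larger than `B` and `S` avoids `M` -/
noncomputable def gM (M A A₂ : Finset Ei) (B : ℕ) (T S : Finset Ei) : ℝ :=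
  if Disjoint S M then (if B < rM A A₂ T S then (rM A A₂ T S : ℝ) else 0) else 0

theorem gM_le (M A A₂ : Finset Ei) (B : ℕ) (T S : Finset Ei) :
    gM M A A₂ B T S ≤ (S.card : ℝ) + A.card := by
  unfold gM
  have h : (rM A A₂ T S : ℝ) ≤ (S.card : ℝ) + A.card := by exact_mod_cast rM_le A A₂ T S
  split_ifs
  · exact h
  · positivity
  · positivity

theorem gM_nonneg (M A A₂ : Finset Ei) (B : ℕ) (T S : Finset Ei) : 0 ≤ gM M A A₂ B T S := by
  unfold gM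
  split_ifs <;> positivity

theorem sum_bigS {C : ℝ} (hC : CntP C) (k : ℕ) {Y : ℕ} (hY : 1 ≤ Y) :
    ∑ T ∈ SS Y, ∑ S ∈ (TS T (bT T) (Y / nm T)).filter (fun S => ¬ S.card ≤ k),
      (S.card : ℝ) ≤ 64 * C * Y * (1 + Real.log Y) ^ 2 * ((k + 2) / 2 ^ k) := by
  have hC1 := hC.one
  have hl := Real.log_natCast_nonneg Y
  have h1 : ∀ T ∈ SS Y,
      ∑ S ∈ (TS T (bT T) (Y / nm T)).filter (fun S => ¬ S.card ≤ k), (S.card : ℝ) ≤
      C * Y * (1 + Real.log Y) * ((k + 2) / 2 ^ k) * (1 / (nm T : ℝ)) := by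
    intro T hT
    have hT' := K.mem_SS.1 hT
    have hp := nm_pos hT'.1.1
    have hp' : (0 : ℝ) < nm T := by exact_mod_cast hp
    have hX1 : 1 ≤ Y / nm T := (Nat.one_le_div_iff hp).2 hT'.2
    have hXp : (0 : ℝ) < ((Y / nm T : ℕ) : ℝ) := by exact_mod_cast hX1
    calc _ ≤ ∑ S ∈ (SS (Y / nm T)).filter (fun S => k < S.card), (S.card : ℝ) := by
          refine Finset.sum_le_sum_of_subset_of_nonneg ?_ fun _ _ _ => Nat.cast_nonneg _
          intro S hS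
          rw [Finset.mem_filter] at hS ⊢
          obtain ⟨hS1, hS2⟩ := hS
          unfold TS at hS1
          rw [Finset.mem_filter] at hS1
          exact ⟨hS1.1, not_le.1 hS2⟩
      _ ≤ C * (((Y / nm T : ℕ) : ℝ) * (1 + Real.log ((Y / nm T : ℕ) : ℝ))) *
            ((k + 2) / 2 ^ k) := many_sum hC _ k hX1
      _ ≤ C * (((Y : ℝ) / nm T) * (1 + Real.log Y)) * ((k + 2) / 2 ^ k) := by
          have g1 : ((Y / nm T : ℕ) : ℝ) ≤ (Y : ℝ) / nm T := Nat.cast_div_le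
          have g2 : Real.log ((Y / nm T : ℕ) : ℝ) ≤ Real.log Y :=
            Real.log_le_log hXp (by exact_mod_cast Nat.div_le_self _ _)
          have g3 : 0 ≤ Real.log ((Y / nm T : ℕ) : ℝ) := Real.log_natCast_nonneg _
          gcongr
      _ = _ := by ring
  refine (Finset.sum_le_sum h1).trans ?_
  rw [← Finset.mul_sum]
  have h2 := K.sum_inv hY (A := SS Y) fun S hS => ⟨(K.mem_SS.1 hS).1.1, (K.mem_SS.1 hS).2⟩
  have h3 : 0 ≤ C * Y * (1 + Real.log Y) * ((k + 2) / 2 ^ k) := by positivity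
  calc _ ≤ C * Y * (1 + Real.log Y) * ((k + 2) / 2 ^ k) * (64 * (1 + Real.log Y)) :=
        mul_le_mul_of_nonneg_left h2 h3
    _ = _ := by ring

section mask
variable {M A A₂ : Finset Ei}

theorem sum_bigM {C : ℝ} (hC : CntP C) (B k : ℕ) {Y : ℕ} (hY : 1 ≤ Y) :
    ∑ T ∈ SS Y, ∑ S ∈ (TS T (bT T) (Y / nm T)).filter (fun S => ¬ S.card ≤ k),
      gM M A A₂ B T S ≤
      (1 + A.card) * (64 * C * Y * (1 + Real.log Y) ^ 2 * ((k + 2) / 2 ^ k)) := by
  have h1 := mul_le_mul_of_nonneg_left (sum_bigS hC k hY) (show (0 : ℝ) ≤ 1 + A.card by positivity)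
  refine le_trans ?_ h1
  rw [Finset.mul_sum]
  refine Finset.sum_le_sum fun T _ => ?_
  rw [Finset.mul_sum]
  refine Finset.sum_le_sum fun S hS => (gM_le M A A₂ B T S).trans ?_
  have h2 : 1 ≤ S.card := by
    have := (Finset.mem_filter.1 hS).2
    omega
  have h3 : (1 : ℝ) ≤ S.card := by exact_mod_cast h2
  have h4 : (0 : ℝ) ≤ A.card := Nat.cast_nonneg _
  nlinarith

theorem sum_gM {C : ℝ} (hC : CntP C) (B k R : ℕ) {Y : ℕ} (hY : 1 ≤ Y) {e : ℝ} (he : 0 ≤ e)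
    (h : ∀ T : Finset Ei, (∀ π ∈ T, Pq π) → nm T ≤ 2 ^ R →
    ∀ r ≤ R, |((((TS T (bT T) (Y / nm T)).filter fun S => Disjoint S M).filter
        fun S => Gw (T ∪ A₂) r (S ∪ A)).card : ℝ) -
      cr r * (((TS T (bT T) (Y / nm T)).filter fun S => Disjoint S M).card : ℝ)| ≤ e) :
    ∑ p ∈ PP Y, gM M A A₂ B p.1 p.2 ≤
      ((B + 2) * (1 / 8) ^ B + (B + (k + A.card : ℕ)) * (1 / 8) ^ R) * (4 * C ^ 2 * Y) +
      C * 2 ^ R * ((B + (k + A.card : ℕ)) * ((R + 1) * e)) +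
      (k + A.card : ℕ) * (4 * C ^ 2 * Y * (1 / 2) ^ R) +
      (1 + A.card) * (64 * C * Y * (1 + Real.log Y) ^ 2 * ((k + 2) / 2 ^ k)) := by
  have hC1 := hC.one
  rw [sum_Tw Y (gM M A A₂ B)]
  have hsplit : ∀ T ∈ SS Y, ∑ S ∈ TS T (bT T) (Y / nm T), gM M A A₂ B T S =
      ∑ S ∈ (TS T (bT T) (Y / nm T)).filter (fun S => S.card ≤ k), gM M A A₂ B T S +
      ∑ S ∈ (TS T (bT T) (Y / nm T)).filter (fun S => ¬ S.card ≤ k), gM M A A₂ B T S :=
    fun T _ => (Finset.sum_filter_add_sum_filter_not _ _ _).symm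
  rw [Finset.sum_congr rfl hsplit, Finset.sum_add_distrib]
  refine add_le_add ?_ (sum_bigM hC B k hY)
  rw [← Finset.sum_filter_not_add_sum_filter (SS Y) (fun T => 2 ^ R ≤ nm T)]
  refine add_le_add ?_ ?_
  · have h1 : ∀ T ∈ (SS Y).filter (fun T => ¬ 2 ^ R ≤ nm T),
      ∑ S ∈ (TS T (bT T) (Y / nm T)).filter (fun S => S.card ≤ k), gM M A A₂ B T S ≤
        ((B + 2) * (1 / 8) ^ B + (B + (k + A.card : ℕ)) * (1 / 8) ^ R) *
          ((TS T (bT T) (Y / nm T)).card : ℝ) +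
          (B + (k + A.card : ℕ)) * ((R + 1) * e) := by
      intro T hT
      rw [Finset.mem_filter] at hT
      have h2 := sum_gtA (𝒮 := (TS T (bT T) (Y / nm T)).filter fun S => Disjoint S M)
        (rr := rM A A₂ T) (GG := fun r S => Gw (T ∪ A₂) r (S ∪ A)) (fun r S hS => rW_of hS) he
        (h T (K.mem_SS.1 hT.1).1.1 (not_le.1 hT.2).le) B (k + A.card)
        (fun S => S.card ≤ k) (fun S _ hS => (rM_le A A₂ T S).trans (by omega))
      have h3 : ∑ S ∈ (TS T (bT T) (Y / nm T)).filter (fun S => S.card ≤ k),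
          gM M A A₂ B T S =
          ∑ S ∈ ((TS T (bT T) (Y / nm T)).filter fun S => Disjoint S M).filter
            (fun S => S.card ≤ k), (if B < rM A A₂ T S then (rM A A₂ T S : ℝ) else 0) := by
        rw [Finset.filter_comm]
        exact (Finset.sum_filter _ _).symm
      rw [h3]
      refine h2.trans (add_le_add ?_ le_rfl)
      refine mul_le_mul_of_nonneg_left ?_ (by positivity)
      exact_mod_cast Finset.card_filter_le _ _
    refine (Finset.sum_le_sum h1).trans ?_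
    rw [Finset.sum_add_distrib, ← Finset.mul_sum, Finset.sum_const, nsmul_eq_mul]
    refine add_le_add ?_ ?_
    · refine mul_le_mul_of_nonneg_left ?_ (by positivity)
      have h2 := sum_TS hC Y 0
      rw [pow_zero, pow_zero, mul_one] at h2
      refine le_trans (Finset.sum_le_sum_of_subset_of_nonneg ?_ fun _ _ _ => Nat.cast_nonneg _) h2
      intro T hT
      rw [Finset.mem_filter] at hT ⊢
      exact ⟨hT.1, nm_pos (K.mem_SS.1 hT.1).1.1⟩
    · refine mul_le_mul_of_nonneg_right ?_ (by positivity)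
      have h3 : ((SS Y).filter (fun T => ¬ 2 ^ R ≤ nm T)).card ≤ (SS (2 ^ R)).card := by
        refine Finset.card_le_card fun T hT => ?_
        rw [Finset.mem_filter] at hT
        exact K.mem_SS.2 ⟨(K.mem_SS.1 hT.1).1, (not_le.1 hT.2).le⟩
      refine le_trans (Nat.cast_le.2 h3) ((hC.all (2 ^ R) Nat.one_le_two_pow).trans ?_)
      push_cast
      exact le_rfl
  · have h1 : ∀ T ∈ (SS Y).filter (fun T => 2 ^ R ≤ nm T),
      ∑ S ∈ (TS T (bT T) (Y / nm T)).filter (fun S => S.card ≤ k), gM M A A₂ B T S ≤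
        (k + A.card : ℕ) * ((TS T (bT T) (Y / nm T)).card : ℝ) := by
      intro T hT
      calc _ ≤ ∑ S ∈ (TS T (bT T) (Y / nm T)).filter (fun S => S.card ≤ k),
            ((k + A.card : ℕ) : ℝ) := by
            refine Finset.sum_le_sum fun S hS => (gM_le M A A₂ B T S).trans ?_
            have := (Finset.mem_filter.1 hS).2
            exact_mod_cast Nat.add_le_add_right this _
        _ = (((TS T (bT T) (Y / nm T)).filter (fun S => S.card ≤ k)).card : ℝ) *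
            ((k + A.card : ℕ) : ℝ) := by
            rw [Finset.sum_const, nsmul_eq_mul]
        _ ≤ _ := by
            rw [mul_comm]
            refine mul_le_mul_of_nonneg_left ?_ (Nat.cast_nonneg _)
            exact_mod_cast Finset.card_filter_le _ _
    refine (Finset.sum_le_sum h1).trans ?_
    rw [← Finset.mul_sum]
    exact mul_le_mul_of_nonneg_left (sum_TS hC Y R) (Nat.cast_nonneg _)

theorem ev_TM (hM : ∀ π ∈ M, Pq π ∧ nrm π % 9 = 1) (hA : A ⊆ M) (hA₂ : A₂ ⊆ A) :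
    ∀ᶠ Y : ℕ in atTop, ∀ T : Finset Ei, (∀ π ∈ T, Pq π) → nm T ≤ 2 ^ Rr Y →
    ∀ r ≤ Rr Y, |((((TS T (bT T) (Y / nm T)).filter fun S => Disjoint S M).filter
        fun S => Gw (T ∪ A₂) r (S ∪ A)).card : ℝ) -
      cr r * (((TS T (bT T) (Y / nm T)).filter fun S => Disjoint S M).card : ℝ)| ≤
      nm A * (Y * Real.exp (-2 * (Rr Y : ℝ))) := by
  obtain ⟨X₀, hX₀⟩ := eventually_atTop.1 (unifM hM hA hA₂)
  filter_upwards [ev_eL (X₀ + 1), ev_eL 2] with Y h1 h2 T hT hN r hr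
  have hp := nm_pos hT
  have h3 := eL_div h2 hp hN
  have hR := Rr_le (show 1 ≤ eL Y by linarith)
  obtain ⟨X, hX⟩ : ∃ X : ℕ, X = Y / nm T := ⟨_, rfl⟩
  rw [← hX] at h3 ⊢
  have h4 : X₀ ≤ X := by
    have g1 : eL X ≤ Real.log X := Real.log_le_self (Real.log_natCast_nonneg X)
    have g2 : Real.log X ≤ X := Real.log_le_self (Nat.cast_nonneg _)
    have : (X₀ : ℝ) ≤ X := by linarith
    exact_mod_cast this
  have hr' : (r : ℝ) ≤ Rr Y := by exact_mod_cast hr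
  have h5 := hX₀ X h4 T (bT T) r ?_ ?_
  · refine h5.trans ?_
    have h6 : (X : ℝ) ≤ Y := by
      rw [hX]
      exact_mod_cast Nat.div_le_self _ _
    have h7 : Real.exp (-(1 / 48) * eL X) ≤ Real.exp (-2 * (Rr Y : ℝ)) :=
      Real.exp_le_exp.2 (by linarith)
    refine mul_le_mul_of_nonneg_left ?_ (Nat.cast_nonneg _)
    exact mul_le_mul h6 h7 (Real.exp_pos _).le (Nat.cast_nonneg _)
  · refine (sup_le_nm hT).trans (hN.trans ?_)
    unfold zz
    refine Nat.le_floor ?_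
    push_cast
    refine (two_pow_le _).trans (Real.exp_le_exp.2 ?_)
    have h6 : 1 ≤ eL X := by linarith
    have h7 : eL X ≤ (eL X) ^ 3 := le_self_pow₀ h6 (by norm_num)
    linarith
  · linarith

theorem fin_numM {C : ℝ} (hC1 : 1 ≤ C) (B a : ℕ) {n : ℝ} (hn : 0 ≤ n) {Y : ℕ}
    (h2 : 2 ≤ eL Y) :
    ((B + 2) * (1 / 8) ^ B + (B + (kk Y + a : ℕ)) * (1 / 8) ^ Rr Y) * (4 * C ^ 2 * Y) +
      C * 2 ^ Rr Y * ((B + (kk Y + a : ℕ)) *
        ((Rr Y + 1) * (n * (Y * Real.exp (-2 * (Rr Y : ℝ)))))) +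
      (kk Y + a : ℕ) * (4 * C ^ 2 * Y * (1 / 2) ^ Rr Y) +
      (1 + a) * (64 * C * Y * (1 + Real.log Y) ^ 2 * ((kk Y + 2) / 2 ^ kk Y)) ≤
    (4 * C ^ 2 * ((B + 2) * (1 / 8) ^ B) +
      (4 * C ^ 2 * (B + (1067 + a)) + C * n * (B + (1067 + a)) + 4 * C ^ 2 * (1067 + a) +
        (1 + a) * (256 * 1069 * C)) *
        (((Rr Y : ℝ) + 1) ^ 2 * (1 / 2) ^ Rr Y)) * Y := by
  have hk := kk_Rr h2
  have e2 := num2 (Rr Y)
  have e3 := num3 h2
  have e8 : (1 / 8 : ℝ) ^ Rr Y ≤ (1 / 2) ^ Rr Y := by gcongr; norm_num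
  have hk0 : (0 : ℝ) ≤ kk Y := Nat.cast_nonneg _
  have hR0 : (0 : ℝ) ≤ Rr Y := Nat.cast_nonneg _
  have hY0 : (0 : ℝ) ≤ Y := Nat.cast_nonneg _
  have hB0 : (0 : ℝ) ≤ B := Nat.cast_nonneg _
  have ha0' : (0 : ℝ) ≤ a := Nat.cast_nonneg _
  have ha0 : (0 : ℝ) ≤ (1 / 2) ^ Rr Y := by positivity
  have h80 : (0 : ℝ) ≤ (1 / 8) ^ Rr Y := by positivity
  push_cast
  obtain ⟨ρ, hρ⟩ : ∃ ρ : ℝ, ρ = Rr Y := ⟨_, rfl⟩
  obtain ⟨κ, hκ⟩ : ∃ κ : ℝ, κ = kk Y := ⟨_, rfl⟩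
  obtain ⟨q, hq⟩ : ∃ q : ℝ, q = (1 / 2) ^ Rr Y := ⟨_, rfl⟩
  obtain ⟨q8, hq8⟩ : ∃ q8 : ℝ, q8 = (1 / 8) ^ Rr Y := ⟨_, rfl⟩
  obtain ⟨t, ht⟩ : ∃ t : ℝ, t = a := ⟨_, rfl⟩
  rw [← hρ, ← hκ] at hk
  rw [← hρ, ← hq] at e2
  rw [← hq] at e3 ha0
  rw [← hq, ← hq8] at e8
  rw [← hρ] at hR0
  rw [← hκ] at hk0
  rw [← hq8] at h80
  rw [← ht] at ha0'
  rw [← hρ, ← hκ, ← hq, ← hq8, ← ht]
  have s0 : (1 : ℝ) ≤ ρ + 1 := by linarith
  have s1 : ρ + 1 ≤ (ρ + 1) ^ 2 := by nlinarith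
  have f0 : κ + t ≤ (1067 + t) * (ρ + 1) := by nlinarith
  have f2 : (B + (κ + t)) ≤ (B + (1067 + t)) * (ρ + 1) := by nlinarith
  have f1 : (B + (κ + t)) ≤ (B + (1067 + t)) * (ρ + 1) ^ 2 := f2.trans (by gcongr)
  have f2' : (B + (κ + t)) * (ρ + 1) ≤ (B + (1067 + t)) * (ρ + 1) ^ 2 := by
    calc (B + (κ + t)) * (ρ + 1) ≤ (B + (1067 + t)) * (ρ + 1) * (ρ + 1) := by gcongr
      _ = _ := by ring
  have f3 : κ + t ≤ (1067 + t) * (ρ + 1) ^ 2 := f0.trans (by gcongr)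
  have f4 : κ + 2 ≤ 1069 * (ρ + 1) ^ 2 := by
    have : κ ≤ 1067 * (ρ + 1) ^ 2 := hk.trans (by gcongr)
    nlinarith
  have t1 : (B + (κ + t)) * q8 * (4 * C ^ 2 * Y) ≤
      (B + (1067 + t)) * (ρ + 1) ^ 2 * q * (4 * C ^ 2 * Y) := by gcongr
  have t2 : C * 2 ^ Rr Y * ((B + (κ + t)) * ((ρ + 1) * (n * (Y * Real.exp (-2 * ρ))))) ≤
      C * n * Y * ((B + (1067 + t)) * (ρ + 1) ^ 2) * q := by
    calc C * 2 ^ Rr Y * ((B + (κ + t)) * ((ρ + 1) * (n * (Y * Real.exp (-2 * ρ))))) =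
          C * n * Y * ((B + (κ + t)) * (ρ + 1)) * (2 ^ Rr Y * Real.exp (-2 * ρ)) := by ring
      _ ≤ _ := by gcongr
  have t3 : (κ + t) * (4 * C ^ 2 * Y * q) ≤
      (1067 + t) * (ρ + 1) ^ 2 * (4 * C ^ 2 * Y * q) := by gcongr
  have t4 : (1 + t) * (64 * C * Y * (1 + Real.log Y) ^ 2 * ((κ + 2) / 2 ^ kk Y)) ≤
      (1 + t) * (64 * C * Y * (1069 * (ρ + 1) ^ 2) * (4 * q)) := by
    refine mul_le_mul_of_nonneg_left ?_ (by positivity)
    calc 64 * C * Y * (1 + Real.log Y) ^ 2 * ((κ + 2) / 2 ^ kk Y) =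
          64 * C * Y * (κ + 2) * ((1 + Real.log Y) ^ 2 * (1 / 2 ^ kk Y)) := by ring
      _ ≤ _ := by gcongr
  calc _ = (B + 2) * (1 / 8) ^ B * (4 * C ^ 2 * Y) + (B + (κ + t)) * q8 * (4 * C ^ 2 * Y) +
        C * 2 ^ Rr Y * ((B + (κ + t)) * ((ρ + 1) * (n * (Y * Real.exp (-2 * ρ))))) +
        (κ + t) * (4 * C ^ 2 * Y * q) +
        (1 + t) * (64 * C * Y * (1 + Real.log Y) ^ 2 * ((κ + 2) / 2 ^ kk Y)) := by ring
    _ ≤ (B + 2) * (1 / 8) ^ B * (4 * C ^ 2 * Y) +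
        (B + (1067 + t)) * (ρ + 1) ^ 2 * q * (4 * C ^ 2 * Y) +
        C * n * Y * ((B + (1067 + t)) * (ρ + 1) ^ 2) * q +
        (1067 + t) * (ρ + 1) ^ 2 * (4 * C ^ 2 * Y * q) +
        (1 + t) * (64 * C * Y * (1069 * (ρ + 1) ^ 2) * (4 * q)) := by linarith
    _ = _ := by ring

/-- **the sum of the large dimensions** -/
theorem sum_gM' (hM : ∀ π ∈ M, Pq π ∧ nrm π % 9 = 1) (hA : A ⊆ M) (hA₂ : A₂ ⊆ A) :
    ∃ a₀ : ℝ, 0 < a₀ ∧ ∀ (B : ℕ) (ε : ℝ), 0 < ε → ∀ᶠ Y : ℕ in atTop,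
    ∑ p ∈ PP Y, gM M A A₂ B p.1 p.2 ≤ (a₀ * ((B + 2) * (1 / 8) ^ B) + ε) * Y := by
  obtain ⟨C, hC⟩ := N.t_CNT
  have hC1 := hC.one
  refine ⟨4 * C ^ 2, by positivity, fun B ε hε => ?_⟩
  have h1 := (pow_lim.comp Rr_tendsto).const_mul
    (4 * C ^ 2 * (B + (1067 + (A.card : ℝ))) + C * (nm A : ℝ) * (B + (1067 + (A.card : ℝ))) +
      4 * C ^ 2 * (1067 + (A.card : ℝ)) + (1 + (A.card : ℝ)) * (256 * 1069 * C))
  rw [mul_zero] at h1
  filter_upwards [h1.eventually (gt_mem_nhds hε), ev_TM hM hA hA₂, ev_eL 2] with Y h2 h3 h4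
  have hY : 1 ≤ Y := X_pos (by linarith)
  have h5 := sum_gM hC B (kk Y) (Rr Y) hY (e := nm A * (Y * Real.exp (-2 * (Rr Y : ℝ))))
    (by positivity) h3
  refine h5.trans ((fin_numM hC1 B A.card (n := nm A) (Nat.cast_nonneg _) h4).trans ?_)
  refine mul_le_mul_of_nonneg_right ?_ (Nat.cast_nonneg _)
  have h6 : (4 * C ^ 2 * (B + (1067 + (A.card : ℝ))) +
      C * (nm A : ℝ) * (B + (1067 + (A.card : ℝ))) +
      4 * C ^ 2 * (1067 + (A.card : ℝ)) + (1 + (A.card : ℝ)) * (256 * 1069 * C)) *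
        (((Rr Y : ℝ) + 1) ^ 2 * (1 / 2) ^ Rr Y) < ε := h2
  linarith

end mask

end Pool.Agent.X253.CF
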